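import Pool.Agent.Run7.h2.Struct

/-!
Characters of semisimple Hopf algebras.
-/

namespace Run7.h2

open Coalgebra HopfAlgebra TensorProduct WithConv Module

universe u v w x

variable {k : Type u} [Field k] [IsAlgClosed k] [CharZero k] {H : Type v} [Ring H] [HopfAlgebra k H]
  [FiniteDimensional k H] {I : Type} [Fintype I] [DecidableEq I] {d : I → ℕ} (e : H ≃ₐ[k] Bl k d)
  [∀ i, NeZero (d i)]

omit [IsAlgClosed k] [FiniteDimensional k H] in
/-- the trivial block and the integral -/
lemma exists_triv : ∃ i : I, d i = 1 ∧ (∀ h, ch e i h = counit (R := k) h) ∧ IsInt k (En e i) := by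
  have h1 : ∃ i, counit (R := k) (En e i) ≠ 0 := by
    by_contra hcon
    push Not at hcon
    have h2 := trace_functional e (counit (R := k) (A := H)) (by
      intro a b; rw [Bialgebra.counit_mul, Bialgebra.counit_mul, mul_comm])
    simp only [hcon, zero_smul, Finset.sum_const_zero] at h2
    have h3 := congrArg (fun f => f (1 : H)) h2
    simp at h3
  obtain ⟨i, hi⟩ := h1
  have hid : counit (R := k) (En e i) = 1 := by
    have h2 := congrArg (counit (R := k)) (En_idem e i)
    rw [Bialgebra.counit_mul] at h2
    exact mul_left_cancel₀ hi (by rw [h2, mul_one])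
  -- all the other indices vanish
  have hz : ∀ p : Fin (d i), p = 0 := by
    intro p
    by_contra hp
    have h2 : mu e i 0 0 = mu e i 0 p * mu e i p 0 := (mu_mul e i 0 p 0).symm
    have h3 : mu e i 0 p * mu e i 0 p = 0 := mu_mul_zero e i hp
    have h4 := congrArg (counit (R := k)) h3
    rw [Bialgebra.counit_mul, map_zero, mul_self_eq_zero] at h4
    have h5 := congrArg (counit (R := k)) h2
    rw [Bialgebra.counit_mul, h4, zero_mul] at h5
    exact hi h5
  have hd : d i = 1 := by
    have h0 : 0 < d i := Nat.pos_of_ne_zero (NeZero.ne _)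
    by_contra hne
    have h2 := hz ⟨1, by omega⟩
    have h3 := congrArg Fin.val h2
    have h4 : ((0 : Fin (d i)) : ℕ) = 0 := by
      rw [Fin.val_zero]
    rw [h4] at h3
    exact one_ne_zero h3
  have hone : (1 : Matrix (Fin (d i)) (Fin (d i)) k) = Matrix.single 0 0 1 := by
    ext p q
    rw [hz p, hz q]
    simp
  have hmul : ∀ h, h * En e i = ch e i h • En e i := by
    intro h
    rw [En, mul_mu, Finset.sum_eq_single 0]
    · congr 1
      rw [ch_apply, Matrix.trace, Finset.sum_eq_single 0]
      · rfl
      · intro p _ hp; exact absurd (hz p) hp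
      · simp
    · intro p _ hp; exact absurd (hz p) hp
    · simp
  have hcent : ∀ h, h * En e i = En e i * h := by
    intro h
    apply ext_rho e
    intro l
    rw [map_mul, map_mul]
    by_cases hl : l = i
    · subst hl
      rw [En, rho_mu, ← hone, mul_one, one_mul]
    · rw [En, rho_mu_ne e hl, mul_zero, zero_mul]
  have hch : ∀ h, ch e i h = counit (R := k) h := by
    intro h
    have h2 := congrArg (counit (R := k)) (hmul h)
    rw [Bialgebra.counit_mul, map_smul, hid, mul_one, smul_eq_mul, mul_one] at h2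
    exact h2.symm
  refine ⟨i, hd, hch, ?_, ?_, hid⟩
  · intro h; rw [hmul, hch]
  · intro h; rw [← hcent, hmul, hch]

/-- the irreducible representation as endomorphisms -/
noncomputable def rep (i : I) : H →ₐ[k] End k (Fin (d i) → k) :=
  (Matrix.toLinAlgEquiv' (R := k) (n := Fin (d i))).toAlgHom.comp (rho e i)

omit [IsAlgClosed k] [CharZero k] [FiniteDimensional k H] [Fintype I] [DecidableEq I]
  [∀ i, NeZero (d i)] in
lemma chi_rep (i : I) : chi (rep e i) = ch e i := by
  ext h
  change LinearMap.trace k _ (Matrix.toLin' (rho e i h)) = (rho e i h).trace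
  rw [Matrix.trace_toLin'_eq]

/-- irreducible characters in the convolution algebra -/
noncomputable def X (i : I) : WithConv (H →ₗ[k] k) := toConv (ch e i)

/-- characters -/
def IsChar (f : WithConv (H →ₗ[k] k)) : Prop := ∃ m : I → ℕ, f = ∑ i, m i • X e i

omit [IsAlgClosed k] [CharZero k] [FiniteDimensional k H] in
lemma isChar_of (t : WithConv (H →ₗ[k] k)) (ht : ∀ a b, t (a * b) = t (b * a))
    (hn : ∀ i, ∃ n : ℕ, t (En e i) = n) : IsChar e t := by
  choose m hm using hn
  refine ⟨m, ?_⟩
  have h1 := trace_functional e t.ofConv ht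
  apply WithConv.ext
  rw [h1]
  have h2 : (∑ i, m i • X e i).ofConv = ∑ i, (m i • ch e i) := by
    have : ∀ s : Finset I, (∑ i ∈ s, m i • X e i).ofConv = ∑ i ∈ s, (m i • ch e i) := by
      intro s
      induction s using Finset.induction_on with
      | empty => simp
      | insert a s ha ih => rw [Finset.sum_insert ha, Finset.sum_insert ha, ofConv_add, ih]; rfl
    exact this _
  rw [h2]
  apply Finset.sum_congr rfl
  intro i _
  have : t.ofConv (En e i) = m i := hm i
  rw [this]
  ext h; simp

omit [IsAlgClosed k] [CharZero k] [FiniteDimensional k H] [Fintype I] [DecidableEq I]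
  [∀ i, NeZero (d i)] in
lemma chi_trace {V : Type w} [AddCommGroup V] [Module k V] (r : H →ₐ[k] End k V) (a b : H) :
    chi r (a * b) = chi r (b * a) := by
  simp only [chi, LinearMap.comp_apply, AlgHom.toLinearMap_apply, map_mul]
  exact LinearMap.trace_mul_comm _ _ _

omit [IsAlgClosed k] [FiniteDimensional k H] in
lemma isChar_chi {V : Type w} [AddCommGroup V] [Module k V] [FiniteDimensional k V]
    (r : H →ₐ[k] End k V) : IsChar e (toConv (chi r)) := by
  apply isChar_of
  · exact chi_trace r
  · intro i
    apply trace_idem_nat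
    change r (En e i) * r (En e i) = r (En e i)
    rw [← map_mul, En_idem]

omit [IsAlgClosed k] [FiniteDimensional k H] in
lemma isChar_X_mul (i j : I) : IsChar e (X e i * X e j) := by
  have h := isChar_chi e (tens (rep e i) (rep e j))
  rw [chi_tens, chi_rep, chi_rep] at h
  exact h

omit [IsAlgClosed k] [CharZero k] [FiniteDimensional k H] [DecidableEq I] [∀ i, NeZero (d i)] in
lemma IsChar.zero : IsChar e (0 : WithConv (H →ₗ[k] k)) := ⟨fun _ => 0, by simp⟩

omit [IsAlgClosed k] [CharZero k] [FiniteDimensional k H] [DecidableEq I] [∀ i, NeZero (d i)] in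
lemma IsChar.add {f g : WithConv (H →ₗ[k] k)} (hf : IsChar e f) (hg : IsChar e g) :
    IsChar e (f + g) := by
  obtain ⟨m, rfl⟩ := hf
  obtain ⟨n, rfl⟩ := hg
  exact ⟨fun i => m i + n i, by simp [add_smul, Finset.sum_add_distrib]⟩

omit [IsAlgClosed k] [CharZero k] [FiniteDimensional k H] [DecidableEq I] [∀ i, NeZero (d i)] in
lemma IsChar.nsmul {f : WithConv (H →ₗ[k] k)} (hf : IsChar e f) (n : ℕ) : IsChar e (n • f) := by
  obtain ⟨m, rfl⟩ := hf
  exact ⟨fun i => n * m i, by simp [Finset.smul_sum, mul_smul]⟩

omit [IsAlgClosed k] [CharZero k] [FiniteDimensional k H] [DecidableEq I] [∀ i, NeZero (d i)] in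
lemma IsChar.sum {J : Type*} (s : Finset J) {f : J → WithConv (H →ₗ[k] k)}
    (hf : ∀ j ∈ s, IsChar e (f j)) : IsChar e (∑ j ∈ s, f j) := by
  classical
  induction s using Finset.induction_on with
  | empty => simpa using IsChar.zero e
  | insert a s ha ih =>
    rw [Finset.sum_insert ha]
    exact (hf a (Finset.mem_insert_self a s)).add e (ih fun j hj => hf j (Finset.mem_insert_of_mem hj))

omit [IsAlgClosed k] [FiniteDimensional k H] in
lemma IsChar.mul {f g : WithConv (H →ₗ[k] k)} (hf : IsChar e f) (hg : IsChar e g) :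
    IsChar e (f * g) := by
  obtain ⟨m, rfl⟩ := hf
  obtain ⟨n, rfl⟩ := hg
  rw [Finset.sum_mul_sum]
  apply IsChar.sum
  intro i _
  apply IsChar.sum
  intro j _
  rw [smul_mul_smul_comm]
  exact (isChar_X_mul e i j).nsmul e _

omit [IsAlgClosed k] [CharZero k] [FiniteDimensional k H] [∀ i, NeZero (d i)] in
lemma isChar_X (i : I) : IsChar e (X e i) := ⟨Pi.single i 1, by
  rw [Finset.sum_eq_single i]
  · simp
  · intro j _ hj; simp [Pi.single_eq_of_ne hj]
  · simp⟩

omit [IsAlgClosed k] [FiniteDimensional k H] in
lemma isChar_one : IsChar e (1 : WithConv (H →ₗ[k] k)) := by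
  obtain ⟨i, _, hi, _⟩ := exists_triv e
  have : (1 : WithConv (H →ₗ[k] k)) = X e i := by
    apply WithConv.ext
    ext h
    exact (hi h).symm
  rw [this]
  exact isChar_X e i

/-- the semiring of characters -/
def charSR : Subsemiring (WithConv (H →ₗ[k] k)) where
  carrier := {f | IsChar e f}
  mul_mem' hf hg := hf.mul e hg
  one_mem' := isChar_one e
  add_mem' hf hg := hf.add e hg
  zero_mem' := IsChar.zero e

/-- composition with the antipode -/
noncomputable def st (f : WithConv (H →ₗ[k] k)) : WithConv (H →ₗ[k] k) :=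
  toConv (f.ofConv ∘ₗ antipode k)

omit [IsAlgClosed k] [CharZero k] [FiniteDimensional k H] in
lemma st_mul (f g : WithConv (H →ₗ[k] k)) : st (f * g) = st g * st f := conv_comp_S f.ofConv g.ofConv

omit [IsAlgClosed k] [CharZero k] [FiniteDimensional k H] in
lemma st_add (f g : WithConv (H →ₗ[k] k)) : st (f + g) = st f + st g := rfl

omit [IsAlgClosed k] [FiniteDimensional k H] in
lemma isChar_st_X (i : I) : IsChar e (st (X e i)) := by
  apply isChar_of
  · intro a b
    change ch e i (antipode k (a * b)) = ch e i (antipode k (b * a))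
    rw [antipode_mul_antidistrib, antipode_mul_antidistrib, ch_apply, ch_apply, map_mul, map_mul,
      Matrix.trace_mul_comm]
  · intro j
    change ∃ n : ℕ, (rho e i (antipode k (En e j))).trace = n
    apply matrix_trace_idem_nat
    rw [← map_mul, ← antipode_mul_antidistrib, En_idem]

omit [IsAlgClosed k] [FiniteDimensional k H] in
lemma IsChar.st {f : WithConv (H →ₗ[k] k)} (hf : IsChar e f) : IsChar e (st f) := by
  obtain ⟨m, rfl⟩ := hf
  have h1 : ∀ s : Finset I, Run7.h2.st (∑ i ∈ s, m i • X e i) = ∑ i ∈ s, m i • Run7.h2.st (X e i) := by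
    intro s
    induction s using Finset.induction_on with
    | empty => apply WithConv.ext; ext; rfl
    | insert a s ha ih => rw [Finset.sum_insert ha, Finset.sum_insert ha, st_add, ih]; rfl
  rw [h1]
  apply IsChar.sum
  intro i _
  exact (isChar_st_X e i).nsmul e _

end Run7.h2
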