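import Pool.Agent.Run7.h2.Char

/-!
Orthogonality relations and congruences for characters.
-/

namespace Run7.h2

open Coalgebra HopfAlgebra TensorProduct WithConv Module

universe u v w x

variable {k : Type u} [Field k] [IsAlgClosed k] [CharZero k] {H : Type v} [Ring H] [HopfAlgebra k H]
  [FiniteDimensional k H] {I : Type} [Fintype I] [DecidableEq I] {d : I → ℕ} (e : H ≃ₐ[k] Bl k d)
  [∀ i, NeZero (d i)] {L : H} (hL : IsInt k L)

include hL e in
theorem IsInt.S2_id (x : H) : S2 k H x = x := hL.S2_eq_id_of (hL.coint_one_ne_zero e) x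

include hL e in
theorem IsInt.SS (x : H) : antipode k (antipode k x) = x := hL.S2_id e x

include hL e in
theorem IsInt.trace_la (f : H →ₗ[k] k) : LinearMap.trace k H (la f) = finrank k H * f L := by
  have h1 := hL.trace_S2_la f
  have h2 := hL.trace_S2
  have h3 : S2 k H = LinearMap.id := by
    ext x; exact hL.S2_id e x
  rw [h3, LinearMap.trace_id] at h2
  rw [h3, LinearMap.id_comp, ← h2] at h1
  exact h1

omit [FiniteDimensional k H] [IsAlgClosed k] [CharZero k] in
lemma la_mul' (f g : WithConv (H →ₗ[k] k)) :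
    (la (f * g).ofConv : End k H) = (la f.ofConv) * (la g.ofConv) := by
  ext x; rw [la_mul]; rfl

omit [IsAlgClosed k] [FiniteDimensional k H] in
lemma nontrivial_of_int (hL : IsInt k L) : Nontrivial H := by
  refine ⟨⟨L, 0, ?_⟩⟩
  rintro rfl
  have := hL.one
  rw [map_zero] at this
  exact zero_ne_one this

include hL in
omit [IsAlgClosed k] in
lemma IsInt.n_ne : (finrank k H : k) ≠ 0 := by
  have := nontrivial_of_int hL
  have : finrank k H ≠ 0 := (Module.finrank_pos (R := k) (M := H)).ne'
  exact_mod_cast this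

include hL e in
theorem IsInt.t_comm (f g : WithConv (H →ₗ[k] k)) : (f * g) L = (g * f) L := by
  have h1 := hL.trace_la e (f * g).ofConv
  have h2 := hL.trace_la e (g * f).ofConv
  rw [la_mul', LinearMap.trace_mul_comm, ← la_mul', h2] at h1
  exact (mul_left_cancel₀ hL.n_ne h1).symm

include hL e in
theorem IsInt.S_L : antipode k L = L := by
  have h1 : L * antipode k L = antipode k L := by
    calc L * antipode k L = antipode k (antipode k L) * antipode k L := by rw [hL.SS e]
      _ = antipode k (L * antipode k L) := by rw [antipode_mul_antidistrib]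
      _ = antipode k (counit (R := k) (antipode k L) • L) := by rw [hL.right]
      _ = antipode k L := by rw [counit_antipode, hL.one, one_smul]
  have h2 : L * antipode k L = L := by
    rw [hL.right, counit_antipode, hL.one, one_smul]
  rw [← h1, h2]

omit [FiniteDimensional k H] [IsAlgClosed k] [CharZero k] in
lemma st_apply (f : WithConv (H →ₗ[k] k)) (x : H) : st f x = f (antipode k x) := rfl

include hL e in
theorem IsInt.st_st (f : WithConv (H →ₗ[k] k)) : st (st f) = f := by
  apply WithConv.ext
  ext x
  change f (antipode k (antipode k x)) = f x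
  rw [hL.SS e]

include hL e in
theorem IsInt.st_L (f : WithConv (H →ₗ[k] k)) : st f L = f L := by
  rw [st_apply, hL.S_L e]

include hL e in
lemma IsInt.I1' {M : Type w} [AddCommGroup M] [Module k M] (F : H ⊗[k] H →ₗ[k] M) (h : H) :
    ∑ i ∈ (ℛ k L).index, F ((h * (ℛ k L).left i) ⊗ₜ (antipode k ((ℛ k L).right i))) =
    ∑ i ∈ (ℛ k L).index, F ((ℛ k L).left i ⊗ₜ (antipode k ((ℛ k L).right i) * h)) := by
  have h1 := hL.I3' (F ∘ₗ TensorProduct.map LinearMap.id (antipode k)) (antipode k h)
  simp only [LinearMap.comp_apply, TensorProduct.map_tmul, LinearMap.id_apply,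
    antipode_mul_antidistrib, hL.SS e] at h1
  exact h1.symm

omit [IsAlgClosed k] [CharZero k] [FiniteDimensional k H] [∀ i, NeZero (d i)] [Fintype I] in
lemma rho_scalar_of_comm (i : I) (M : Matrix (Fin (d i)) (Fin (d i)) k)
    (hM : ∀ h, rho e i h * M = M * rho e i h) : ∃ s : k, M = s • 1 := by
  have h1 : M ∈ Set.range (Matrix.scalar (Fin (d i))) := by
    apply Matrix.mem_range_scalar_of_commute_single
    intro p q _
    have h2 := hM (mu e i p q)
    rw [rho_mu] at h2
    exact h2
  obtain ⟨s, hs⟩ := h1
  refine ⟨s, ?_⟩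
  rw [← hs, Matrix.scalar_apply, Matrix.smul_one_eq_diagonal]

/-- the averaging operator on matrices -/
noncomputable def avg (L : H) (i j : I) : Matrix (Fin (d i)) (Fin (d j)) k →
    Matrix (Fin (d i)) (Fin (d j)) k := fun T =>
  ∑ l ∈ (ℛ k L).index, rho e i ((ℛ k L).left l) * T * rho e j (antipode k ((ℛ k L).right l))

include hL in
lemma IsInt.avg_comm (i j : I) (T : Matrix (Fin (d i)) (Fin (d j)) k) (h : H) :
    rho e i h * avg e L i j T = avg e L i j T * rho e j h := by
  have h1 := hL.I1' e (TensorProduct.lift (LinearMap.mk₂ k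
    (fun x y => rho e i x * T * rho e j y)
    (by intro a b c; simp [Matrix.add_mul]) (by intro a b c; simp)
    (by intro a b c; simp [Matrix.mul_add]) (by intro a b c; simp))) h
  simp only [TensorProduct.lift.tmul, LinearMap.mk₂_apply, map_mul] at h1
  simp only [avg, Matrix.mul_sum, Matrix.sum_mul]
  simp only [Matrix.mul_assoc] at h1 ⊢
  exact h1

omit [IsAlgClosed k] [CharZero k] [FiniteDimensional k H] [∀ i, NeZero (d i)] [Fintype I]
  [DecidableEq I] in
lemma avg_entry (i j : I) :
    (X e i * st (X e j)) L = ∑ p, ∑ q, avg e L i j (Matrix.single p q 1) p q := by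
  have h1 : (X e i * st (X e j)) L = ∑ l ∈ (ℛ k L).index, (rho e i ((ℛ k L).left l)).trace *
      (rho e j (antipode k ((ℛ k L).right l))).trace := (ℛ k L).convMul_apply _ _
  rw [h1]
  have h2 : ∀ p q, avg e L i j (Matrix.single p q 1) p q = ∑ l ∈ (ℛ k L).index,
      (rho e i ((ℛ k L).left l)) p p * (rho e j (antipode k ((ℛ k L).right l))) q q := by
    intro p q
    simp only [avg, Matrix.sum_apply]
    apply Finset.sum_congr rfl
    intro l _
    simp [Matrix.mul_apply, Matrix.single_apply, ite_and]
  simp only [h2]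
  have h3 : ∀ p, (∑ q, ∑ l ∈ (ℛ k L).index, (rho e i ((ℛ k L).left l)) p p *
      (rho e j (antipode k ((ℛ k L).right l))) q q) = ∑ l ∈ (ℛ k L).index, ∑ q,
      (rho e i ((ℛ k L).left l)) p p * (rho e j (antipode k ((ℛ k L).right l))) q q := by
    intro p; rw [Finset.sum_comm]
  simp only [h3]
  rw [Finset.sum_comm]
  apply Finset.sum_congr rfl
  intro l _
  rw [Matrix.trace, Matrix.trace, Finset.sum_mul_sum]
  rfl

include hL in
theorem IsInt.orth_ne {i j : I} (hij : i ≠ j) : (X e i * st (X e j)) L = 0 := by
  rw [avg_entry]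
  have h1 : ∀ T, avg e L i j T = 0 := by
    intro T
    have h2 := hL.avg_comm e i j T (e.symm (Pi.single i 1))
    have h3 : rho e i (e.symm (Pi.single i 1)) = 1 := by simp [rho_apply]
    have h4 : rho e j (e.symm (Pi.single i 1)) = 0 := by
      simp [rho_apply, Pi.single_eq_of_ne (Ne.symm hij)]
    rw [h3, h4, Matrix.one_mul, Matrix.mul_zero] at h2
    exact h2
  simp [h1]

include hL in
theorem IsInt.orth_self (i : I) : (X e i * st (X e i)) L = 1 := by
  rw [avg_entry]
  have hd : (d i : k) ≠ 0 := by exact_mod_cast NeZero.ne (d i)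
  have htr : ∀ T, (avg e L i i T).trace = T.trace := by
    intro T
    simp only [avg, Matrix.trace_sum]
    have h1 : ∀ l, (rho e i ((ℛ k L).left l) * T * rho e i (antipode k ((ℛ k L).right l))).trace =
        (T * rho e i (antipode k ((ℛ k L).right l) * (ℛ k L).left l)).trace := by
      intro l
      rw [map_mul, Matrix.mul_assoc, Matrix.trace_mul_comm, Matrix.mul_assoc]
    simp only [h1]
    rw [← Matrix.trace_sum, ← Finset.mul_sum, ← map_sum]
    have h2 : ∑ l ∈ (ℛ k L).index, antipode k ((ℛ k L).right l) * (ℛ k L).left l = 1 := by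
      have h3 := sum_antipode_mul_eq_algebraMap_counit (ℛ k L)
      rw [hL.one, map_one] at h3
      have h4 := congrArg (antipode k) h3
      simpa only [map_sum, antipode_mul_antidistrib, hL.SS e, antipode_one] using h4
    rw [h2, map_one, mul_one]
  have hsc : ∀ T, avg e L i i T = (T.trace / d i) • 1 := by
    intro T
    obtain ⟨s, hs⟩ := rho_scalar_of_comm e i (avg e L i i T) (hL.avg_comm e i i T)
    have h1 := htr T
    rw [hs, Matrix.trace_smul, Matrix.trace_one, Fintype.card_fin, smul_eq_mul] at h1
    rw [hs, ← h1]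
    congr 1
    field_simp
  simp only [hsc]
  have h2 : ∀ p q : Fin (d i), (((Matrix.single p q (1 : k)).trace / d i) •
      (1 : Matrix (Fin (d i)) (Fin (d i)) k)) p q = if p = q then (d i : k)⁻¹ else 0 := by
    intro p q
    split_ifs with h
    · subst h; simp
    · simp [h]
  simp only [h2]
  simp [hd]

end Run7.h2
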