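import Pool.Agent.Run7.h2.Integral

/-!
Cointegrals, the fourth power of the antipode and trace formulas.
-/

namespace Run7.h2

open Coalgebra HopfAlgebra TensorProduct WithConv

universe u v w

variable {k : Type u} [Field k] {H : Type v} [Ring H] [HopfAlgebra k H]

/-- `x ↦ x₁ f(x₂)` -/
noncomputable def la (f : H →ₗ[k] k) : H →ₗ[k] H := ctrR f ∘ₗ comul
/-- `x ↦ f(x₁) x₂` -/
noncomputable def ra (f : H →ₗ[k] k) : H →ₗ[k] H := ctrL f ∘ₗ comul

lemma la_apply (f : H →ₗ[k] k) (x : H) :
    la f x = ∑ i ∈ (ℛ k x).index, f ((ℛ k x).right i) • (ℛ k x).left i := by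
  unfold la
  rw [LinearMap.comp_apply]
  conv_lhs => rw [← (ℛ k x).eq]
  simp

lemma ra_apply (f : H →ₗ[k] k) (x : H) :
    ra f x = ∑ i ∈ (ℛ k x).index, f ((ℛ k x).left i) • (ℛ k x).right i := by
  unfold ra
  rw [LinearMap.comp_apply]
  conv_lhs => rw [← (ℛ k x).eq]
  simp

lemma legL_eq_la (L : H) (f : H →ₗ[k] k) : legL L f = la f L := by rw [legL_eq]; rfl
lemma legR_eq_ra (L : H) (f : H →ₗ[k] k) : legR L f = ra f L := by rw [legR_eq]; rfl

lemma apply_la (p f : H →ₗ[k] k) (x : H) : p (la f x) = (toConv p * toConv f) x := by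
  rw [cv_apply, la_apply, map_sum]
  apply Finset.sum_congr rfl
  intro i _
  rw [map_smul, smul_eq_mul, mul_comm]

lemma apply_ra (p f : H →ₗ[k] k) (x : H) : p (ra f x) = (toConv f * toConv p) x := by
  rw [cv_apply, ra_apply, map_sum]
  apply Finset.sum_congr rfl
  intro i _
  rw [map_smul, smul_eq_mul]

lemma sep {x y : H} (h : ∀ p : H →ₗ[k] k, p x = p y) : x = y := by
  rw [← sub_eq_zero]
  apply (Module.forall_dual_apply_eq_zero_iff k (x - y)).1
  intro p
  rw [map_sub, h p, sub_self]

lemma la_mul (f g : WithConv (H →ₗ[k] k)) (x : H) :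
    la (f * g).ofConv x = la f.ofConv (la g.ofConv x) := by
  apply sep (k := k)
  intro p
  rw [apply_la, apply_la, toConv_ofConv]
  have : (toConv p * toConv f.ofConv) = toConv (toConv p * f).ofConv := rfl
  rw [this, apply_la, toConv_ofConv, toConv_ofConv, mul_assoc]

lemma ra_mul (f g : WithConv (H →ₗ[k] k)) (x : H) :
    ra (f * g).ofConv x = ra g.ofConv (ra f.ofConv x) := by
  apply sep (k := k)
  intro p
  rw [apply_ra, apply_ra, toConv_ofConv]
  have : (toConv g.ofConv * toConv p) = toConv (g * toConv p).ofConv := rfl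
  rw [this, apply_ra, toConv_ofConv, toConv_ofConv, mul_assoc]

lemma la_one_elt (f : H →ₗ[k] k) : la f (1 : H) = f 1 • (1 : H) := by
  unfold la; simp [Algebra.TensorProduct.one_def]

lemma ra_one_elt (f : H →ₗ[k] k) : ra f (1 : H) = f 1 • (1 : H) := by
  unfold ra; simp [Algebra.TensorProduct.one_def]

lemma la_counit (x : H) : la (counit (R := k)) x = x := by
  rw [la_apply]; exact sum_smul_counit _

lemma ra_counit (x : H) : ra (counit (R := k)) x = x := by
  rw [ra_apply]; exact sum_counit_smul _

lemma one_eq_counit : (1 : WithConv (H →ₗ[k] k)) = toConv (counit (R := k)) := by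
  ext x; rfl

/-- anti-comultiplicativity of the antipode -/
lemma conv_comul_S : toConv ((comul (R := k) (A := H)) ∘ₗ antipode k) =
    toConv ((iR (k := k) (H := H)).toLinearMap ∘ₗ antipode k) *
      toConv ((iL (k := k) (H := H)).toLinearMap ∘ₗ antipode k) := by
  symm
  apply left_inv_eq_right_inv (a := toConv (comul (R := k) (A := H)))
  · rw [conv_comul]
    calc _ = toConv ((iR (k := k) (H := H)).toLinearMap ∘ₗ antipode k) *
      (toConv ((iL (k := k) (H := H)).toLinearMap ∘ₗ antipode k) *
        toConv (iL (k := k) (H := H)).toLinearMap) * toConv (iR (k := k) (H := H)).toLinearMap := by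
          simp only [mul_assoc]
      _ = 1 := by rw [conv_S_mul, mul_one, conv_S_mul]
  · exact LinearMap.comul_right_inv

lemma conv_comp_S (f g : H →ₗ[k] k) : toConv ((toConv f * toConv g).ofConv ∘ₗ antipode k) =
    toConv (g ∘ₗ antipode k) * toConv (f ∘ₗ antipode k) := by
  ext x
  have h1 := congrArg (fun F => F.ofConv x) (conv_comul_S (k := k) (H := H))
  have h2 : comul (R := k) (antipode k x) =
    ∑ i ∈ (ℛ k x).index, (antipode k ((ℛ k x).right i)) ⊗ₜ[k] (antipode k ((ℛ k x).left i)) := by
    refine h1.trans ?_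
    change (toConv ((iR (k := k) (H := H)).toLinearMap ∘ₗ antipode k) *
      toConv ((iL (k := k) (H := H)).toLinearMap ∘ₗ antipode k)) x = _
    rw [cv_apply]
    apply Finset.sum_congr rfl
    intro i _
    simp
  change LinearMap.mul' k k (TensorProduct.map f g (comul (antipode k x))) =
    (toConv (g ∘ₗ antipode k) * toConv (f ∘ₗ antipode k)) x
  rw [h2, cv_apply]
  simp only [map_sum, TensorProduct.map_tmul, LinearMap.mul'_apply, LinearMap.comp_apply]
  apply Finset.sum_congr rfl
  intro i _
  ring

/-- the square of the antipode -/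
noncomputable abbrev S2 (k : Type u) [Field k] (H : Type v) [Ring H] [HopfAlgebra k H] :
    H →ₗ[k] H := antipode k ∘ₗ antipode k

lemma S2_mul (x y : H) : S2 k H (x * y) = S2 k H x * S2 k H y := by
  simp [S2, antipode_mul_antidistrib]

lemma conv_comp_S2 (f g : H →ₗ[k] k) : toConv ((toConv f * toConv g).ofConv ∘ₗ S2 k H) =
    toConv (f ∘ₗ S2 k H) * toConv (g ∘ₗ S2 k H) := by
  have h1 := conv_comp_S f g
  have h2 := conv_comp_S (g ∘ₗ antipode k) (f ∘ₗ antipode k)
  rw [← h1] at h2
  exact h2

lemma la_S2 (f : H →ₗ[k] k) (x : H) : la f (S2 k H x) = S2 k H (la (f ∘ₗ S2 k H) x) := by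
  apply sep (k := k)
  intro p
  rw [apply_la]
  have : p (S2 k H (la (f ∘ₗ S2 k H) x)) = (p ∘ₗ S2 k H) (la (f ∘ₗ S2 k H) x) := rfl
  rw [this, apply_la, ← conv_comp_S2]
  rfl

lemma conv_S_la (f : H →ₗ[k] k) : toConv (antipode k ∘ₗ la f) =
    toConv (antipode k) * toConv (Algebra.linearMap k H ∘ₗ f) := by
  ext x
  change antipode k (la f x) =
    (toConv (antipode k (A := H)) * toConv (Algebra.linearMap k H ∘ₗ f)) x
  rw [cv_apply, la_apply, map_sum]
  apply Finset.sum_congr rfl
  intro i _
  rw [map_smul, LinearMap.comp_apply, Algebra.linearMap_apply, ← Algebra.commutes, ← Algebra.smul_def]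

lemma sum_mul_S_la (f : H →ₗ[k] k) (x : H) :
    ∑ i ∈ (ℛ k x).index, (ℛ k x).left i * antipode k (la f ((ℛ k x).right i)) = f x • (1 : H) := by
  have h1 : toConv (LinearMap.id (R := k) (M := H)) * toConv (antipode k ∘ₗ la f) =
      toConv (Algebra.linearMap k H ∘ₗ f) := by
    rw [conv_S_la, ← mul_assoc, LinearMap.id_mul_antipode, one_mul]
  have h2 := congrArg (fun F => F x) h1
  simp only [cv_apply] at h2
  rw [Algebra.smul_def, mul_one]
  exact h2

section coint

variable {L : H} (hL : IsInt k L) [FiniteDimensional k H]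

/-- a cointegral: `λ(L₁) L₂ = 1` -/
noncomputable def coint (L : H) : H →ₗ[k] k := Classical.epsilon (fun f : H →ₗ[k] k => legR L f = 1)

include hL in
lemma IsInt.legR_coint : legR L (coint (k := k) L) = 1 :=
  Classical.epsilon_spec (p := fun f : H →ₗ[k] k => legR L f = 1) (hL.legR_surj 1)

include hL in
lemma IsInt.coint_L : coint (k := k) L L = 1 := by
  have h := congrArg (counit (R := k)) hL.legR_coint
  rw [legR_eq_ra, apply_ra, ← one_eq_counit, mul_one] at h
  simpa using h

include hL in
lemma IsInt.S_inj : Function.Injective (antipode k (A := H)) := by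
  rw [← LinearMap.ker_eq_bot, LinearMap.ker_eq_bot']
  intro x hx
  have h := hL.legR_mulLeft (coint (k := k) L) x
  rw [hx, hL.legR_coint, mul_one] at h
  rw [← h]
  have : (coint (k := k) L ∘ₗ LinearMap.mulLeft k (0 : H)) = 0 := by ext; simp
  rw [this, map_zero]

include hL in
lemma IsInt.coint_comm (x h : H) :
    coint (k := k) L (x * h) = coint (k := k) L (S2 k H h * x) := by
  have h1 := hL.legR_mulRight (coint (k := k) L) h
  have h2 := hL.legR_mulLeft (coint (k := k) L) (antipode k h)
  rw [hL.legR_coint, mul_one] at h2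
  rw [hL.legR_coint, one_mul, ← h2] at h1
  have h3 := hL.legR_inj h1
  exact congrArg (fun F => F x) h3

include hL in
/-- uniqueness of cointegrals -/
lemma IsInt.coint_unique (n : WithConv (H →ₗ[k] k))
    (hn : ∀ f : WithConv (H →ₗ[k] k), n * f = f 1 • n) : n = n L • toConv (coint (k := k) L) := by
  have h1 : legR L n.ofConv = n L • (1 : H) := by
    apply sep (k := k)
    intro p
    rw [legR_eq_ra, apply_ra, toConv_ofConv, hn]
    change p 1 * n L = p (n L • (1 : H))
    rw [map_smul, smul_eq_mul, mul_comm]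
  rw [← hL.legR_coint, ← map_smul] at h1
  have h2 := hL.legR_inj h1
  exact WithConv.ext h2

include hL in
lemma IsInt.coint_mul (f : WithConv (H →ₗ[k] k)) :
    toConv (coint (k := k) L) * f = f 1 • toConv (coint (k := k) L) := by
  have h1 : legR L (toConv (coint (k := k) L) * f).ofConv = f 1 • (1 : H) := by
    rw [legR_eq_ra, ra_mul, ofConv_toConv, ← legR_eq_ra L (coint (k := k) L), hL.legR_coint,
      ra_one_elt]
  have h1' : legR L (toConv (coint (k := k) L) * f).ofConv = legR L (f 1 • coint (k := k) L) := by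
    rw [h1, map_smul, hL.legR_coint]
  have h2 := hL.legR_inj h1'
  exact WithConv.ext h2

/-- the distinguished group-like element -/
noncomputable def gl (k : Type u) [Field k] {H : Type v} [Ring H] [HopfAlgebra k H] (L : H) : H :=
  legL (k := k) L (coint (k := k) L)

include hL in
lemma IsInt.mul_coint (f : WithConv (H →ₗ[k] k)) :
    f * toConv (coint (k := k) L) = f (gl k L) • toConv (coint (k := k) L) := by
  have h := hL.coint_unique (f * toConv (coint (k := k) L)) (by
    intro f'
    rw [mul_assoc, hL.coint_mul, mul_smul_comm])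
  have h2 : (f * toConv (coint (k := k) L)) L = f (gl k L) := by
    unfold gl
    rw [legL_eq_la]
    exact (apply_la f.ofConv (coint (k := k) L) L).symm
  rw [h2] at h
  exact h

include hL in
lemma IsInt.gl_mul (f f' : WithConv (H →ₗ[k] k)) : (f * f') (gl k L) = f (gl k L) * f' (gl k L) := by
  have h1 := hL.mul_coint (f * f')
  rw [mul_assoc, hL.mul_coint f', mul_smul_comm, hL.mul_coint f, smul_smul] at h1
  have h2 := congrArg (fun F => F L) h1
  change f' (gl k L) * f (gl k L) * coint (k := k) L L = (f * f') (gl k L) * coint (k := k) L L at h2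
  rw [hL.coint_L, mul_one, mul_one] at h2
  rw [← h2, mul_comm]

include hL in
lemma IsInt.S4 (x : H) : S2 k H (S2 k H x) * gl k L = gl k L * x := by
  have h1 := hL.legL_mulRight (coint (k := k) L) x
  have h2 := hL.legL_mulLeft (coint (k := k) L) (S2 k H (antipode k x))
  have h3 : coint (k := k) L ∘ₗ LinearMap.mulLeft k (S2 k H (antipode k x)) =
      coint (k := k) L ∘ₗ LinearMap.mulRight k (antipode k x) := by
    ext y
    exact (hL.coint_comm y (antipode k x)).symm
  rw [h3, h1] at h2
  exact h2.symm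

include hL in
lemma IsInt.dual_basis (x : H) : ∑ i ∈ (ℛ k L).index,
    coint (k := k) L (antipode k x * (ℛ k L).left i) • (ℛ k L).right i = x := by
  have h := hL.legR_mulLeft (coint (k := k) L) x
  rw [hL.legR_coint, mul_one] at h
  exact h

include hL in
lemma IsInt.trace_eq (F : H →ₗ[k] H) : LinearMap.trace k H F = ∑ i ∈ (ℛ k L).index,
    coint (k := k) L (antipode k (F ((ℛ k L).right i)) * (ℛ k L).left i) := by
  have h : F = ∑ i ∈ (ℛ k L).index,
      ((coint (k := k) L) ∘ₗ (LinearMap.mulRight k ((ℛ k L).left i)) ∘ₗ antipode k).smulRight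
        (F ((ℛ k L).right i)) := by
    ext x
    conv_lhs => rw [← hL.dual_basis x]
    simp [map_sum]
  conv_lhs => rw [h]
  rw [map_sum]
  apply Finset.sum_congr rfl
  intro i _
  rw [LinearMap.trace_smulRight]
  rfl

include hL in
/-- the trace formula -/
lemma IsInt.trace_S2_la (f : H →ₗ[k] k) :
    LinearMap.trace k H (S2 k H ∘ₗ la f) = coint (k := k) L 1 * f L := by
  rw [hL.trace_eq]
  have : ∀ i, coint (k := k) L (antipode k ((S2 k H ∘ₗ la f) ((ℛ k L).right i)) * (ℛ k L).left i) =
      coint (k := k) L ((ℛ k L).left i * antipode k (la f ((ℛ k L).right i))) := by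
    intro i
    exact (hL.coint_comm ((ℛ k L).left i) (antipode k (la f ((ℛ k L).right i)))).symm
  simp only [this]
  rw [← map_sum, sum_mul_S_la, map_smul, smul_eq_mul, mul_comm]

include hL in
lemma IsInt.trace_S2 : LinearMap.trace k H (S2 k H) = coint (k := k) L 1 := by
  have h := hL.trace_S2_la (counit (R := k))
  rw [hL.one, mul_one] at h
  rw [← h]
  congr 1
  ext x
  simp [la_counit]

include hL in
/-- if `λ(1) ≠ 0` then `S⁴ = 1` -/
lemma IsInt.S4_eq_one (h0 : coint (k := k) L 1 ≠ 0) (x : H) : S2 k H (S2 k H x) = x := by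
  have hg : gl k L = 1 := by
    apply sep (k := k)
    intro p
    have h1 := hL.mul_coint (toConv p)
    have h2 := congrArg (fun F => F 1) h1
    change (toConv p * toConv (coint (k := k) L)) 1 = p (gl k L) * coint (k := k) L 1 at h2
    have h3 : (toConv p * toConv (coint (k := k) L)) 1 = p 1 * coint (k := k) L 1 := by
      rw [← apply_la, la_one_elt, map_smul, smul_eq_mul, mul_comm]
    rw [h3] at h2
    exact (mul_right_cancel₀ h0 h2).symm
  have h := hL.S4 x
  rw [hg, mul_one, one_mul] at h
  exact h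

end coint

end Run7.h2
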