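import Pool.Agent.Run7.h2.Char2

/-!
Frobenius congruences for characters, and stabilisers of irreducible characters.
-/

namespace Run7.h2

open Coalgebra HopfAlgebra TensorProduct WithConv Module

universe u v w x

section numb

variable {k : Type u} [Field k] [CharZero k]

omit [CharZero k] in
lemma frob_sum {J : Type*} (s : Finset J) (y : J → integralClosure ℤ k) {p : ℕ} (hp : p.Prime) :
    ∃ r, (∑ j ∈ s, y j) ^ p = ∑ j ∈ s, y j ^ p + p * r := by
  classical
  induction s using Finset.induction_on with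
  | empty => exact ⟨0, by simp [hp.ne_zero]⟩
  | insert a s ha ih =>
    obtain ⟨r, hr⟩ := ih
    obtain ⟨q, hq⟩ := exists_add_pow_prime_eq hp (y a) (∑ j ∈ s, y j)
    refine ⟨y a * (∑ j ∈ s, y j) * q + r, ?_⟩
    rw [Finset.sum_insert ha, hq, Finset.sum_insert ha, hr]
    ring

lemma int_dvd_of_integral {a b : ℤ} {p : ℕ} (hp : p ≠ 0) {r : k} (hr : IsIntegral ℤ r)
    (h : (a : k) = b + p * r) : (p : ℤ) ∣ a - b := by
  have hp' : (p : k) ≠ 0 := by exact_mod_cast hp
  have h1 : r = algebraMap ℚ k (((a - b : ℤ) : ℚ) / p) := by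
    rw [map_div₀, map_intCast, map_natCast]
    push_cast
    rw [h]; field_simp; ring
  rw [h1] at hr
  have h2 : IsIntegral ℤ ((((a - b : ℤ) : ℚ) / p)) :=
    (isIntegral_algebraMap_iff (algebraMap ℚ k).injective).1 hr
  obtain ⟨z, hz⟩ := IsIntegrallyClosed.isIntegral_iff.1 h2
  refine ⟨z, ?_⟩
  have hp'' : (p : ℚ) ≠ 0 := by exact_mod_cast hp
  have h3 : (z : ℚ) = ((a - b : ℤ) : ℚ) / p := hz
  have h4 : (((a - b : ℤ)) : ℚ) = ((p * z : ℤ) : ℚ) := by
    push_cast
    rw [h3]
    push_cast
    field_simp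
  exact_mod_cast h4

end numb

variable {k : Type u} [Field k] [IsAlgClosed k] [CharZero k] {H : Type v} [Ring H] [HopfAlgebra k H]
  [FiniteDimensional k H] {I : Type} [Fintype I] [DecidableEq I] {d : I → ℕ} (e : H ≃ₐ[k] Bl k d)
  [∀ i, NeZero (d i)] {L : H} (hL : IsInt k L)

/-- the left regular action of the dual algebra, as a ring homomorphism -/
noncomputable def laHom (k : Type u) [Field k] (H : Type v) [Ring H] [HopfAlgebra k H] :
    WithConv (H →ₗ[k] k) →+* End k H where
  toFun f := la f.ofConv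
  map_one' := by
    ext x
    rw [one_eq_counit]
    exact la_counit x
  map_mul' f g := la_mul' f g
  map_zero' := by
    ext x
    change la (0 : H →ₗ[k] k) x = 0
    rw [la_apply]; simp
  map_add' f g := by
    ext x
    change la (f.ofConv + g.ofConv) x = la f.ofConv x + la g.ofConv x
    rw [la_apply, la_apply, la_apply]
    simp [add_smul, Finset.sum_add_distrib]

/-- the `ℤ`-algebra spanned by the irreducible characters -/
noncomputable def chSub : Subalgebra ℤ (WithConv (H →ₗ[k] k)) where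
  carrier := (Submodule.span ℤ (Set.range (X e)) : Set _)
  mul_mem' := by
    intro a b ha hb
    have key : ∀ f, IsChar e f → f ∈ Submodule.span ℤ (Set.range (X e)) := by
      rintro f ⟨m, rfl⟩
      apply Submodule.sum_mem
      intro i _
      exact Submodule.smul_of_tower_mem _ _ (Submodule.subset_span ⟨i, rfl⟩)
    refine Submodule.span_induction₂ (p := fun x y _ _ => x * y ∈ Submodule.span ℤ (Set.range (X e)))
      ?_ ?_ ?_ ?_ ?_ ?_ ?_ ha hb
    · rintro _ _ ⟨i, rfl⟩ ⟨j, rfl⟩
      exact key _ (isChar_X_mul e i j)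
    · intro y _; rw [zero_mul]; exact Submodule.zero_mem _
    · intro y _; rw [mul_zero]; exact Submodule.zero_mem _
    · intro x y z _ _ _ h1 h2; rw [add_mul]; exact Submodule.add_mem _ h1 h2
    · intro x y z _ _ _ h1 h2; rw [mul_add]; exact Submodule.add_mem _ h1 h2
    · intro c x y _ _ h; rw [smul_mul_assoc]; exact Submodule.smul_mem _ _ h
    · intro c x y _ _ h; rw [mul_smul_comm]; exact Submodule.smul_mem _ _ h
  add_mem' := fun ha hb => Submodule.add_mem _ ha hb
  algebraMap_mem' := by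
    intro r
    obtain ⟨m, hm⟩ := isChar_one e
    rw [Algebra.algebraMap_eq_smul_one, hm]
    apply Submodule.smul_mem
    apply Submodule.sum_mem
    intro i _
    exact Submodule.smul_of_tower_mem _ _ (Submodule.subset_span ⟨i, rfl⟩)

omit [IsAlgClosed k] [FiniteDimensional k H] in
lemma IsChar.integral {f : WithConv (H →ₗ[k] k)} (hf : IsChar e f) : IsIntegral ℤ f := by
  refine IsIntegral.of_mem_of_fg (chSub e) ?_ f ?_
  · have : (chSub e).toSubmodule = Submodule.span ℤ (Set.range (X e)) := by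
      ext x; rfl
    rw [this]
    exact Submodule.fg_span (Set.finite_range _)
  · obtain ⟨m, rfl⟩ := hf
    change _ ∈ Submodule.span ℤ (Set.range (X e))
    apply Submodule.sum_mem
    intro i _
    exact Submodule.smul_of_tower_mem _ _ (Submodule.subset_span ⟨i, rfl⟩)

omit [IsAlgClosed k] [CharZero k] in
lemma eigen_integral {V : Type w} [AddCommGroup V] [Module k V] (A : End k V) (hA : IsIntegral ℤ A)
    {μ : k} (hμ : A.HasEigenvalue μ) : IsIntegral ℤ μ := by
  obtain ⟨q, hq, hq0⟩ := hA
  obtain ⟨y, hy⟩ := hμ.exists_hasEigenvector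
  refine ⟨q, hq, ?_⟩
  have h1 : Polynomial.aeval A (q.map (algebraMap ℤ k)) = 0 := by
    rw [Polynomial.aeval_map_algebraMap]
    exact hq0
  have h2 := Module.End.aeval_apply_of_hasEigenvector (p := q.map (algebraMap ℤ k)) hy
  rw [h1, LinearMap.zero_apply, Polynomial.eval_map] at h2
  rcases smul_eq_zero.1 h2.symm with h3 | h3
  · exact h3
  · exact absurd h3 hy.2

include hL e in
/-- the Frobenius congruence of Kashina, Sommerhäuser and Zhu -/
theorem IsInt.frob {p : ℕ} (hp : p.Prime) (hn : ¬ p ∣ finrank k H) {f : WithConv (H →ₗ[k] k)}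
    (hf : IsChar e f) {a b : ℕ} (ha : f L = a) (hb : (f ^ p) L = b) : b ≡ a [MOD p] := by
  classical
  set A : End k H := laHom k H f with hA
  have hAint : IsIntegral ℤ A := by
    have h1 := hf.integral e
    obtain ⟨q, hq, hq0⟩ := h1
    refine ⟨q, hq, ?_⟩
    have h2 := congrArg (laHom k H) hq0
    rw [Polynomial.hom_eval₂, map_zero] at h2
    have h3 : (laHom k H).comp (algebraMap ℤ (WithConv (H →ₗ[k] k))) = algebraMap ℤ (End k H) :=
      RingHom.ext_int _ _
    rw [h3] at h2
    exact h2
  obtain ⟨s, m, hs, htr⟩ := trace_pow_eq A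
  have h1 : LinearMap.trace k H A = (finrank k H : k) * a := by
    rw [← ha]; exact hL.trace_la e f.ofConv
  have h2 : LinearMap.trace k H (A ^ p) = (finrank k H : k) * b := by
    rw [← hb, hA, ← map_pow]; exact hL.trace_la e (f ^ p).ofConv
  have hint : ∀ μ ∈ s, IsIntegral ℤ μ := fun μ hμ => eigen_integral A hAint (hs μ hμ)
  -- the multiset of eigenvalues
  let y : (Σ _ : k, ℕ) → integralClosure ℤ k := fun z =>
    if hz : z.1 ∈ s then ⟨z.1, hint z.1 hz⟩ else 0
  obtain ⟨r, hr⟩ := frob_sum (k := k) (s.sigma fun μ => Finset.range (m μ)) y hp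
  have h3 : ∀ c : ℕ, (((∑ j ∈ s.sigma fun μ => Finset.range (m μ), y j ^ c : integralClosure ℤ k)) : k)
      = LinearMap.trace k H (A ^ c) := by
    intro c
    rw [htr c, Finset.sum_sigma]
    push_cast
    apply Finset.sum_congr rfl
    intro μ hμ
    have : ∀ j, ((y ⟨μ, j⟩ : integralClosure ℤ k) : k) = μ := by
      intro j; simp [y, hμ]
    simp [this]
  have h4 := congrArg (fun z : integralClosure ℤ k => (z : k)) hr
  have h5 := h3 1
  simp only [pow_one] at h5
  simp only [Subalgebra.coe_pow, Subalgebra.coe_add, Subalgebra.coe_mul, h5, h3, h1, h2] at h4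
  have h6 : (((finrank k H * a : ℕ) ^ p : ℤ) : k) = ((finrank k H * b : ℕ) : ℤ) + (p : ℕ) * (r : k) := by
    push_cast
    convert h4 using 2
    simp
  have h7 := int_dvd_of_integral hp.ne_zero r.2 h6
  have h8 : (((finrank k H * a : ℕ) ^ p : ℕ)) ≡ finrank k H * b [MOD p] := by
    apply Nat.ModEq.symm
    rw [Nat.modEq_iff_dvd]
    exact_mod_cast h7
  have h9 : (((finrank k H * a : ℕ) ^ p : ℕ)) ≡ finrank k H * a [MOD p] := by
    haveI := Fact.mk hp
    rw [← ZMod.natCast_eq_natCast_iff]
    push_cast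
    rw [mul_pow, ZMod.pow_card, ZMod.pow_card]
  have h10 : finrank k H * b ≡ finrank k H * a [MOD p] := h8.symm.trans h9
  exact Nat.ModEq.cancel_left_of_coprime ((Nat.Prime.coprime_iff_not_dvd hp).2 hn) h10

end Run7.h2
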