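import Pool.Agent.N506.EXC
import Pool.Agent.N506.EXM

/-!
# Exactness passes to quotients by amenable normal subgroups
-/

set_option autoImplicit false

namespace Run7.h2.AutEx

open Pool.Agent.N506.EX Filter Topology

universe u v

/-- Bounded real functions. -/
def Bd {N : Type u} (f : N → ℝ) : Prop := ∃ C : ℝ, ∀ n, |f n| ≤ C

/-- Right invariant means. -/
structure Mean (N : Type u) [Group N] (M : (N → ℝ) → ℝ) : Prop where
  add : ∀ f g, Bd f → Bd g → M (fun n => f n + g n) = M f + M g
  neg : ∀ f, Bd f → M (fun n => - f n) = - M f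
  nonneg : ∀ f, Bd f → (∀ n, 0 ≤ f n) → 0 ≤ M f
  const : ∀ c : ℝ, M (fun _ => c) = c
  inv : ∀ f, Bd f → ∀ s, M (fun n => f (n * s)) = M f

theorem avg {N : Type u} [Group N] (hN : Am N) (F : Finset N) (ε : ℝ) (hε : 0 < ε) :
    ∃ A : (N → ℝ) →ₗ[ℝ] ℝ, (∀ f, (∀ n, 0 ≤ f n) → 0 ≤ A f) ∧ (A (fun _ => 1) = 1) ∧
      ∀ f C, (∀ n, |f n| ≤ C) → ∀ s ∈ F, |A (fun n => f (n * s)) - A f| ≤ 2 * ε * C := by
  classical
  obtain ⟨Ω, _, _, b, hb⟩ := hN ((F : Set N)⁻¹) (F.finite_toSet.inv) ε hε
  have hc : (0:ℝ) < Fintype.card Ω := by exact_mod_cast Fintype.card_pos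
  let A : (N → ℝ) →ₗ[ℝ] ℝ :=
    { toFun := fun f => (∑ w, f ((b w)⁻¹)) / (Fintype.card Ω : ℝ)
      map_add' := fun f g => by
        simp only [Pi.add_apply, Finset.sum_add_distrib, add_div]
      map_smul' := fun c f => by
        simp only [Pi.smul_apply, smul_eq_mul, ← Finset.mul_sum, RingHom.id_apply, mul_div_assoc] }
  refine ⟨A, fun f hf => ?_, ?_, ?_⟩
  · exact div_nonneg (Finset.sum_nonneg fun w _ => hf _) hc.le
  · show (∑ w : Ω, (1:ℝ)) / (Fintype.card Ω : ℝ) = 1
    rw [Finset.sum_const, Finset.card_univ, nsmul_eq_mul, mul_one, div_self hc.ne']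
  · intro f C hC s hs
    have hC0 : 0 ≤ C := (abs_nonneg _).trans (hC 1)
    obtain ⟨W, p, hp, hW, hcd⟩ := hb s⁻¹ (by simpa using hs)
    have e1 : A (fun n => f (n * s)) - A f =
        (∑ w, f ((b w)⁻¹ * s) - ∑ w, f ((b w)⁻¹)) / (Fintype.card Ω : ℝ) := by
      show (∑ w, f ((b w)⁻¹ * s)) / (Fintype.card Ω : ℝ) - (∑ w, f ((b w)⁻¹)) / _ = _
      rw [sub_div]
    have e2 : ∑ w ∈ W, f ((b w)⁻¹ * s) = ∑ w ∈ W.image p, f ((b w)⁻¹) := by
      rw [Finset.sum_image (fun x hx y hy h => hp hx hy h)]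
      refine Finset.sum_congr rfl fun w hw => ?_
      rw [← hW w hw]
      congr 1
      group
    have e3 : ∑ w, f ((b w)⁻¹ * s) = ∑ w ∈ W, f ((b w)⁻¹ * s) + ∑ w ∈ Wᶜ, f ((b w)⁻¹ * s) :=
      (Finset.sum_add_sum_compl W _).symm
    have e4 : ∑ w, f ((b w)⁻¹) =
        ∑ w ∈ W.image p, f ((b w)⁻¹) + ∑ w ∈ (W.image p)ᶜ, f ((b w)⁻¹) :=
      (Finset.sum_add_sum_compl (W.image p) _).symm
    have hci : (W.image p).card = W.card :=
      Finset.card_image_of_injOn fun x hx y hy h => hp hx hy h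
    have b1 : |∑ w ∈ Wᶜ, f ((b w)⁻¹ * s)| ≤ (Wᶜ.card : ℝ) * C := by
      refine (Finset.abs_sum_le_sum_abs _ _).trans ?_
      rw [← nsmul_eq_mul]
      exact Finset.sum_le_card_nsmul _ _ _ fun w _ => hC _
    have b2 : |∑ w ∈ (W.image p)ᶜ, f ((b w)⁻¹)| ≤ (((W.image p)ᶜ).card : ℝ) * C := by
      refine (Finset.abs_sum_le_sum_abs _ _).trans ?_
      rw [← nsmul_eq_mul]
      exact Finset.sum_le_card_nsmul _ _ _ fun w _ => hC _
    have c1 : (Wᶜ.card : ℝ) ≤ ε * Fintype.card Ω := by
      rw [Finset.card_compl, Nat.cast_sub (Finset.card_le_univ W)]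
      linarith
    have c2 : (((W.image p)ᶜ).card : ℝ) ≤ ε * Fintype.card Ω := by
      rw [Finset.card_compl, Nat.cast_sub (Finset.card_le_univ _), hci]
      linarith
    rw [e1, abs_div, abs_of_pos hc, div_le_iff₀ hc, e3, e4, e2]
    have hd : ∑ w ∈ W.image p, f ((b w)⁻¹) + ∑ w ∈ Wᶜ, f ((b w)⁻¹ * s) -
        (∑ w ∈ W.image p, f ((b w)⁻¹) + ∑ w ∈ (W.image p)ᶜ, f ((b w)⁻¹)) =
        ∑ w ∈ Wᶜ, f ((b w)⁻¹ * s) - ∑ w ∈ (W.image p)ᶜ, f ((b w)⁻¹) := by ring
    rw [hd]
    refine (abs_sub _ _).trans ?_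
    have d1 := mul_le_mul_of_nonneg_right c1 hC0
    have d2 := mul_le_mul_of_nonneg_right c2 hC0
    linarith

theorem exists_mean {N : Type u} [Group N] (hN : Am N) : ∃ M : (N → ℝ) → ℝ, Mean N M := by
  classical
  choose A hA1 hA2 hA3 using fun i : Finset N × ℕ =>
    avg hN i.1 (1 / ((i.2 : ℝ) + 1)) (by positivity)
  have hbd : ∀ f C, (∀ n, |f n| ≤ C) → ∀ i, A i f ∈ Set.Icc (-C) C := by
    intro f C hC i
    have k : ∀ c : ℝ, A i (fun _ => c) = c := by
      intro c
      have : (fun _ => c : N → ℝ) = c • (fun _ => (1:ℝ)) := by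
        funext n
        simp
      rw [this, map_smul, hA2 i, smul_eq_mul, mul_one]
    constructor
    · have h1 := hA1 i (f + fun _ => C) (fun n => by
        have := (abs_le.mp (hC n)).1
        simp only [Pi.add_apply]
        linarith)
      rw [map_add, k] at h1
      linarith
    · have h1 := hA1 i ((fun _ => C) - f) (fun n => by
        have := (abs_le.mp (hC n)).2
        simp only [Pi.sub_apply]
        linarith)
      rw [map_sub, k] at h1
      linarith
  let U : Ultrafilter (Finset N × ℕ) := Ultrafilter.of atTop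
  have hU : (U : Filter (Finset N × ℕ)) ≤ atTop := Ultrafilter.of_le atTop
  have ht : ∀ f, Bd f → ∃ x, Tendsto (fun i => A i f) U (𝓝 x) := by
    rintro f ⟨C, hC⟩
    obtain ⟨x, -, hx⟩ := (isCompact_Icc (a := -C) (b := C)).ultrafilter_le_nhds
      (U.map fun i => A i f) (by
        rw [Ultrafilter.coe_map, le_principal_iff, Filter.mem_map]
        exact Filter.univ_mem' fun i => hbd f C hC i)
    exact ⟨x, hx⟩
  let M : (N → ℝ) → ℝ := fun f => limUnder U (fun i => A i f)
  have hM : ∀ f, Bd f → Tendsto (fun i => A i f) U (𝓝 (M f)) := fun f hf =>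
    tendsto_nhds_limUnder (ht f hf)
  refine ⟨M, ?_, ?_, ?_, ?_, ?_⟩
  · intro f g hf hg
    have h3 : Bd (fun n => f n + g n) := by
      obtain ⟨C, hC⟩ := hf
      obtain ⟨C', hC'⟩ := hg
      exact ⟨C + C', fun n => (abs_add_le _ _).trans (add_le_add (hC n) (hC' n))⟩
    refine tendsto_nhds_unique (hM _ h3) ?_
    refine ((hM f hf).add (hM g hg)).congr fun i => ?_
    rw [← map_add]
    rfl
  · intro f hf
    have h3 : Bd (fun n => - f n) := by
      obtain ⟨C, hC⟩ := hf
      exact ⟨C, fun n => by rw [abs_neg]; exact hC n⟩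
    refine tendsto_nhds_unique (hM _ h3) ?_
    refine (hM f hf).neg.congr fun i => ?_
    rw [← map_neg]
    rfl
  · intro f hf h0
    exact ge_of_tendsto' (hM f hf) fun i => hA1 i f h0
  · intro c
    have h3 : Bd (fun _ : N => c) := ⟨|c|, fun _ => le_rfl⟩
    refine tendsto_nhds_unique (hM _ h3) ?_
    refine tendsto_const_nhds.congr fun i => ?_
    have : (fun _ => c : N → ℝ) = c • (fun _ => (1:ℝ)) := by
      funext n
      simp
    rw [this, map_smul, hA2 i, smul_eq_mul, mul_one]
  · intro f hf s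
    have h3 : Bd (fun n => f (n * s)) := by
      obtain ⟨C, hC⟩ := hf
      exact ⟨C, fun n => hC _⟩
    obtain ⟨C, hC⟩ := hf
    have hC0 : 0 ≤ C := (abs_nonneg _).trans (hC 1)
    have hd : Tendsto (fun i => A i (fun n => f (n * s)) - A i f) U (𝓝 0) := by
      rw [Metric.tendsto_nhds]
      intro δ hδ
      obtain ⟨k, hk⟩ := exists_nat_gt (2 * C / δ)
      have h4 : ∀ᶠ i : Finset N × ℕ in atTop, ({s}, k) ≤ i := eventually_ge_atTop _
      refine hU (h4.mono fun i hi => ?_)
      rw [Real.dist_eq, sub_zero]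
      have h5 : s ∈ i.1 := hi.1 (Finset.mem_singleton_self s)
      have h6 : (k : ℝ) ≤ i.2 := by exact_mod_cast hi.2
      refine (hA3 i f C hC s h5).trans_lt ?_
      have h7 : (0:ℝ) < (i.2 : ℝ) + 1 := by positivity
      rw [mul_one_div, div_mul_eq_mul_div, div_lt_iff₀ h7]
      have h8 : 2 * C < δ * k := by
        rw [div_lt_iff₀ hδ] at hk
        linarith
      nlinarith
    have h9 := tendsto_nhds_unique hd ((hM _ h3).sub (hM f ⟨C, hC⟩))
    linarith

section

variable {N : Type u} [Group N] {M : (N → ℝ) → ℝ} (hM : Mean N M)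

include hM

theorem Mean.mono {f g : N → ℝ} (hf : Bd f) (hg : Bd g) (h : ∀ n, f n ≤ g n) : M f ≤ M g := by
  have h1 : Bd (fun n => g n + - f n) := by
    obtain ⟨C, hC⟩ := hf
    obtain ⟨C', hC'⟩ := hg
    exact ⟨C' + C, fun n => (abs_add_le _ _).trans (add_le_add (hC' n) (by
      rw [abs_neg]; exact hC n))⟩
  have h2 := hM.nonneg _ h1 (fun n => by have := h n; linarith)
  have h3 : Bd (fun n => - f n) := by
    obtain ⟨C, hC⟩ := hf
    exact ⟨C, fun n => by rw [abs_neg]; exact hC n⟩
  rw [hM.add _ _ hg h3, hM.neg _ hf] at h2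
  linarith

theorem Mean.abs_le {f : N → ℝ} (hf : Bd f) : |M f| ≤ M (fun n => |f n|) := by
  have h1 : Bd (fun n => |f n|) := by
    obtain ⟨C, hC⟩ := hf
    exact ⟨C, fun n => by rw [abs_abs]; exact hC n⟩
  have h3 : Bd (fun n => - f n) := by
    obtain ⟨C, hC⟩ := hf
    exact ⟨C, fun n => by rw [abs_neg]; exact hC n⟩
  rw [abs_le']
  refine ⟨hM.mono hf h1 fun n => le_abs_self _, ?_⟩
  rw [← hM.neg f hf]
  exact hM.mono h3 h1 fun n => neg_le_abs _

theorem Mean.sum {ι : Type v} (s : Finset ι) (f : ι → N → ℝ) (hf : ∀ i ∈ s, Bd (f i)) :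
    Bd (fun n => ∑ i ∈ s, f i n) ∧ M (fun n => ∑ i ∈ s, f i n) = ∑ i ∈ s, M (f i) := by
  classical
  induction s using Finset.induction_on with
  | empty =>
    simp only [Finset.sum_empty]
    exact ⟨⟨0, fun n => by simp⟩, hM.const 0⟩
  | insert i s hi ih =>
    obtain ⟨h1, h2⟩ := ih fun j hj => hf j (Finset.mem_insert_of_mem hj)
    have h3 := hf i (Finset.mem_insert_self _ _)
    simp only [Finset.sum_insert hi]
    refine ⟨?_, ?_⟩
    · obtain ⟨C, hC⟩ := h1
      obtain ⟨C', hC'⟩ := h3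
      exact ⟨C' + C, fun n => (abs_add_le _ _).trans (add_le_add (hC' n) (hC n))⟩
    · rw [hM.add _ _ h3 h1, h2]

end

/-- Exactness passes to quotients by amenable normal subgroups. -/
theorem isExact_quotient {G : Type u} [Group G] (hG : IsExact G) (N : Subgroup G) [N.Normal]
    (hN : Am N) : IsExact (G ⧸ N) := by
  classical
  obtain ⟨M, hM⟩ := exists_mean hN
  intro F ε hε
  let q : G → G ⧸ N := fun g => QuotientGroup.mk g
  let o : G ⧸ N → G := fun x => x.out
  have ho : ∀ x, q (o x) = x := fun x => QuotientGroup.out_eq' x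
  have hqm : ∀ a b, q (a * b) = q a * q b := fun a b => rfl
  have hqn : ∀ n : N, q (n : G) = 1 := fun n => (QuotientGroup.eq_one_iff _).mpr n.2
  obtain ⟨E, μ, h1, h2, h3, h4⟩ := hG (F.image o) ε hε
  -- push forward
  let P : G → G ⧸ N → ℝ := fun g y => ∑ z ∈ (μ g).support, if q z = y then μ g z else 0
  have hPn : ∀ g y, 0 ≤ P g y := by
    intro g y
    refine Finset.sum_nonneg fun z _ => ?_
    split_ifs
    · exact h1 g z
    · exact le_rfl
  have hPS : ∀ g y (S : Finset G), (μ g).support ⊆ S →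
      P g y = ∑ z ∈ S, if q z = y then μ g z else 0 := by
    intro g y S hS
    refine Finset.sum_subset hS fun z _ hz => ?_
    rw [Finsupp.notMem_support_iff.mp hz, ite_self]
  have hPle : ∀ g y, P g y ≤ 1 := by
    intro g y
    rw [← h2 g, Finsupp.sum]
    refine Finset.sum_le_sum fun z _ => ?_
    split_ifs
    · exact le_rfl
    · exact h1 g z
  have hPb : ∀ g y, |P g y| ≤ 1 := fun g y => by rw [abs_of_nonneg (hPn g y)]; exact hPle g y
  have hPsum : ∀ g (T : Finset (G ⧸ N)), (∀ z, μ g z ≠ 0 → q z ∈ T) → ∑ y ∈ T, P g y = 1 := by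
    intro g T hT
    rw [← h2 g, Finsupp.sum, Finset.sum_comm]
    refine Finset.sum_congr rfl fun z hz => ?_
    rw [Finset.sum_ite_eq]
    rw [if_pos (hT z (Finsupp.mem_support_iff.mp hz))]
  have hPd : ∀ g g' (T : Finset (G ⧸ N)), ∑ y ∈ T, |P g y - P g' y| ≤
      (μ g - μ g').sum fun _ t => |t| := by
    intro g g' T
    let S := (μ g).support ∪ (μ g').support
    have e1 : ((μ g - μ g').sum fun _ t => |t|) = ∑ z ∈ S, |μ g z - μ g' z| := by
      rw [Finsupp.sum_of_support_subset (μ g - μ g') (s := S) ?_ (fun _ t => |t|) (by simp)]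
      · rfl
      · intro z hz
        simp only [S, Finset.mem_union, Finsupp.mem_support_iff]
        by_contra h
        push Not at h
        apply Finsupp.mem_support_iff.mp hz
        rw [Finsupp.sub_apply, h.1, h.2, sub_zero]
    rw [e1]
    calc ∑ y ∈ T, |P g y - P g' y|
        ≤ ∑ y ∈ T, ∑ z ∈ S, (if q z = y then |μ g z - μ g' z| else 0) := by
          refine Finset.sum_le_sum fun y _ => ?_
          rw [hPS g y S Finset.subset_union_left, hPS g' y S Finset.subset_union_right,
            ← Finset.sum_sub_distrib]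
          refine (Finset.abs_sum_le_sum_abs _ _).trans (Finset.sum_le_sum fun z _ => ?_)
          split_ifs
          · exact le_rfl
          · simp
      _ = ∑ z ∈ S, ∑ y ∈ T, (if q z = y then |μ g z - μ g' z| else 0) := Finset.sum_comm
      _ ≤ ∑ z ∈ S, |μ g z - μ g' z| := by
          refine Finset.sum_le_sum fun z _ => ?_
          rw [Finset.sum_ite_eq]
          split_ifs
          · exact le_rfl
          · exact abs_nonneg _
  -- the new measures
  let T : G ⧸ N → Finset (G ⧸ N) := fun x => (E.image q).image (fun e => x * e)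
  have hTm : ∀ (x : G ⧸ N) (n : N) z, μ ((n : G) * o x) z ≠ 0 → q z ∈ T x := by
    intro x n z hz
    have h5 := h3 _ _ hz
    refine Finset.mem_image.mpr ⟨_, Finset.mem_image_of_mem q h5, ?_⟩
    have h6 : q (((n : G) * o x)⁻¹ * z) = (q ((n : G) * o x))⁻¹ * q z := rfl
    rw [h6, hqm, hqn, one_mul, ho, mul_inv_cancel_left]
  let val : G ⧸ N → G ⧸ N → ℝ := fun x y => M (fun n : N => P ((n : G) * o x) y)
  have hBd : ∀ (x : G) y, Bd (fun n : N => P ((n : G) * x) y) := fun x y => ⟨1, fun n => hPb _ _⟩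
  have hval : ∀ x y, val x y ≠ 0 → y ∈ T x := by
    intro x y h
    by_contra hy
    apply h
    have h5 : (fun n : N => P ((n : G) * o x) y) = fun _ => 0 := by
      funext n
      refine Finset.sum_eq_zero fun z hz => ?_
      rw [if_neg]
      rintro rfl
      exact hy (hTm x n z (Finsupp.mem_support_iff.mp hz))
    show M _ = 0
    rw [h5]
    exact hM.const 0
  refine ⟨E.image q, fun x => Finsupp.onFinset (T x) (val x) (hval x), ?_, ?_, ?_, ?_⟩
  · intro x y
    rw [Finsupp.onFinset_apply]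
    exact hM.nonneg _ (hBd _ _) fun n => hPn _ _
  · intro x
    rw [Finsupp.sum_of_support_subset _ (Finsupp.support_onFinset_subset) _ (by simp)]
    simp only [Finsupp.onFinset_apply]
    have h5 := (hM.sum (T x) (fun y (n : N) => P ((n : G) * o x) y) (fun y _ => hBd _ _)).2
    show ∑ y ∈ T x, M (fun n : N => P ((n : G) * o x) y) = 1
    rw [← h5]
    have h6 : (fun n : N => ∑ y ∈ T x, P ((n : G) * o x) y) = fun _ => 1 := by
      funext n
      exact hPsum _ _ (hTm x n)
    rw [h6]
    exact hM.const 1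
  · intro x y h
    rw [Finsupp.onFinset_apply] at h
    obtain ⟨e, he, h5⟩ := Finset.mem_image.mp (hval x y h)
    have h6 : x * e = y := h5
    rw [← h6, inv_mul_cancel_left]
    exact he
  · intro x s hs
    let n1 : G := o (x * s) * (o x * o s)⁻¹
    have hn1 : n1 ∈ N := by
      rw [← QuotientGroup.eq_one_iff]
      have h5 : q n1 = q (o (x * s)) * (q (o x) * q (o s))⁻¹ := rfl
      have h6 : q n1 = 1 := by rw [h5, ho, ho, ho, mul_inv_cancel]
      exact h6
    have hval' : ∀ y, val (x * s) y = M (fun n : N => P ((n : G) * (o x * o s)) y) := by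
      intro y
      have h5 := hM.inv (fun n : N => P ((n : G) * (o x * o s)) y) (hBd _ _) ⟨n1, hn1⟩
      rw [← h5]
      show M _ = M _
      congr 1
      funext n
      congr 1
      show (n : G) * o (x * s) = (n : G) * n1 * (o x * o s)
      simp only [n1]
      group
    let TT : Finset (G ⧸ N) := T x ∪ T (x * s)
    have e1 : ((Finsupp.onFinset (T x) (val x) (hval x) -
        Finsupp.onFinset (T (x * s)) (val (x * s)) (hval (x * s))).sum fun _ t => |t|) =
        ∑ y ∈ TT, |val x y - val (x * s) y| := by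
      rw [Finsupp.sum_of_support_subset _ (s := TT) ?_ (fun _ t => |t|) (by simp)]
      · rfl
      · intro y hy
        rw [Finsupp.mem_support_iff, Finsupp.sub_apply, Finsupp.onFinset_apply,
          Finsupp.onFinset_apply] at hy
        by_contra h
        rw [Finset.mem_union] at h
        push Not at h
        apply hy
        have h7 : val x y = 0 := by
          by_contra h8
          exact h.1 (hval x y h8)
        have h9 : val (x * s) y = 0 := by
          by_contra h8
          exact h.2 (hval (x * s) y h8)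
        rw [h7, h9, sub_zero]
    rw [e1]
    have hBd2 : ∀ y, Bd (fun n : N => P ((n : G) * o x) y + - P ((n : G) * (o x * o s)) y) :=
      fun y => ⟨2, fun n => (abs_add_le _ _).trans (by
        rw [abs_neg]
        have a1 := hPb ((n : G) * o x) y
        have a2 := hPb ((n : G) * (o x * o s)) y
        linarith)⟩
    have hBd3 : ∀ y, Bd (fun n : N => |P ((n : G) * o x) y + - P ((n : G) * (o x * o s)) y|) :=
      fun y => by
        obtain ⟨C, hC⟩ := hBd2 y
        exact ⟨C, fun n => by rw [abs_abs]; exact hC n⟩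
    calc ∑ y ∈ TT, |val x y - val (x * s) y|
        ≤ ∑ y ∈ TT, M (fun n : N => |P ((n : G) * o x) y + - P ((n : G) * (o x * o s)) y|) := by
          refine Finset.sum_le_sum fun y _ => ?_
          have h5 : val x y - val (x * s) y =
              M (fun n : N => P ((n : G) * o x) y + - P ((n : G) * (o x * o s)) y) := by
            rw [hM.add _ _ (hBd _ _) (by
              obtain ⟨C, hC⟩ := hBd (o x * o s) y
              exact ⟨C, fun n => by rw [abs_neg]; exact hC n⟩), hM.neg _ (hBd _ _), hval']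
            rfl
          rw [h5]
          exact hM.abs_le (hBd2 y)
      _ = M (fun n : N => ∑ y ∈ TT, |P ((n : G) * o x) y + - P ((n : G) * (o x * o s)) y|) :=
          ((hM.sum TT _ fun y _ => hBd3 y).2).symm
      _ ≤ M (fun _ : N => ε) := by
          refine hM.mono (hM.sum TT _ fun y _ => hBd3 y).1 ⟨|ε|, fun _ => le_rfl⟩ fun n => ?_
          have h5 := hPd ((n : G) * o x) ((n : G) * o x * o s) TT
          have h6 := h4 ((n : G) * o x) (o s) (Finset.mem_image_of_mem o hs)
          refine le_trans (le_of_eq ?_) (h5.trans h6)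
          refine Finset.sum_congr rfl fun y _ => ?_
          rw [← sub_eq_add_neg, mul_assoc]
      _ = ε := hM.const ε

end Run7.h2.AutEx
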