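import Pool.Agent.Run7.h2.ExInd
import Pool.Agent.Run7.h2.ExMean

/-!
# Automorphism groups of free polynilpotent groups: assembly
-/

set_option autoImplicit false

namespace Run7.h2.AutEx

open Pool.Agent.N506.EX Pool.Agent.Y51.FP

universe u v

theorem am_finite {G : Type u} [Group G] [Finite G] : Am G := by
  classical
  have : Fintype G := Fintype.ofFinite G
  intro F _ ε hε
  let e : G ≃ Fin (Fintype.card G) := Fintype.equivFin G
  have : Nonempty (Fin (Fintype.card G)) := ⟨e 1⟩
  refine ⟨Fin (Fintype.card G), inferInstance, inferInstance, e.symm, fun s _ =>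
    ⟨Finset.univ, fun w => e (s * e.symm w), ?_, ?_, ?_⟩⟩
  · intro a _ b _ hab
    simpa using hab
  · intro w _
    simp
  · rw [Finset.card_univ]
    have : (0:ℝ) ≤ (Fintype.card (Fin (Fintype.card G)) : ℝ) := Nat.cast_nonneg _
    nlinarith

/-- Virtually solvable groups are amenable. -/
theorem am_virt {G : Type u} [Group G]
    (h : ∃ H : Subgroup G, H.FiniteIndex ∧ Group.IsSolvable H) : Am G := by
  obtain ⟨H, hH, hs⟩ := h
  have h1 : Group.IsSolvable H.normalCore :=
    Group.isSolvable_of_isSolvable_injective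
      (Subgroup.inclusion_injective (Subgroup.normalCore_le H))
  have h2 : Finite (G ⧸ H.normalCore) := inferInstance
  exact Am.ext H.normalCore Am.of_solvable am_finite

theorem solv_of_polyTFA {G : Type u} [Group G] (h : PolyTFA G) : Group.IsSolvable G := by
  induction h with
  | triv G => infer_instance
  | ext G H φ _ ih =>
    exact Group.isSolvable_of_ker_le_range φ.ker.subtype φ (by rw [Subgroup.range_subtype])

/-- The inner automorphisms form a normal subgroup. -/
instance conj_range_normal {S : Type u} [Group S] : (MulAut.conj (G := S)).range.Normal where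
  conj_mem := by
    rintro _ ⟨s, rfl⟩ φ
    refine ⟨φ s, ?_⟩
    apply MulEquiv.ext
    intro t
    rw [MulAut.conj_apply, MulAut.mul_apply, MulAut.mul_apply, MulAut.conj_apply, map_mul, map_mul,
      map_inv, MulAut.apply_inv_self]

/-- The outer automorphism group. -/
abbrev Outer (S : Type u) [Group S] : Type u := MulAut S ⧸ (MulAut.conj (G := S)).range

theorem countable_mulAut {X : Type} [Finite X] (V : Subgroup (FreeGroup X)) [V.Normal] :
    Countable (MulAut (FreeGroup X ⧸ V)) := by
  classical
  have h0 : Countable (FreeGroup X) := by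
    have hs : Function.Surjective (FreeGroup.mk : List (X × Bool) → FreeGroup X) := by
      intro w
      exact ⟨w.toWord, FreeGroup.mk_toWord⟩
    exact hs.countable
  have h1 : Countable (FreeGroup X ⧸ V) := (QuotientGroup.mk_surjective (s := V)).countable
  have h2 : Function.Injective (fun (φ : MulAut (FreeGroup X ⧸ V)) (i : X) =>
      φ (QuotientGroup.mk (FreeGroup.of i))) := by
    intro φ φ' h
    apply MulEquiv.ext
    intro s
    obtain ⟨w, rfl⟩ := QuotientGroup.mk_surjective s
    have h3 : (φ.toMonoidHom.comp (QuotientGroup.mk' V)) =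
        (φ'.toMonoidHom.comp (QuotientGroup.mk' V)) := by
      apply FreeGroup.ext_hom
      intro i
      exact congrFun h i
    exact DFunLike.congr_fun h3 w
  exact h2.countable

theorem main {X : Type} (R W : Subgroup (FreeGroup X)) [W.Normal]
    (hE : EE.{u} X R W) {P : Type u} [Group P] (θ : P →* MulAut (FreeGroup X ⧸ W))
    (hθ : IsExact θ.ker) {L : Type v} [Group L] (hL : IsExact L) (ψ : P →* L)
    (hψ : ∀ p, ψ p = 1 → ∀ s, θ p s * s⁻¹ ∈ R.map (QuotientGroup.mk' W)) :
    IsExact P := by
  have h1 : Ex ψ.ker := by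
    let θK : ψ.ker →* MulAut (FreeGroup X ⧸ W) := θ.comp ψ.ker.subtype
    have hKer : Ex θK.ker := by
      refine hθ.ex.of_injective
        ((ψ.ker.subtype.comp θK.ker.subtype).codRestrict θ.ker (fun g => g.2)) ?_
      intro a b hab
      exact Subtype.ext (Subtype.ext (congrArg (fun g : θ.ker => (g : P)) hab))
    exact hE _ (QuotientGroup.mk' _) (QuotientGroup.mk'_surjective _)
      (QuotientGroup.ker_mk' _) ψ.ker θK hKer (fun γ s => hψ γ γ.2 s)
  exact (Ex.ext ψ hL.ex h1).isExact

theorem ee_one {X : Type} [Finite X] (R : Subgroup (FreeGroup X)) [R.Normal]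
    (hR : ∀ K : Subgroup (FreeGroup X ⧸ R), K.FG → VirtSpec K) (c : ℕ) :
    EE.{u} X R (gam R c) := by
  induction c with
  | zero => exact ee_base X R
  | succ c ihc => exact ee_step R [] c (mex_locally ℤ _ hR) ihc

theorem vp_top (X : Type) : VP (FreeGroup X ⧸ (⊤ : Subgroup (FreeGroup X))) := by
  have hs : Subsingleton (FreeGroup X ⧸ (⊤ : Subgroup (FreeGroup X))) :=
    QuotientGroup.subsingleton_quotient_top
  exact ⟨⊤, inferInstance, PolyTFA.triv _⟩

theorem aut_ex (X : Type) [Finite X] (l : List ℕ) :
    IsExact (MulAut (FreeGroup X ⧸ GG (⊤ : Subgroup (FreeGroup X)) l)) := by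
  refine main (L := PUnit.{1}) (⊤ : Subgroup (FreeGroup X)) (GG ⊤ l) (ee_all ⊤ (vp_top X) l)
    (MonoidHom.id _) ?_ ?_ 1 ?_
  · have h1 : Subsingleton (MonoidHom.id
        (MulAut (FreeGroup X ⧸ GG (⊤ : Subgroup (FreeGroup X)) l))).ker := by
      constructor
      rintro ⟨a, ha⟩ ⟨b, hb⟩
      exact Subtype.ext (ha.trans hb.symm)
    exact (Ex.of_finite).isExact
  · exact (Ex.of_finite).isExact
  · intro p _ s
    have h2 : (⊤ : Subgroup (FreeGroup X)).map (QuotientGroup.mk' (GG ⊤ l)) = ⊤ := by
      rw [← MonoidHom.range_eq_map]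
      exact MonoidHom.range_eq_top.mpr (QuotientGroup.mk'_surjective _)
    rw [h2]
    exact Subgroup.mem_top _

theorem out_ex (X : Type) [Finite X] (l : List ℕ) :
    IsExact (Outer (FreeGroup X ⧸ GG (⊤ : Subgroup (FreeGroup X)) l)) := by
  refine isExact_quotient (aut_ex X l) _ ?_
  obtain ⟨H, hH, hP⟩ := vp_GG (⊤ : Subgroup (FreeGroup X)) l (vp_top X)
  have h1 : Am (FreeGroup X ⧸ GG (⊤ : Subgroup (FreeGroup X)) l) :=
    am_virt ⟨H, hH, solv_of_polyTFA hP⟩
  exact h1.of_surj (MulAut.conj (G := FreeGroup X ⧸ GG (⊤ : Subgroup (FreeGroup X)) l)).rangeRestrict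
    (MonoidHom.rangeRestrict_surjective _)

/-- The group is exact and, if it is countable, embeds coarsely into a Hilbert space. -/
def ExactEmb (G : Type u) [Group G] : Prop := IsExact G ∧ (Countable G → CoarselyEmbeds G)

/-- Virtually solvable groups. -/
def VirtSolv (G : Type u) [Group G] : Prop :=
  ∃ H : Subgroup G, H.FiniteIndex ∧ Group.IsSolvable H

/-- Virtually poly-(torsion-free abelian) groups. -/
def VirtPolyTFA (G : Type u) [Group G] : Prop := ∃ H : Subgroup G, H.FiniteIndex ∧ PolyTFA H

/-- Every finitely generated subgroup has a subgroup of finite index which embeds in the product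
of a poly-(torsion-free abelian) group and a right-angled Artin group. -/
def LocVirtSpecial (G : Type u) [Group G] : Prop :=
  ∀ K : Subgroup G, K.FG → ∃ (H : Subgroup K) (_ : H.FiniteIndex) (S : Type u)
    (_ : Group S) (V : Type u) (Γ : SimpleGraph V) (ι : H →* S × RAAG Γ),
    PolyTFA S ∧ Function.Injective ι

/-- The action of `P` on `F / W` by automorphisms has exact kernel, and the kernel of some
homomorphism from `P` to an exact group acts trivially modulo `R`. -/
def ActsRel {X : Type} (R W : Subgroup (FreeGroup X)) [W.Normal] {P : Type u} [Group P]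
    (θ : P →* MulAut (FreeGroup X ⧸ W)) {L : Type v} [Group L] (ψ : P →* L) : Prop :=
  IsExact θ.ker ∧ IsExact L ∧
    ∀ p, ψ p = 1 → ∀ s, θ p s * s⁻¹ ∈ R.map (QuotientGroup.mk' W)

/-- Every group with such an action is exact, and so are its quotients by the virtually solvable
normal subgroups. -/
def RelExact {X : Type} (R W : Subgroup (FreeGroup X)) [W.Normal] : Prop :=
  ∀ (P : Type u) [Group P] (θ : P →* MulAut (FreeGroup X ⧸ W)) (L : Type v) [Group L]
    (ψ : P →* L), ActsRel R W θ ψ →
    ExactEmb P ∧ ∀ (N : Subgroup P) [N.Normal], VirtSolv N → ExactEmb (P ⧸ N)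

theorem relExact {X : Type} (R W : Subgroup (FreeGroup X)) [W.Normal] (hE : EE.{u} X R W) :
    RelExact.{u, v} R W := by
  intro P _ θ L _ ψ h
  have h1 := main R W hE θ h.1 h.2.1 ψ h.2.2
  refine ⟨⟨h1, fun _ => h1.coarselyEmbeds⟩, fun N _ hN => ?_⟩
  have h2 := isExact_quotient h1 N (am_virt hN)
  exact ⟨h2, fun _ => h2.coarselyEmbeds⟩

end Run7.h2.AutEx
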