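import Pool.Agent.N506.EYN
import Pool.Agent.H335PN.TMAG1
import Pool.Agent.H335PN.TMAG2
import Pool.Agent.H335PN.TUPM
import Pool.Agent.Y51.FP.Series

/-!
# Quotients of free groups by the iterated lower central series are poly-(torsion-free abelian)
-/

set_option autoImplicit false

namespace Run7.h2.AutEx

open Pool.Agent.N506.EX Pool.Agent.H335PN Pool.Agent.H335PN.UPMAux Pool.Agent.Y51.FP

theorem gam_eq_lcs {G : Type} [Group G] (N : Subgroup G) (c : ℕ) : gam N c = lcs N c := by
  induction c with
  | zero => rfl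
  | succ c ih => rw [gam_succ, ih]; rfl

theorem mag2 : S_MAG2 := t_MAG2 t_MAG1

/-- Free nilpotent groups of arbitrary rank. -/
theorem polyTFA_nilp (X : Type) (c : ℕ) :
    PolyTFA (FreeGroup X ⧸ lcs (⊤ : Subgroup (FreeGroup X)) c) := by
  classical
  have h1 := mag2
  induction c with
  | zero =>
    have hs : Subsingleton (FreeGroup X ⧸ lcs (⊤ : Subgroup (FreeGroup X)) 0) := by
      show Subsingleton (FreeGroup X ⧸ (⊤ : Subgroup (FreeGroup X)))
      exact QuotientGroup.subsingleton_quotient_top
    exact PolyTFA.triv _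
  | succ c ih =>
    have hle : lcs (⊤ : Subgroup (FreeGroup X)) (c + 1) ≤ lcs ⊤ c := by
      show ⁅lcs (⊤ : Subgroup (FreeGroup X)) c, (⊤ : Subgroup (FreeGroup X))⁆ ≤ _
      exact Subgroup.commutator_le_left _ _
    let q : (FreeGroup X ⧸ lcs (⊤ : Subgroup (FreeGroup X)) (c + 1)) →*
        (FreeGroup X ⧸ lcs (⊤ : Subgroup (FreeGroup X)) c) :=
      QuotientGroup.map _ _ (MonoidHom.id _) (by simpa using hle)
    refine ih.extension _ q ?_
    let R : ∀ L : Fin (c + 1) → X, (FreeGroup X ⧸ lcs (⊤ : Subgroup (FreeGroup X)) (c + 1)) →*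
        (Matrix (Fin (c + 1 + 1)) (Fin (c + 1 + 1)) ℤ)ˣ := fun L =>
      QuotientGroup.lift _ (rep ℤ L) (fun w hw => (h1 X (c + 1) w).1 hw L)
    have hR : ∀ (k : q.ker) (L : Fin (c + 1) → X) (i j : Fin (c + 1 + 1)),
        ¬ (i = 0 ∧ j = Fin.last _) → (R L k).1 i j = (1 : Matrix _ _ ℤ) i j := by
      rintro ⟨g, hg⟩ L i j hij
      obtain ⟨w, rfl⟩ := QuotientGroup.mk_surjective g
      have hw : w ∈ lcs (⊤ : Subgroup (FreeGroup X)) c := by
        rw [MonoidHom.mem_ker] at hg
        exact (QuotientGroup.eq_one_iff w).1 hg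
      exact entries h1 L hw i j hij
    let φ : q.ker →* Multiplicative ((Fin (c + 1) → X) → ℤ) := MonoidHom.mk'
      (fun k => Multiplicative.ofAdd (fun L => (R L k).1 0 (Fin.last _)))
      (fun a b => by
          rw [← ofAdd_add]
          congr 1
          funext L
          rw [Subgroup.coe_mul, map_mul, Units.val_mul, Matrix.mul_apply,
            Fin.sum_univ_castSucc, Pi.add_apply, Fin.sum_univ_succ]
          rw [show (0 : Fin (c + 1)).castSucc = 0 from rfl, hR a L 0 0 (by
            rintro ⟨-, h⟩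
            have := congrArg Fin.val h
            simp at this), hR b L (Fin.last _) (Fin.last _) (by
            rintro ⟨h, -⟩
            have := congrArg Fin.val h
            simp at this)]
          have h0 : ∑ i : Fin c, (R L a).1 0 i.succ.castSucc *
              (R L b).1 i.succ.castSucc (Fin.last _) = 0 := by
            refine Finset.sum_eq_zero fun i _ => ?_
            rw [hR a L 0 _ (by
              rintro ⟨-, h⟩
              exact (Fin.castSucc_lt_last _).ne h), Matrix.one_apply_ne, zero_mul]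
            intro h
            have := congrArg Fin.val h
            simp at this
          rw [h0]
          simp only [Matrix.one_apply_eq]
          ring)
    have hφ : Function.Injective φ := by
      intro a b h
      have h2 : ∀ L, (R L a).1 0 (Fin.last _) = (R L b).1 0 (Fin.last _) := fun L => by
        have := congrArg Multiplicative.toAdd h
        exact congrFun this L
      have h3 : ∀ L, R L a = R L b := by
        intro L
        apply Units.ext
        ext i j
        by_cases hij : i = 0 ∧ j = Fin.last _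
        · rw [hij.1, hij.2]
          exact h2 L
        · rw [hR a L i j hij, hR b L i j hij]
      apply Subtype.ext
      obtain ⟨w, hw⟩ := QuotientGroup.mk_surjective
        ((a : FreeGroup X ⧸ lcs (⊤ : Subgroup (FreeGroup X)) (c + 1))⁻¹ *
        (b : FreeGroup X ⧸ lcs (⊤ : Subgroup (FreeGroup X)) (c + 1)))
      have h4 : w ∈ lcs (⊤ : Subgroup (FreeGroup X)) (c + 1) := by
        rw [h1 X (c + 1) w]
        intro L
        have h5 : rep ℤ L w = R L (QuotientGroup.mk w) := rfl
        rw [h5, hw, map_mul, map_inv, h3 L, inv_mul_cancel]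
      have h6 : (QuotientGroup.mk w :
          FreeGroup X ⧸ lcs (⊤ : Subgroup (FreeGroup X)) (c + 1)) = 1 :=
        (QuotientGroup.eq_one_iff w).2 h4
      rw [h6] at hw
      exact (inv_mul_eq_one.1 hw.symm)
    exact (PolyTFA.comm (Multiplicative ((Fin (c + 1) → X) → ℤ))).of_injective _ φ hφ

/-- Virtually poly-(torsion-free abelian). -/
def VP (S : Type) [Group S] : Prop := ∃ H : Subgroup S, H.FiniteIndex ∧ PolyTFA H

/-- The kernel of `F / γ_{c+1}(R) → F / R`. -/
theorem polyTFA_ker {X : Type} (R : Subgroup (FreeGroup X)) [R.Normal] (c : ℕ)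
    (q : (FreeGroup X ⧸ gam R c) →* (FreeGroup X ⧸ R))
    (hq : ∀ w : FreeGroup X, q (QuotientGroup.mk w) = QuotientGroup.mk w) :
    PolyTFA q.ker := by
  let e : R ≃* FreeGroup (IsFreeGroup.Generators R) := IsFreeGroup.toFreeGroup R
  let f : FreeGroup (IsFreeGroup.Generators R) →* FreeGroup X :=
    R.subtype.comp e.symm.toMonoidHom
  have hf : Function.Injective f := R.subtype_injective.comp e.symm.injective
  have hfr : (⊤ : Subgroup (FreeGroup (IsFreeGroup.Generators R))).map f = R := by
    rw [← MonoidHom.range_eq_map]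
    ext x
    constructor
    · rintro ⟨y, rfl⟩
      exact (e.symm y).2
    · intro hx
      exact ⟨e ⟨x, hx⟩, by simp [f]⟩
  have hfg : (gam (⊤ : Subgroup (FreeGroup (IsFreeGroup.Generators R))) c).map f = gam R c := by
    rw [map_gam, hfr]
  let j : (FreeGroup (IsFreeGroup.Generators R) ⧸
      gam (⊤ : Subgroup (FreeGroup (IsFreeGroup.Generators R))) c) →* (FreeGroup X ⧸ gam R c) :=
    QuotientGroup.map _ _ f (by
      rw [← Subgroup.map_le_iff_le_comap, hfg])
  have hj : Function.Injective j := by
    rw [injective_iff_map_eq_one]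
    intro a ha
    obtain ⟨w, rfl⟩ := QuotientGroup.mk_surjective a
    have h1 : f w ∈ gam R c := (QuotientGroup.eq_one_iff _).mp ha
    rw [← hfg] at h1
    obtain ⟨w', hw', h2⟩ := h1
    rw [QuotientGroup.eq_one_iff, ← hf h2]
    exact hw'
  have hP : PolyTFA (FreeGroup (IsFreeGroup.Generators R) ⧸
      gam (⊤ : Subgroup (FreeGroup (IsFreeGroup.Generators R))) c) := by
    have h1 := polyTFA_nilp (IsFreeGroup.Generators R) c
    refine h1.of_injective _ (QuotientGroup.map _ _ (MonoidHom.id _) (by
      rw [gam_eq_lcs]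
      exact le_rfl)) ?_
    rw [injective_iff_map_eq_one]
    intro a ha
    obtain ⟨w, rfl⟩ := QuotientGroup.mk_surjective a
    have h2 : w ∈ lcs (⊤ : Subgroup (FreeGroup (IsFreeGroup.Generators R))) c :=
      (QuotientGroup.eq_one_iff _).mp ha
    rw [QuotientGroup.eq_one_iff, gam_eq_lcs]
    exact h2
  have hP' : PolyTFA j.range :=
    hP.of_injective _ (MonoidHom.ofInjective hj).symm.toMonoidHom
      (MonoidHom.ofInjective hj).symm.injective
  have hle : q.ker ≤ j.range := by
    intro a ha
    obtain ⟨w, rfl⟩ := QuotientGroup.mk_surjective a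
    rw [MonoidHom.mem_ker, hq, QuotientGroup.eq_one_iff] at ha
    rw [← hfr] at ha
    obtain ⟨w', -, h2⟩ := ha
    exact ⟨QuotientGroup.mk w', by rw [← h2]; rfl⟩
  exact hP'.of_injective _ (Subgroup.inclusion hle) (Subgroup.inclusion_injective hle)

theorem vp_gam {X : Type} (R : Subgroup (FreeGroup X)) [R.Normal] (c : ℕ)
    (h : VP (FreeGroup X ⧸ R)) : VP (FreeGroup X ⧸ gam R c) := by
  obtain ⟨H, hH, hP⟩ := h
  let q : (FreeGroup X ⧸ gam R c) →* (FreeGroup X ⧸ R) :=
    QuotientGroup.map _ _ (MonoidHom.id _) (by simpa using gam_le R c)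
  have hq : ∀ w : FreeGroup X, q (QuotientGroup.mk w) = QuotientGroup.mk w := fun w => rfl
  have hqs : Function.Surjective q := by
    intro a
    obtain ⟨w, rfl⟩ := QuotientGroup.mk_surjective a
    exact ⟨QuotientGroup.mk w, rfl⟩
  refine ⟨H.comap q, ⟨?_⟩, ?_⟩
  · rw [Subgroup.index_comap_of_surjective H hqs]
    exact hH.index_ne_zero
  · let π : H.comap q →* H := (q.comp (H.comap q).subtype).codRestrict H (fun g => g.2)
    refine hP.extension _ π ?_
    refine (polyTFA_ker R c q hq).of_injective _
      (((H.comap q).subtype.comp π.ker.subtype).codRestrict q.ker (fun g => ?_)) ?_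
    · have h1 := g.2
      rw [MonoidHom.mem_ker] at h1 ⊢
      exact congrArg Subtype.val h1
    · intro a b hab
      exact Subtype.ext (Subtype.ext (congrArg (fun g : q.ker => (g : FreeGroup X ⧸ gam R c)) hab))

theorem vp_GG {X : Type} (R : Subgroup (FreeGroup X)) [R.Normal] (l : List ℕ)
    (h : VP (FreeGroup X ⧸ R)) : VP (FreeGroup X ⧸ GG R l) := by
  induction l with
  | nil => exact h
  | cons c l ih => exact vp_gam (GG R l) c ih

theorem VP.mex {S : Type} [Group S] (h : VP S) : MEx (MonoidAlgebra ℤ S) := by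
  obtain ⟨H, hH, hP⟩ := h
  have h1 : VirtSpec S := ⟨H, hH, H, inferInstance, PEmpty, ⊥, (MonoidHom.id H).prod 1, hP, by
    intro a b hab
    exact congrArg Prod.fst hab⟩
  exact h1.mex ℤ

end Run7.h2.AutEx
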