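import Pool.Agent.Run7.h2.ExMag
import Pool.Agent.Run7.h2.ExPoly

/-!
# Automorphisms of quotients of free groups by the iterated lower central series
-/

set_option autoImplicit false

namespace Run7.h2.AutEx

open Pool.Agent.N506.EX Pool.Agent.Y51.FP

open scoped commutatorElement

universe u v

/-- The automorphism group of `F / N` relative to `R` is exact. -/
def EE (X : Type) (R N : Subgroup (FreeGroup X)) : Prop :=
  ∀ (S : Type) [Group S] (π : FreeGroup X →* S), Function.Surjective π → π.ker = N →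
    ∀ (Γ : Type u) [Group Γ] (θ : Γ →* MulAut S), Ex θ.ker →
      (∀ γ s, θ γ s * s⁻¹ ∈ R.map π) → Ex Γ

theorem ee_base (X : Type) (R : Subgroup (FreeGroup X)) : EE.{u} X R R := by
  intro S _ π hπ hk Γ _ θ hθ h
  have h1 : ∀ γ, γ ∈ θ.ker := by
    intro γ
    rw [MonoidHom.mem_ker]
    apply MulEquiv.ext
    intro s
    obtain ⟨r, hr, h2⟩ := h γ s
    have h3 : π r = 1 := by
      have : r ∈ π.ker := by rw [hk]; exact hr
      exact this
    rw [h3] at h2
    exact mul_inv_eq_one.mp h2.symm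
  exact hθ.of_injective ((MonoidHom.id Γ).codRestrict θ.ker h1) (fun a b hab =>
    congrArg Subtype.val hab)

theorem ee_step {X : Type} [Finite X] (R : Subgroup (FreeGroup X)) [R.Normal] (l : List ℕ)
    (j : ℕ) (hM : MEx (MonoidAlgebra ℤ (FreeGroup X ⧸ GG R l)))
    (ih : EE.{u} X R (gam (GG R l) j)) : EE.{u} X R (gam (GG R l) (j + 1)) := by
  intro S _ π hπ hk Γ _ θ hθ h
  let V : Subgroup (FreeGroup X) := GG R l
  let π' : FreeGroup X →* (FreeGroup X ⧸ gam V j) := QuotientGroup.mk' _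
  have hk' : π'.ker = gam V j := QuotientGroup.ker_mk' _
  have hkk : π.ker ≤ π'.ker := by
    rw [hk, hk']
    exact gam_succ_le V j
  obtain ⟨q, hq⟩ : ∃ q : S →* (FreeGroup X ⧸ gam V j), ∀ w, q (π w) = π' w :=
    ⟨π.liftOfSurjective hπ ⟨π', hkk⟩, fun w =>
      MonoidHom.liftOfRightInverse_comp_apply π _ (Function.rightInverse_surjInv hπ) ⟨π', hkk⟩ w⟩
  have hqs : Function.Surjective q := by
    intro t
    obtain ⟨w, rfl⟩ := QuotientGroup.mk'_surjective _ t
    exact ⟨π w, hq w⟩
  have hqk : q.ker = (gam V j).map π := by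
    ext s
    obtain ⟨w, rfl⟩ := hπ s
    rw [MonoidHom.mem_ker, hq]
    constructor
    · intro hw
      refine ⟨w, ?_, rfl⟩
      have : w ∈ π'.ker := hw
      rwa [hk'] at this
    · rintro ⟨v, hv, hvw⟩
      have h1 : v ∈ π'.ker := by rw [hk']; exact hv
      rw [← hq, ← hvw, hq]
      exact h1
  -- the action preserves the characteristic subgroups
  have hR : ∀ γ, (R.map π).map (θ γ).toMonoidHom ≤ R.map π := by
    rintro γ _ ⟨s, hs, rfl⟩
    have h1 : (θ γ).toMonoidHom s = (θ γ s * s⁻¹) * s := by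
      show θ γ s = _
      group
    rw [h1]
    exact mul_mem (h γ s) hs
  have hpres : ∀ γ s, q s = 1 → q (θ γ s) = 1 := by
    intro γ s hs
    have h1 : s ∈ (gam V j).map π := by rw [← hqk]; exact hs
    rw [← MonoidHom.mem_ker, hqk, map_gam, map_GG]
    rw [map_gam, map_GG] at h1
    have h2 : (gam (GG (R.map π) l) j).map (θ γ).toMonoidHom ≤ gam (GG (R.map π) l) j := by
      rw [map_gam, map_GG]
      exact gam_mono (GG_mono (hR γ) l) j
    exact h2 ⟨s, h1, rfl⟩
  obtain ⟨θ', hθ'⟩ := exists_desc q hqs θ hpres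
  refine ih _ π' (QuotientGroup.mk'_surjective _) hk' Γ θ' ?_ ?_
  swap
  · intro γ t
    obtain ⟨s, rfl⟩ := hqs t
    rw [hθ', ← map_inv, ← map_mul]
    obtain ⟨r, hr, h2⟩ := h γ s
    exact ⟨r, hr, by rw [← h2, hq]⟩
  -- the kernel
  let K := θ'.ker
  let θK : K →* MulAut S := θ.comp K.subtype
  have hKer : Ex θK.ker := by
    refine hθ.of_injective ((K.subtype.comp θK.ker.subtype).codRestrict θ.ker (fun g => g.2)) ?_
    intro a b hab
    exact Subtype.ext (Subtype.ext (congrArg (fun g : θ.ker => (g : Γ)) hab))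
  have hKq : ∀ (γ : K) s, q (θK γ s) = q s := by
    intro γ s
    show q (θ γ s) = q s
    rw [← hθ']
    have h1 : θ' (γ : Γ) = 1 := γ.2
    rw [h1, MulAut.one_apply]
  show Ex K
  cases j with
  | zero =>
    refine magnus_ex_free π' (QuotientGroup.mk'_surjective _) π hπ ?_ hM q hq θK hKq hKer
    rw [hk, hk']
    rfl
  | succ i =>
    have hcomm : ∀ a ∈ (gam V (i + 1)).map π, ∀ b ∈ V.map π, a * b = b * a := by
      rintro _ ⟨a, ha, rfl⟩ _ ⟨b, hb, rfl⟩
      rw [← commutatorElement_eq_one_iff_mul_comm, ← map_commutatorElement, ← MonoidHom.mem_ker, hk]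
      exact Subgroup.commutator_mem_commutator ha hb
    have hle : (gam V (i + 1)).map π ≤ V.map π := Subgroup.map_mono (gam_le V (i + 1))
    have hle' : (gam V i).map π ≤ V.map π := Subgroup.map_mono (gam_le V i)
    have hmem : ∀ (γ : K) s, θK γ s * s⁻¹ ∈ (gam V (i + 1)).map π := by
      intro γ s
      rw [← hqk, MonoidHom.mem_ker, map_mul, hKq, map_inv, mul_inv_cancel]
    refine central_ex ((gam V (i + 1)).map π) θK hKer hmem ?_
      (fun a ha b hb => hcomm a ha b (hle hb))
    intro γ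
    have h3 : (gam V (i + 1)).map π ≤ (θK γ).toMonoidHom.eqLocus (MonoidHom.id S) := by
      rw [gam_succ, Subgroup.map_commutator, Subgroup.commutator_le]
      intro a ha b hb
      show θK γ ⁅a, b⁆ = ⁅a, b⁆
      have ha' := hle' ha
      obtain ⟨c, hc, hca⟩ : ∃ c ∈ (gam V (i + 1)).map π, θK γ a = c * a :=
        ⟨_, hmem γ a, by group⟩
      obtain ⟨d, hd, hdb⟩ : ∃ d ∈ (gam V (i + 1)).map π, θK γ b = d * b :=
        ⟨_, hmem γ b, by group⟩
      rw [map_commutatorElement, hca, hdb]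
      have e1 : c * a = a * c := hcomm c hc a ha'
      have e2 : c * b = b * c := hcomm c hc b hb
      have e3 : d * a = a * d := hcomm d hd a ha'
      have e4 : d * b = b * d := hcomm d hd b hb
      have e5 : c * d = d * c := hcomm c hc d (hle hd)
      have C1 : Commute c a := e1
      have C2 : Commute c b := e2
      have C3 : Commute d a := e3
      have C4 : Commute d b := e4
      have C5 : Commute c d := e5
      rw [commutatorElement_def, commutatorElement_def, mul_inv_rev, mul_inv_rev]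
      calc c * a * (d * b) * (a⁻¹ * c⁻¹) * (b⁻¹ * d⁻¹)
          = c * (a * d) * b * a⁻¹ * c⁻¹ * b⁻¹ * d⁻¹ := by group
        _ = c * (d * a) * b * a⁻¹ * c⁻¹ * b⁻¹ * d⁻¹ := by rw [e3]
        _ = c * (d * (a * b * a⁻¹)) * (c⁻¹ * b⁻¹) * d⁻¹ := by group
        _ = c * ((a * b * a⁻¹) * d) * (b⁻¹ * c⁻¹) * d⁻¹ := by
            rw [((C3.mul_right C4).mul_right C3.inv_right).eq, (C2.inv_inv).eq]
        _ = (c * (a * b * a⁻¹)) * (d * b⁻¹) * c⁻¹ * d⁻¹ := by group
        _ = ((a * b * a⁻¹) * c) * (b⁻¹ * d) * c⁻¹ * d⁻¹ := by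
            rw [((C1.mul_right C2).mul_right C1.inv_right).eq, (C4.inv_right).eq]
        _ = (a * b * a⁻¹) * (c * b⁻¹) * d * c⁻¹ * d⁻¹ := by group
        _ = (a * b * a⁻¹) * (b⁻¹ * c) * d * c⁻¹ * d⁻¹ := by rw [(C2.inv_right).eq]
        _ = (a * b * a⁻¹ * b⁻¹) * (c * d) * c⁻¹ * d⁻¹ := by group
        _ = a * b * a⁻¹ * b⁻¹ := by rw [e5]; group
    exact fun z hz => h3 hz

theorem ee_all {X : Type} [Finite X] (R : Subgroup (FreeGroup X)) [R.Normal]
    (hR : VP (FreeGroup X ⧸ R)) (l : List ℕ) : EE.{u} X R (GG R l) := by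
  induction l with
  | nil => exact ee_base X R
  | cons c l ih =>
    show EE.{u} X R (gam (GG R l) c)
    induction c with
    | zero => exact ih
    | succ c ihc => exact ee_step R l c (vp_GG R l hR).mex ihc

end Run7.h2.AutEx
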