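import Pool.Agent.N506.EXL
import Pool.Agent.N506.EXC
import Pool.Agent.Helper777.Prof.P_magnus_ker

/-!
# The Fox Jacobian of automorphisms of `F / [R, R]` which are trivial modulo `R`
-/

set_option autoImplicit false
set_option linter.unusedSectionVars false

namespace Run7.h2.AutEx

open Pool.Agent.N506.EX Pool.Agent.Helper777.Prof

universe u v

section Magnus

variable {X Q S : Type} [Fintype X] [DecidableEq X] [Group Q] [Group S]

/-- Right multiplication of the vector part by a matrix. -/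
noncomputable def rmul (J : Matrix X X (MonoidAlgebra ℤ Q)) : Wr ℤ Q X →* Wr ℤ Q X :=
  MonoidHom.mk' (fun w => ⟨Matrix.vecMul w.v J, w.m⟩) (fun a b => by
    apply Wr.ext
    · show Matrix.vecMul (a.v + (MonoidAlgebra.of ℤ Q a.m) • b.v) J =
        Matrix.vecMul a.v J + (MonoidAlgebra.of ℤ Q a.m) • Matrix.vecMul b.v J
      rw [Matrix.add_vecMul, Matrix.smul_vecMul]
    · rfl)

theorem rmul_v (J : Matrix X X (MonoidAlgebra ℤ Q)) (w : Wr ℤ Q X) :
    (rmul J w).v = Matrix.vecMul w.v J := rfl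

theorem rmul_m (J : Matrix X X (MonoidAlgebra ℤ Q)) (w : Wr ℤ Q X) : (rmul J w).m = w.m := rfl

variable (mg : S →* Wr ℤ Q X) (x : X → S) (hx : Subgroup.closure (Set.range x) = ⊤)
  (hmx : ∀ i, (mg (x i)).v = Pi.single i 1)
  {Γ : Type u} [Group Γ] (θ : Γ →* MulAut S) (hθ : ∀ γ s, (mg (θ γ s)).m = (mg s).m)

/-- The Jacobian. -/
noncomputable def jac (γ : Γ) : Matrix X X (MonoidAlgebra ℤ Q) :=
  Matrix.of fun i j => (mg (θ γ (x i))).v j

include hx hmx hθ in
theorem mg_jac (γ : Γ) (s : S) : mg (θ γ s) = rmul (jac mg x θ γ) (mg s) := by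
  have h : (mg.comp (θ γ).toMonoidHom) = (rmul (jac mg x θ γ)).comp mg := by
    refine MonoidHom.eq_of_eqOn_dense hx ?_
    rintro _ ⟨i, rfl⟩
    show mg (θ γ (x i)) = rmul (jac mg x θ γ) (mg (x i))
    apply Wr.ext
    · rw [rmul_v, hmx, Matrix.single_one_vecMul]
      rfl
    · rw [rmul_m, hθ]
  exact DFunLike.congr_fun h s

include hx hmx hθ in
theorem jac_mul (γ δ : Γ) : jac mg x θ (γ * δ) = jac mg x θ δ * jac mg x θ γ := by
  ext1 i j
  show (mg (θ (γ * δ) (x i))).v j = _
  rw [map_mul, MulAut.mul_apply, mg_jac mg x hx hmx θ hθ, rmul_v]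
  rfl

include hmx in
theorem jac_one : jac mg x θ 1 = 1 := by
  ext1 i j
  show (mg (θ 1 (x i))).v j = _
  rw [map_one, MulAut.one_apply, hmx, Matrix.one_apply, Pi.single_apply]
  simp only [eq_comm]

include hx hmx hθ in
/-- The kernel of the action on `F / R` of the automorphism group of `F / [R, R]` is exact if
`GL_n (ℤ [F / R])` is. -/
theorem magnus_ex (hmg : Function.Injective mg) (hM : MEx (MonoidAlgebra ℤ Q))
    (hk : Ex θ.ker) : Ex Γ := by
  let Φ : Γ →* (Matrix X X (MonoidAlgebra ℤ Q))ˣ :=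
    { toFun := fun γ => ⟨jac mg x θ γ⁻¹, jac mg x θ γ, by
        rw [← jac_mul mg x hx hmx θ hθ, mul_inv_cancel, jac_one mg x hmx θ], by
        rw [← jac_mul mg x hx hmx θ hθ, inv_mul_cancel, jac_one mg x hmx θ]⟩
      map_one' := by
        apply Units.ext
        show jac mg x θ 1⁻¹ = 1
        rw [inv_one, jac_one mg x hmx θ]
      map_mul' := fun γ δ => by
        apply Units.ext
        show jac mg x θ (γ * δ)⁻¹ = jac mg x θ γ⁻¹ * jac mg x θ δ⁻¹
        rw [mul_inv_rev, jac_mul mg x hx hmx θ hθ] }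
  have hX : Ex (Matrix X X (MonoidAlgebra ℤ Q))ˣ :=
    (hM (Fintype.card X)).of_injective
      (Units.mapEquiv ((Matrix.reindexAlgEquiv ℤ (MonoidAlgebra ℤ Q)
        (Fintype.equivFin X)).toMulEquiv)).toMonoidHom (MulEquiv.injective _)
  refine Ex.ext Φ hX ?_
  have hle : Φ.ker ≤ θ.ker := by
    intro γ hγ
    rw [MonoidHom.mem_ker] at hγ ⊢
    have h1 : jac mg x θ γ = 1 := by
      have h2 : (Φ γ)⁻¹ = 1 := by rw [hγ, inv_one]
      exact congrArg Units.val h2
    apply MulEquiv.ext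
    intro s
    apply hmg
    rw [mg_jac mg x hx hmx θ hθ, h1]
    apply Wr.ext
    · rw [rmul_v, Matrix.vecMul_one]
      rfl
    · rfl
  exact hk.of_injective (Subgroup.inclusion hle) (Subgroup.inclusion_injective hle)

end Magnus

/-- The situation of a free group. -/
theorem magnus_ex_free {X Q S : Type} [Finite X] [Group Q] [Group S]
    (ρ : FreeGroup X →* Q) (hρ : Function.Surjective ρ) (π : FreeGroup X →* S)
    (hπ : Function.Surjective π) (hk : π.ker = ⁅ρ.ker, ρ.ker⁆)
    (hM : MEx (MonoidAlgebra ℤ Q)) (q : S →* Q) (hq : ∀ w, q (π w) = ρ w)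
    {Γ : Type u} [Group Γ] (θ : Γ →* MulAut S) (hθ : ∀ γ s, q (θ γ s) = q s)
    (hker : Ex θ.ker) : Ex Γ := by
  classical
  have : Fintype X := Fintype.ofFinite X
  have h1 : ∀ w, mag ρ w = 1 ↔ w ∈ ⁅ρ.ker, ρ.ker⁆ := by
    intro w
    refine ⟨magnus_ker ρ hρ w, fun hw => ?_⟩
    have h2 : ⁅ρ.ker, ρ.ker⁆ ≤ (mag ρ).ker := by
      rw [Subgroup.commutator_le]
      intro a ha b hb
      rw [MonoidHom.mem_ker] at ha hb ⊢
      rw [map_commutatorElement, commutatorElement_eq_one_iff_mul_comm]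
      have ha' : (mag ρ a).m = 1 := by rw [mag_m, ha]
      have hb' : (mag ρ b).m = 1 := by rw [mag_m, hb]
      apply Wr.ext
      · rw [Wr.mul_v, Wr.mul_v, ha', hb', map_one, one_smul, one_smul, add_comm]
      · rw [Wr.mul_m, Wr.mul_m, ha', hb']
    exact h2 hw
  have h3 : π.ker ≤ (mag ρ).ker := by
    intro w hw
    rw [hk] at hw
    exact (h1 w).mpr hw
  obtain ⟨mg, hmg⟩ : ∃ mg : S →* Wr ℤ Q X, ∀ w, mg (π w) = mag ρ w :=
    ⟨π.liftOfSurjective hπ ⟨mag ρ, h3⟩, fun w =>
      MonoidHom.liftOfRightInverse_comp_apply π _ (Function.rightInverse_surjInv hπ) ⟨mag ρ, h3⟩ w⟩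
  have hmgm : ∀ s, (mg s).m = q s := by
    intro s
    obtain ⟨w, rfl⟩ := hπ s
    rw [hmg, mag_m, hq]
  refine magnus_ex mg (fun i => π (FreeGroup.of i)) ?_ ?_ θ ?_ ?_ hM hker
  · have h4 : Set.range (fun i => π (FreeGroup.of i)) = π '' Set.range FreeGroup.of := by
      rw [← Set.range_comp]
      rfl
    rw [h4, ← MonoidHom.map_closure, FreeGroup.closure_range_of, ← MonoidHom.range_eq_map,
      MonoidHom.range_eq_top.mpr hπ]
  · intro i
    rw [hmg]
    unfold mag
    rw [FreeGroup.lift_apply_of]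
  · intro γ s
    rw [hmgm, hmgm, hθ]
  · rw [injective_iff_map_eq_one]
    intro s hs
    obtain ⟨w, rfl⟩ := hπ s
    rw [hmg, h1, ← hk] at hs
    exact hs

/-- Automorphisms which are trivial on a commutative normal subgroup and on the quotient. -/
theorem central_ex {S : Type} [Group S] (Z : Subgroup S) {Γ : Type u} [Group Γ]
    (θ : Γ →* MulAut S) (hker : Ex θ.ker) (h1 : ∀ γ s, θ γ s * s⁻¹ ∈ Z)
    (h2 : ∀ γ, ∀ z ∈ Z, θ γ z = z) (hZ : ∀ a ∈ Z, ∀ b ∈ Z, a * b = b * a) : Ex Γ := by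
  have hc : ∀ γ δ, θ γ * θ δ = θ δ * θ γ := by
    intro γ δ
    apply MulEquiv.ext
    intro s
    obtain ⟨d, hd, ed⟩ : ∃ d ∈ Z, θ δ s = d * s := ⟨_, h1 δ s, by group⟩
    obtain ⟨c, hc, ec⟩ : ∃ c ∈ Z, θ γ s = c * s := ⟨_, h1 γ s, by group⟩
    rw [MulAut.mul_apply, MulAut.mul_apply, ed, ec, map_mul, map_mul, h2 γ d hd, h2 δ c hc, ec,
      ed, ← mul_assoc, ← mul_assoc, hZ d hd c hc]
  let C : CommGroup θ.range :=
    { (inferInstance : Group θ.range) with
      mul_comm := by
        rintro ⟨_, γ, rfl⟩ ⟨_, δ, rfl⟩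
        exact Subtype.ext (hc γ δ) }
  have hR : Ex θ.range := (@Am.of_comm θ.range C).ex
  refine Ex.ext θ.rangeRestrict hR ?_
  rw [MonoidHom.ker_rangeRestrict]
  exact hker

/-- Automorphisms descend to quotients. -/
theorem exists_desc {S S' : Type} [Group S] [Group S'] (q : S →* S')
    (hq : Function.Surjective q) {Γ : Type u} [Group Γ] (θ : Γ →* MulAut S)
    (h : ∀ γ s, q s = 1 → q (θ γ s) = 1) :
    ∃ θ' : Γ →* MulAut S', ∀ γ s, θ' γ (q s) = q (θ γ s) := by
  have h1 : ∀ γ, ∃ f : S' →* S', ∀ s, f (q s) = q (θ γ s) := by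
    intro γ
    have h3 : q.ker ≤ (q.comp (θ γ).toMonoidHom).ker := fun s hs => h γ s hs
    exact ⟨q.liftOfSurjective hq ⟨q.comp (θ γ).toMonoidHom, h3⟩, fun s =>
      MonoidHom.liftOfRightInverse_comp_apply q _ (Function.rightInverse_surjInv hq)
        ⟨q.comp (θ γ).toMonoidHom, h3⟩ s⟩
  choose f hf using h1
  refine ⟨{ toFun := fun γ =>
              { toFun := f γ
                invFun := f γ⁻¹
                left_inv := fun t => by
                  obtain ⟨s, rfl⟩ := hq t
                  rw [hf, hf, ← MulAut.mul_apply, ← map_mul, inv_mul_cancel, map_one,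
                    MulAut.one_apply]
                right_inv := fun t => by
                  obtain ⟨s, rfl⟩ := hq t
                  rw [hf, hf, ← MulAut.mul_apply, ← map_mul, mul_inv_cancel, map_one,
                    MulAut.one_apply]
                map_mul' := fun a b => map_mul (f γ) a b }
            map_one' := by
              apply MulEquiv.ext
              intro t
              obtain ⟨s, rfl⟩ := hq t
              show f 1 (q s) = q s
              rw [hf, map_one, MulAut.one_apply]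
            map_mul' := fun γ δ => by
              apply MulEquiv.ext
              intro t
              obtain ⟨s, rfl⟩ := hq t
              show f (γ * δ) (q s) = f γ (f δ (q s))
              rw [hf, hf, hf, map_mul, MulAut.mul_apply] }, fun γ s => hf γ s⟩

end Run7.h2.AutEx
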