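import Mathlib

/-!
Abstract fusion semirings with the Frobenius congruence at the prime `3`.
-/

namespace Run7.h2

universe u

/-- A fusion semiring (the representation semiring of a semisimple Hopf algebra of dimension
prime to `3`). -/
structure Fus (E : Type u) [Semiring E] where
  S : Set E
  st : E → E
  d : E → ℕ
  t : E → ℕ
  add_cancel : ∀ a b c : E, a + b = a + c → b = c
  d_one : d 1 = 1
  d_zero : d 0 = 0
  d_add : ∀ a b, d (a + b) = d a + d b
  d_mul : ∀ a b, d (a * b) = d a * d b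
  d_st : ∀ a, d (st a) = d a
  t_zero : t 0 = 0
  t_add : ∀ a b, t (a + b) = t a + t b
  t_comm : ∀ a b, t (a * b) = t (b * a)
  t_st : ∀ a, t (st a) = t a
  st_add : ∀ a b, st (a + b) = st a + st b
  st_mul : ∀ a b, st (a * b) = st b * st a
  st_st : ∀ a, st (st a) = a
  one_mem : 1 ∈ S
  st_mem : ∀ a ∈ S, st a ∈ S
  d_pos : ∀ a ∈ S, 0 < d a
  orth_self : ∀ a ∈ S, t (a * st a) = 1
  orth_ne : ∀ a ∈ S, ∀ b ∈ S, a ≠ b → t (a * st b) = 0
  gen : ∀ x : E, ∃ s : Multiset E, (∀ a ∈ s, a ∈ S) ∧ s.sum = x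
  fs3 : ∀ x : E, t (x ^ 3) ≡ t x [MOD 3]
  f3 : ∀ h ∈ S, d h = 1 → ∀ x ∈ S, h * x = x → h ^ (d x) = 1
  fin_ord : ∀ h ∈ S, d h = 1 → ∃ m : ℕ, 0 < m ∧ h ^ m = 1

namespace Fus

variable {E : Type u} [Semiring E] (F : Fus E)

/-- the inner product -/
def ip (x y : E) : ℕ := F.t (x * F.st y)

lemma ip_add_left (x y z : E) : F.ip (x + y) z = F.ip x z + F.ip y z := by
  simp [ip, add_mul, F.t_add]

lemma ip_add_right (x y z : E) : F.ip x (y + z) = F.ip x y + F.ip x z := by
  simp [ip, F.st_add, mul_add, F.t_add]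

lemma st_zero : F.st 0 = 0 := by
  have h : F.st 0 + F.st 0 = F.st 0 + 0 := by rw [← F.st_add, add_zero, add_zero]
  exact F.add_cancel _ _ _ h

lemma st_one : F.st 1 = 1 := by
  have h : F.st (F.st 1) = F.st (F.st 1) * F.st 1 := by
    conv_lhs => rw [← one_mul (F.st 1), F.st_mul]
  rw [F.st_st, one_mul] at h
  exact h.symm

lemma ip_zero_left (x : E) : F.ip 0 x = 0 := by simp [ip, F.t_zero]
lemma ip_zero_right (x : E) : F.ip x 0 = 0 := by simp [ip, F.st_zero, F.t_zero]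

lemma ip_comm (x y : E) : F.ip x y = F.ip y x := by
  unfold ip
  rw [← F.t_st, F.st_mul, F.st_st]

lemma ip_one (x : E) : F.ip x 1 = F.t x := by simp [ip, F.st_one]

/-- Frobenius reciprocity, left -/
lemma ip_mul_left (x y z : E) : F.ip (x * y) z = F.ip y (F.st x * z) := by
  unfold ip
  rw [F.st_mul, F.st_st, mul_assoc, F.t_comm, mul_assoc]

/-- Frobenius reciprocity, right -/
lemma ip_mul_right (x y z : E) : F.ip (x * y) z = F.ip x (z * F.st y) := by
  unfold ip
  rw [F.st_mul, F.st_st, mul_assoc]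

lemma ip_st (x y : E) : F.ip (F.st x) (F.st y) = F.ip x y := by
  rw [F.ip_comm x y]
  unfold ip
  rw [F.st_st, F.t_comm]

lemma ip_st' (x y : E) : F.ip (F.st x) y = F.ip x (F.st y) := by
  rw [← F.ip_st x, F.st_st]

lemma ip_self {a : E} (ha : a ∈ F.S) : F.ip a a = 1 := F.orth_self a ha

lemma ip_ne {a b : E} (ha : a ∈ F.S) (hb : b ∈ F.S) (h : a ≠ b) : F.ip a b = 0 :=
  F.orth_ne a ha b hb h

lemma ip_le_one {a b : E} (ha : a ∈ F.S) (hb : b ∈ F.S) : F.ip a b ≤ 1 := by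
  by_cases h : a = b
  · subst h; rw [F.ip_self ha]
  · rw [F.ip_ne ha hb h]; omega

lemma eq_of_ip {a b : E} (ha : a ∈ F.S) (hb : b ∈ F.S) (h : F.ip a b ≠ 0) : a = b := by
  by_contra hne
  exact h (F.ip_ne ha hb hne)

lemma norm_mul_right (x y : E) : F.ip (x * y) (x * y) = F.ip (F.st x * x) (y * F.st y) := by
  rw [F.ip_mul_left, ← mul_assoc, F.ip_comm, F.ip_mul_right]

/-- a simple summand can be split off -/
lemma split {x a : E} (ha : a ∈ F.S) (h : F.ip x a ≠ 0) : ∃ y, x = a + y := by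
  classical
  obtain ⟨s, hs, rfl⟩ := F.gen x
  by_cases hmem : a ∈ s
  · obtain ⟨s', rfl⟩ := Multiset.exists_cons_of_mem hmem
    exact ⟨s'.sum, by simp⟩
  · exfalso
    apply h
    clear h
    induction s using Multiset.induction_on with
    | empty => simp [F.ip_zero_left]
    | cons b s ih =>
      rw [Multiset.sum_cons, F.ip_add_left, ih (fun c hc => hs c (Multiset.mem_cons_of_mem hc))
        (fun hc => hmem (Multiset.mem_cons_of_mem hc))]
      rw [F.ip_ne (hs b (Multiset.mem_cons_self b s)) ha]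
      rintro rfl
      exact hmem (Multiset.mem_cons_self _ s)

/-- a nonzero element has a simple summand -/
lemma exists_split {x : E} (h : x ≠ 0) : ∃ a y, a ∈ F.S ∧ x = a + y := by
  obtain ⟨s, hs, rfl⟩ := F.gen x
  have : s ≠ 0 := by rintro rfl; simp at h
  obtain ⟨a, ha⟩ := Multiset.exists_mem_of_ne_zero this
  obtain ⟨s', rfl⟩ := Multiset.exists_cons_of_mem ha
  exact ⟨a, s'.sum, hs a ha, by simp⟩

lemma eq_zero_of_d {x : E} (h : F.d x = 0) : x = 0 := by
  by_contra hx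
  obtain ⟨a, y, ha, rfl⟩ := F.exists_split hx
  have := F.d_pos a ha
  rw [F.d_add] at h
  omega

lemma eq_zero_of_norm {x : E} (h : F.ip x x = 0) : x = 0 := by
  by_contra hx
  obtain ⟨a, y, ha, rfl⟩ := F.exists_split hx
  have h1 : F.ip (a + y) (a + y) = F.ip a a + F.ip a y + F.ip y a + F.ip y y := by
    rw [F.ip_add_left, F.ip_add_right, F.ip_add_right]; ring
  rw [h1, F.ip_self ha] at h
  omega

lemma norm_add (x y : E) : F.ip (x + y) (x + y) = F.ip x x + 2 * F.ip x y + F.ip y y := by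
  rw [F.ip_add_left, F.ip_add_right, F.ip_add_right, F.ip_comm y x]; ring

lemma simple_of_norm {x : E} (h : F.ip x x = 1) : x ∈ F.S := by
  have hx : x ≠ 0 := by rintro rfl; rw [F.ip_zero_left] at h; omega
  obtain ⟨a, y, ha, rfl⟩ := F.exists_split hx
  rw [F.norm_add, F.ip_self ha] at h
  have : y = 0 := F.eq_zero_of_norm (by omega)
  rw [this, add_zero]; exact ha

lemma norm_two {x : E} (h : F.ip x x = 2) : ∃ a b, a ∈ F.S ∧ b ∈ F.S ∧ a ≠ b ∧ x = a + b := by
  have hx : x ≠ 0 := by rintro rfl; rw [F.ip_zero_left] at h; omega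
  obtain ⟨a, y, ha, rfl⟩ := F.exists_split hx
  rw [F.norm_add, F.ip_self ha] at h
  have h0 : F.ip y y ≠ 0 := by
    intro h0
    rw [F.eq_zero_of_norm h0, F.ip_zero_right] at h
    rw [F.ip_zero_right] at h
    omega
  have h1 : F.ip y y = 1 := by omega
  have hb := F.simple_of_norm h1
  refine ⟨a, y, ha, hb, ?_, rfl⟩
  rintro rfl
  rw [F.ip_self ha] at h
  omega

lemma norm_three {x : E} (h : F.ip x x = 3) : ∃ a b c, a ∈ F.S ∧ b ∈ F.S ∧ c ∈ F.S ∧ a ≠ b ∧
    a ≠ c ∧ b ≠ c ∧ x = a + b + c := by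
  have hx : x ≠ 0 := by rintro rfl; rw [F.ip_zero_left] at h; omega
  obtain ⟨a, y, ha, rfl⟩ := F.exists_split hx
  rw [F.norm_add, F.ip_self ha] at h
  have h0 : F.ip y y ≠ 0 := by
    intro h0
    rw [F.eq_zero_of_norm h0, F.ip_zero_right] at h
    rw [F.ip_zero_right] at h
    omega
  have h2 : F.ip a y = 0 := by
    by_contra h2
    obtain ⟨z, rfl⟩ := F.split ha (by rw [F.ip_comm]; exact h2)
    rw [F.ip_add_right, F.norm_add, F.ip_self ha] at h
    omega
  obtain ⟨b, c, hb, hc, hbc, rfl⟩ := F.norm_two (x := y) (by omega)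
  rw [F.ip_add_right] at h2
  refine ⟨a, b, c, ha, hb, hc, ?_, ?_, hbc, by rw [add_assoc]⟩
  · rintro rfl; rw [F.ip_self ha] at h2; omega
  · rintro rfl; rw [F.ip_self ha] at h2; omega

/-- degree estimates -/
lemma d_ge1 {a : E} (ha : a ∈ F.S) (x : E) : F.ip x a * F.d a ≤ F.d x ∧
    ∃ y, x = F.ip x a • a + y ∧ F.ip y a = 0 := by
  have key : ∀ m : ℕ, ∀ x, F.ip x a = m → ∃ y, x = m • a + y ∧ F.ip y a = 0 := by
    intro m
    induction m with
    | zero => intro x hx; exact ⟨x, by simp, hx⟩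
    | succ m ih =>
      intro x hx
      obtain ⟨z, rfl⟩ := F.split ha (x := x) (by omega)
      rw [F.ip_add_left, F.ip_self ha] at hx
      obtain ⟨y, hy, hy0⟩ := ih z (by omega)
      refine ⟨y, ?_, hy0⟩
      rw [hy, succ_nsmul']
      rw [add_assoc]
  obtain ⟨y, hy, hy0⟩ := key _ x rfl
  refine ⟨?_, y, hy, hy0⟩
  have hd : ∀ m : ℕ, F.d (m • a) = m * F.d a := by
    intro m
    induction m with
    | zero => simp [F.d_zero]
    | succ m ih => rw [succ_nsmul, F.d_add, ih]; ring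
  have := congrArg F.d hy
  rw [F.d_add, hd] at this
  omega

end Fus

end Run7.h2
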