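import Pool.Agent.Run7.h2.Fus9

/-!
The shape `1 + 4 + 4` : basic facts.
-/

namespace Run7.h2

universe u

namespace Fus

variable {E : Type u} [Semiring E] (F : Fus E)

/-- self-dual type -/
structure TS (V P Q : E) : Prop where
  hV : V ∈ F.S
  dV : F.d V = 3
  hP : P ∈ F.S
  dP : F.d P = 4
  hQ : Q ∈ F.S
  dQ : F.d Q = 4
  hne : P ≠ Q
  sP : F.st P = P
  sQ : F.st Q = Q
  hM : V * F.st V = 1 + P + Q

/-- non self-dual type -/
structure TD (V Q : E) : Prop where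
  hV : V ∈ F.S
  dV : F.d V = 3
  hQ : Q ∈ F.S
  dQ : F.d Q = 4
  sQ : Q ≠ F.st Q
  hM : V * F.st V = 1 + Q + F.st Q

variable {F}

lemma TS.swap {V P Q : E} (h : F.TS V P Q) : F.TS V Q P :=
  ⟨h.hV, h.dV, h.hQ, h.dQ, h.hP, h.dP, h.hne.symm, h.sQ, h.sP, by rw [h.hM]; abel⟩

lemma TD.swap {V Q : E} (h : F.TD V Q) : F.TD V (F.st Q) :=
  ⟨h.hV, h.dV, F.st_mem Q h.hQ, by rw [F.d_st, h.dQ], by rw [F.st_st]; exact h.sQ.symm,
    by rw [h.hM, F.st_st]; abel⟩

variable (F)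

/-- trichotomy -/
theorem tri {V : E} (hV : V ∈ F.S) (dV : F.d V = 3) :
    (∃ W, W ∈ F.S ∧ F.d W = 8 ∧ V * F.st V = 1 + W) ∨ (∃ P Q, F.TS V P Q) ∨ (∃ Q, F.TD V Q) := by
  rcases F.M_cases hV dV with h | ⟨Y, Z, hY, hZ, dY, dZ, hM⟩ | ⟨P, Q, hP, hQ, dP, dQ, hM⟩
  · left; exact h
  · exact absurd (YZ.false (F := F) ⟨hV, dV, hY, dY, hZ, dZ, hM⟩) id
  · right
    have hne : P ≠ Q := by
      rintro rfl
      exact F.no_44eq hV dV hP dP hM
    have hMP : F.ip (V * F.st V) P = 1 := by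
      rw [hM, F.ip_add_left, F.ip_add_left, F.ip_self hP,
        F.ip_d_ne F.one_mem hP (by rw [F.d_one, dP]; omega), F.ip_ne hQ hP hne.symm]
    have hMQ : F.ip (V * F.st V) Q = 1 := by
      rw [hM, F.ip_add_left, F.ip_add_left, F.ip_self hQ,
        F.ip_d_ne F.one_mem hQ (by rw [F.d_one, dQ]; omega), F.ip_ne hP hQ hne]
    have key : ∀ x ∈ F.S, F.d x = 4 → F.ip (V * F.st V) x = 1 → F.st x = P ∨ F.st x = Q := by
      intro x hx dx h1
      have h2 : F.ip (V * F.st V) (F.st x) = 1 := by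
        rw [F.ip_comm, F.ip_st', F.M_self, F.ip_comm]; exact h1
      have hsx := F.st_mem x hx
      rw [hM, F.ip_add_left, F.ip_add_left,
        F.ip_d_ne F.one_mem hsx (by rw [F.d_one, F.d_st, dx]; omega)] at h2
      by_cases h3 : F.ip P (F.st x) = 0
      · right
        exact (F.eq_of_ip hQ hsx (by omega)).symm
      · left
        exact (F.eq_of_ip hP hsx h3).symm
    rcases key P hP dP hMP with h1 | h1
    · left
      refine ⟨P, Q, hV, dV, hP, dP, hQ, dQ, hne, h1, ?_, hM⟩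
      rcases key Q hQ dQ hMQ with h2 | h2
      · exfalso
        apply hne
        rw [← F.st_st Q, h2, h1]
      · exact h2
    · right
      refine ⟨P, hV, dV, hP, dP, by rw [h1]; exact hne, by rw [h1]; exact hM⟩

variable {F}

lemma TS.ip3 {V P Q : E} (h : F.TS V P Q) (x : E) :
    F.ip x (V * F.st V) = F.t x + F.ip x P + F.ip x Q := by
  rw [h.hM, F.ip_add_right, F.ip_add_right, F.ip_one]

lemma TD.ip3 {V Q : E} (h : F.TD V Q) (x : E) :
    F.ip x (V * F.st V) = F.t x + F.ip x Q + F.ip x (F.st Q) := by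
  rw [h.hM, F.ip_add_right, F.ip_add_right, F.ip_one]

lemma TS.ipMP {V P Q : E} (h : F.TS V P Q) : F.ip (V * F.st V) P = 1 := by
  rw [h.hM, F.ip_add_left, F.ip_add_left, F.ip_self h.hP,
    F.ip_d_ne F.one_mem h.hP (by rw [F.d_one, h.dP]; omega), F.ip_ne h.hQ h.hP h.hne.symm]

lemma TD.ipMQ {V Q : E} (h : F.TD V Q) : F.ip (V * F.st V) Q = 1 := by
  rw [h.hM, F.ip_add_left, F.ip_add_left, F.ip_self h.hQ,
    F.ip_d_ne F.one_mem h.hQ (by rw [F.d_one, h.dQ]; omega),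
    F.ip_ne (F.st_mem Q h.hQ) h.hQ h.sQ.symm]

lemma TS.t1 {V P Q : E} (h : F.TS V P Q) : F.t (P * P) = 1 := by
  have := F.orth_self P h.hP
  rwa [h.sP] at this

/-- `P V = V + A` -/
lemma TS.act {V P Q : E} (h : F.TS V P Q) : ∃ A, P * V = V + A ∧ F.ip A V = 0 ∧ F.d A = 9 ∧
    F.ip A A = F.ip (P * P) P + F.ip (P * P) Q ∧
    (∀ z ∈ F.S, F.ip A z ≠ 0 → 3 ≤ F.d z) := by
  have h1 : F.ip (P * V) V = 1 := by rw [F.ip_mul_right, F.ip_comm]; exact h.ipMP
  obtain ⟨A, hA⟩ := F.split h.hV (x := P * V) (by omega)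
  have h2 : F.ip A V = 0 := by
    rw [hA, F.ip_add_left, F.ip_self h.hV] at h1; omega
  refine ⟨A, hA, h2, ?_, ?_, ?_⟩
  · have := congrArg F.d hA
    rw [F.d_mul, F.d_add, h.dP, h.dV] at this; omega
  · have := F.norm_mul_right P V
    rw [h.ip3, h.sP, h.t1, hA, F.norm_split h.hV h2] at this
    omega
  · intro z hz hne
    refine F.ge_three h.hP h.hV h.dV (by rw [h.dP]; omega) (by rw [h.dP]; omega) hz ?_
    rw [hA, F.ip_add_left]; omega

lemma TS.cmod {V P Q : E} (h : F.TS V P Q) : F.ip (P * P) P = 0 ∨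
    (F.ip (P * P) P = 3 ∧ F.ip (P * P) Q = 0) := by
  have h1 : F.ip (P * P) P % 3 = 0 := by
    have := F.fs3_simple h.hP (F.ne_one_of_d (by rw [h.dP]; omega))
    unfold ip; rw [h.sP]; exact this
  have h2 := F.deg3 F.one_mem h.hP h.hQ (F.ne_one_of_d (by rw [h.dP]; omega)).symm
    (F.ne_one_of_d (by rw [h.dQ]; omega)).symm h.hne (P * P)
  rw [F.ip_one, h.t1, F.d_one, h.dP, h.dQ, F.d_mul, h.dP] at h2
  omega

lemma TS.cross {V P Q A B : E} (h : F.TS V P Q) (hA : P * V = V + A) (hB : Q * V = V + B)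
    (hAV : F.ip A V = 0) (hBV : F.ip B V = 0) :
    1 + F.ip A B = F.ip (P * P) Q + F.ip (Q * Q) P := by
  have h1 : F.ip (P * V) (Q * V) = F.ip (P * P) Q + F.ip (Q * Q) P := by
    rw [F.ip_mul_right, mul_assoc, F.ip_comm, F.ip_mul_left, h.sQ, F.ip_comm, h.ip3]
    have h2 : F.t (Q * P) = 0 := by
      have := F.orth_ne Q h.hQ P h.hP h.hne.symm
      rwa [h.sP] at this
    have h3 : F.ip (Q * P) P = F.ip (P * P) Q := by
      rw [F.ip_mul_right, h.sP, F.ip_comm]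
    have h4 : F.ip (Q * P) Q = F.ip (Q * Q) P := by
      rw [F.ip_mul_left, h.sQ, F.ip_comm]
    rw [h2, h3, h4]; omega
  rw [hA, hB, F.ip_add_left, F.ip_add_right, F.ip_add_right, F.ip_self h.hV, hAV, F.ip_comm V B,
    hBV] at h1
  omega

/-- type alpha -/
structure TA (F : Fus E) (V P Q W : E) : Prop extends F.TS V P Q where
  hW : W ∈ F.S
  dW : F.d W = 9
  PV : P * V = V + W
  QV : Q * V = V + W
  cP : F.ip (P * P) P = 0
  cQ : F.ip (Q * Q) Q = 0
  cs : F.ip (P * P) Q = 1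
  ct : F.ip (Q * Q) P = 1

lemma TS.classify {V P Q : E} (h : F.TS V P Q) :
    (∃ W, TA F V P Q W) ∨ (F.ip (Q * Q) Q = 3) ∨ (F.ip (P * P) P = 3) := by
  obtain ⟨A, hA, hAV, dA, nA, _⟩ := h.act
  obtain ⟨B, hB, hBV, dB, nB, _⟩ := h.swap.act
  have hcross := h.cross hA hB hAV hBV
  rcases h.cmod with h1 | ⟨h1, _⟩
  · rcases h.swap.cmod with h2 | ⟨h2, _⟩
    · left
      have ham := F.am' A B
      have hA0 : F.ip A A ≠ 0 := by
        intro h0
        rw [F.eq_zero_of_norm h0, F.d_zero] at dA; omega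
      have hB0 : F.ip B B ≠ 0 := by
        intro h0
        rw [F.eq_zero_of_norm h0, F.d_zero] at dB; omega
      have s1 : F.ip (P * P) Q = 1 := by omega
      have t1 : F.ip (Q * Q) P = 1 := by omega
      have hAS := F.simple_of_norm (x := A) (by omega)
      have hBS := F.simple_of_norm (x := B) (by omega)
      have hAB := F.eq_of_ip hAS hBS (by omega)
      exact ⟨A, h, hAS, dA, hA, by rw [hB, hAB], h1, h2, s1, t1⟩
    · right; left; exact h2
  · right; right; exact h1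

/-- basic facts for the non self-dual type -/
lemma TD.basic {V Q : E} (h : F.TD V Q) : ∃ A B, Q * V = V + A ∧ F.st Q * V = V + B ∧
    F.ip A V = 0 ∧ F.ip B V = 0 ∧ F.d A = 9 ∧ F.d B = 9 ∧ F.ip A A = 2 ∧ F.ip B B = 2 ∧
    F.ip A B = 0 ∧ F.ip (Q * Q) (F.st Q) = 0 ∧ F.ip (Q * Q) Q = 1 ∧
    F.ip (Q * F.st Q) Q = 1 ∧ F.ip (Q * F.st Q) (F.st Q) = 1 ∧
    F.ip (F.st Q * Q) Q = 1 ∧ F.ip (F.st Q * Q) (F.st Q) = 1 ∧
    (∀ z ∈ F.S, F.ip A z ≠ 0 → 3 ≤ F.d z) ∧ (∀ z ∈ F.S, F.ip B z ≠ 0 → 3 ≤ F.d z) := by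
  have hsQ := F.st_mem Q h.hQ
  have dsQ : F.d (F.st Q) = 4 := by rw [F.d_st, h.dQ]
  have e1 : F.ip (F.st Q * Q) (F.st Q) = F.ip (F.st Q * Q) Q := by
    rw [← F.ip_st, F.st_mul, F.st_st]
  have e2 : F.ip (Q * F.st Q) (F.st Q) = F.ip (Q * F.st Q) Q := by
    rw [← F.ip_st, F.st_mul, F.st_st]
  have e3 : F.ip (Q * F.st Q) Q = F.ip (F.st Q * Q) Q := by
    rw [← e1, F.ip_mul_left (F.st Q) Q, F.st_st]
    exact F.ip_comm _ _
  have e4 : F.ip (Q * Q) Q = F.ip (F.st Q * Q) Q := by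
    rw [F.ip_mul_left, F.ip_comm]
  have t1 : F.t (F.st Q * Q) = 1 := by
    have := F.orth_self _ hsQ
    rwa [F.st_st] at this
  have t2 : F.t (Q * F.st Q) = 1 := F.orth_self Q h.hQ
  have hn1 : F.ip (Q * V) (Q * V) = 1 + 2 * F.ip (F.st Q * Q) Q := by
    rw [F.norm_mul_right, h.ip3, t1, e1]; ring
  have hn2 : F.ip (F.st Q * V) (F.st Q * V) = 1 + 2 * F.ip (F.st Q * Q) Q := by
    rw [F.norm_mul_right, F.st_st, h.ip3, t2, e2, e3]; ring
  have hdeg := F.deg3 F.one_mem h.hQ hsQ (F.ne_one_of_d (by rw [h.dQ]; omega)).symm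
    (F.ne_one_of_d (by rw [dsQ]; omega)).symm h.sQ (F.st Q * Q)
  rw [F.ip_one, t1, e1, F.d_one, h.dQ, dsQ, F.d_mul, dsQ, h.dQ] at hdeg
  have hV1 : F.ip (Q * V) V = 1 := by rw [F.ip_mul_right, F.ip_comm]; exact h.ipMQ
  have hV2 : F.ip (F.st Q * V) V = 1 := by rw [F.ip_mul_right, F.ip_comm]; exact h.swap.ipMQ
  have ha : F.ip (F.st Q * Q) Q = 1 := by
    by_contra hc
    have h0 : F.ip (F.st Q * Q) Q = 0 := by omega
    rw [h0] at hn1
    have := F.eq_of_ip (F.simple_of_norm hn1) h.hV (by omega)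
    have := congrArg F.d this
    rw [F.d_mul, h.dQ, h.dV] at this
    omega
  obtain ⟨A, hA⟩ := F.split h.hV (x := Q * V) (by omega)
  obtain ⟨B, hB⟩ := F.split h.hV (x := F.st Q * V) (by omega)
  have hAV : F.ip A V = 0 := by
    rw [hA, F.ip_add_left, F.ip_self h.hV] at hV1; omega
  have hBV : F.ip B V = 0 := by
    rw [hB, F.ip_add_left, F.ip_self h.hV] at hV2; omega
  have nA : F.ip A A = 2 := by
    rw [hA, F.norm_split h.hV hAV] at hn1; omega
  have nB : F.ip B B = 2 := by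
    rw [hB, F.norm_split h.hV hBV] at hn2; omega
  have dA : F.d A = 9 := by
    have := congrArg F.d hA
    rw [F.d_mul, F.d_add, h.dQ, h.dV] at this; omega
  have dB : F.d B = 9 := by
    have := congrArg F.d hB
    rw [F.d_mul, F.d_add, dsQ, h.dV] at this; omega
  have hc : F.ip (Q * Q) (F.st Q) % 3 = 0 := by
    have := F.fs3_simple h.hQ (F.ne_one_of_d (by rw [h.dQ]; omega))
    unfold ip; rw [F.st_st]; exact this
  have hAB : F.ip A B = F.ip (Q * Q) (F.st Q) := by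
    have h1 : F.ip (Q * V) (F.st Q * V) = 1 + F.ip (Q * Q) (F.st Q) := by
      rw [F.ip_mul_right, mul_assoc, F.ip_comm, F.ip_mul_left, F.st_st, F.ip_comm, h.ip3, e4, ha]
      have : F.t (Q * Q) = 0 := by
        have := F.orth_ne Q h.hQ (F.st Q) hsQ h.sQ
        rwa [F.st_st] at this
      omega
    rw [hA, hB, F.ip_add_left, F.ip_add_right, F.ip_add_right, F.ip_self h.hV, hAV, F.ip_comm V B,
      hBV] at h1
    omega
  have ham := F.am' A B
  have hdeg2 := F.deg2 h.hQ hsQ h.sQ (Q * Q)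
  have hQQ : F.ip (Q * Q) (F.st Q) = 0 := by omega
  refine ⟨A, B, hA, hB, hAV, hBV, dA, dB, nA, nB, by omega, hQQ, by omega, by omega, by omega, ha,
    by omega, ?_, ?_⟩
  · intro z hz hne
    refine F.ge_three h.hQ h.hV h.dV (by rw [h.dQ]; omega) (by rw [h.dQ]; omega) hz ?_
    rw [hA, F.ip_add_left]; omega
  · intro z hz hne
    refine F.ge_three hsQ h.hV h.dV (by rw [dsQ]; omega) (by rw [dsQ]; omega) hz ?_
    rw [hB, F.ip_add_left]; omega

end Fus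

end Run7.h2
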