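import Pool.Agent.Run7.h2.Fus10

/-!
The shape `1 + 4 + 4`, self-dual: the case of multiplicity three.
-/

namespace Run7.h2

universe u

namespace Fus

variable {E : Type u} [Semiring E] (F : Fus E)

lemma ip_sum_right (A : Finset E) (x : E) : F.ip x (∑ a ∈ A, a) = ∑ a ∈ A, F.ip x a := by
  classical
  induction A using Finset.induction_on with
  | empty => simp [F.ip_zero_right]
  | insert a A ha ih => rw [Finset.sum_insert ha, Finset.sum_insert ha, F.ip_add_right, ih]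

/-- split off several distinct simple summands -/
lemma split_finset (A : Finset E) (hA : ∀ a ∈ A, a ∈ F.S) (x : E) (h : ∀ a ∈ A, F.ip x a ≠ 0) :
    ∃ y, x = ∑ a ∈ A, a + y := by
  classical
  induction A using Finset.induction_on generalizing x with
  | empty => exact ⟨x, by simp⟩
  | insert a A ha ih =>
    obtain ⟨z, hz⟩ := F.split (hA a (Finset.mem_insert_self a A)) (h a (Finset.mem_insert_self a A))
    obtain ⟨y, hy⟩ := ih (fun b hb => hA b (Finset.mem_insert_of_mem hb)) z (by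
      intro b hb
      have h1 := h b (Finset.mem_insert_of_mem hb)
      have hab : a ≠ b := by rintro rfl; exact ha hb
      rwa [hz, F.ip_add_left, F.ip_ne (hA a (Finset.mem_insert_self a A))
        (hA b (Finset.mem_insert_of_mem hb)) hab, zero_add] at h1)
    refine ⟨y, ?_⟩
    rw [hz, hy, Finset.sum_insert ha, add_assoc]

lemma split2 {a b x : E} (ha : a ∈ F.S) (hb : b ∈ F.S) (hab : a ≠ b) (h1 : F.ip x a ≠ 0)
    (h2 : F.ip x b ≠ 0) : ∃ y, x = a + b + y := by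
  classical
  obtain ⟨y, hy⟩ := F.split_finset {a, b} (by simp [ha, hb]) x (by simp [h1, h2])
  exact ⟨y, by rwa [Finset.sum_pair hab] at hy⟩

lemma split3 {a b c x : E} (ha : a ∈ F.S) (hb : b ∈ F.S) (hc : c ∈ F.S) (hab : a ≠ b)
    (hac : a ≠ c) (hbc : b ≠ c) (h1 : F.ip x a ≠ 0)
    (h2 : F.ip x b ≠ 0) (h3 : F.ip x c ≠ 0) : ∃ y, x = a + b + c + y := by
  classical
  obtain ⟨y, hy⟩ := F.split_finset {a, b, c} (by simp [ha, hb, hc]) x (by simp [h1, h2, h3])
  refine ⟨y, ?_⟩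
  rw [Finset.sum_insert (by simp [hab, hac]), Finset.sum_pair hbc] at hy
  rw [hy]; abel

lemma split4 {a b c e x : E} (ha : a ∈ F.S) (hb : b ∈ F.S) (hc : c ∈ F.S) (he : e ∈ F.S)
    (hab : a ≠ b) (hac : a ≠ c) (hae : a ≠ e) (hbc : b ≠ c) (hbe : b ≠ e) (hce : c ≠ e)
    (h1 : F.ip x a ≠ 0) (h2 : F.ip x b ≠ 0) (h3 : F.ip x c ≠ 0) (h4 : F.ip x e ≠ 0) :
    ∃ y, x = a + b + c + e + y := by
  classical
  obtain ⟨y, hy⟩ := F.split_finset {a, b, c, e} (by simp [ha, hb, hc, he]) x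
    (by simp [h1, h2, h3, h4])
  refine ⟨y, ?_⟩
  rw [Finset.sum_insert (by simp [hab, hac, hae]), Finset.sum_insert (by simp [hbc, hbe]),
    Finset.sum_pair hce] at hy
  rw [hy]; abel

/-- an element all of whose constituents have degree one -/
lemma ones3 {R : E} (dR : F.d R = 3) (h : ∀ a ∈ F.S, F.ip R a ≠ 0 → F.d a = 1) :
    ∃ k l m, k ∈ F.S ∧ l ∈ F.S ∧ m ∈ F.S ∧ F.d k = 1 ∧ F.d l = 1 ∧ F.d m = 1 ∧ R = k + l + m := by
  obtain ⟨k, y, hk, rfl⟩ := F.exists_split (x := R) (by rintro rfl; rw [F.d_zero] at dR; omega)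
  have dk := h k hk (by rw [F.ip_add_left, F.ip_self hk]; omega)
  rw [F.d_add, dk] at dR
  obtain ⟨l, z, hl, rfl⟩ := F.exists_split (x := y) (by rintro rfl; rw [F.d_zero] at dR; omega)
  have dl := h l hl (by rw [F.ip_add_left, F.ip_add_left, F.ip_self hl]; omega)
  rw [F.d_add, dl] at dR
  have hz := F.simple_of_d_one (x := z) (by omega)
  exact ⟨k, l, z, hk, hl, hz, dk, dl, by omega, by rw [add_assoc]⟩

/-- data of the exceptional self-dual case -/
structure TB (F : Fus E) (V P Q k l m : E) : Prop extends F.TS V P Q where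
  hk : k ∈ F.S
  hl : l ∈ F.S
  hm : m ∈ F.S
  dk : F.d k = 1
  dl : F.d l = 1
  dm : F.d m = 1
  k1 : k ≠ 1
  l1 : l ≠ 1
  m1 : m ≠ 1
  kl : k ≠ l
  km : k ≠ m
  lm : l ≠ m
  kQ : k * Q = Q
  lQ : l * Q = Q
  mQ : m * Q = Q
  QQ : Q * Q = 1 + 3 • Q + (k + l + m)
  hQV : Q * V = V + k * V + l * V + m * V
  hQP : Q * P = P + k * P + l * P + m * P

variable {F}

lemma TB.rot {V P Q k l m : E} (h : TB F V P Q k l m) : TB F V P Q l m k :=
  ⟨h.toTS, h.hl, h.hm, h.hk, h.dl, h.dm, h.dk, h.l1, h.m1, h.k1, h.lm, h.kl.symm, h.km.symm,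
    h.lQ, h.mQ, h.kQ, by rw [h.QQ]; abel, by rw [h.hQV]; abel, by rw [h.hQP]; abel⟩

lemma TB.sw {V P Q k l m : E} (h : TB F V P Q k l m) : TB F V P Q l k m :=
  ⟨h.toTS, h.hl, h.hk, h.hm, h.dl, h.dk, h.dm, h.l1, h.k1, h.m1, h.kl.symm, h.lm, h.km,
    h.lQ, h.kQ, h.mQ, by rw [h.QQ]; abel, by rw [h.hQV]; abel, by rw [h.hQP]; abel⟩

lemma TS.toTB {V P Q : E} (h : F.TS V P Q) (h3 : F.ip (Q * Q) Q = 3) :
    ∃ k l m, TB F V P Q k l m := by
  obtain ⟨B, hB, hBV, dB, nB, gB⟩ := h.swap.act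
  have hP0 : F.ip (Q * Q) P = 0 := by
    rcases h.swap.cmod with h1 | h1
    · omega
    · exact h1.2
  rw [h3, hP0] at nB
  obtain ⟨T1, T2, T3, hT1, hT2, hT3, _, _, _, hBT⟩ := F.norm_three nB
  have g1 := gB T1 hT1 (by rw [hBT, F.ip_add_left, F.ip_add_left, F.ip_self hT1]; omega)
  have g2 := gB T2 hT2 (by rw [hBT, F.ip_add_left, F.ip_add_left, F.ip_self hT2]; omega)
  have g3 := gB T3 hT3 (by rw [hBT, F.ip_add_left, F.ip_add_left, F.ip_self hT3]; omega)
  have dT : F.d T1 = 3 ∧ F.d T2 = 3 ∧ F.d T3 = 3 := by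
    rw [hBT, F.d_add, F.d_add] at dB; omega
  -- decompose Q Q
  have hQQ1 : F.ip (Q * Q) 1 = 1 := by
    have := F.M_one h.hQ
    rwa [h.sQ] at this
  obtain ⟨x, hx⟩ := F.split F.one_mem (x := Q * Q) (by omega)
  have hQ1 : F.ip 1 Q = 0 := F.ip_d_ne F.one_mem h.hQ (by rw [F.d_one, h.dQ]; omega)
  have hxQ : F.ip x Q = 3 := by
    rw [hx, F.ip_add_left, hQ1] at h3; omega
  obtain ⟨_, R, hR, hRQ⟩ := F.d_ge1 h.hQ x
  rw [hxQ] at hR
  have hQQ : Q * Q = 1 + 3 • Q + R := by rw [hx, hR, add_assoc]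
  have dR : F.d R = 3 := by
    have := congrArg F.d hQQ
    rw [F.d_mul, F.d_add, F.d_add, F.d_nsmul, F.d_one, h.dQ] at this; omega
  have hRin : ∀ z, F.ip R z ≠ 0 → F.ip (Q * Q) z ≠ 0 := by
    intro z hz
    rw [hQQ, F.ip_add_left]; omega
  have hR1 : F.ip R 1 = 0 := by
    rw [hQQ, F.ip_add_left, F.ip_add_left, F.ip_self F.one_mem] at hQQ1; omega
  -- no degree two
  have no2 : ∀ s ∈ F.S, F.d s = 2 → F.ip R s = 0 := by
    intro s hs ds
    by_contra hc
    have h1 := hRin s hc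
    rw [F.ip_mul_right, h.sQ, F.ip_comm] at h1
    obtain ⟨y, hy⟩ := F.split h.hQ h1
    have h2 : F.ip (s * (Q * V)) V ≠ 0 := by
      rw [← mul_assoc, hy, add_mul, hB, F.ip_add_left, F.ip_add_left, F.ip_self h.hV]; omega
    rw [hB, hBT, mul_add, mul_add, mul_add] at h2
    have e0 : ∀ T ∈ F.S, F.d T = 3 → F.ip (s * T) V = 0 := by
      intro T hT dT
      apply F.ip_d_ne (F.two_mul_three hs ds hT dT) h.hV
      rw [F.d_mul, ds, dT, h.dV]; omega
    rw [F.ip_add_left, F.ip_add_left, F.ip_add_left, e0 V h.hV h.dV, e0 T1 hT1 dT.1,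
      e0 T2 hT2 dT.2.1, e0 T3 hT3 dT.2.2] at h2
    exact h2 rfl
  -- no degree three
  have no3 : ∀ s ∈ F.S, F.d s = 3 → F.ip R s = 0 := by
    intro T hT dT'
    by_contra hc
    obtain ⟨y, hy⟩ := F.split hT hc
    have hy0 : y = 0 := by
      apply F.eq_zero_of_d
      have := congrArg F.d hy
      rw [F.d_add] at this; omega
    rw [hy0, add_zero] at hy
    subst hy
    have sR : F.st R = R := by
      have := F.M_self Q
      rw [h.sQ, hQQ, F.st_add, F.st_add, F.st_one, F.st_nsmul, h.sQ] at this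
      exact F.add_cancel _ _ _ this
    have hRR : F.ip (R * R) R = 0 := by
      have := F.no_YYY hT dT' sR
      unfold ip; rw [sR]; exact this
    have hRR1 : F.ip (R * R) 1 = 1 := by
      have := F.M_one hT
      rwa [sR] at this
    have hn : F.ip (Q * R) (Q * R) = 1 + 3 * F.ip (R * R) Q := by
      rw [F.norm_mul_right, h.sQ, sR, F.ip_comm, hQQ, F.ip_add_right, F.ip_add_right,
        F.ip_nsmul_right, hRR, hRR1, add_zero]
    have hQRQ : F.ip (Q * R) Q = 1 := by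
      rw [F.ip_mul_left, h.sQ, F.ip_comm, hQQ, F.ip_add_left, F.ip_add_left, F.ip_nsmul_left,
        F.ip_self hT, F.ip_d_ne F.one_mem hT (by rw [F.d_one, dT']; omega),
        F.ip_d_ne h.hQ hT (by rw [h.dQ, dT']; omega)]
    have hRRQ : F.ip (R * R) Q = 1 := by
      have hle : F.ip (R * R) Q ≤ 1 := by
        have := F.deg2 F.one_mem h.hQ (F.ne_one_of_d (by rw [h.dQ]; omega)).symm (R * R)
        rw [hRR1, F.d_one, h.dQ, F.d_mul, dT'] at this
        rcases F.tri hT dT' with ⟨W, hW, dW, e⟩ | ⟨P', Q', h'⟩ | ⟨Q', h'⟩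
        · rw [sR] at e
          rw [e, F.ip_add_left, hQ1, F.ip_d_ne hW h.hQ (by rw [dW, h.dQ]; omega)]; omega
        · have e := h'.hM
          rw [sR] at e
          rw [e, F.ip_add_left, F.ip_add_left, hQ1]
          by_cases h5 : P' = Q
          · rw [← h5, F.ip_self h'.hP, F.ip_ne h'.hQ h'.hP h'.hne.symm]
          · rw [F.ip_ne h'.hP h.hQ h5]
            have := F.ip_le_one h'.hQ h.hQ; omega
        · have e := h'.hM
          rw [sR] at e
          rw [e, F.ip_add_left, F.ip_add_left, hQ1]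
          by_cases h5 : Q' = Q
          · rw [← h5, F.ip_self h'.hQ, F.ip_ne (F.st_mem _ h'.hQ) h'.hQ h'.sQ.symm]
          · rw [F.ip_ne h'.hQ h.hQ h5]
            have := F.ip_le_one (F.st_mem _ h'.hQ) h.hQ; omega
      by_contra hc
      have h0 : F.ip (R * R) Q = 0 := by omega
      rw [h0] at hn
      have := F.eq_of_ip (F.simple_of_norm hn) h.hQ (by omega)
      have := congrArg F.d this
      rw [F.d_mul, h.dQ, dT'] at this
      omega
    have hQRR : F.ip (Q * R) R = 1 := by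
      rw [F.ip_mul_right, sR, F.ip_comm]; exact hRRQ
    obtain ⟨r, hr⟩ := F.split2 h.hQ hT (by intro e; have := congrArg F.d e; rw [h.dQ, dT'] at this; omega)
      (x := Q * R) (by omega) (by omega)
    have dr : F.d r = 5 := by
      have := congrArg F.d hr
      rw [F.d_mul, F.d_add, F.d_add, h.dQ, dT'] at this; omega
    have hQR0 : F.ip Q R = 0 := F.ip_d_ne h.hQ hT (by rw [h.dQ, dT']; omega)
    have r1 : F.ip r Q = 0 := by
      rw [hr, F.ip_add_left, F.ip_add_left, F.ip_self h.hQ, F.ip_comm R Q, hQR0] at hQRQ; omega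
    have r2 : F.ip r R = 0 := by
      rw [hr, F.ip_add_left, F.ip_add_left, F.ip_self hT, hQR0] at hQRR; omega
    have nr : F.ip r r = 2 := by
      rw [hRRQ, hr, F.norm_add, F.norm_add, F.ip_add_left, F.ip_self h.hQ, F.ip_self hT, hQR0,
        F.ip_comm Q r, F.ip_comm R r, r1, r2] at hn
      omega
    obtain ⟨k, hk, dk, hrk⟩ := F.five_split dr nr (by
      intro a ha da
      by_contra hc
      have h1 : F.ip (Q * R) a ≠ 0 := by rw [hr, F.ip_add_left]; omega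
      exact h1 (F.ip_mul_two h.hQ hT dT' ha da (by rw [h.dQ]; omega)))
    have h1 : F.ip (Q * R) k ≠ 0 := by rw [hr, F.ip_add_left]; omega
    exact h1 (F.ip_mul_one h.hQ hT hk dk (by rw [h.dQ, dT']; omega))
  obtain ⟨k, l, m, hk, hl, hm, dk, dl, dm, hRklm⟩ := F.ones3 dR (by
    intro a ha hne
    have hp := F.d_pos a ha
    have hd := F.deg1 ha R
    have h2 : F.d a ≠ 2 := fun e => hne (no2 a ha e)
    have h3 : F.d a ≠ 3 := fun e => hne (no3 a ha e)
    have : F.d a ≤ F.ip R a * F.d a := Nat.le_mul_of_pos_left _ (by omega)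
    omega)
  have inv : ∀ z ∈ F.S, F.d z = 1 → F.ip R z ≠ 0 → z * Q = Q ∧ F.ip R z ≤ 1 ∧ z ≠ 1 := by
    intro z hz dz hne
    have h1 := hRin z hne
    have h2 : z * Q = Q := F.mem_stab h.hQ hz dz (by rw [h.sQ]; exact h1)
    have h3 := F.stab_mem h.hQ h2
    refine ⟨h2, ?_, ?_⟩
    · rw [h.sQ, hQQ, F.ip_add_left] at h3; omega
    · rintro rfl; exact hne hR1
  obtain ⟨kQ, kle, k1⟩ := inv k hk dk (by rw [hRklm, F.ip_add_left, F.ip_add_left, F.ip_self hk]; omega)
  obtain ⟨lQ, lle, l1⟩ := inv l hl dl (by rw [hRklm, F.ip_add_left, F.ip_add_left, F.ip_self hl]; omega)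
  obtain ⟨mQ, mle, m1⟩ := inv m hm dm (by rw [hRklm, F.ip_add_left, F.ip_add_left, F.ip_self hm]; omega)
  have kl : k ≠ l := by
    rintro rfl
    rw [hRklm, F.ip_add_left, F.ip_add_left, F.ip_self hk] at kle; omega
  have km : k ≠ m := by
    rintro rfl
    rw [hRklm, F.ip_add_left, F.ip_add_left, F.ip_self hk] at kle; omega
  have lm : l ≠ m := by
    rintro rfl
    rw [hRklm, F.ip_add_left, F.ip_add_left, F.ip_self hl] at lle; omega
  have hkV := F.inv_mul_mem hk dk h.hV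
  have hlV := F.inv_mul_mem hl dl h.hV
  have hmV := F.inv_mul_mem hm dm h.hV
  have stb : ∀ z ∈ F.S, F.d z = 1 → z * Q = Q → F.ip (Q * V) (z * V) ≠ 0 := by
    intro z hz dz e
    have e1 : F.ip (Q * V) (z * V) = F.ip (Q * V) V := by
      conv_lhs => rw [← e]
      rw [mul_assoc, F.ip_mul_left, ← mul_assoc (F.st z), F.st_mul_one hz dz, one_mul]
    rw [e1, hB, F.ip_add_left, F.ip_self h.hV]; omega
  have nV : ∀ z ∈ F.S, F.d z = 1 → z ≠ 1 → V ≠ z * V :=
    fun z hz dz e e' => e (F.stab3 h.hV h.dV hz dz e'.symm)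
  have nVV : ∀ z ∈ F.S, ∀ w ∈ F.S, F.d z = 1 → F.d w = 1 → z ≠ w → z * V ≠ w * V :=
    fun z hz w hw dz dw e e' => e (F.inv_eq h.hV h.dV hz dz hw dw e')
  obtain ⟨y, hy⟩ := F.split4 h.hV hkV hlV hmV (nV k hk dk k1) (nV l hl dl l1) (nV m hm dm m1)
    (nVV k hk l hl dk dl kl) (nVV k hk m hm dk dm km) (nVV l hl m hm dl dm lm)
    (x := Q * V) (by rw [hB, F.ip_add_left, F.ip_self h.hV]; omega)
    (stb k hk dk kQ) (stb l hl dl lQ) (stb m hm dm mQ)
  have hy0 : y = 0 := by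
    apply F.eq_zero_of_d
    have := congrArg F.d hy
    rw [F.d_mul, F.d_add, F.d_add, F.d_add, F.d_add, F.d_mul, F.d_mul, F.d_mul, dk, dl, dm, h.dV,
      h.dQ] at this
    omega
  have hQV : Q * V = V + k * V + l * V + m * V := by rw [hy, hy0, add_zero]
  have hQQ' : Q * Q = 1 + 3 • Q + (k + l + m) := by rw [hQQ, hRklm]
  refine ⟨k, l, m, h, hk, hl, hm, dk, dl, dm, k1, l1, m1, kl, km, lm, kQ, lQ, mQ, hQQ', hQV, ?_⟩
  have e : Q * (V * F.st V) = (V + k * V + l * V + m * V) * F.st V := by rw [← mul_assoc, hQV]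
  simp only [add_mul, mul_assoc] at e
  rw [h.hM] at e
  simp only [mul_add, mul_one] at e
  rw [hQQ', kQ, lQ, mQ] at e
  refine F.add_cancel (1 + 4 • Q + (k + l + m)) _ _ ?_
  calc 1 + 4 • Q + (k + l + m) + Q * P = Q + Q * P + (1 + 3 • Q + (k + l + m)) := by abel
    _ = _ := e
    _ = _ := by abel

end Fus

end Run7.h2
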