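import Pool.Agent.Run7.h2.Fus11

/-!
The shape `1 + 4 + 4`, self-dual: exclusion of the case of multiplicity three.
-/

namespace Run7.h2

universe u

namespace Fus

variable {E : Type u} [Semiring E] {F : Fus E}

lemma inv_cancel_right (F : Fus E) {h x y : E} (hh : h ∈ F.S) (hd : F.d h = 1)
    (hxy : x * h = y * h) : x = y := by
  have := congrArg (fun z => z * F.st h) hxy
  simp only [mul_assoc, F.mul_st_one hh hd, mul_one] at this
  exact this

lemma TB.group {V P Q k l m z : E} (h : TB F V P Q k l m) (hz : z ∈ F.S) (dz : F.d z = 1)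
    (e : z * Q = Q) : z = 1 ∨ z = k ∨ z = l ∨ z = m := by
  have h1 := F.stab_mem h.hQ e
  rw [h.sQ, h.QQ] at h1
  simp only [F.ip_add_left] at h1
  rw [F.ip_nsmul_left, F.ip_d_ne h.hQ hz (by rw [h.dQ, dz]; omega)] at h1
  by_cases c1 : F.ip 1 z = 0
  · by_cases c2 : F.ip k z = 0
    · by_cases c3 : F.ip l z = 0
      · right; right; right
        exact (F.eq_of_ip h.hm hz (by omega)).symm
      · right; right; left
        exact (F.eq_of_ip h.hl hz c3).symm
    · right; left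
      exact (F.eq_of_ip h.hk hz c2).symm
  · left
    exact (F.eq_of_ip F.one_mem hz c1).symm

lemma fix_inv {k P : E} (hk : k ∈ F.S) (dk : F.d k = 1) (e : k * P = P) : F.st k * P = P := by
  conv_lhs => rw [← e]
  rw [← mul_assoc, F.st_mul_one hk dk, one_mul]

lemma TB.prod {V P Q k l m : E} (h : TB F V P Q k l m) (hP : k * P = P) (lP : l * P ≠ P) :
    k * l = m ∧ l * k = m := by
  have hk' := F.st_mem k h.hk
  constructor
  · rcases h.group (F.inv_mul_mem h.hk h.dk h.hl) (by rw [F.d_mul, h.dk, h.dl])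
      (by rw [mul_assoc, h.lQ, h.kQ]) with e | e | e | e
    · exfalso
      apply lP
      have : l = F.st k := by
        apply F.inv_cancel h.hk h.dk
        rw [e, F.mul_st_one h.hk h.dk]
      rw [this]
      exact fix_inv h.hk h.dk hP
    · exact absurd (F.inv_cancel h.hk h.dk (by rw [e, mul_one])) h.l1
    · exact absurd (F.inv_cancel_right h.hl h.dl (by rw [e, one_mul])) h.k1
    · exact e
  · rcases h.group (F.inv_mul_mem h.hl h.dl h.hk) (by rw [F.d_mul, h.dk, h.dl])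
      (by rw [mul_assoc, h.kQ, h.lQ]) with e | e | e | e
    · exfalso
      apply lP
      have : l = F.st k := by
        apply F.inv_cancel_right h.hk h.dk
        rw [e, F.st_mul_one h.hk h.dk]
      rw [this]
      exact fix_inv h.hk h.dk hP
    · exact absurd (F.inv_cancel_right h.hk h.dk (by rw [e, one_mul])) h.l1
    · exact absurd (F.inv_cancel h.hl h.dl (by rw [e, mul_one])) h.k1
    · exact e

lemma TB.no_two_fix {V P Q k l m : E} (h : TB F V P Q k l m) (kP : k * P = P) (lP : l * P = P)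
    (mP : m * P ≠ P) : False := by
  have hkl : k * l = 1 := by
    rcases h.group (F.inv_mul_mem h.hk h.dk h.hl) (by rw [F.d_mul, h.dk, h.dl])
      (by rw [mul_assoc, h.lQ, h.kQ]) with e | e | e | e
    · exact e
    · exact absurd (F.inv_cancel h.hk h.dk (by rw [e, mul_one])) h.l1
    · exact absurd (F.inv_cancel_right h.hl h.dl (by rw [e, one_mul])) h.k1
    · exfalso
      apply mP
      rw [← e, mul_assoc, lP, kP]
  rcases h.group (F.inv_mul_mem h.hk h.dk h.hk) (by rw [F.d_mul, h.dk])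
      (by rw [mul_assoc, h.kQ, h.kQ]) with e | e | e | e
  · exact h.kl (F.inv_cancel h.hk h.dk (by rw [e, hkl]))
  · exact h.k1 (F.inv_cancel h.hk h.dk (by rw [e, mul_one]))
  · apply h.k1
    apply F.cube_ne h.hk h.dk
    rw [pow_succ', pow_two, e, hkl]
  · apply mP
    rw [← e, mul_assoc, kP, kP]

lemma TB.QQQ {V P Q k l m : E} (h : TB F V P Q k l m) : F.ip (Q * Q) Q = 3 := by
  rw [h.QQ]
  simp only [F.ip_add_left]
  rw [F.ip_nsmul_left, F.ip_self h.hQ, F.ip_d_ne F.one_mem h.hQ (by rw [F.d_one, h.dQ]; omega),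
    F.ip_d_ne h.hk h.hQ (by rw [h.dk, h.dQ]; omega), F.ip_d_ne h.hl h.hQ (by rw [h.dl, h.dQ]; omega),
    F.ip_d_ne h.hm h.hQ (by rw [h.dm, h.dQ]; omega)]

lemma TB.s_eq {V P Q k l m : E} (h : TB F V P Q k l m) :
    F.ip (P * P) Q = 1 + F.ip (k * P) P + F.ip (l * P) P + F.ip (m * P) P := by
  have : F.ip (Q * P) P = F.ip (P * P) Q := by
    rw [F.ip_mul_right, h.sP, F.ip_comm]
  rw [← this, h.hQP]
  simp only [F.ip_add_left]
  rw [F.ip_self h.hP]

lemma TB.cP {V P Q k l m : E} (h : TB F V P Q k l m) :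
    F.ip (P * P) P = 0 ∧ F.ip (Q * Q) P = 0 := by
  have h1 : F.ip (Q * Q) P = 0 := by
    rcases h.toTS.swap.cmod with h1 | h1
    · have := h.QQQ; omega
    · exact h1.2
  obtain ⟨A, hA, hAV, _⟩ := h.toTS.act
  obtain ⟨B, hB, hBV, _⟩ := h.toTS.swap.act
  have hc := h.toTS.cross hA hB hAV hBV
  rcases h.toTS.cmod with h2 | ⟨_, h2⟩
  · exact ⟨h2, h1⟩
  · omega

/-- at most one of the three nontrivial stabilising elements fixes `P` -/
lemma TB.s_cases {V P Q k l m : E} (h : TB F V P Q k l m) :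
    (k * P ≠ P ∧ l * P ≠ P ∧ m * P ≠ P) ∨ (k * P = P ∧ l * P ≠ P ∧ m * P ≠ P) ∨
    (k * P ≠ P ∧ l * P = P ∧ m * P ≠ P) ∨ (k * P ≠ P ∧ l * P ≠ P ∧ m * P = P) := by
  by_cases a : k * P = P <;> by_cases b : l * P = P <;> by_cases c : m * P = P
  · exfalso
    have h1 := h.s_eq
    rw [a, b, c, F.ip_self h.hP] at h1
    have h2 := F.deg2 F.one_mem h.hQ (F.ne_one_of_d (by rw [h.dQ]; omega)).symm (P * P)
    rw [h1, F.ip_one, h.t1, F.d_one, h.dQ, F.d_mul, h.dP] at h2
    omega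
  · exact absurd (h.no_two_fix a b c) id
  · exact absurd (h.rot.rot.no_two_fix c a b) id
  · right; left; exact ⟨a, b, c⟩
  · exact absurd (h.rot.no_two_fix b c a) id
  · right; right; left; exact ⟨a, b, c⟩
  · right; right; right; exact ⟨a, b, c⟩
  · left; exact ⟨a, b, c⟩

/-- the case where nothing fixes `P` -/
lemma TB.none {V P Q k l m : E} (h : TB F V P Q k l m) (a : k * P ≠ P) (b : l * P ≠ P)
    (c : m * P ≠ P) : ∃ W, W ∈ F.S ∧ F.d W = 9 ∧ P * V = V + W := by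
  obtain ⟨A, hA, hAV, dA, nA, gA⟩ := h.toTS.act
  have h1 := h.s_eq
  rw [F.ip_ne (F.inv_mul_mem h.hk h.dk h.hP) h.hP a, F.ip_ne (F.inv_mul_mem h.hl h.dl h.hP) h.hP b,
    F.ip_ne (F.inv_mul_mem h.hm h.dm h.hP) h.hP c] at h1
  rw [h.cP.1, h1] at nA
  exact ⟨A, F.simple_of_norm (by omega), dA, hA⟩

/-- the case where `k` fixes `P` -/
lemma TB.one {V P Q k l m : E} (h : TB F V P Q k l m) (a : k * P = P) (b : l * P ≠ P)
    (c : m * P ≠ P) : ∃ U, U ∈ F.S ∧ F.d U = 6 ∧ P * V = V + k * V + U := by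
  obtain ⟨A, hA, hAV, dA, nA, gA⟩ := h.toTS.act
  have h1 := h.s_eq
  rw [a, F.ip_self h.hP, F.ip_ne (F.inv_mul_mem h.hl h.dl h.hP) h.hP b,
    F.ip_ne (F.inv_mul_mem h.hm h.dm h.hP) h.hP c] at h1
  rw [h.cP.1, h1] at nA
  have hkV := F.inv_mul_mem h.hk h.dk h.hV
  have hne : V ≠ k * V := fun e => h.k1 (F.stab3 h.hV h.dV h.hk h.dk e.symm)
  have e1 : F.ip (P * V) (k * V) ≠ 0 := by
    have e2 : F.ip (P * V) (k * V) = F.ip (P * V) V := by
      conv_lhs => rw [← a]
      rw [mul_assoc, F.ip_mul_left, ← mul_assoc (F.st k), F.st_mul_one h.hk h.dk, one_mul]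
    rw [e2, hA, F.ip_add_left, F.ip_self h.hV]; omega
  have e3 : F.ip A (k * V) ≠ 0 := by
    rwa [hA, F.ip_add_left, F.ip_ne h.hV hkV hne, zero_add] at e1
  obtain ⟨U, hU⟩ := F.split hkV e3
  have dU : F.d U = 6 := by
    have := congrArg F.d hU
    rw [F.d_add, F.d_mul, h.dk, h.dV, dA] at this; omega
  have nU : F.ip U U = 1 := by
    rw [hU, F.norm_add, F.ip_self hkV] at nA
    have : F.ip U U ≠ 0 := by
      intro h0
      rw [F.eq_zero_of_norm h0, F.d_zero] at dU; omega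
    omega
  exact ⟨U, F.simple_of_norm nU, dU, by rw [hA, hU, add_assoc]⟩

/-- the constituents of degree three -/
lemma TB.D3 {V P Q k l m T : E} (h : TB F V P Q k l m) (hT : T ∈ F.S) (dT : F.d T = 3)
    (e : F.ip (V * F.st V * V) T ≠ 0) : ∃ z, z ∈ F.S ∧ F.d z = 1 ∧ T = z * V := by
  rw [h.hM, add_mul, add_mul, one_mul, F.ip_add_left, F.ip_add_left] at e
  have one_case : T = V → ∃ z, z ∈ F.S ∧ F.d z = 1 ∧ T = z * V :=
    fun e => ⟨1, F.one_mem, F.d_one, by rw [e, one_mul]⟩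
  by_cases e1 : F.ip V T = 0
  swap
  · exact one_case (F.eq_of_ip h.hV hT e1).symm
  have hkV := F.inv_mul_mem h.hk h.dk h.hV
  have hlV := F.inv_mul_mem h.hl h.dl h.hV
  have hmV := F.inv_mul_mem h.hm h.dm h.hV
  by_cases e2 : F.ip (Q * V) T = 0
  swap
  · rw [h.hQV] at e2
    simp only [F.ip_add_left] at e2
    by_cases f1 : F.ip (k * V) T = 0
    · by_cases f2 : F.ip (l * V) T = 0
      · exact ⟨m, h.hm, h.dm, (F.eq_of_ip hmV hT (by omega)).symm⟩
      · exact ⟨l, h.hl, h.dl, (F.eq_of_ip hlV hT f2).symm⟩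
    · exact ⟨k, h.hk, h.dk, (F.eq_of_ip hkV hT f1).symm⟩
  have e3 : F.ip (P * V) T ≠ 0 := by omega
  have key : ∀ k l m : E, TB F V P Q k l m → k * P = P → l * P ≠ P → m * P ≠ P →
      ∃ z, z ∈ F.S ∧ F.d z = 1 ∧ T = z * V := by
    intro k l m h a b c
    obtain ⟨U, hU, dU, hPV⟩ := h.one a b c
    rw [hPV, F.ip_add_left, F.ip_add_left, e1, F.ip_d_ne hU hT (by omega)] at e3
    exact ⟨k, h.hk, h.dk, (F.eq_of_ip (F.inv_mul_mem h.hk h.dk h.hV) hT (by omega)).symm⟩
  rcases h.s_cases with ⟨a, b, c⟩ | ⟨a, b, c⟩ | ⟨a, b, c⟩ | ⟨a, b, c⟩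
  · obtain ⟨W, hW, dW, hPV⟩ := h.none a b c
    rw [hPV, F.ip_add_left, e1, F.ip_d_ne hW hT (by omega)] at e3
    exact absurd rfl e3
  · exact key k l m h a b c
  · exact key l m k h.rot b c a
  · exact key m k l h.rot.rot c a b

lemma norm_three_M {V P Q : E} (h : F.TS V P Q) : F.ip (V * F.st V) (V * F.st V) = 3 := by
  have hP1 : F.ip 1 P = 0 := F.ip_d_ne F.one_mem h.hP (by rw [F.d_one, h.dP]; omega)
  have hQ1 : F.ip 1 Q = 0 := F.ip_d_ne F.one_mem h.hQ (by rw [F.d_one, h.dQ]; omega)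
  rw [h.hM]
  simp only [F.ip_add_left, F.ip_add_right]
  rw [F.ip_self F.one_mem, F.ip_self h.hP, F.ip_self h.hQ, hP1, hQ1, F.ip_comm P 1, hP1,
    F.ip_comm Q 1, hQ1, F.ip_ne h.hP h.hQ h.hne, F.ip_ne h.hQ h.hP h.hne.symm]

lemma TD.norm_M {V Q : E} (h : F.TD V Q) : F.ip (V * F.st V) (V * F.st V) = 3 := by
  have hsQ := F.st_mem Q h.hQ
  have hP1 : F.ip 1 (F.st Q) = 0 := F.ip_d_ne F.one_mem hsQ (by rw [F.d_one, F.d_st, h.dQ]; omega)
  have hQ1 : F.ip 1 Q = 0 := F.ip_d_ne F.one_mem h.hQ (by rw [F.d_one, h.dQ]; omega)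
  rw [h.hM]
  simp only [F.ip_add_left, F.ip_add_right]
  rw [F.ip_self F.one_mem, F.ip_self h.hQ, F.ip_self hsQ, hP1, hQ1, F.ip_comm Q 1, hQ1,
    F.ip_comm (F.st Q) 1, hP1, F.ip_ne h.hQ hsQ h.sQ, F.ip_ne hsQ h.hQ h.sQ.symm]

/-- the dual of an object of type `TB` is again of this type -/
lemma TB.dual {V P Q k l m : E} (h : TB F V P Q k l m) :
    ∃ P' Q' k' l' m', TB F (F.st V) P' Q' k' l' m' := by
  have hn := norm_three_M h.toTS
  rw [← F.norm_M] at hn
  have hsV := F.st_mem V h.hV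
  have dsV : F.d (F.st V) = 3 := by rw [F.d_st, h.dV]
  have hkV := F.inv_mul_mem h.hk h.dk h.hV
  have hlV := F.inv_mul_mem h.hl h.dl h.hV
  have hmV := F.inv_mul_mem h.hm h.dm h.hV
  have nV : ∀ z ∈ F.S, F.d z = 1 → z ≠ 1 → V ≠ z * V :=
    fun z hz dz e e' => e (F.stab3 h.hV h.dV hz dz e'.symm)
  have nVV : ∀ z ∈ F.S, ∀ w ∈ F.S, F.d z = 1 → F.d w = 1 → z ≠ w → z * V ≠ w * V :=
    fun z hz w hw dz dw e e' => e (F.inv_eq h.hV h.dV hz dz hw dw e')
  have hin : ∀ z ∈ F.S, F.d z = 1 → F.ip (Q * V) (z * V) ≠ 0 →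
      F.ip (F.st V * V * F.st V) (F.st (z * V)) ≠ 0 := by
    intro z hz dz e
    have : F.st V * V * F.st V = F.st (V * F.st V * V) := by
      rw [F.st_mul, F.M_self, mul_assoc]
    rw [this, F.ip_st, h.hM, add_mul, add_mul, F.ip_add_left]
    omega
  have hQVk : F.ip (Q * V) (k * V) ≠ 0 := by
    rw [h.hQV]; simp only [F.ip_add_left]; rw [F.ip_self hkV]; omega
  have hQVl : F.ip (Q * V) (l * V) ≠ 0 := by
    rw [h.hQV]; simp only [F.ip_add_left]; rw [F.ip_self hlV]; omega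
  have hQVm : F.ip (Q * V) (m * V) ≠ 0 := by
    rw [h.hQV]; simp only [F.ip_add_left]; rw [F.ip_self hmV]; omega
  have ik := hin k h.hk h.dk hQVk
  have il := hin l h.hl h.dl hQVl
  have im := hin m h.hm h.dm hQVm
  have st_ne : ∀ x y : E, x ≠ y → F.st x ≠ F.st y := by
    intro x y hxy e
    apply hxy
    rw [← F.st_st x, e, F.st_st]
  have dkV : F.d (F.st (k * V)) = 3 := by rw [F.d_st, F.d_mul, h.dk, h.dV]
  have dlV : F.d (F.st (l * V)) = 3 := by rw [F.d_st, F.d_mul, h.dl, h.dV]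
  have dmV : F.d (F.st (m * V)) = 3 := by rw [F.d_st, F.d_mul, h.dm, h.dV]
  have skV := F.st_mem _ hkV
  have slV := F.st_mem _ hlV
  have smV := F.st_mem _ hmV
  rcases F.tri hsV dsV with ⟨W, hW, dW, e⟩ | ⟨P', Q', h'⟩ | ⟨Q', h'⟩
  · exfalso
    rw [F.st_st] at e
    rw [e, F.norm_split F.one_mem (F.ip_d_ne hW F.one_mem (by rw [F.d_one]; omega)),
      F.ip_self hW] at hn
    omega
  · rcases h'.classify with ⟨W, hTA⟩ | h1 | h1
    · exfalso
      have hMM := h'.hM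
      rw [F.st_st] at hMM
      rw [hMM, add_mul, add_mul, one_mul, hTA.PV, hTA.QV] at ik
      simp only [F.ip_add_left] at ik
      rw [F.ip_ne hsV skV (st_ne _ _ (nV k h.hk h.dk h.k1)),
        F.ip_d_ne hTA.hW skV (by rw [hTA.dW, dkV]; omega)] at ik
      exact ik rfl
    · obtain ⟨k', l', m', h''⟩ := h'.toTB h1
      exact ⟨P', Q', k', l', m', h''⟩
    · obtain ⟨k', l', m', h''⟩ := h'.swap.toTB h1
      exact ⟨Q', P', k', l', m', h''⟩
  · exfalso
    obtain ⟨A, B, hA, hB, _, _, dA, dB, nA, nB, _⟩ := h'.basic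
    have hMM := h'.hM
    rw [F.st_st] at hMM
    rw [hMM, add_mul, add_mul, one_mul, hA, hB] at ik il im
    simp only [F.ip_add_left] at ik il im
    rw [F.ip_ne hsV skV (st_ne _ _ (nV k h.hk h.dk h.k1))] at ik
    rw [F.ip_ne hsV slV (st_ne _ _ (nV l h.hl h.dl h.l1))] at il
    rw [F.ip_ne hsV smV (st_ne _ _ (nV m h.hm h.dm h.m1))] at im
    have no : ∀ X x y : E, F.d X = 9 → F.ip X X = 2 → x ∈ F.S → y ∈ F.S → F.d x = 3 → F.d y = 3 →
        x ≠ y → F.ip X x ≠ 0 → F.ip X y ≠ 0 → False := by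
      intro X x y dX nX hx hy dx dy hxy e1 e2
      obtain ⟨w, hw⟩ := F.split2 hx hy hxy e1 e2
      have dw : F.d w ≠ 0 := by
        have := congrArg F.d hw
        rw [F.d_add, F.d_add] at this; omega
      have nw : F.ip w w ≠ 0 := by
        intro h0
        rw [F.eq_zero_of_norm h0, F.d_zero] at dw; exact dw rfl
      rw [hw, F.norm_add, F.norm_add, F.ip_self hx, F.ip_self hy] at nX
      omega
    have n1 := st_ne _ _ (nVV k h.hk l h.hl h.dk h.dl h.kl)
    have n2 := st_ne _ _ (nVV k h.hk m h.hm h.dk h.dm h.km)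
    have n3 := st_ne _ _ (nVV l h.hl m h.hm h.dl h.dm h.lm)
    by_cases c1 : F.ip A (F.st (k * V)) = 0 <;> by_cases c2 : F.ip A (F.st (l * V)) = 0 <;>
      by_cases c3 : F.ip A (F.st (m * V)) = 0
    · exact no B _ _ dB nB skV slV dkV dlV n1 (by omega) (by omega)
    · exact no B _ _ dB nB skV slV dkV dlV n1 (by omega) (by omega)
    · exact no B _ _ dB nB skV smV dkV dmV n2 (by omega) (by omega)
    · exact no A _ _ dA nA slV smV dlV dmV n3 c2 c3
    · exact no B _ _ dB nB slV smV dlV dmV n3 (by omega) (by omega)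
    · exact no A _ _ dA nA skV smV dkV dmV n2 c1 c3
    · exact no A _ _ dA nA skV slV dkV dlV n1 c1 c2
    · exact no A _ _ dA nA skV slV dkV dlV n1 c1 c2

/-- commutation of `k` past `V` -/
lemma TB.comm {V P Q k l m : E} (h : TB F V P Q k l m) :
    ∃ z, z ∈ F.S ∧ F.d z = 1 ∧ k * V = V * z := by
  obtain ⟨P', Q', k', l', m', h'⟩ := h.dual
  have hkV := F.inv_mul_mem h.hk h.dk h.hV
  obtain ⟨z, hz, dz, e⟩ := h'.D3 (F.st_mem _ hkV) (by rw [F.d_st, F.d_mul, h.dk, h.dV]) (by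
    have : F.st V * F.st (F.st V) * F.st V = F.st (V * F.st V * V) := by
      rw [F.st_mul, F.M_self, F.st_st, mul_assoc]
    rw [this, F.ip_st, h.hM, add_mul, add_mul, F.ip_add_left, h.hQV]
    simp only [F.ip_add_left]
    rw [F.ip_self hkV]; omega)
  refine ⟨F.st z, F.st_mem z hz, by rw [F.d_st, dz], ?_⟩
  have := congrArg F.st e
  rwa [F.st_st, F.st_mul, F.st_st] at this

lemma TB.comm' {V P Q k l m : E} (h : TB F V P Q k l m) :
    ∃ z, z ∈ F.S ∧ F.d z = 1 ∧ F.st k * V = V * z ∧ z ≠ 1 := by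
  obtain ⟨z, hz, dz, e⟩ := h.comm
  have e1 : F.st k * V = V * F.st z := by
    apply F.inv_cancel h.hk h.dk
    rw [← mul_assoc, F.mul_st_one h.hk h.dk, one_mul, ← mul_assoc, e, mul_assoc,
      F.mul_st_one hz dz, mul_one]
  refine ⟨F.st z, F.st_mem z hz, by rw [F.d_st, dz], e1, ?_⟩
  intro hz1
  rw [hz1, mul_one] at e1
  have := F.stab3 h.hV h.dV (F.st_mem k h.hk) (by rw [F.d_st, h.dk]) e1
  apply h.k1
  rw [← F.st_st k, this, F.st_one]

/-- `P * k* ≠ Q` -/
lemma TB.ne_aux {V P Q k l m : E} (h : TB F V P Q k l m) : Q ≠ P * F.st k := by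
  intro e
  have e1 := congrArg F.st e
  rw [F.st_mul, F.st_st, h.sP, h.sQ] at e1
  apply h.hne
  apply F.inv_cancel h.hk h.dk
  rw [← e1, h.kQ]

lemma TB.false_none {V P Q k l m : E} (h : TB F V P Q k l m) (a : k * P ≠ P) (b : l * P ≠ P)
    (c : m * P ≠ P) : False := by
  obtain ⟨W, hW, dW, hPV⟩ := h.none a b c
  obtain ⟨z, hz, dz, ez, z1⟩ := h.comm'
  have hsk := F.st_mem k h.hk
  have dsk : F.d (F.st k) = 1 := by rw [F.d_st, h.dk]
  have hx := F.mul_inv_mem hsk dsk h.hP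
  have dx : F.d (P * F.st k) = 4 := by rw [F.d_mul, h.dP, dsk]
  have e : P * (V * F.st V) = (V + W) * F.st V := by rw [← mul_assoc, hPV]
  rw [add_mul, h.hM] at e
  simp only [mul_add, mul_one] at e
  have e1 : F.ip (P * Q) (P * F.st k) ≠ 0 := by
    have : P * Q = F.st (Q * P) := by rw [F.st_mul, h.sP, h.sQ]
    have h2 : P * F.st k = F.st (k * P) := by rw [F.st_mul, h.sP]
    rw [this, h2, F.ip_st, h.hQP]
    simp only [F.ip_add_left]
    rw [F.ip_self (F.inv_mul_mem h.hk h.dk h.hP)]; omega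
  have e2 : F.ip (W * F.st V) (P * F.st k) ≠ 0 := by
    have h2 := congrArg (fun y => F.ip y (P * F.st k)) e
    simp only [F.ip_add_left] at h2
    rw [F.ip_d_ne F.one_mem hx (by rw [F.d_one, dx]; omega), F.ip_ne h.hQ hx h.ne_aux] at h2
    omega
  rw [F.ip_mul_right, F.st_st, mul_assoc, ez, ← mul_assoc, hPV, add_mul, F.ip_add_right,
    F.ip_d_ne hW (F.mul_inv_mem hz dz h.hV) (by rw [F.d_mul, h.dV, dz, dW]; omega), zero_add] at e2
  have e3 := F.eq_of_ip hW (F.mul_inv_mem hz dz hW) e2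
  have e4 := congrArg F.st e3
  rw [F.st_mul] at e4
  have e5 := F.stab9 (F.st_mem W hW) (by rw [F.d_st, dW]) (F.st_mem z hz) (by rw [F.d_st, dz]) e4.symm
  apply z1
  rw [← F.st_st z, e5, F.st_one]

lemma TB.false_one {V P Q k l m : E} (h : TB F V P Q k l m) (a : k * P = P) (b : l * P ≠ P)
    (c : m * P ≠ P) : False := by
  obtain ⟨U, hU, dU, hPV⟩ := h.one a b c
  obtain ⟨z, hz, dz, ez, z1⟩ := h.rot.comm'
  have hsl := F.st_mem l h.hl
  have dsl : F.d (F.st l) = 1 := by rw [F.d_st, h.dl]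
  have hx := F.mul_inv_mem hsl dsl h.hP
  have dx : F.d (P * F.st l) = 4 := by rw [F.d_mul, h.dP, dsl]
  have hmP : m * P = l * P := by rw [← (h.prod a b).2, mul_assoc, a]
  have hlP := F.inv_mul_mem h.hl h.dl h.hP
  have e : P * (V * F.st V) = (V + k * V + U) * F.st V := by rw [← mul_assoc, hPV]
  rw [add_mul, add_mul, mul_assoc k, h.hM] at e
  simp only [mul_add, mul_one] at e
  rw [a, h.kQ] at e
  have e1 : F.ip (P * Q) (P * F.st l) = 2 := by
    have : P * Q = F.st (Q * P) := by rw [F.st_mul, h.sP, h.sQ]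
    have h2 : P * F.st l = F.st (l * P) := by rw [F.st_mul, h.sP]
    rw [this, h2, F.ip_st, h.hQP]
    simp only [F.ip_add_left]
    rw [hmP, a, F.ip_self hlP, F.ip_ne h.hP hlP b.symm]
  have hPx : F.ip P (P * F.st l) = 0 := by
    apply F.ip_ne h.hP hx
    intro e5
    apply b
    have := congrArg F.st e5
    rw [F.st_mul, F.st_st, h.sP] at this
    exact this.symm
  have e2 : 2 ≤ F.ip (U * F.st V) (P * F.st l) := by
    have h2 := congrArg (fun y => F.ip y (P * F.st l)) e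
    simp only [F.ip_add_left] at h2
    rw [F.ip_d_ne F.one_mem hx (by rw [F.d_one, dx]; omega), F.ip_ne h.hQ hx h.rot.ne_aux,
      F.ip_d_ne h.hk hx (by rw [h.dk, dx]; omega), hPx, e1] at h2
    omega
  have hkV := F.inv_mul_mem h.hk h.dk h.hV
  rw [F.ip_mul_right, F.st_st, mul_assoc, ez, ← mul_assoc, hPV, add_mul, add_mul, F.ip_add_right,
    F.ip_add_right, F.ip_d_ne hU (F.mul_inv_mem hz dz h.hV) (by rw [F.d_mul, h.dV, dz, dU]; omega),
    F.ip_d_ne hU (F.mul_inv_mem hz dz hkV) (by rw [F.d_mul, F.d_mul, h.dk, h.dV, dz, dU]; omega)]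
    at e2
  have := F.ip_le_one hU (F.mul_inv_mem hz dz hU)
  omega

theorem TB.false {V P Q k l m : E} (h : TB F V P Q k l m) : False := by
  rcases h.s_cases with ⟨a, b, c⟩ | ⟨a, b, c⟩ | ⟨a, b, c⟩ | ⟨a, b, c⟩
  · exact h.false_none a b c
  · exact h.false_one a b c
  · exact h.rot.false_one b c a
  · exact h.rot.rot.false_one c a b

/-- an object of self-dual type is of type alpha -/
theorem TS.toTA {V P Q : E} (h : F.TS V P Q) : ∃ W, TA F V P Q W := by
  rcases h.classify with h1 | h1 | h1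
  · exact h1
  · obtain ⟨k, l, m, h2⟩ := h.toTB h1
    exact absurd h2.false id
  · obtain ⟨k, l, m, h2⟩ := h.swap.toTB h1
    exact absurd h2.false id

/-- the dual of an object of non self-dual type is again of non self-dual type -/
theorem TD.dual {V Q : E} (h : F.TD V Q) : ∃ Q', F.TD (F.st V) Q' := by
  have hn := h.norm_M
  rw [← F.norm_M] at hn
  have hsV := F.st_mem V h.hV
  have dsV : F.d (F.st V) = 3 := by rw [F.d_st, h.dV]
  rcases F.tri hsV dsV with ⟨W, hW, dW, e⟩ | ⟨P', Q', h'⟩ | h'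
  · exfalso
    rw [F.st_st] at e
    rw [e, F.norm_split F.one_mem (F.ip_d_ne hW F.one_mem (by rw [F.d_one]; omega)),
      F.ip_self hW] at hn
    omega
  · exfalso
    obtain ⟨W, hTA⟩ := h'.toTA
    obtain ⟨A, B, hA, hB, _, _, dA, dB, nA, nB, _⟩ := h.basic
    have hMM := h'.hM
    rw [F.st_st] at hMM
    have hsW := F.st_mem W hTA.hW
    have dsW : F.d (F.st W) = 9 := by rw [F.d_st, hTA.dW]
    have e1 : F.ip (V * F.st V * V) (F.st W) ≠ 0 := by
      have : V * F.st V * V = F.st (F.st V * V * F.st V) := by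
        rw [F.st_mul, F.st_st, F.st_mul, F.st_st, mul_assoc]
      rw [this, F.ip_st, hMM, add_mul, add_mul, hTA.PV]
      simp only [F.ip_add_left]
      rw [F.ip_self hTA.hW]; omega
    rw [h.hM, add_mul, add_mul, one_mul, hA, hB] at e1
    simp only [F.ip_add_left] at e1
    have no : ∀ X : E, F.d X = 9 → F.ip X X = 2 → F.ip X (F.st W) = 0 := by
      intro X dX nX
      by_contra hc
      obtain ⟨y, hy⟩ := F.split hsW hc
      have : y = 0 := by
        apply F.eq_zero_of_d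
        have := congrArg F.d hy
        rw [F.d_add] at this; omega
      rw [this, add_zero] at hy
      rw [hy, F.ip_self hsW] at nX
      omega
    rw [F.ip_d_ne h.hV hsW (by rw [h.dV, dsW]; omega), no A dA nA, no B dB nB] at e1
    exact e1 rfl
  · exact h'

end Fus

end Run7.h2
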