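import Pool.Agent.Run7.h2.Fus12

/-!
The shape `1 + 4 + 4`, not self-dual: constituents of degree three.
-/

namespace Run7.h2

universe u

namespace Fus

variable {E : Type u} [Semiring E] {F : Fus E}

lemma ip_sx_st (F : Fus E) (x y : E) : F.ip (F.st x * x) (F.st y) = F.ip (F.st x * x) y := by
  rw [← F.ip_st, F.st_mul, F.st_st, F.st_st]

lemma t_stx_x {x : E} (hx : x ∈ F.S) : F.t (F.st x * x) = 1 := by
  have := F.orth_self _ (F.st_mem x hx)
  rwa [F.st_st] at this

lemma TD.parity {V Q : E} (h : F.TD V Q) {x : E} (hx : x ∈ F.S) :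
    F.ip (x * V) (x * V) = 1 + 2 * F.ip (F.st x * x) Q := by
  rw [F.norm_mul_right, h.ip3, t_stx_x hx, ip_sx_st]; ring

lemma TD.bound {V Q : E} (h : F.TD V Q) {x : E} (hx : x ∈ F.S) :
    1 + 8 * F.ip (F.st x * x) Q ≤ F.d x * F.d x := by
  have hsQ := F.st_mem Q h.hQ
  have := F.deg3 F.one_mem h.hQ hsQ (F.ne_one_of_d (by rw [h.dQ]; omega)).symm
    (F.ne_one_of_d (by rw [F.d_st, h.dQ]; omega)).symm h.sQ (F.st x * x)
  rw [F.ip_one, t_stx_x hx, ip_sx_st, F.d_one, F.d_st, h.dQ, F.d_mul, F.d_st] at this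
  omega

/-- if `x V` contains a simple `a` with multiplicity one, of smaller degree, then we get the
norm of the rest -/
lemma TD.rest {V Q x a : E} (h : F.TD V Q) (hx : x ∈ F.S) (ha : a ∈ F.S)
    (e : F.ip (x * V) a = 1) (hd : F.d a < F.d x * 3) :
    ∃ r, x * V = a + r ∧ F.ip r a = 0 ∧ F.ip r r = 2 * F.ip (F.st x * x) Q ∧ F.ip r r ≠ 0 ∧
      F.d r + F.d a = F.d x * 3 := by
  obtain ⟨r, hr⟩ := F.split ha (x := x * V) (by omega)
  have h1 : F.ip r a = 0 := by
    rw [hr, F.ip_add_left, F.ip_self ha] at e; omega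
  have h2 := h.parity hx
  rw [hr, F.norm_split ha h1] at h2
  have h3 : F.d r + F.d a = F.d x * 3 := by
    have := congrArg F.d hr
    rw [F.d_mul, F.d_add, h.dV] at this; omega
  refine ⟨r, hr, h1, by omega, ?_, h3⟩
  intro h0
  rw [F.eq_zero_of_norm h0, F.d_zero] at h3
  omega

/-- a product of two objects of degree three (one being `V`) which contains a constituent of degree
four with multiplicity one contains an invertible object -/
lemma TD.inv_of_four {V Q T a : E} (h : F.TD V Q) (hT : T ∈ F.S) (dT : F.d T = 3) (ha : a ∈ F.S)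
    (da : F.d a = 4) (e : F.ip (T * V) a = 1) :
    (∃ k, k ∈ F.S ∧ F.d k = 1 ∧ T = k * F.st V) ∧ F.ip (F.st T * T) Q = 1 := by
  obtain ⟨r, hr, hra, nr, nr0, dr⟩ := h.rest hT ha e (by omega)
  have hb := h.bound hT
  rw [dT] at hb
  have h1 : F.ip (F.st T * T) Q = 1 := by omega
  refine ⟨?_, h1⟩
  obtain ⟨k, hk, dk, hrk⟩ := F.five_split (r := r) (by omega) (by omega) (by
    intro s hs ds
    by_contra hc
    have h2 : F.ip (T * V) s ≠ 0 := by rw [hr, F.ip_add_left]; omega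
    exact h2 (F.ip_mul_two hT h.hV h.dV hs ds (by omega)))
  exact ⟨k, hk, dk, F.inv_in_mul hT h.hV hk dk (by rw [hr, F.ip_add_left]; omega)⟩

/-- constituents of `Q V` of degree three -/
lemma TD.three_left {V Q Q' T : E} (h : F.TD V Q) (h' : F.TD (F.st V) Q') (hT : T ∈ F.S)
    (dT : F.d T = 3) (e : F.ip (Q * V) T = 1) : ∃ k, k ∈ F.S ∧ F.d k = 1 ∧ T = k * V := by
  have e1 : F.ip (T * F.st V) Q = 1 := by
    rw [F.ip_mul_right, F.st_st, F.ip_comm]; exact e
  obtain ⟨⟨k, hk, dk, e2⟩, _⟩ := h'.inv_of_four hT dT h.hQ h.dQ e1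
  exact ⟨k, hk, dk, by rw [e2, F.st_st]⟩

/-- constituents of `V V* V` have multiplicity one in `Q V`, if different from `V` -/
lemma TD.mult_one {V Q T : E} (h : F.TD V Q) (hT : T ∈ F.S) (hTV : T ≠ V)
    (e : F.ip (Q * V) T ≠ 0) : F.ip (Q * V) T = 1 ∧ F.ip (F.st Q * V) T = 0 := by
  obtain ⟨A, B, hA, hB, _, _, dA, dB, nA, nB, AB, _⟩ := h.basic
  rw [hA, F.ip_add_left, F.ip_ne h.hV hT hTV.symm, zero_add] at e
  obtain ⟨y, hy⟩ := F.split hT e
  have e1 : F.ip A T = 1 := by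
    rw [hy, F.norm_add, F.ip_self hT] at nA
    rw [hy, F.ip_add_left, F.ip_self hT, F.ip_comm y T]; omega
  have e2 : F.ip B T = 0 := by
    by_contra hc
    obtain ⟨z, hz⟩ := F.split hT hc
    rw [hy, hz, F.ip_add_left, F.ip_add_right, F.ip_self hT] at AB
    omega
  rw [hA, hB, F.ip_add_left, F.ip_add_left, F.ip_ne h.hV hT hTV.symm, e1, e2]
  exact ⟨rfl, rfl⟩

/-- there are no constituents of degree three in `Q V` except `V` -/
theorem TD.no_three {V Q T : E} (h : F.TD V Q) (hT : T ∈ F.S) (dT : F.d T = 3) (hTV : T ≠ V)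
    (e : F.ip (Q * V) T ≠ 0) : False := by
  obtain ⟨Q', h'⟩ := h.dual
  obtain ⟨e1, e0⟩ := h.mult_one hT hTV e
  obtain ⟨k, hk, dk, hkT⟩ := h.three_left h' hT dT e1
  have hk1 : k ≠ 1 := by
    rintro rfl
    rw [one_mul] at hkT; exact hTV hkT
  have hsQ := F.st_mem Q h.hQ
  have dsQ : F.d (F.st Q) = 4 := by rw [F.d_st, h.dQ]
  -- right side
  have hsT := F.st_mem T hT
  have dsT : F.d (F.st T) = 3 := by rw [F.d_st, dT]
  have hsTV : F.st T ≠ F.st V := by
    intro e5
    apply hTV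
    rw [← F.st_st T, e5, F.st_st]
  have e3 : F.ip (F.st V * V * F.st V) (F.st T) ≠ 0 := by
    have : F.st V * V * F.st V = F.st (V * F.st V * V) := by
      rw [F.st_mul, F.M_self, mul_assoc]
    rw [this, F.ip_st, h.hM, add_mul, add_mul, F.ip_add_left, F.ip_add_left]
    omega
  have e4 : ∃ z, z ∈ F.S ∧ F.d z = 1 ∧ F.st T = z * F.st V := by
    have h'' : F.TD (F.st (F.st V)) Q := by rw [F.st_st]; exact h
    have hMM := h'.hM
    rw [F.st_st] at hMM
    rw [hMM, add_mul, add_mul, one_mul, F.ip_add_left, F.ip_add_left,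
      F.ip_ne (F.st_mem V h.hV) hsT hsTV.symm] at e3
    by_cases c : F.ip (Q' * F.st V) (F.st T) = 0
    · obtain ⟨e5, _⟩ := h'.swap.mult_one hsT hsTV (by omega)
      exact h'.swap.three_left h'' hsT dsT e5
    · obtain ⟨e5, _⟩ := h'.mult_one hsT hsTV c
      exact h'.three_left h'' hsT dsT e5
  obtain ⟨z, hz, dz, hzT⟩ := e4
  have hTz : T = V * F.st z := by
    have := congrArg F.st hzT
    rwa [F.st_st, F.st_mul, F.st_st] at this
  -- commutation with M
  have c1 : k * V = V * F.st z := by rw [← hkT, hTz]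
  have c2 : F.st V * k = F.st z * F.st V := by
    have e5 := congrArg F.st c1
    rw [F.st_mul, F.st_mul, F.st_st] at e5
    -- st V * st k = z * st V
    apply F.inv_cancel hz dz
    rw [← mul_assoc, ← mul_assoc, ← e5, mul_assoc, F.st_mul_one hk dk, F.mul_st_one hz dz, mul_one,
      one_mul]
  have c3 : V * F.st V * k = k * (V * F.st V) := by
    rw [mul_assoc, c2, ← mul_assoc, ← c1, mul_assoc]
  have c4 : T * F.st V = k + k * Q + k * F.st Q := by
    rw [hkT, mul_assoc, h.hM, mul_add, mul_add, mul_one]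
  have e5 : F.ip (T * F.st V) Q = 1 := by
    rw [F.ip_mul_right, F.st_st, F.ip_comm]; exact e1
  have e6 : F.ip (T * F.st V) (F.st Q) = 0 := by
    rw [F.ip_mul_right, F.st_st, F.ip_comm]; exact e0
  have hkQ := F.inv_mul_mem hk dk h.hQ
  have hksQ := F.inv_mul_mem hk dk hsQ
  rw [c4, F.ip_add_left, F.ip_add_left, F.ip_d_ne hk h.hQ (by rw [dk, h.dQ]; omega)] at e5
  rw [c4, F.ip_add_left, F.ip_add_left, F.ip_d_ne hk hsQ (by rw [dk, dsQ]; omega)] at e6
  rw [h.hM] at c3
  simp only [add_mul, mul_add, one_mul, mul_one] at c3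
  by_cases f : F.ip (k * Q) Q = 0
  · -- k * st Q = Q
    have g1 : k * F.st Q = Q := F.eq_of_ip hksQ h.hQ (by omega)
    have g2 : F.st Q * k = Q := by
      -- st: Q * st k = st Q
      have g3 := congrArg F.st g1
      rw [F.st_mul, F.st_st] at g3
      rw [← g3, mul_assoc, F.st_mul_one hk dk, mul_one]
    have g4 : k * Q = Q * k := by
      conv_lhs => rw [← g2]
      rw [← mul_assoc, g1]
    obtain ⟨j, hj⟩ := F.exists_cube_inv hk dk
    obtain ⟨hkj, dkj⟩ := F.pow_mem hk dk j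
    have hx := F.inv_mul_mem hkj dkj h.hQ
    have h3 := F.fs3 (k ^ j * Q)
    rw [F.t_simple_ne_one hx (F.ne_one_of_d (by rw [F.d_mul, dkj, h.dQ]; omega))] at h3
    have hcm : Commute (k ^ j) Q := Commute.pow_left g4 j
    rw [hcm.mul_pow, ← pow_mul, mul_comm j 3] at h3
    have e7 : k ^ (3 * j) = F.st k := by
      apply inv_cancel_right F hk dk
      rw [hj, F.st_mul_one hk dk]
    have e8 : F.st Q = F.st k * Q := by
      apply F.inv_cancel hk dk
      rw [g1, ← mul_assoc, F.mul_st_one hk dk, one_mul]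
    have e9 : k ^ (3 * j) * Q ^ 3 = F.st Q * (Q * Q) := by
      rw [e7, pow_succ', pow_two, ← mul_assoc, ← e8]
    rw [e9, F.t_comm] at h3
    obtain ⟨_, _, _, _, _, _, _, _, _, _, _, _, hQQQ, _⟩ := h.basic
    unfold ip at hQQQ
    rw [hQQQ] at h3
    exact absurd h3 (by decide)
  · have g1 : k * Q = Q := F.eq_of_ip hkQ h.hQ f
    have g2 : F.st Q * k = F.st Q := by
      have g3 := congrArg F.st g1
      rw [F.st_mul] at g3
      conv_lhs => rw [← g3]
      rw [mul_assoc, F.st_mul_one hk dk, mul_one]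
    rw [g1, g2] at c3
    have g5 := congrArg (fun y => F.ip y (F.st Q)) c3
    simp only [F.ip_add_left] at g5
    rw [F.ip_self hsQ, F.ip_ne h.hQ hsQ h.sQ] at g5
    have : F.ip (k * F.st Q) (F.st Q) ≠ 0 := by omega
    omega

end Fus

end Run7.h2
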