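import Pool.Agent.Run7.h2.Fus13

/-!
The shape `1 + 4 + 4`, not self-dual: the remaining case.
-/

namespace Run7.h2

universe u

namespace Fus

variable {E : Type u} [Semiring E] {F : Fus E}

lemma sub_step (F : Fus E) {a N P R : E} (ha : a ∈ F.S) (h : P + N = a + R) :
    (∃ N', N = a + N' ∧ P + N' = R) ∨ (∃ P', P = a + P' ∧ P' + N = R) := by
  have h1 := congrArg (fun y => F.ip y a) h
  simp only [F.ip_add_left] at h1
  rw [F.ip_self ha] at h1
  by_cases h2 : F.ip N a = 0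
  · right
    obtain ⟨P', hP'⟩ := F.split ha (x := P) (by omega)
    refine ⟨P', hP', F.add_cancel a _ _ ?_⟩
    rw [← h, hP', add_assoc]
  · left
    obtain ⟨N', hN'⟩ := F.split ha h2
    refine ⟨N', hN', F.add_cancel a _ _ ?_⟩
    rw [← h, hN']; abel

lemma sub_step' (F : Fus E) {a N P R : E} (ha : a ∈ F.S) (h : P + N = a + R) :
    ∃ i N' P', i ≤ 1 ∧ N = i • a + N' ∧ P = (1 - i) • a + P' ∧ P' + N' = R := by
  rcases F.sub_step ha h with ⟨N', h1, h2⟩ | ⟨P', h1, h2⟩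
  · exact ⟨1, N', P, le_rfl, by rw [one_smul]; exact h1, by simp, h2⟩
  · exact ⟨0, N, P', by omega, by simp, by simpa using h1, h2⟩

lemma sub_sum4 (F : Fus E) {a b c e P N : E} (ha : a ∈ F.S) (hb : b ∈ F.S) (hc : c ∈ F.S)
    (he : e ∈ F.S) (h : P + N = a + b + c + e) :
    ∃ i j k l : ℕ, i ≤ 1 ∧ j ≤ 1 ∧ k ≤ 1 ∧ l ≤ 1 ∧ N = i • a + j • b + k • c + l • e ∧
      P = (1 - i) • a + (1 - j) • b + (1 - k) • c + (1 - l) • e := by
  obtain ⟨i, N1, P1, hi, rfl, rfl, h1⟩ := F.sub_step' (R := b + c + e) ha (by rw [h]; abel)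
  obtain ⟨j, N2, P2, hj, rfl, rfl, h2⟩ := F.sub_step' (R := c + e) hb (by rw [h1]; abel)
  obtain ⟨k, N3, P3, hk, rfl, rfl, h3⟩ := F.sub_step' (R := e) hc (by rw [h2])
  obtain ⟨l, N4, P4, hl, rfl, rfl, h4⟩ := F.sub_step' (R := 0) he (by rw [h3, add_zero])
  have hd : F.d P4 = 0 ∧ F.d N4 = 0 := by
    have := congrArg F.d h4
    rw [F.d_add, F.d_zero] at this
    omega
  have h5 := F.eq_zero_of_d hd.1
  have h6 := F.eq_zero_of_d hd.2
  subst h5 h6
  refine ⟨i, j, k, l, hi, hj, hk, hl, ?_, ?_⟩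
  · rw [add_zero]; simp only [add_assoc]
  · rw [add_zero]; simp only [add_assoc]

lemma parts_eight (F : Fus E) {r : E} (dr : F.d r = 8) (nr : F.ip r r = 2)
    (g : ∀ z ∈ F.S, F.ip r z ≠ 0 → 3 ≤ F.d z) :
    (∃ x y, x ∈ F.S ∧ y ∈ F.S ∧ F.d x = 5 ∧ F.d y = 3 ∧ r = x + y) ∨
    (∃ x y, x ∈ F.S ∧ y ∈ F.S ∧ F.d x = 4 ∧ F.d y = 4 ∧ x ≠ y ∧ r = x + y) := by
  obtain ⟨x, y, hx, hy, hxy, rfl⟩ := F.norm_two nr
  rw [F.d_add] at dr
  have gx := g x hx (by rw [F.ip_add_left, F.ip_self hx]; omega)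
  have gy := g y hy (by rw [F.ip_add_left, F.ip_self hy]; omega)
  have : F.d x = 3 ∨ F.d x = 4 ∨ F.d x = 5 := by omega
  rcases this with h | h | h
  · left; exact ⟨y, x, hy, hx, by omega, h, add_comm _ _⟩
  · right; exact ⟨x, y, hx, hy, h, by omega, hxy, rfl⟩
  · left; exact ⟨x, y, hx, hy, h, by omega, rfl⟩

lemma parts_eleven (F : Fus E) {r : E} (dr : F.d r = 11) (nr : F.ip r r % 2 = 0)
    (g : ∀ z ∈ F.S, F.ip r z ≠ 0 → 3 ≤ F.d z) :
    ∃ x y, x ∈ F.S ∧ y ∈ F.S ∧ ((F.d x = 8 ∧ F.d y = 3) ∨ (F.d x = 7 ∧ F.d y = 4) ∨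
      (F.d x = 6 ∧ F.d y = 5)) ∧ r = x + y := by
  obtain ⟨x, r1, hx, rfl⟩ := F.exists_split (x := r) (by rintro rfl; rw [F.d_zero] at dr; omega)
  have gx := g x hx (by rw [F.ip_add_left, F.ip_self hx]; omega)
  have h1 : r1 ≠ 0 := by
    rintro rfl
    rw [add_zero, F.ip_self hx] at nr
    omega
  obtain ⟨y, r2, hy, rfl⟩ := F.exists_split h1
  have gy := g y hy (by rw [F.ip_add_left, F.ip_add_left, F.ip_self hy]; omega)
  have h2 : r2 = 0 := by
    by_contra h2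
    obtain ⟨z, r3, hz, rfl⟩ := F.exists_split h2
    have gz := g z hz (by rw [F.ip_add_left, F.ip_add_left, F.ip_add_left, F.ip_self hz]; omega)
    have h3 : r3 = 0 := by
      by_contra h3
      obtain ⟨w, r4, hw, rfl⟩ := F.exists_split h3
      have gw := g w hw (by
        rw [F.ip_add_left, F.ip_add_left, F.ip_add_left, F.ip_add_left, F.ip_self hw]; omega)
      rw [F.d_add, F.d_add, F.d_add, F.d_add] at dr
      omega
    subst h3
    rw [add_zero, F.norm_add, F.norm_add, F.ip_self hx, F.ip_self hy, F.ip_self hz] at nr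
    omega
  subst h2
  rw [add_zero] at *
  rw [F.d_add] at dr
  have : F.d x = 3 ∨ F.d x = 4 ∨ F.d x = 5 ∨ F.d x = 6 ∨ F.d x = 7 ∨ F.d x = 8 := by omega
  rcases this with h | h | h | h | h | h
  · exact ⟨y, x, hy, hx, by omega, add_comm _ _⟩
  · exact ⟨y, x, hy, hx, by omega, add_comm _ _⟩
  · exact ⟨y, x, hy, hx, by omega, add_comm _ _⟩
  · exact ⟨x, y, hx, hy, by omega, rfl⟩
  · exact ⟨x, y, hx, hy, by omega, rfl⟩
  · exact ⟨x, y, hx, hy, by omega, rfl⟩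

lemma TD.split45 {V Q : E} (h : F.TD V Q) : ∃ A B, A ∈ F.S ∧ B ∈ F.S ∧ F.d A = 4 ∧ F.d B = 5 ∧
    Q * V = V + A + B ∧ F.ip (Q * V) A = 1 ∧ F.ip (Q * V) B = 1 ∧ F.ip (F.st Q * V) A = 0 ∧
    F.ip (F.st Q * V) B = 0 := by
  obtain ⟨X, Y, hX, hY, hXV, hYV, dX, dY, nX, nY, XY, _, _, _, _, _, _, gX, gY⟩ := h.basic
  obtain ⟨a, b, ha, hb, hab, rfl⟩ := F.norm_two nX
  have aV : a ≠ V := by
    rintro rfl; rw [F.ip_add_left, F.ip_self ha] at hXV; omega
  have bV : b ≠ V := by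
    rintro rfl; rw [F.ip_add_left, F.ip_self hb] at hXV; omega
  have ea : F.ip (Q * V) a ≠ 0 := by
    rw [hX, F.ip_add_left, F.ip_add_left, F.ip_self ha]; omega
  have eb : F.ip (Q * V) b ≠ 0 := by
    rw [hX, F.ip_add_left, F.ip_add_left, F.ip_self hb]; omega
  have ga := gX a ha (by rw [F.ip_add_left, F.ip_self ha]; omega)
  have gb := gX b hb (by rw [F.ip_add_left, F.ip_self hb]; omega)
  have a3 : F.d a ≠ 3 := fun h3 => h.no_three ha h3 aV ea
  have b3 : F.d b ≠ 3 := fun h3 => h.no_three hb h3 bV eb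
  rw [F.d_add] at dX
  obtain ⟨ma, ma'⟩ := h.mult_one ha aV ea
  obtain ⟨mb, mb'⟩ := h.mult_one hb bV eb
  have : F.d a = 4 ∨ F.d a = 5 := by omega
  rcases this with h4 | h4
  · exact ⟨a, b, ha, hb, h4, by omega, by rw [hX, add_assoc], ma, mb, ma', mb'⟩
  · exact ⟨b, a, hb, ha, by omega, h4, by rw [hX]; abel, mb, ma, mb', ma'⟩

theorem TD.main {V Q : E} (h : F.TD V Q) : ∃ A B N No, A ∈ F.S ∧ B ∈ F.S ∧ F.d A = 4 ∧
    F.d B = 5 ∧ Q * V = V + A + B ∧ F.ip (F.st Q * V) B = 0 ∧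
    Q * F.st Q = 1 + Q + F.st Q + N ∧ F.st Q * Q = 1 + Q + F.st Q + No ∧
    ((N ∈ F.S ∧ F.d N = 7 ∧ No = N ∧
      ∃ D, D ∈ F.S ∧ F.d D = 4 ∧ D ≠ Q ∧ B * F.st V = Q + D + N) ∨
     (∃ x T D K, x ∈ F.S ∧ T ∈ F.S ∧ D ∈ F.S ∧ K ∈ F.S ∧ F.d x = 5 ∧ F.d T = 3 ∧ F.d D = 4 ∧
      F.d K = 7 ∧ A * F.st V = Q + x + T ∧ N = D + T ∧ Q * Q = Q + x + K ∧ F.ip N No = 0)) := by
  obtain ⟨Q', h'⟩ := h.dual
  obtain ⟨A, B, hA, hB, dA, dB, hQV, mA, mB, mA', mB'⟩ := h.split45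
  obtain ⟨_, _, _, _, _, _, _, _, _, _, _, QQs, QQq, c1, c2, c3, c4, _, _⟩ := h.basic
  have hsQ := F.st_mem Q h.hQ
  have dsQ : F.d (F.st Q) = 4 := by rw [F.d_st, h.dQ]
  have hsV := F.st_mem V h.hV
  have dsV : F.d (F.st V) = 3 := by rw [F.d_st, h.dV]
  have eA : F.ip (A * F.st V) Q = 1 := by rw [F.ip_mul_right, F.st_st, F.ip_comm]; exact mA
  have eB : F.ip (B * F.st V) Q = 1 := by rw [F.ip_mul_right, F.st_st, F.ip_comm]; exact mB
  obtain ⟨A1, hA1, A1Q, nA1, nA10, dA1⟩ := h'.rest hA h.hQ eA (by rw [h.dQ, dA]; omega)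
  obtain ⟨B1, hB1, B1Q, nB1, nB10, dB1⟩ := h'.rest hB h.hQ eB (by rw [h.dQ, dB]; omega)
  have bA := h'.bound hA
  rw [dA] at bA
  have nA1' : F.ip A1 A1 = 2 := by omega
  rw [dA, h.dQ] at dA1
  rw [dB, h.dQ] at dB1
  have gA1 : ∀ z ∈ F.S, F.ip A1 z ≠ 0 → 3 ≤ F.d z := fun z hz e =>
    F.ge_three hA hsV dsV (by omega) (by omega) hz (by rw [hA1, F.ip_add_left]; omega)
  have gB1 : ∀ z ∈ F.S, F.ip B1 z ≠ 0 → 3 ≤ F.d z := fun z hz e =>
    F.ge_three hB hsV dsV (by omega) (by omega) hz (by rw [hB1, F.ip_add_left]; omega)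
  -- no constituent of degree 3 in B1
  have noB : ∀ T ∈ F.S, F.d T = 3 → F.ip B1 T = 0 := by
    intro T hT dT
    by_contra hc
    have h1 : F.ip (T * V) B ≠ 0 := by
      have h2 : F.ip (T * V) B = F.ip (B * F.st V) T := by
        rw [F.ip_mul_right, F.ip_comm]
      rw [h2, hB1, F.ip_add_left]; omega
    have h3 := F.deg1 hB (T * V)
    rw [F.d_mul, dT, h.dV, dB] at h3
    have h4 : F.ip (T * V) B = 1 := by omega
    obtain ⟨r, hr, rB, nr, nr0, dr⟩ := h.rest hT hB h4 (by omega)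
    have hb := h.bound hT
    rw [dT] at hb
    have nr2 : F.ip r r = 2 := by omega
    obtain ⟨u, v, hu, hv, huv, rfl⟩ := F.norm_two nr2
    rw [F.d_add] at dr
    have pu := F.d_pos u hu
    have pv := F.d_pos v hv
    have key : ∀ w ∈ F.S, F.d w = 1 → F.ip (u + v) w ≠ 0 → False := by
      intro w hw dw e
      have e1 : T = w * F.st V := F.inv_in_mul hT h.hV hw dw (by
        rw [hr, F.ip_add_left]; omega)
      have hMM := h'.hM
      rw [F.st_st] at hMM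
      rw [e1, mul_assoc, hMM, mul_add, mul_add, mul_one, F.ip_add_left, F.ip_add_left,
        F.ip_d_ne hw hB (by omega),
        F.ip_d_ne (F.inv_mul_mem hw dw h'.hQ) hB (by rw [F.d_mul, dw, h'.dQ]; omega),
        F.ip_d_ne (F.inv_mul_mem hw dw (F.st_mem _ h'.hQ)) hB
          (by rw [F.d_mul, dw, F.d_st, h'.dQ]; omega)] at h4
      omega
    have no2 : ∀ w ∈ F.S, F.d w = 2 → F.ip (u + v) w = 0 := by
      intro w hw dw
      by_contra e
      have e1 : F.ip (T * V) w ≠ 0 := by rw [hr, F.ip_add_left]; omega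
      exact e1 (F.ip_mul_two hT h.hV h.dV hw dw (by omega))
    have hdu : F.d u ≠ 1 := fun e => key u hu e (by rw [F.ip_add_left, F.ip_self hu]; omega)
    have hdv : F.d v ≠ 1 := fun e => key v hv e (by rw [F.ip_add_left, F.ip_self hv]; omega)
    have hdu2 : F.d u ≠ 2 := by
      intro e
      have := no2 u hu e
      rw [F.ip_add_left, F.ip_self hu] at this; omega
    omega
  obtain ⟨z, w, hz, hw, dzw, hB1zw⟩ := F.parts_eleven (r := B1) (by omega) (by omega) gB1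
  have dzw' : (F.d z = 7 ∧ F.d w = 4) ∨ (F.d z = 6 ∧ F.d w = 5) := by
    rcases dzw with h1 | h1 | h1
    · exfalso
      have := noB w hw h1.2
      rw [hB1zw, F.ip_add_left, F.ip_self hw] at this
      omega
    · left; exact h1
    · right; exact h1
  have hzw0 : F.ip z w = 0 := F.ip_d_ne hz hw (by omega)
  -- decompositions of Q Q*, Q* Q, Q Q
  have tQ1 : F.ip (Q * F.st Q) 1 = 1 := F.M_one h.hQ
  have tQ2 : F.ip (F.st Q * Q) 1 = 1 := by
    have := F.M_one hsQ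
    rwa [F.st_st] at this
  have n1Q : (1 : E) ≠ Q := (F.ne_one_of_d (by rw [h.dQ]; omega)).symm
  have n1sQ : (1 : E) ≠ F.st Q := (F.ne_one_of_d (by rw [dsQ]; omega)).symm
  obtain ⟨N, hN⟩ := F.split3 F.one_mem h.hQ hsQ n1Q n1sQ h.sQ (x := Q * F.st Q) (by omega)
    (by omega) (by omega)
  obtain ⟨No, hNo⟩ := F.split3 F.one_mem h.hQ hsQ n1Q n1sQ h.sQ (x := F.st Q * Q) (by omega)
    (by omega) (by omega)
  obtain ⟨P, hP⟩ := F.split h.hQ (x := Q * Q) (by omega)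
  have e1Q : F.ip 1 Q = 0 := F.ip_ne F.one_mem h.hQ n1Q
  have e1sQ : F.ip 1 (F.st Q) = 0 := F.ip_ne F.one_mem hsQ n1sQ
  have eQsQ : F.ip Q (F.st Q) = 0 := F.ip_ne h.hQ hsQ h.sQ
  have eN1 : F.ip N 1 = 0 := by
    rw [hN] at tQ1
    simp only [F.ip_add_left] at tQ1
    rw [F.ip_self F.one_mem] at tQ1; omega
  have eNQ : F.ip N Q = 0 := by
    rw [hN] at c1
    simp only [F.ip_add_left] at c1
    rw [F.ip_self h.hQ] at c1; omega
  have eNsQ : F.ip N (F.st Q) = 0 := by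
    rw [hN] at c2
    simp only [F.ip_add_left] at c2
    rw [F.ip_self hsQ] at c2; omega
  have eNo1 : F.ip No 1 = 0 := by
    rw [hNo] at tQ2
    simp only [F.ip_add_left] at tQ2
    rw [F.ip_self F.one_mem] at tQ2; omega
  have eNoQ : F.ip No Q = 0 := by
    rw [hNo] at c3
    simp only [F.ip_add_left] at c3
    rw [F.ip_self h.hQ] at c3; omega
  have eNosQ : F.ip No (F.st Q) = 0 := by
    rw [hNo] at c4
    simp only [F.ip_add_left] at c4
    rw [F.ip_self hsQ] at c4; omega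
  have ePQ : F.ip P Q = 0 := by
    rw [hP, F.ip_add_left, F.ip_self h.hQ] at QQq; omega
  have dN : F.d N = 7 := by
    have := congrArg F.d hN
    rw [F.d_mul, F.d_add, F.d_add, F.d_add, dsQ, h.dQ, F.d_one] at this; omega
  have dNo : F.d No = 7 := by
    have := congrArg F.d hNo
    rw [F.d_mul, F.d_add, F.d_add, F.d_add, dsQ, h.dQ, F.d_one] at this; omega
  have dP : F.d P = 12 := by
    have := congrArg F.d hP
    rw [F.d_mul, F.d_add, h.dQ] at this; omega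
  have nP : F.ip P P = 2 + F.ip N No := by
    have e1 : F.ip (Q * Q) (Q * Q) = 3 + F.ip N No := by
      rw [F.norm_mul_right, hN, hNo]
      simp only [F.ip_add_left, F.ip_add_right]
      rw [F.ip_self F.one_mem, F.ip_self h.hQ, F.ip_self hsQ, e1Q, e1sQ, eQsQ, F.ip_comm Q 1,
        F.ip_comm (F.st Q) 1, F.ip_comm (F.st Q) Q, e1Q, e1sQ, eQsQ, F.ip_comm 1 N, F.ip_comm Q N,
        F.ip_comm (F.st Q) N, eN1, eNQ, eNsQ, eNo1, eNoQ, eNosQ, F.ip_comm No N]
      ring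
    rw [hP, F.norm_split h.hQ ePQ] at e1
    omega
  have nNN : F.ip N N = F.ip No No := by
    have e1 : F.ip (Q * F.st Q) (Q * F.st Q) = F.ip (F.st Q * Q) (F.st Q * Q) := by
      rw [F.norm_mul_right, F.st_st]
    rw [hN, hNo] at e1
    simp only [F.ip_add_left, F.ip_add_right] at e1
    rw [F.ip_self F.one_mem, F.ip_self h.hQ, F.ip_self hsQ, e1Q, e1sQ, eQsQ, F.ip_comm Q 1,
        F.ip_comm (F.st Q) 1, F.ip_comm (F.st Q) Q, e1Q, e1sQ, eQsQ, F.ip_comm 1 N, F.ip_comm Q N,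
        F.ip_comm (F.st Q) N, eN1, eNQ, eNsQ, F.ip_comm 1 No, F.ip_comm Q No,
        F.ip_comm (F.st Q) No, eNo1, eNoQ, eNosQ] at e1
    omega
  -- the global relation
  have glob : P + N = A1 + B1 := by
    have e1 : Q * (V * F.st V) = (V + A + B) * F.st V := by rw [← mul_assoc, hQV]
    rw [add_mul, add_mul, hA1, hB1, h.hM, mul_add, mul_add, mul_one, hP, hN] at e1
    refine F.add_cancel (1 + Q + Q + Q + F.st Q) _ _ ?_
    calc 1 + Q + Q + Q + F.st Q + (P + N) = Q + (Q + P) + (1 + Q + F.st Q + N) := by abel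
      _ = _ := e1
      _ = _ := by abel
  refine ⟨A, B, N, No, hA, hB, dA, dB, hQV, mB', hN, hNo, ?_⟩
  rcases F.parts_eight (r := A1) (by omega) nA1' gA1 with
    ⟨x, y, hx, hy, dx, dy, hxy⟩ | ⟨x, y, hx, hy, dx, dy, hne, hxy⟩
  · have hglob : P + N = x + y + z + w := by rw [glob, hxy, hB1zw]; abel
    obtain ⟨i, j, k, l, hi, hj, hk, hl, hN', hP'⟩ := F.sub_sum4 hx hy hz hw hglob
    have hdN := congrArg F.d hN'
    simp only [F.d_add, F.d_nsmul] at hdN
    rw [dN, dx, dy] at hdN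
    rcases dzw' with ⟨dz, dw⟩ | ⟨dz, dw⟩
    · rw [dz, dw] at hdN
      have hcase : (i = 0 ∧ j = 1 ∧ k = 0 ∧ l = 1) ∨ (i = 0 ∧ j = 0 ∧ k = 1 ∧ l = 0) := by
        omega
      rcases hcase with ⟨rfl, rfl, rfl, rfl⟩ | ⟨rfl, rfl, rfl, rfl⟩
      · right
        simp only [zero_smul, one_smul, zero_add, add_zero, Nat.sub_self, Nat.sub_zero] at hN' hP'
        refine ⟨x, y, w, z, hx, hy, hw, hz, dx, dy, dw, dz, by rw [hA1, hxy, add_assoc],
          by rw [hN', add_comm], by rw [hP, hP', add_assoc], ?_⟩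
        have : F.ip P P = 2 := by
          rw [hP', F.norm_add, F.ip_self hx, F.ip_self hz, F.ip_d_ne hx hz (by omega)]
        omega
      · left
        simp only [zero_smul, one_smul, zero_add, add_zero, Nat.sub_self, Nat.sub_zero] at hN' hP'
        have hNS : N ∈ F.S := by rw [hN']; exact hz
        have hNoS : No ∈ F.S := F.simple_of_norm (by rw [← nNN, F.ip_self hNS])
        have hPn : F.ip P P = 3 + 2 * (F.ip x y + F.ip x w + F.ip y w) := by
          rw [hP', F.norm_add, F.norm_add, F.ip_add_left, F.ip_self hx, F.ip_self hy, F.ip_self hw]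
          ring
        have hle := F.ip_le_one hNS hNoS
        refine ⟨hNS, dN, (F.eq_of_ip hNS hNoS (by omega)).symm, w, hw, dw, ?_, ?_⟩
        · rintro rfl
          rw [hB1zw, F.ip_add_left, F.ip_self hw] at B1Q; omega
        · rw [hB1, hB1zw, hN']; abel
    · exfalso
      rw [dz, dw] at hdN
      omega
  · have hglob : P + N = x + y + z + w := by rw [glob, hxy, hB1zw]; abel
    obtain ⟨i, j, k, l, hi, hj, hk, hl, hN', hP'⟩ := F.sub_sum4 hx hy hz hw hglob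
    have hdN := congrArg F.d hN'
    simp only [F.d_add, F.d_nsmul] at hdN
    rw [dN, dx, dy] at hdN
    rcases dzw' with ⟨dz, dw⟩ | ⟨dz, dw⟩
    · rw [dz, dw] at hdN
      have hcase : (i = 0 ∧ j = 0 ∧ k = 1 ∧ l = 0) := by
        omega
      obtain ⟨rfl, rfl, rfl, rfl⟩ := hcase
      left
      simp only [zero_smul, one_smul, zero_add, add_zero, Nat.sub_self, Nat.sub_zero] at hN' hP'
      have hNS : N ∈ F.S := by rw [hN']; exact hz
      have hNoS : No ∈ F.S := F.simple_of_norm (by rw [← nNN, F.ip_self hNS])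
      have hPn : F.ip P P = 3 + 2 * (F.ip x y + F.ip x w + F.ip y w) := by
        rw [hP', F.norm_add, F.norm_add, F.ip_add_left, F.ip_self hx, F.ip_self hy, F.ip_self hw]
        ring
      have hle := F.ip_le_one hNS hNoS
      refine ⟨hNS, dN, (F.eq_of_ip hNS hNoS (by omega)).symm, w, hw, dw, ?_, ?_⟩
      · rintro rfl
        rw [hB1zw, F.ip_add_left, F.ip_self hw] at B1Q; omega
      · rw [hB1, hB1zw, hN']; abel
    · exfalso
      rw [dz, dw] at hdN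
      omega

end Fus

end Run7.h2
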