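import Pool.Agent.Run7.h2.Fus14

/-!
The shape `1 + 4 + 4`, not self-dual: conclusion.
-/

namespace Run7.h2

universe u

namespace Fus

variable {E : Type u} [Semiring E] {F : Fus E}

lemma TD.not_q {V Q : E} (h : F.TD V Q) {A N No x T D K : E} (hA : A ∈ F.S) (dA : F.d A = 4)
    (hN : Q * F.st Q = 1 + Q + F.st Q + N) (hNo : F.st Q * Q = 1 + Q + F.st Q + No)
    (hx : x ∈ F.S) (hT : T ∈ F.S) (hD : D ∈ F.S) (hK : K ∈ F.S) (dx : F.d x = 5) (dT : F.d T = 3)
    (dD : F.d D = 4) (dK : F.d K = 7) (hAV : A * F.st V = Q + x + T) (hNDT : N = D + T)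
    (hQQ : Q * Q = Q + x + K) (hNN : F.ip N No = 0) : False := by
  have hsQ := F.st_mem Q h.hQ
  have dsQ : F.d (F.st Q) = 4 := by rw [F.d_st, h.dQ]
  have sN : F.st N = N := by
    have e := F.M_self Q
    rw [hN, F.st_add, F.st_add, F.st_add, F.st_one, F.st_st] at e
    refine F.add_cancel (1 + Q + F.st Q) _ _ ?_
    rw [← e]; abel
  have hsT := F.st_mem T hT
  have dsT : F.d (F.st T) = 3 := by rw [F.d_st, dT]
  have sT : F.st T = T := by
    have e1 : F.ip N T = 1 := by
      rw [hNDT, F.ip_add_left, F.ip_self hT, F.ip_d_ne hD hT (by omega)]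
    have e2 : F.ip N (F.st T) = 1 := by
      rw [← F.ip_st', sN]; exact e1
    rw [hNDT, F.ip_add_left, F.ip_d_ne hD hsT (by omega)] at e2
    exact (F.eq_of_ip hT hsT (by omega)).symm
  have e3 : F.ip (T * V) A = 1 := by
    rw [F.ip_mul_right, hAV, F.ip_add_right, F.ip_add_right, F.ip_self hT,
      F.ip_d_ne hT h.hQ (by rw [dT, h.dQ]; omega), F.ip_d_ne hT hx (by omega)]
  obtain ⟨_, e4⟩ := h.inv_of_four hT dT hA dA e3
  have e5 : F.ip (F.st T * T) (F.st Q) = 1 := by rw [ip_sx_st]; exact e4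
  have e6 : F.ip (F.st T * T) 1 = 1 := by
    have := F.M_one hsT
    rwa [F.st_st] at this
  obtain ⟨y, hy⟩ := F.split3 F.one_mem h.hQ hsQ (F.ne_one_of_d (by rw [h.dQ]; omega)).symm
    (F.ne_one_of_d (by rw [dsQ]; omega)).symm h.sQ (x := F.st T * T) (by omega) (by omega) (by omega)
  have hy0 : y = 0 := by
    apply F.eq_zero_of_d
    have := congrArg F.d hy
    rw [F.d_mul, F.d_add, F.d_add, F.d_add, F.d_one, h.dQ, dsQ, dsT, dT] at this
    omega
  have hTT : T * F.st T = 1 + Q + F.st Q := by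
    rw [hy0, add_zero, sT] at hy
    rw [sT, hy]
  have hTD : F.TD T Q := ⟨hT, dT, h.hQ, h.dQ, h.sQ, hTT⟩
  obtain ⟨A', B', N', No', hA', hB', dA', dB', hQT, _, hN', hNo', hcase⟩ := hTD.main
  have eN : N' = N := by
    rw [hN] at hN'
    exact (F.add_cancel _ _ _ hN').symm
  have eNo : No' = No := by
    rw [hNo] at hNo'
    exact (F.add_cancel _ _ _ hNo').symm
  subst eN eNo
  rcases hcase with ⟨hNS, _⟩ | ⟨x', T', D', K', hx', hT', hD', hK', dx', dT', dD', dK', hAT, hND', _, _⟩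
  · have := F.ip_self hNS
    rw [hNDT, F.norm_add, F.ip_self hD, F.ip_self hT] at this
    omega
  · have eT : T = T' := by
      have e7 : F.ip N' T' = 1 := by
        rw [hND', F.ip_add_left, F.ip_self hT', F.ip_d_ne hD' hT' (by omega)]
      rw [hNDT, F.ip_add_left, F.ip_d_ne hD hT' (by omega)] at e7
      exact F.eq_of_ip hT hT' (by omega)
    subst eT
    have e8 : F.ip (A' * F.st T) T ≠ 0 := by
      rw [hAT, F.ip_add_left, F.ip_self hT]; omega
    rw [F.ip_mul_right, F.st_st] at e8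
    have hTT2 : T * T = 1 + Q + F.st Q := by rw [← hTT, sT]
    rw [hTT2, F.ip_add_right, F.ip_add_right,
      F.ip_d_ne hA' F.one_mem (by rw [F.d_one, dA']; omega)] at e8
    by_cases f : F.ip A' Q = 0
    · have eA : A' = F.st Q := F.eq_of_ip hA' hsQ (by omega)
      have e9 : F.ip (Q * T) (F.st Q) ≠ 0 := by
        rw [hQT, ← eA, F.ip_add_left, F.ip_add_left, F.ip_self hA']; omega
      rw [F.ip_mul_left, ← F.ip_st, F.st_mul, F.st_st, sT, hQQ, F.ip_add_right, F.ip_add_right,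
        F.ip_d_ne hT h.hQ (by rw [dT, h.dQ]; omega), F.ip_d_ne hT hx (by omega),
        F.ip_d_ne hT hK (by omega)] at e9
      exact e9 rfl
    · have eA : A' = Q := F.eq_of_ip hA' h.hQ f
      have e9 : F.ip (Q * T) Q ≠ 0 := by
        rw [hQT, eA, F.ip_add_left, F.ip_add_left, F.ip_self h.hQ]; omega
      rw [F.ip_mul_left, hNo, F.ip_add_right, F.ip_add_right, F.ip_add_right,
        F.ip_d_ne hT F.one_mem (by rw [dT, F.d_one]; omega),
        F.ip_d_ne hT h.hQ (by rw [dT, h.dQ]; omega),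
        F.ip_d_ne hT hsQ (by rw [dT, dsQ]; omega)] at e9
      rw [hNDT, F.ip_add_left] at hNN
      omega

lemma TD.not_p {V Q : E} (h : F.TD V Q) {A B N D A' B' D' : E} (hA : A ∈ F.S) (hB : B ∈ F.S)
    (dA : F.d A = 4) (dB : F.d B = 5) (hQV : Q * V = V + A + B) (hA' : A' ∈ F.S) (hB' : B' ∈ F.S)
    (dA' : F.d A' = 4) (dB' : F.d B' = 5) (hQV' : F.st Q * V = V + A' + B')
    (hdis : F.ip (F.st Q * V) B = 0)
    (hN : Q * F.st Q = 1 + Q + F.st Q + N) (hNS : N ∈ F.S) (dN : F.d N = 7)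
    (hD : D ∈ F.S) (dD : F.d D = 4) (hDQ : D ≠ Q) (hBV : B * F.st V = Q + D + N)
    (hD' : D' ∈ F.S) (dD' : F.d D' = 4) (hBV' : B' * F.st V = F.st Q + D' + N) : False := by
  have hsQ := F.st_mem Q h.hQ
  have dsQ : F.d (F.st Q) = 4 := by rw [F.d_st, h.dQ]
  obtain ⟨Q', h'⟩ := h.dual
  have e1 : F.ip (D * V) B = 1 := by
    rw [F.ip_mul_right, hBV, F.ip_add_right, F.ip_add_right, F.ip_self hD,
      F.ip_ne hD h.hQ hDQ, F.ip_d_ne hD hNS (by omega)]
  obtain ⟨r, hr, rB, nr, nr0, dr⟩ := h.rest hD hB e1 (by omega)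
  have hb := h.bound hD
  rw [dD] at hb
  rw [dD, dB] at dr
  obtain ⟨u, v, hu, hv, huv, hruv⟩ := F.norm_two (x := r) (by omega)
  have gr : ∀ z ∈ F.S, F.ip r z ≠ 0 → 3 ≤ F.d z := fun z hz e =>
    F.ge_three hD h.hV h.dV (by omega) (by omega) hz (by rw [hr, F.ip_add_left]; omega)
  have gu := gr u hu (by rw [hruv, F.ip_add_left, F.ip_self hu]; omega)
  have gv := gr v hv (by rw [hruv, F.ip_add_left, F.ip_self hv]; omega)
  have duv : F.d u + F.d v = 7 := by
    have := congrArg F.d hruv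
    rw [F.d_add] at this; omega
  obtain ⟨G, hG, dG, hrG⟩ : ∃ G, G ∈ F.S ∧ F.d G = 3 ∧ F.ip r G = 1 := by
    have : F.d u = 3 ∨ F.d v = 3 := by omega
    rcases this with h3 | h3
    · exact ⟨u, hu, h3, by rw [hruv, F.ip_add_left, F.ip_self hu, F.ip_ne hv hu huv.symm]⟩
    · exact ⟨v, hv, h3, by rw [hruv, F.ip_add_left, F.ip_self hv, F.ip_ne hu hv huv]⟩
  have e2 : F.ip (G * F.st V) D = 1 := by
    rw [F.ip_mul_right, F.st_st, F.ip_comm, hr, F.ip_add_left, hrG, F.ip_d_ne hB hG (by omega)]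
  obtain ⟨⟨k, hk, dk, hGk⟩, _⟩ := h'.inv_of_four hG dG hD dD e2
  rw [F.st_st] at hGk
  have hkQ := F.inv_mul_mem hk dk h.hQ
  have hksQ := F.inv_mul_mem hk dk hsQ
  have hkD := F.inv_mul_mem hk dk hD
  have hkD' := F.inv_mul_mem hk dk hD'
  have hkN := F.inv_mul_mem hk dk hNS
  rw [hGk, mul_assoc, h.hM, mul_add, mul_add, mul_one, F.ip_add_left, F.ip_add_left,
    F.ip_d_ne hk hD (by omega)] at e2
  by_cases f : F.ip (k * Q) D = 0
  · have g1 : k * F.st Q = D := F.eq_of_ip hksQ hD (by omega)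
    have g2 : D * V = k * V + k * A' + k * B' := by
      rw [← g1, mul_assoc, hQV', mul_add, mul_add]
    have g3 : k * B' = B := by
      rw [g2, F.ip_add_left, F.ip_add_left,
        F.ip_d_ne (F.inv_mul_mem hk dk h.hV) hB (by rw [F.d_mul, dk, h.dV]; omega),
        F.ip_d_ne (F.inv_mul_mem hk dk hA') hB (by rw [F.d_mul, dk, dA']; omega)] at e1
      exact F.eq_of_ip (F.inv_mul_mem hk dk hB') hB (by omega)
    have g4 : k * D' + k * N = Q + N := by
      have e3 : k * (B' * F.st V) = B * F.st V := by rw [← mul_assoc, g3]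
      rw [hBV', hBV, mul_add, mul_add, g1] at e3
      refine F.add_cancel D _ _ ?_
      rw [← add_assoc, e3]; abel
    have g5 : k * N = N := by
      have e4 := congrArg (fun y => F.ip y N) g4
      simp only [F.ip_add_left] at e4
      rw [F.ip_self hNS, F.ip_d_ne hkD' hNS (by rw [F.d_mul, dk, dD']; omega)] at e4
      exact F.eq_of_ip hkN hNS (by omega)
    have g6 : k ^ 7 = 1 := by
      have := F.f3 k hk dk N hNS g5
      rwa [dN] at this
    have k1 : k ≠ 1 := by
      rintro rfl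
      rw [one_mul] at g3
      rw [hQV', g3, F.ip_add_left, F.ip_self hB] at hdis
      omega
    haveI : Fact (Nat.Prime 7) := ⟨by norm_num⟩
    have ho : orderOf k = 7 := orderOf_eq_prime g6 k1
    have fixB : ∀ m : ℕ, 0 < m → m < 5 → k ^ m * B ≠ B := by
      intro m hm0 hm5 e5
      obtain ⟨hkm, dkm⟩ := F.pow_mem hk dk m
      have e6 := F.f3 _ hkm dkm B hB e5
      rw [dB, ← pow_mul] at e6
      have e7 := orderOf_dvd_of_pow_eq_one e6
      rw [ho] at e7
      omega
    have hNV : ∀ j : ℕ, F.ip (N * V) (k ^ j * B) = 1 := by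
      intro j
      obtain ⟨hkj, dkj⟩ := F.pow_mem hk dk j
      have e5 : k ^ j * N = N := by
        clear hkj dkj
        induction j with
        | zero => rw [pow_zero, one_mul]
        | succ j ih => rw [pow_succ, mul_assoc, g5, ih]
      rw [← e5, mul_assoc, F.ip_mul_left, ← mul_assoc (F.st (k ^ j)), F.st_mul_one hkj dkj, one_mul,
        F.ip_mul_right, hBV, F.ip_add_right, F.ip_add_right, F.ip_self hNS,
        F.ip_d_ne hNS h.hQ (by rw [dN, h.dQ]; omega), F.ip_d_ne hNS hD (by omega)]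
    classical
    have inj : ∀ i ∈ Finset.range 5, ∀ j ∈ Finset.range 5, k ^ i * B = k ^ j * B → i = j := by
      have aux : ∀ i j : ℕ, i < j → j < 5 → k ^ i * B = k ^ j * B → False := by
        intro i j hij hj e5
        obtain ⟨m, rfl⟩ := Nat.exists_eq_add_of_lt hij
        obtain ⟨hki, dki⟩ := F.pow_mem hk dk i
        have e6 : k ^ (i + m + 1) = k ^ i * k ^ (m + 1) := by rw [← pow_add, add_assoc]
        rw [e6, mul_assoc] at e5
        exact fixB (m + 1) (by omega) (by omega) (F.inv_cancel hki dki e5).symm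
      intro i hi j hj e5
      rw [Finset.mem_range] at hi hj
      rcases lt_trichotomy i j with h3 | h3 | h3
      · exact absurd (aux i j h3 hj e5) id
      · exact h3
      · exact absurd (aux j i h3 hi e5.symm) id
    have hsum := F.deg_sum ((Finset.range 5).image (fun i => k ^ i * B)) (by
      intro a ha
      rw [Finset.mem_image] at ha
      obtain ⟨i, _, rfl⟩ := ha
      obtain ⟨hki, dki⟩ := F.pow_mem hk dk i
      exact F.inv_mul_mem hki dki hB) (N * V)
    rw [Finset.sum_image inj] at hsum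
    have : ∑ i ∈ Finset.range 5, F.ip (N * V) (k ^ i * B) * F.d (k ^ i * B) =
        ∑ i ∈ Finset.range 5, 5 := by
      apply Finset.sum_congr rfl
      intro i _
      rw [hNV, F.d_mul, (F.pow_mem hk dk i).2, dB]
    rw [this, F.d_mul, dN, h.dV] at hsum
    simp at hsum
  · have g1 : k * Q = D := F.eq_of_ip hkQ hD f
    have g2 : D * V = k * V + k * A + k * B := by
      rw [← g1, mul_assoc, hQV, mul_add, mul_add]
    have g3 : k * B = B := by
      rw [g2, F.ip_add_left, F.ip_add_left,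
        F.ip_d_ne (F.inv_mul_mem hk dk h.hV) hB (by rw [F.d_mul, dk, h.dV]; omega),
        F.ip_d_ne (F.inv_mul_mem hk dk hA) hB (by rw [F.d_mul, dk, dA]; omega)] at e1
      exact F.eq_of_ip (F.inv_mul_mem hk dk hB) hB (by omega)
    have g4 : k ^ 5 = 1 := by
      have := F.f3 k hk dk B hB g3
      rwa [dB] at this
    have g5 : k * D + k * N = Q + N := by
      have e3 : k * (B * F.st V) = B * F.st V := by rw [← mul_assoc, g3]
      rw [hBV, mul_add, mul_add, g1] at e3
      refine F.add_cancel D _ _ ?_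
      rw [← add_assoc, e3]; abel
    have g6 : k * D = Q := by
      have e4 := congrArg (fun y => F.ip y Q) g5
      simp only [F.ip_add_left] at e4
      rw [F.ip_self h.hQ, F.ip_d_ne hkN h.hQ (by rw [F.d_mul, dk, dN, h.dQ]; omega)] at e4
      exact F.eq_of_ip hkD h.hQ (by omega)
    have hkk := F.inv_mul_mem hk dk hk
    have dkk : F.d (k * k) = 1 := by rw [F.d_mul, dk]
    have g7 : k * k * Q = Q := by rw [mul_assoc, g1, g6]
    have g8 := F.stab_mem h.hQ g7
    rw [hN] at g8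
    simp only [F.ip_add_left] at g8
    rw [F.ip_d_ne h.hQ hkk (by rw [h.dQ, dkk]; omega), F.ip_d_ne hsQ hkk (by rw [dsQ, dkk]; omega),
      F.ip_d_ne hNS hkk (by omega)] at g8
    have g9 : (1 : E) = k * k := F.eq_of_ip F.one_mem hkk (by omega)
    have k1 : k = 1 := by
      have : k ^ 5 = k * k * (k * k) * k := by simp only [pow_succ, pow_zero, one_mul, mul_assoc]
      rw [this, ← g9, one_mul, one_mul] at g4
      exact g4
    rw [k1, one_mul] at g1
    exact hDQ g1.symm

/-- the non self-dual type does not occur -/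
theorem TD.false {V Q : E} (h : F.TD V Q) : False := by
  obtain ⟨A, B, N, No, hA, hB, dA, dB, hQV, hdis, hN, hNo, hcase⟩ := h.main
  rcases hcase with ⟨hNS, dN, hNN, D, hD, dD, hDQ, hBV⟩ |
    ⟨x, T, D, K, hx, hT, hD, hK, dx, dT, dD, dK, hAT, hND, hQQ, hNN⟩
  swap
  · exact h.not_q hA dA hN hNo hx hT hD hK dx dT dD dK hAT hND hQQ hNN
  obtain ⟨A', B', N', No', hA', hB', dA', dB', hQV', hdis', hN', hNo', hcase'⟩ := h.swap.main
  rcases hcase' with ⟨hNS', dN', hNN', D', hD', dD', hDQ', hBV'⟩ |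
    ⟨x, T, D, K, hx, hT, hD, hK, dx, dT, dD, dK, hAT, hND, hQQ, hNN⟩
  swap
  · exact h.swap.not_q hA' dA' hN' hNo' hx hT hD hK dx dT dD dK hAT hND hQQ hNN
  have eN : N' = N := by
    rw [F.st_st, hNo, hNN] at hN'
    refine F.add_cancel (1 + Q + F.st Q) _ _ ?_
    rw [hN']; abel
  rw [eN] at hBV'
  exact h.not_p hA hB dA dB hQV hA' hB' dA' dB' hQV' hdis hN hNS dN hD dD hDQ hBV hD' dD' hBV'

end Fus

end Run7.h2
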