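import Pool.Agent.Run7.h2.Fus15

/-!
The shape `1 + 4 + 4`, type alpha.
-/

namespace Run7.h2

universe u

namespace Fus

variable {E : Type u} [Semiring E]

/-- data for type alpha -/
structure AL (F : Fus E) (V P Q W R X : E) : Prop extends TA F V P Q W where
  sR : F.st R = R
  sX : F.st X = X
  dR : F.d R = 11
  dX : F.d X = 8
  PP : P * P = 1 + Q + R
  QQ : Q * Q = 1 + P + R
  PQ : P * Q = P + Q + X
  QP : Q * P = P + Q + X
  R1 : F.ip R 1 = 0
  RP : F.ip R P = 0
  RQ : F.ip R Q = 0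
  XP : F.ip X P = 0
  XQ : F.ip X Q = 0
  WV : W * F.st V = P + Q + R + X
  RV : R * V = W + X * V
  nRX : F.ip X X + 1 = F.ip R R
  XVW : F.ip (X * V) W = F.ip X X + F.ip R X

variable {F : Fus E}

lemma TA.swap {V P Q W : E} (h : TA F V P Q W) : TA F V Q P W :=
  ⟨h.toTS.swap, h.hW, h.dW, h.QV, h.PV, h.cQ, h.cP, h.ct, h.cs⟩

lemma AL.swap {V P Q W R X : E} (h : AL F V P Q W R X) : AL F V Q P W R X :=
  ⟨h.toTA.swap, h.sR, h.sX, h.dR, h.dX, h.QQ, h.PP, by rw [h.QP]; abel, by rw [h.PQ]; abel,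
    h.R1, h.RQ, h.RP, h.XQ, h.XP, by rw [h.WV]; abel, h.RV, h.nRX, h.XVW⟩

lemma TA.toAL {V P Q W : E} (h : TA F V P Q W) : ∃ R X, AL F V P Q W R X := by
  have n1P : (1 : E) ≠ P := (F.ne_one_of_d (by rw [h.dP]; omega)).symm
  have n1Q : (1 : E) ≠ Q := (F.ne_one_of_d (by rw [h.dQ]; omega)).symm
  have e1P : F.ip 1 P = 0 := F.ip_ne F.one_mem h.hP n1P
  have e1Q : F.ip 1 Q = 0 := F.ip_ne F.one_mem h.hQ n1Q
  have ePQ : F.ip P Q = 0 := F.ip_ne h.hP h.hQ h.hne
  have tP : F.ip (P * P) 1 = 1 := by rw [F.ip_one]; exact h.t1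
  have tQ : F.ip (Q * Q) 1 = 1 := by rw [F.ip_one]; exact h.toTS.swap.t1
  obtain ⟨R, hR⟩ := F.split2 F.one_mem h.hQ n1Q (x := P * P) (by omega) (by rw [h.cs]; omega)
  obtain ⟨R2, hR2⟩ := F.split2 F.one_mem h.hP n1P (x := Q * Q) (by omega) (by rw [h.ct]; omega)
  have pq1 : F.ip (P * Q) P = 1 := by
    rw [F.ip_mul_left, h.sP, F.ip_comm]; exact h.cs
  have pq2 : F.ip (P * Q) Q = 1 := by
    rw [F.ip_mul_right, h.sQ, F.ip_comm]; exact h.ct
  obtain ⟨X, hX⟩ := F.split2 h.hP h.hQ h.hne (x := P * Q) (by omega) (by omega)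
  have hQP : Q * P = P + Q + F.st X := by
    have := congrArg F.st hX
    rw [F.st_mul, F.st_add, F.st_add, h.sP, h.sQ] at this
    exact this
  have sR : F.st R = R := by
    have := F.M_self P
    rw [h.sP, hR, F.st_add, F.st_add, F.st_one, h.sQ] at this
    exact F.add_cancel _ _ _ this
  have sR2 : F.st R2 = R2 := by
    have := F.M_self Q
    rw [h.sQ, hR2, F.st_add, F.st_add, F.st_one, h.sP] at this
    exact F.add_cancel _ _ _ this
  have w1 : W * F.st V = P + Q + R + X := by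
    have e : P * (V * F.st V) = (V + W) * F.st V := by rw [← mul_assoc, h.PV]
    rw [add_mul, h.hM, mul_add, mul_add, mul_one, hR, hX] at e
    refine F.add_cancel (1 + P + Q) _ _ ?_
    rw [← e]; abel
  have w2 : W * F.st V = P + Q + R2 + F.st X := by
    have e : Q * (V * F.st V) = (V + W) * F.st V := by rw [← mul_assoc, h.QV]
    rw [add_mul, h.hM, mul_add, mul_add, mul_one, hR2, hQP] at e
    refine F.add_cancel (1 + P + Q) _ _ ?_
    rw [← e]; abel
  have c1 : R + X = R2 + F.st X := by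
    refine F.add_cancel (P + Q) _ _ ?_
    rw [← add_assoc, ← w1, w2, add_assoc]
  have c2 : R + F.st X = R2 + X := by
    have := congrArg F.st c1
    rwa [F.st_add, F.st_add, F.st_st, sR, sR2] at this
  have hRR : R = R2 := by
    apply F.two_cancel
    refine F.add_cancel (X + F.st X) _ _ ?_
    calc X + F.st X + (R + R) = (R + X) + (R + F.st X) := by abel
      _ = (R2 + F.st X) + (R2 + X) := by rw [c1, c2]
      _ = _ := by abel
  have sX : F.st X = X := by
    rw [hRR] at c1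
    exact (F.add_cancel _ _ _ c1).symm
  rw [← hRR] at hR2
  rw [sX] at hQP
  have R1 : F.ip R 1 = 0 := by
    rw [hR] at tP
    simp only [F.ip_add_left] at tP
    rw [F.ip_self F.one_mem] at tP; omega
  have RQ : F.ip R Q = 0 := by
    have := h.cs
    rw [hR] at this
    simp only [F.ip_add_left] at this
    rw [F.ip_self h.hQ] at this; omega
  have RP : F.ip R P = 0 := by
    have := h.cP
    rw [hR] at this
    simp only [F.ip_add_left] at this
    omega
  have XP : F.ip X P = 0 := by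
    rw [hX] at pq1
    simp only [F.ip_add_left] at pq1
    rw [F.ip_self h.hP] at pq1; omega
  have XQ : F.ip X Q = 0 := by
    rw [hX] at pq2
    simp only [F.ip_add_left] at pq2
    rw [F.ip_self h.hQ] at pq2; omega
  have hPW1 : P * W = V + R * V := by
    have e : (P * P) * V = P * (V + W) := by rw [mul_assoc, h.PV]
    rw [hR, add_mul, add_mul, one_mul, h.QV, mul_add, h.PV] at e
    refine F.add_cancel (V + W) _ _ ?_
    rw [← e]; abel
  have hPW2 : P * W = V + W + X * V := by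
    have e : (P * Q) * V = P * (V + W) := by rw [mul_assoc, h.QV]
    rw [hX, add_mul, add_mul, h.PV, h.QV, mul_add, h.PV] at e
    refine F.add_cancel (V + W) _ _ ?_
    rw [← e]; abel
  have hRV : R * V = W + X * V := by
    refine F.add_cancel V _ _ ?_
    rw [← hPW1, hPW2, add_assoc]
  have nRX : F.ip X X + 1 = F.ip R R := by
    have e1 : F.ip (P * Q) (P * Q) = 1 + F.ip R R := by
      rw [F.norm_mul_right, h.sP, h.sQ, hR, hR2]
      simp only [F.ip_add_left, F.ip_add_right]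
      rw [F.ip_self F.one_mem, e1P, F.ip_comm 1 R, R1, F.ip_comm Q 1, e1Q, F.ip_comm Q P, ePQ,
        F.ip_comm Q R, RQ, RP]
      ring
    rw [hX, F.norm_add, F.norm_add, F.ip_self h.hP, F.ip_self h.hQ, ePQ, F.ip_add_left,
      F.ip_comm P X, F.ip_comm Q X, XP, XQ] at e1
    omega
  have hXV : F.ip (X * V) W = F.ip X X + F.ip R X := by
    rw [F.ip_mul_right, w1]
    simp only [F.ip_add_right]
    rw [XP, XQ, F.ip_comm R X]; ring
  refine ⟨R, X, h, sR, sX, ?_, ?_, hR, hR2, hX, hQP, R1, RP, RQ, XP, XQ, w1, hRV, nRX, hXV⟩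
  · have := congrArg F.d hR
    rw [F.d_mul, F.d_add, F.d_add, h.dP, h.dQ, F.d_one] at this; omega
  · have := congrArg F.d hX
    rw [F.d_mul, F.d_add, F.d_add, h.dP, h.dQ] at this; omega

/-- constituents of `W V*` have degree at least three -/
lemma AL.ge {V P Q W R X z : E} (h : AL F V P Q W R X) (hz : z ∈ F.S)
    (e : F.ip (R + X) z ≠ 0) : 3 ≤ F.d z := by
  refine F.ge_three h.hW (F.st_mem V h.hV) (by rw [F.d_st, h.dV]) (by rw [h.dW]; omega)
    (by rw [h.dW]; omega) hz ?_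
  rw [h.WV]
  rw [F.ip_add_left] at e
  simp only [F.ip_add_left]
  omega

lemma AL.geR {V P Q W R X z : E} (h : AL F V P Q W R X) (hz : z ∈ F.S)
    (e : F.ip R z ≠ 0) : 3 ≤ F.d z := h.ge hz (by rw [F.ip_add_left]; omega)

lemma AL.geX {V P Q W R X z : E} (h : AL F V P Q W R X) (hz : z ∈ F.S)
    (e : F.ip X z ≠ 0) : 3 ≤ F.d z := h.ge hz (by rw [F.ip_add_left]; omega)

lemma AL.le2 {V P Q W R X : E} (h : AL F V P Q W R X) : F.ip X X + F.ip R X ≤ 2 := by
  have := F.deg1 h.hW (X * V)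
  rw [h.XVW, h.dW, F.d_mul, h.dX, h.dV] at this
  omega

/-- constituents of `W V*` different from `P`, `Q` -/
lemma AL.mult {V P Q W R X z : E} (h : AL F V P Q W R X) (hz : z ∈ F.S) (hP : F.ip P z = 0)
    (hQ : F.ip Q z = 0) : F.ip (z * V) W = F.ip R z + F.ip X z := by
  rw [F.ip_mul_right, h.WV]
  simp only [F.ip_add_right]
  rw [F.ip_comm z P, F.ip_comm z Q, hP, hQ, F.ip_comm z R, F.ip_comm z X]; ring

/-- constituents of degree three -/
lemma AL.three {V P Q W R X T : E} (h : AL F V P Q W R X) (hT : T ∈ F.S) (dT : F.d T = 3)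
    (e : F.ip (R + X) T ≠ 0) : T * V = W ∧ F.ip (F.st T * T) P = 0 ∧ F.ip (F.st T * T) Q = 0 ∧
      T + T * P + T * Q = P + Q + R + X := by
  rw [F.ip_add_left] at e
  have h1 : F.ip (T * V) W ≠ 0 := by
    rw [h.mult hT (F.ip_d_ne h.hP hT (by rw [h.dP]; omega)) (F.ip_d_ne h.hQ hT (by rw [h.dQ]; omega))]
    exact e
  obtain ⟨y, hy⟩ := F.split h.hW h1
  have hy0 : y = 0 := by
    apply F.eq_zero_of_d
    have := congrArg F.d hy
    rw [F.d_mul, F.d_add, h.dW, dT, h.dV] at this; omega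
  rw [hy0, add_zero] at hy
  have h2 : F.ip (T * V) (T * V) = 1 := by rw [hy, F.ip_self h.hW]
  rw [F.norm_mul_right, h.toTS.ip3, t_stx_x hT] at h2
  refine ⟨hy, by omega, by omega, ?_⟩
  rw [← h.WV, ← hy, mul_assoc, h.hM, mul_add, mul_add, mul_one]

/-- first half: `X` simple, `R = 8 + 3` -/
lemma AL.no_83 {V P Q W R X L T : E} (h : AL F V P Q W R X) (hX : X ∈ F.S) (hL : L ∈ F.S)
    (hT : T ∈ F.S) (dL : F.d L = 8) (dT : F.d T = 3) (hR : R = L + T) : False := by
  have hLT : F.ip L T = 0 := F.ip_d_ne hL hT (by omega)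
  have hXT : F.ip X T = 0 := F.ip_d_ne hX hT (by rw [h.dX]; omega)
  have hRT : F.ip R T = 1 := by rw [hR, F.ip_add_left, hLT, F.ip_self hT]
  have hsT := F.st_mem T hT
  have dsT : F.d (F.st T) = 3 := by rw [F.d_st, dT]
  have sT : F.st T = T := by
    have e2 : F.ip R (F.st T) = 1 := by rw [← F.ip_st', h.sR]; exact hRT
    rw [hR, F.ip_add_left, F.ip_d_ne hL hsT (by omega)] at e2
    exact (F.eq_of_ip hT hsT (by omega)).symm
  obtain ⟨hTV, tP, tQ, hsum⟩ := h.three hT dT (by rw [F.ip_add_left]; omega)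
  rw [sT] at tP tQ
  have eT1 : F.ip T 1 = 0 := F.ip_d_ne hT F.one_mem (by rw [F.d_one]; omega)
  have eTP : F.ip T P = 0 := F.ip_d_ne hT h.hP (by rw [h.dP]; omega)
  have eTQ : F.ip T Q = 0 := F.ip_d_ne hT h.hQ (by rw [h.dQ]; omega)
  have iTP : F.ip (T * P) P = 1 := by
    rw [F.ip_mul_right, h.sP, h.PP, F.ip_add_right, F.ip_add_right, eT1, eTQ, F.ip_comm, hRT]
  have iTQ : F.ip (T * Q) Q = 1 := by
    rw [F.ip_mul_right, h.sQ, h.QQ, F.ip_add_right, F.ip_add_right, eT1, eTP, F.ip_comm, hRT]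
  obtain ⟨r, hr⟩ := F.split h.hP (x := T * P) (by omega)
  obtain ⟨r', hr'⟩ := F.split h.hQ (x := T * Q) (by omega)
  have rP : F.ip r P = 0 := by
    rw [hr, F.ip_add_left, F.ip_self h.hP] at iTP; omega
  have dr : F.d r = 8 := by
    have := congrArg F.d hr
    rw [F.d_mul, F.d_add, h.dP, dT] at this; omega
  have dr' : F.d r' = 8 := by
    have := congrArg F.d hr'
    rw [F.d_mul, F.d_add, h.dQ, dT] at this; omega
  have hrr : r + r' = L + X := by
    rw [hr, hr', hR] at hsum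
    refine F.add_cancel (T + P + Q) _ _ ?_
    calc T + P + Q + (r + r') = T + (P + r) + (Q + r') := by abel
      _ = _ := hsum
      _ = _ := by abel
  have cases8 : (r = L ∧ r' = X) ∨ (r = X ∧ r' = L) := by
    rcases F.sub_step hL hrr with ⟨N', h1, h2⟩ | ⟨P', h1, h2⟩
    · right
      have : N' = 0 := by
        apply F.eq_zero_of_d
        have := congrArg F.d h1
        rw [F.d_add] at this; omega
      rw [this, add_zero] at h1 h2
      exact ⟨h2, h1⟩
    · left
      have : P' = 0 := by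
        apply F.eq_zero_of_d
        have := congrArg F.d h1
        rw [F.d_add] at this; omega
      rw [this, add_zero] at h1
      rw [this, zero_add] at h2
      exact ⟨h1, h2⟩
  have hrS : r ∈ F.S := by
    rcases cases8 with ⟨h1, _⟩ | ⟨h1, _⟩
    · rw [h1]; exact hL
    · rw [h1]; exact hX
  have TTL : F.ip (T * T) L = 1 := by
    have e1 : F.ip (T * P) (T * P) = 2 := by
      rw [hr, F.norm_split h.hP rP, F.ip_self hrS]
    have e2 : F.ip (T * T) T = 0 := by
      have := F.no_YYY hT dT sT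
      unfold ip; rw [sT]; exact this
    have e3 : F.ip (T * T) 1 = 1 := by
      have := F.M_one hT
      rwa [sT] at this
    rw [F.norm_mul_right, sT, h.sP, h.PP, hR] at e1
    simp only [F.ip_add_right] at e1
    rw [e3, tQ, e2] at e1
    omega
  have hTT : T * T = 1 + L := by
    have e3 : F.ip (T * T) 1 = 1 := by
      have := F.M_one hT
      rwa [sT] at this
    obtain ⟨y, hy⟩ := F.split2 F.one_mem hL (F.ne_one_of_d (by omega)).symm (x := T * T)
      (by omega) (by omega)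
    have : y = 0 := by
      apply F.eq_zero_of_d
      have := congrArg F.d hy
      rw [F.d_mul, F.d_add, F.d_add, F.d_one, dL, dT] at this; omega
    rw [hy, this, add_zero]
  -- X = L
  have aux : ∀ P Q : E, AL F V P Q W R X → T * P = P + X → T * Q = Q + L → X = L := by
    intro P Q h hP hQ
    have e1 : L * P = X + T * X := by
      have e : (T * T) * P = T * (P + X) := by rw [mul_assoc, hP]
      rw [hTT, add_mul, one_mul, mul_add, hP] at e
      refine F.add_cancel P _ _ ?_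
      rw [e]; abel
    have e2 : L * P = L + T * X := by
      have e : T * (Q * P) = (Q + L) * P := by rw [← mul_assoc, hQ]
      rw [h.QP, add_mul, h.QP, mul_add, mul_add, hP, hQ] at e
      refine F.add_cancel (P + Q + X) _ _ ?_
      rw [← e]; abel
    rw [e1, add_comm X, add_comm L] at e2
    exact F.add_cancel _ _ _ e2
  have hXL : X = L := by
    rcases cases8 with ⟨h1, h2⟩ | ⟨h1, h2⟩
    · exact aux Q P h.swap (by rw [hr', h2]) (by rw [hr, h1])
    · exact aux P Q h (by rw [hr, h1]) (by rw [hr', h2])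
  subst hXL
  have hTP : T * P = P + X := by
    rcases cases8 with ⟨h1, h2⟩ | ⟨h1, h2⟩ <;> rw [hr, h1]
  have hTQ : T * Q = Q + X := by
    rcases cases8 with ⟨h1, h2⟩ | ⟨h1, h2⟩ <;> rw [hr', h2]
  have XPe : X * P = X + T * X := by
    have e : (T * T) * P = T * (P + X) := by rw [mul_assoc, hTP]
    rw [hTT, add_mul, one_mul, mul_add, hTP] at e
    refine F.add_cancel P _ _ ?_
    rw [e]; abel
  have XQe : X * Q = X + T * X := by
    have e : (T * T) * Q = T * (Q + X) := by rw [mul_assoc, hTQ]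
    rw [hTT, add_mul, one_mul, mul_add, hTQ] at e
    refine F.add_cancel Q _ _ ?_
    rw [e]; abel
  have XX1 : F.ip (X * X) 1 = 1 := by
    have := F.M_one hX
    rwa [h.sX] at this
  have XVX : F.ip (X * V) (X * V) = 3 + 2 * F.ip (T * X) X := by
    rw [F.norm_mul_right, h.sX, h.toTS.ip3, ← F.ip_one, XX1, F.ip_mul_left X X P,
      F.ip_mul_left X X Q, h.sX, XPe, XQe, F.ip_add_right, F.ip_self hX, F.ip_comm X (T * X)]
    ring
  have iTXT : F.ip (T * X) T = 1 := by
    rw [F.ip_mul_left, sT, hTT, F.ip_add_right, F.ip_self hX, F.ip_d_ne hX F.one_mem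
      (by rw [h.dX, F.d_one]; omega)]
  have iTXP : F.ip (T * X) P = 1 := by
    rw [F.ip_mul_left, sT, hTP, F.ip_add_right, F.ip_self hX, h.XP]
  have iTXQ : F.ip (T * X) Q = 1 := by
    rw [F.ip_mul_left, sT, hTQ, F.ip_add_right, F.ip_self hX, h.XQ]
  have nTP : T ≠ P := by rintro rfl; have := h.dP; omega
  have nTQ : T ≠ Q := by rintro rfl; have := h.dQ; omega
  have nTX : T ≠ X := by rintro rfl; omega
  have nPX : P ≠ X := by rintro rfl; have := h.dP; omega
  have nQX : Q ≠ X := by rintro rfl; have := h.dQ; omega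
  have hdeg := F.deg4 hT h.hP h.hQ hX nTP nTQ nTX h.hne nPX nQX (T * X)
  rw [iTXT, iTXP, iTXQ, dT, h.dP, h.dQ, F.d_mul, dT, dL] at hdeg
  have hXW : F.ip (X * V) W = 2 := by
    rw [h.XVW, hR, F.ip_add_left, F.ip_self hX, F.ip_comm T X, hXT]
  obtain ⟨_, y, hy, hyW⟩ := F.d_ge1 h.hW (X * V)
  rw [hXW] at hy
  have dy : F.d y = 6 := by
    have := congrArg F.d hy
    rw [F.d_mul, F.d_add, F.d_nsmul, h.dW, h.dV, dL] at this; omega
  have ny : F.ip y y ≠ 0 := by
    intro h0
    rw [F.eq_zero_of_norm h0, F.d_zero] at dy; omega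
  have hXVn : F.ip (X * V) (X * V) = 4 + F.ip y y := by
    rw [hy, F.norm_add, F.ip_nsmul_left, F.ip_nsmul_right, F.ip_self h.hW, F.ip_nsmul_left,
      F.ip_comm W y, hyW]
  have hx1 : F.ip (T * X) X = 1 := by omega
  obtain ⟨q, hq⟩ := F.split4 hT h.hP h.hQ hX nTP nTQ nTX h.hne nPX nQX (x := T * X) (by omega)
    (by omega) (by omega) (by omega)
  have dq : F.d q = 5 := by
    have := congrArg F.d hq
    simp only [F.d_add] at this
    rw [F.d_mul, dT, dL, h.dP, h.dQ] at this; omega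
  have qS : q ∈ F.S := by
    apply F.le5_simple (by omega) (by omega)
    intro z hz hne
    have e1 : F.ip (X * T) (F.st z) ≠ 0 := by
      have : X * T = F.st (T * X) := by rw [F.st_mul, sT, h.sX]
      rw [this, F.ip_st, hq, F.ip_add_left]; omega
    have := F.ge_three hX hT dT (by omega) (by omega) (F.st_mem z hz) e1
    rwa [F.d_st] at this
  have i1 : F.ip P X = 0 := by rw [F.ip_comm]; exact h.XP
  have i2 : F.ip Q X = 0 := by rw [F.ip_comm]; exact h.XQ
  have i3 : F.ip T X = 0 := by rw [F.ip_comm]; exact hXT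
  have i4 : F.ip P Q = 0 := F.ip_ne h.hP h.hQ h.hne
  have qT : F.ip q T = 0 := F.ip_d_ne qS hT (by omega)
  have qP : F.ip q P = 0 := F.ip_d_ne qS h.hP (by rw [h.dP]; omega)
  have qQ : F.ip q Q = 0 := F.ip_d_ne qS h.hQ (by rw [h.dQ]; omega)
  have qX : F.ip q X = 0 := F.ip_d_ne qS hX (by omega)
  have nTX5 : F.ip (T * X) (T * X) = 5 := by
    rw [hq]
    simp only [F.norm_add, F.ip_add_left]
    rw [F.ip_self hT, F.ip_self h.hP, F.ip_self h.hQ, F.ip_self hX, F.ip_self qS, eTP, eTQ, i3, i4,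
      i1, i2, F.ip_comm T q, F.ip_comm P q, F.ip_comm Q q, F.ip_comm X q, qT, qP, qQ, qX]
  rw [F.norm_mul_right, sT, h.sX, hTT, F.ip_comm, F.ip_add_right, XX1] at nTX5
  have hX3 : F.ip (X * X) X % 3 = 0 := by
    have := F.fs3_simple hX (F.ne_one_of_d (by omega))
    unfold ip; rw [h.sX]; exact this
  omega

/-- `R = 7 + 4` -/
lemma AL.no_74 {V P Q W R X K J : E} (h : AL F V P Q W R X) (hX : X ∈ F.S) (hK : K ∈ F.S)
    (hJ : J ∈ F.S) (dK : F.d K = 7) (dJ : F.d J = 4) (hR : R = K + J) : False := by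
  have hRJ : F.ip R J = 1 := by rw [hR, F.ip_add_left, F.ip_d_ne hK hJ (by omega), F.ip_self hJ]
  have hXJ : F.ip X J = 0 := F.ip_d_ne hX hJ (by rw [h.dX]; omega)
  have nPJ : F.ip P J = 0 := by
    apply F.ip_ne h.hP hJ
    rintro rfl
    rw [h.RP] at hRJ; omega
  have nQJ : F.ip Q J = 0 := by
    apply F.ip_ne h.hQ hJ
    rintro rfl
    rw [h.RQ] at hRJ; omega
  have h1 := h.mult hJ nPJ nQJ
  obtain ⟨G, hG⟩ := F.split h.hW (x := J * V) (by omega)
  have dG : F.d G = 3 := by
    have := congrArg F.d hG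
    rw [F.d_mul, F.d_add, h.dW, dJ, h.dV] at this; omega
  have gG : G ∈ F.S := by
    apply F.three_of_three dG
    intro a ha e
    exact F.ge_three hJ h.hV h.dV (by omega) (by omega) ha (by rw [hG, F.ip_add_left]; omega)
  have e1 : G + K * V = X * V := by
    have e := h.RV
    rw [hR, add_mul, hG] at e
    refine F.add_cancel W _ _ ?_
    rw [← e]; abel
  have e2 : F.ip (G * F.st V) X ≠ 0 := by
    rw [F.ip_mul_right, F.st_st, ← e1, F.ip_add_right, F.ip_self gG]; omega
  have e3 : F.ip (G * F.st V) J ≠ 0 := by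
    rw [F.ip_mul_right, F.st_st, hG, F.ip_add_right, F.ip_self gG]; omega
  have := F.deg2 hX hJ (by rintro rfl; have := h.dX; omega) (G * F.st V)
  rw [h.dX, dJ, F.d_mul, F.d_st, dG, h.dV] at this
  omega

end Fus

end Run7.h2
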