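import Pool.Agent.Run7.h2.Fus16

/-!
The shape `1 + 4 + 4`, type alpha, `R = 6 + 5`.
-/

namespace Run7.h2

universe u

namespace Fus

variable {E : Type u} [Semiring E] {F : Fus E}

/-- `R = 6 + 5` -/
lemma AL.no_65 {V P Q W R X K J : E} (h : AL F V P Q W R X) (hX : X ∈ F.S) (hK : K ∈ F.S)
    (hJ : J ∈ F.S) (dK : F.d K = 6) (dJ : F.d J = 5) (hR : R = K + J) : False := by
  have dX := h.dX
  have dP := h.dP
  have dQ := h.dQ
  have dW := h.dW
  have hsJ := F.st_mem J hJ
  have hRJ : F.ip R J = 1 := by rw [hR, F.ip_add_left, F.ip_d_ne hK hJ (by omega), F.ip_self hJ]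
  have hRK : F.ip R K = 1 := by rw [hR, F.ip_add_left, F.ip_d_ne hJ hK (by omega), F.ip_self hK]
  have sJ : F.st J = J := by
    have e2 : F.ip R (F.st J) = 1 := by rw [← F.ip_st', h.sR]; exact hRJ
    rw [hR, F.ip_add_left, F.ip_d_ne hK hsJ (by rw [F.d_st]; omega)] at e2
    exact (F.eq_of_ip hJ hsJ (by omega)).symm
  have hXJ : F.ip X J = 0 := F.ip_d_ne hX hJ (by omega)
  have hXK : F.ip X K = 0 := F.ip_d_ne hX hK (by omega)
  have hJX : F.ip J X = 0 := F.ip_d_ne hJ hX (by omega)
  have hKX : F.ip K X = 0 := F.ip_d_ne hK hX (by omega)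
  have hPJ : F.ip P J = 0 := F.ip_d_ne h.hP hJ (by omega)
  have hQJ : F.ip Q J = 0 := F.ip_d_ne h.hQ hJ (by omega)
  have hPK : F.ip P K = 0 := F.ip_d_ne h.hP hK (by omega)
  have hQK : F.ip Q K = 0 := F.ip_d_ne h.hQ hK (by omega)
  have mJ := h.mult hJ hPJ hQJ
  have mK := h.mult hK hPK hQK
  have mX := h.XVW
  have hRX : F.ip R X = 0 := by
    rw [hR, F.ip_add_left, F.ip_d_ne hK hX (by omega), F.ip_d_ne hJ hX (by omega)]
  rw [F.ip_self hX, hRX] at mX
  obtain ⟨Y, hY⟩ := F.split h.hW (x := J * V) (by omega)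
  obtain ⟨Y', hY'⟩ := F.split h.hW (x := K * V) (by omega)
  have YW : F.ip Y W = 0 := by
    rw [hY, F.ip_add_left, F.ip_self h.hW] at mJ; omega
  have Y'W : F.ip Y' W = 0 := by
    rw [hY', F.ip_add_left, F.ip_self h.hW] at mK; omega
  have dY : F.d Y = 6 := by
    have := congrArg F.d hY
    rw [F.d_mul, F.d_add, h.dW, dJ, h.dV] at this; omega
  have dY' : F.d Y' = 9 := by
    have := congrArg F.d hY'
    rw [F.d_mul, F.d_add, h.dW, dK, h.dV] at this; omega
  have hXV : X * V = W + Y + Y' := by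
    have e := h.RV
    rw [hR, add_mul, hY, hY'] at e
    refine F.add_cancel W _ _ ?_
    rw [← e]; abel
  -- Y simple
  have gY : ∀ z ∈ F.S, F.ip Y z ≠ 0 → 4 ≤ F.d z := by
    intro z hz e
    have h3 := F.ge_three hJ h.hV h.dV (by omega) (by omega) hz (by rw [hY, F.ip_add_left]; omega)
    by_contra hc
    have dz : F.d z = 3 := by omega
    have e2 : F.ip (z * F.st V) X ≠ 0 := by
      rw [F.ip_mul_right, F.st_st, F.ip_comm, hXV]
      simp only [F.ip_add_left]; omega
    have e3 : F.ip (z * F.st V) J ≠ 0 := by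
      rw [F.ip_mul_right, F.st_st, F.ip_comm, hY, F.ip_add_left]; omega
    have := F.deg2 hX hJ (by rintro rfl; omega) (z * F.st V)
    rw [dX, dJ, F.d_mul, F.d_st, dz, h.dV] at this
    omega
  have YS : Y ∈ F.S := by
    obtain ⟨a, z, ha, haz⟩ := F.exists_split (x := Y) (by rintro rfl; rw [F.d_zero] at dY; omega)
    have ga := gY a ha (by rw [haz, F.ip_add_left, F.ip_self ha]; omega)
    have dd := congrArg F.d haz
    rw [F.d_add] at dd
    have hz0 : z = 0 := by
      by_contra hz0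
      obtain ⟨b, w, hb, hbw⟩ := F.exists_split hz0
      have gb := gY b hb (by rw [haz, hbw, F.ip_add_left, F.ip_add_left, F.ip_self hb]; omega)
      have := congrArg F.d hbw
      rw [F.d_add] at this
      omega
    rw [haz, hz0, add_zero]; exact ha
  have Y'Y : F.ip Y' Y = 0 := by
    by_contra hc
    have e2 : 2 ≤ F.ip (Y * F.st V) X := by
      rw [F.ip_mul_right, F.st_st, F.ip_comm, hXV]
      simp only [F.ip_add_left]; rw [F.ip_self YS]; omega
    have e3 : F.ip (Y * F.st V) J ≠ 0 := by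
      rw [F.ip_mul_right, F.st_st, F.ip_comm, hY, F.ip_add_left, F.ip_self YS]; omega
    have := F.deg2 hX hJ (by rintro rfl; omega) (Y * F.st V)
    rw [dX, dJ, F.d_mul, F.d_st, dY, h.dV] at this
    omega
  have WY : F.ip W Y = 0 := by rw [F.ip_comm]; exact YW
  -- formula
  have form : ∀ z : E, F.ip (z * V) (J * V) = F.ip z J + F.ip (J * P) z + F.ip (J * Q) z := by
    intro z
    rw [F.ip_mul_right, mul_assoc, h.hM, mul_add, mul_add, mul_one, F.ip_add_right, F.ip_add_right,
      F.ip_comm z (J * P), F.ip_comm z (J * Q)]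
  have fX := form X
  rw [hXJ, hXV, hY] at fX
  simp only [F.ip_add_left, F.ip_add_right] at fX
  rw [F.ip_self h.hW, F.ip_self YS, WY, YW, Y'W, Y'Y] at fX
  have fK := form K
  rw [F.ip_d_ne hK hJ (by omega), hY', hY] at fK
  simp only [F.ip_add_left, F.ip_add_right] at fK
  rw [F.ip_self h.hW, WY, Y'W, Y'Y] at fK
  have fJ := form J
  rw [F.ip_self hJ, hY] at fJ
  simp only [F.ip_add_left, F.ip_add_right] at fJ
  rw [F.ip_self h.hW, F.ip_self YS, WY, YW] at fJ
  have e1J : F.ip 1 J = 0 := F.ip_d_ne F.one_mem hJ (by rw [F.d_one]; omega)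
  -- the symmetric part
  have aux : ∀ P Q : E, AL F V P Q W R X → F.ip (J * P) X + F.ip (J * Q) X = 2 →
      F.ip (J * P) K + F.ip (J * Q) K = 1 → F.ip (J * P) J = 0 → F.ip (J * Q) J = 1 → False := by
    intro P Q h sX' sK' aP aQ
    have dP := h.dP
    have dQ := h.dQ
    have hPJ : F.ip P J = 0 := F.ip_d_ne h.hP hJ (by omega)
    have hQJ : F.ip Q J = 0 := F.ip_d_ne h.hQ hJ (by omega)
    have hJP : F.ip J P = 0 := F.ip_d_ne hJ h.hP (by omega)
    have hJQ : F.ip J Q = 0 := F.ip_d_ne hJ h.hQ (by omega)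
    have hJ1 : F.ip J 1 = 0 := F.ip_d_ne hJ F.one_mem (by rw [F.d_one]; omega)
    have iP : F.ip (J * P) P = 1 := by
      rw [F.ip_mul_right, h.sP, h.PP]
      simp only [F.ip_add_right]
      rw [hJ1, hJQ, F.ip_comm, hRJ]
    have iQ : F.ip (J * Q) Q = 1 := by
      rw [F.ip_mul_right, h.sQ, h.QQ]
      simp only [F.ip_add_right]
      rw [hJ1, hJP, F.ip_comm, hRJ]
    have iQP : F.ip (J * Q) P = 0 := by
      rw [F.ip_mul_right, h.sQ, h.PQ]
      simp only [F.ip_add_right]
      rw [hJP, hJQ, hJX]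
    have nPK : P ≠ K := by rintro rfl; omega
    have nPX : P ≠ X := by rintro rfl; omega
    have nQJ : Q ≠ J := by rintro rfl; omega
    have nQK : Q ≠ K := by rintro rfl; omega
    have nQX : Q ≠ X := by rintro rfl; omega
    have nJK : J ≠ K := by rintro rfl; omega
    have nJX : J ≠ X := by rintro rfl; omega
    have nKX : K ≠ X := by rintro rfl; omega
    have dg1 := F.deg4 h.hQ hJ hK hX nQJ nQK nQX nJK nJX nKX (J * Q)
    rw [iQ, aQ, dQ, dJ, dK, dX, F.d_mul, dJ, dQ] at dg1
    have dg2 := F.deg3 h.hP hK hX nPK nPX nKX (J * P)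
    rw [iP, dP, dK, dX, F.d_mul, dJ, dP] at dg2
    have hcross : F.ip (J * P) (J * Q) ≠ 0 := by
      rw [F.ip_mul_right, h.sP, mul_assoc, h.QP, mul_add, mul_add]
      simp only [F.ip_add_right]
      rw [F.ip_comm J (J * Q), aQ]; omega
    have hx : F.ip (J * Q) X = 0 ∨ F.ip (J * Q) X = 1 := by omega
    rcases hx with hx | hx
    · have hx2 : F.ip (J * P) X = 2 := by omega
      obtain ⟨y, hy⟩ := F.split h.hP (x := J * P) (by omega)
      have hyX : F.ip y X = 2 := by
        rw [hy, F.ip_add_left, F.ip_ne h.hP hX nPX] at hx2; omega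
      obtain ⟨_, z, hz, _⟩ := F.d_ge1 hX y
      rw [hyX] at hz
      have hz0 : z = 0 := by
        apply F.eq_zero_of_d
        have := congrArg F.d hy
        rw [hz, F.d_mul, F.d_add, F.d_add, F.d_nsmul, dJ, dP, dX] at this
        omega
      apply hcross
      rw [hy, hz, hz0, add_zero, F.ip_add_left, F.ip_nsmul_left, F.ip_comm P, iQP, F.ip_comm X, hx]
    · have hb1 : F.ip (J * Q) K = 0 := by omega
      have hb2 : F.ip (J * P) K = 1 := by omega
      have hx2 : F.ip (J * P) X = 1 := by omega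
      obtain ⟨s, hs⟩ := F.split3 h.hP hK hX nPK nPX nKX (x := J * P) (by omega) (by omega) (by omega)
      have ds : F.d s = 2 := by
        have := congrArg F.d hs
        rw [F.d_mul, F.d_add, F.d_add, F.d_add, dJ, dP, dX, dK] at this
        omega
      have sS : s ∈ F.S := by
        apply F.simple_of_d_two ds
        intro a ha da
        by_contra hc
        have e1 := F.inv_in_mul hJ h.hP ha da (by rw [hs, F.ip_add_left]; omega)
        have := congrArg F.d e1
        rw [F.d_mul, F.d_st, da, dJ, dP] at this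
        omega
      have e1 : F.ip (s * P) J ≠ 0 := by
        rw [F.ip_mul_right, h.sP, F.ip_comm, hs, F.ip_add_left, F.ip_self sS]; omega
      obtain ⟨g, hg, dg, hg1, hgs, hgg⟩ := F.two_dim sS ds
      have hgJ := F.inv_mul_mem hg dg hJ
      have e2 : F.ip (s * P) (g * J) ≠ 0 := by
        have e3 : F.ip (s * P) (g * J) = F.ip (s * P) J := by
          conv_lhs => rw [← hgs]
          rw [mul_assoc, F.ip_mul_left, ← mul_assoc (F.st g), F.st_mul_one hg dg, one_mul]
        rw [e3]; exact e1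
      have hgJJ : g * J = J := by
        by_contra hne
        have := F.deg2 hgJ hJ hne (s * P)
        rw [F.d_mul g J, dg, dJ, F.d_mul, ds, dP] at this
        omega
      have h5 := F.f3 g hg dg J hJ hgJJ
      rw [dJ] at h5
      apply hg1
      have : g ^ 5 = g * g * (g * g) * g := by simp only [pow_succ, pow_zero, one_mul, mul_assoc]
      rw [this, hgg, one_mul, one_mul] at h5
      exact h5
  have hcase : (F.ip (J * P) J = 0 ∧ F.ip (J * Q) J = 1) ∨
      (F.ip (J * P) J = 1 ∧ F.ip (J * Q) J = 0) := by omega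
  rcases hcase with ⟨a1, a2⟩ | ⟨a1, a2⟩
  · exact aux P Q h (by omega) (by omega) a1 a2
  · exact aux Q P h.swap (by omega) (by omega) a2 a1

/-- `X` is not simple -/
lemma AL.X_not_simple {V P Q W R X : E} (h : AL F V P Q W R X) (hX : X ∈ F.S) : False := by
  have hn := h.nRX
  rw [F.ip_self hX] at hn
  obtain ⟨x, y, hx, hy, hd, hxy⟩ := F.parts_eleven (r := R) h.dR (by omega)
    (fun z hz e => h.geR hz e)
  rcases hd with ⟨d1, d2⟩ | ⟨d1, d2⟩ | ⟨d1, d2⟩
  · exact h.no_83 hX hx hy d1 d2 hxy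
  · exact h.no_74 hX hx hy d1 d2 hxy
  · exact h.no_65 hX hx hy d1 d2 hxy

end Fus

end Run7.h2
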