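import Pool.Agent.Run7.h2.Fus17

/-!
The shape `1 + 4 + 4`, type alpha, conclusion, and the abstract main theorem.
-/

namespace Run7.h2

universe u

namespace Fus

variable {E : Type u} [Semiring E] {F : Fus E}

/-- norm of one half of a sum of four distinct simple objects -/
lemma half_norm (F : Fus E) {a b c e r r' : E} (ha : a ∈ F.S) (hb : b ∈ F.S) (hc : c ∈ F.S)
    (he : e ∈ F.S)
    (hab : a ≠ b) (hac : a ≠ c) (hae : a ≠ e) (hbc : b ≠ c) (hbe : b ≠ e) (hce : c ≠ e)
    (ga : 3 ≤ F.d a) (gb : 3 ≤ F.d b) (gc : 3 ≤ F.d c) (ge : 3 ≤ F.d e)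
    (hs : F.d a + F.d b + F.d c + F.d e = 16) (la : F.d a ≤ 5) (lb : F.d b ≤ 5) (lc : F.d c ≤ 5)
    (le : F.d e ≤ 5) (dr : F.d r = 8) (h : r' + r = a + b + c + e) : F.ip r r = 2 := by
  obtain ⟨i, j, k, l, hi, hj, hk, hl, hN, _⟩ := F.sub_sum4 ha hb hc he h
  have h1 := congrArg F.d hN
  simp only [F.d_add, F.d_nsmul] at h1
  rw [dr] at h1
  have h2 : F.ip r r = i * i + j * j + k * k + l * l := by
    rw [hN]
    simp only [F.ip_add_left, F.ip_add_right, F.ip_nsmul_left, F.ip_nsmul_right]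
    rw [F.ip_self ha, F.ip_self hb, F.ip_self hc, F.ip_self he, F.ip_ne ha hb hab,
      F.ip_ne ha hc hac, F.ip_ne ha he hae, F.ip_ne hb hc hbc, F.ip_ne hb he hbe, F.ip_ne hc he hce,
      F.ip_ne hb ha hab.symm, F.ip_ne hc ha hac.symm, F.ip_ne he ha hae.symm,
      F.ip_ne hc hb hbc.symm, F.ip_ne he hb hbe.symm, F.ip_ne he hc hce.symm]
    ring
  have hi' : i = 0 ∨ i = 1 := by omega
  have hj' : j = 0 ∨ j = 1 := by omega
  have hk' : k = 0 ∨ k = 1 := by omega
  have hl' : l = 0 ∨ l = 1 := by omega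
  rcases hi' with rfl | rfl <;> rcases hj' with rfl | rfl <;> rcases hk' with rfl | rfl <;>
    rcases hl' with rfl | rfl <;> omega

/-- constituents of degree three when `X` has norm two -/
lemma AL.key {V P Q W R X T : E} (h : AL F V P Q W R X) (nX : F.ip X X = 2)
    (hT : T ∈ F.S) (dT : F.d T = 3) (e : F.ip (R + X) T ≠ 0) :
    ∃ F1 F2 K, F.TS (F.st T) F1 F2 ∧ K ∈ F.S ∧ F.d K = 3 ∧ R = F1 + F2 + K := by
  have dP := h.dP
  have dQ := h.dQ
  have hRX : F.ip R X = 0 := by have := h.le2; omega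
  have nR : F.ip R R = 3 := by have := h.nRX; omega
  obtain ⟨hTV, tP, tQ, hsum⟩ := h.three hT dT e
  obtain ⟨a, b, c, ha, hb, hc, hab, hac, hbc, hR⟩ := F.norm_three nR
  obtain ⟨u, v, hu, hv, huv, hX⟩ := F.norm_two nX
  have ga := h.geR ha (by rw [hR]; simp only [F.ip_add_left]; rw [F.ip_self ha]; omega)
  have gb := h.geR hb (by rw [hR]; simp only [F.ip_add_left]; rw [F.ip_self hb]; omega)
  have gc := h.geR hc (by rw [hR]; simp only [F.ip_add_left]; rw [F.ip_self hc]; omega)
  have gu := h.geX hu (by rw [hX]; simp only [F.ip_add_left]; rw [F.ip_self hu]; omega)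
  have gv := h.geX hv (by rw [hX]; simp only [F.ip_add_left]; rw [F.ip_self hv]; omega)
  have dabc : F.d a + F.d b + F.d c = 11 := by
    have := h.dR
    rw [hR, F.d_add, F.d_add] at this; omega
  have duv : F.d u + F.d v = 8 := by
    have := h.dX
    rw [hX, F.d_add] at this; omega
  have cross : F.ip a u = 0 ∧ F.ip a v = 0 ∧ F.ip b u = 0 ∧ F.ip b v = 0 ∧ F.ip c u = 0 ∧
      F.ip c v = 0 := by
    rw [hR, hX] at hRX
    simp only [F.ip_add_left, F.ip_add_right] at hRX
    omega
  have ne_of : ∀ x ∈ F.S, ∀ y : E, F.ip x y = 0 → x ≠ y := by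
    rintro x hx y e rfl
    rw [F.ip_self hx] at e; omega
  have nau := ne_of a ha u cross.1
  have nav := ne_of a ha v cross.2.1
  have nbu := ne_of b hb u cross.2.2.1
  have nbv := ne_of b hb v cross.2.2.2.1
  have ncu := ne_of c hc u cross.2.2.2.2.1
  have ncv := ne_of c hc v cross.2.2.2.2.2
  have eT1 : F.ip T 1 = 0 := F.ip_d_ne hT F.one_mem (by rw [F.d_one]; omega)
  have eTP : F.ip T P = 0 := F.ip_d_ne hT h.hP (by omega)
  have eTQ : F.ip T Q = 0 := F.ip_d_ne hT h.hQ (by omega)
  have iTPP : F.ip (T * P) P = F.ip R T := by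
    rw [F.ip_mul_right, h.sP, h.PP, F.ip_add_right, F.ip_add_right, eT1, eTQ, F.ip_comm T R]; omega
  have iTPQ : F.ip (T * P) Q = F.ip X T := by
    rw [F.ip_mul_right, h.sP, h.QP, F.ip_add_right, F.ip_add_right, eTP, eTQ, F.ip_comm T X]; omega
  have iTQQ : F.ip (T * Q) Q = F.ip R T := by
    rw [F.ip_mul_right, h.sQ, h.QQ, F.ip_add_right, F.ip_add_right, eT1, eTP, F.ip_comm T R]; omega
  have iTQP : F.ip (T * Q) P = F.ip X T := by
    rw [F.ip_mul_right, h.sQ, h.PQ, F.ip_add_right, F.ip_add_right, eTP, eTQ, F.ip_comm T X]; omega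
  -- norm of T P is three
  have fin : ∀ y y' r r' : E, y ∈ F.S → T * P = y + r → F.ip r y = 0 → T * Q = y' + r' →
      F.d y = 4 → F.ip r r = 2 → F.ip (F.st T * T) R = 2 := by
    intro y y' r r' hy hr hry _ _ hn
    have e1 : F.ip (T * P) (T * P) = 3 := by
      rw [hr, F.norm_split hy hry, hn]
    rw [F.norm_mul_right, h.sP, h.PP] at e1
    simp only [F.ip_add_right] at e1
    rw [tQ, F.ip_one, t_stx_x hT] at e1
    omega
  have key2 : F.ip (F.st T * T) R = 2 := by
    have hmem : (T = a ∨ T = b ∨ T = c) ∨ (T = u ∨ T = v) := by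
      by_contra hcon
      push Not at hcon
      obtain ⟨⟨n1, n2, n3⟩, n4, n5⟩ := hcon
      rw [hR, hX] at e
      simp only [F.ip_add_left] at e
      rw [F.ip_ne ha hT n1.symm, F.ip_ne hb hT n2.symm, F.ip_ne hc hT n3.symm,
        F.ip_ne hu hT n4.symm, F.ip_ne hv hT n5.symm] at e
      exact e rfl
    have caseR : ∀ a b c : E, a ∈ F.S → b ∈ F.S → c ∈ F.S → a ≠ b → a ≠ c → b ≠ c → R = a + b + c →
        3 ≤ F.d a → 3 ≤ F.d b → 3 ≤ F.d c → F.d a + F.d b + F.d c = 11 → b ≠ u → b ≠ v → c ≠ u →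
        c ≠ v → a ≠ u → a ≠ v → T = a → F.ip (F.st T * T) R = 2 := by
      intro a b c ha hb hc hab hac hbc hR ga gb gc dabc nbu nbv ncu ncv nau nav hTa
      subst hTa
      have hRT : F.ip R T = 1 := by
        rw [hR]; simp only [F.ip_add_left]
        rw [F.ip_self hT, F.ip_ne hb hT hab.symm, F.ip_ne hc hT hac.symm]
      obtain ⟨r, hr⟩ := F.split h.hP (x := T * P) (by omega)
      obtain ⟨r', hr'⟩ := F.split h.hQ (x := T * Q) (by omega)
      have rP : F.ip r P = 0 := by
        rw [hRT, hr, F.ip_add_left, F.ip_self h.hP] at iTPP; omega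
      have dr : F.d r = 8 := by
        have := congrArg F.d hr
        rw [F.d_mul, F.d_add, dP, dT] at this; omega
      refine fin P Q r r' h.hP hr rP hr' dP ?_
      refine half_norm F hb hc hu hv hbc nbu nbv ncu ncv huv gb gc gu gv (by omega) (by omega)
        (by omega) (by omega) (by omega) (r' := r') dr ?_
      rw [hr, hr', hR, hX] at hsum
      refine F.add_cancel (T + P + Q) _ _ ?_
      calc T + P + Q + (r' + r) = T + (P + r) + (Q + r') := by abel
        _ = _ := hsum
        _ = _ := by abel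
    have caseX : ∀ u v : E, u ∈ F.S → v ∈ F.S → u ≠ v → X = u + v → 3 ≤ F.d u → 3 ≤ F.d v →
        F.d u + F.d v = 8 → a ≠ u → a ≠ v → b ≠ u → b ≠ v → c ≠ u → c ≠ v → T = u →
        F.ip (F.st T * T) R = 2 := by
      intro u v hu hv huv hX gu gv duv nau nav nbu nbv ncu ncv hTu
      subst hTu
      have hXT : F.ip X T = 1 := by
        rw [hX]; simp only [F.ip_add_left]
        rw [F.ip_self hT, F.ip_ne hv hT huv.symm]
      obtain ⟨r, hr⟩ := F.split h.hQ (x := T * P) (by omega)
      obtain ⟨r', hr'⟩ := F.split h.hP (x := T * Q) (by omega)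
      have rP : F.ip r Q = 0 := by
        rw [hXT, hr, F.ip_add_left, F.ip_self h.hQ] at iTPQ; omega
      have dr : F.d r = 8 := by
        have := congrArg F.d hr
        rw [F.d_mul, F.d_add, dP, dT, dQ] at this; omega
      refine fin Q P r r' h.hQ hr rP hr' dQ ?_
      refine half_norm F ha hb hc hv hab hac nav hbc nbv ncv ga gb gc gv (by omega) (by omega)
        (by omega) (by omega) (by omega) (r' := r') dr ?_
      rw [hr, hr', hR, hX] at hsum
      refine F.add_cancel (T + P + Q) _ _ ?_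
      calc T + P + Q + (r' + r) = T + (Q + r) + (P + r') := by abel
        _ = _ := hsum
        _ = _ := by abel
    rcases hmem with (e1 | e1 | e1) | (e1 | e1)
    · exact caseR a b c ha hb hc hab hac hbc hR ga gb gc dabc nbu nbv ncu ncv nau nav e1
    · exact caseR b a c hb ha hc hab.symm hbc hac (by rw [hR]; abel) gb ga gc (by omega) nau nav
        ncu ncv nbu nbv e1
    · exact caseR c a b hc ha hb hac.symm hbc.symm hab (by rw [hR]; abel) gc ga gb (by omega) nau
        nav nbu nbv ncu ncv e1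
    · exact caseX u v hu hv huv hX gu gv duv nau nav nbu nbv ncu ncv e1
    · exact caseX v u hv hu huv.symm (by rw [hX]; abel) gv gu (by omega) nav nau nbv nbu ncv ncu e1
  -- trichotomy for st T
  have hsT := F.st_mem T hT
  have dsT : F.d (F.st T) = 3 := by rw [F.d_st, dT]
  rcases F.tri hsT dsT with ⟨W8, hW8, dW8, e8⟩ | ⟨F1, F2, hF⟩ | ⟨Q', hD⟩
  · exfalso
    rw [F.st_st] at e8
    rw [e8, F.ip_add_left, F.ip_comm 1 R, h.R1, hR] at key2
    simp only [F.ip_add_right] at key2
    rw [F.ip_d_ne hW8 ha (by omega), F.ip_d_ne hW8 hb (by omega), F.ip_d_ne hW8 hc (by omega)]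
      at key2
    omega
  · have hM := hF.hM
    rw [F.st_st] at hM
    rw [hM, F.ip_add_left, F.ip_add_left, F.ip_comm 1 R, h.R1] at key2
    have le1 : ∀ z ∈ F.S, F.ip z R ≤ 1 := by
      intro z hz
      rw [hR]
      simp only [F.ip_add_right]
      by_cases h1 : z = a
      · subst h1
        rw [F.ip_ne hz hb hab, F.ip_ne hz hc hac, F.ip_self hz]
      · by_cases h2 : z = b
        · subst h2
          rw [F.ip_ne hz ha h1, F.ip_ne hz hc hbc, F.ip_self hz]
        · rw [F.ip_ne hz ha h1, F.ip_ne hz hb h2]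
          have := F.ip_le_one hz hc; omega
    have l1 := le1 F1 hF.hP
    have l2 := le1 F2 hF.hQ
    have i1 : F.ip F1 R = 1 := by omega
    have i2 : F.ip F2 R = 1 := by omega
    obtain ⟨K, hK⟩ := F.split2 hF.hP hF.hQ hF.hne (x := R) (by rw [F.ip_comm]; omega)
      (by rw [F.ip_comm]; omega)
    have dK : F.d K = 3 := by
      have := congrArg F.d hK
      rw [h.dR, F.d_add, F.d_add, hF.dP, hF.dQ] at this; omega
    refine ⟨F1, F2, K, hF, ?_, dK, hK⟩
    apply F.three_of_three dK
    intro z hz e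
    exact h.geR hz (by rw [hK, F.ip_add_left]; omega)
  · exact absurd hD.false id

/-- type alpha does not occur -/
theorem AL.false {V P Q W R X : E} (h : AL F V P Q W R X) : False := by
  have dP := h.dP
  have dQ := h.dQ
  have dW := h.dW
  have hX0 : F.ip X X ≠ 0 := by
    intro h0
    have := h.dX
    rw [F.eq_zero_of_norm h0, F.d_zero] at this; omega
  have hle := h.le2
  have hX12 : F.ip X X = 1 ∨ F.ip X X = 2 := by omega
  rcases hX12 with nX | nX
  · exact h.X_not_simple (F.simple_of_norm nX)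
  have hRX : F.ip R X = 0 := by omega
  have nR : F.ip R R = 3 := by have := h.nRX; omega
  -- find a constituent of degree three of R
  obtain ⟨T0, hT0, dT0, hRT0⟩ : ∃ T, T ∈ F.S ∧ F.d T = 3 ∧ F.ip R T ≠ 0 := by
    obtain ⟨a, b, c, ha, hb, hc, hab, hac, hbc, hR⟩ := F.norm_three nR
    have ia : F.ip R a ≠ 0 := by rw [hR]; simp only [F.ip_add_left]; rw [F.ip_self ha]; omega
    have ib : F.ip R b ≠ 0 := by rw [hR]; simp only [F.ip_add_left]; rw [F.ip_self hb]; omega
    have ic : F.ip R c ≠ 0 := by rw [hR]; simp only [F.ip_add_left]; rw [F.ip_self hc]; omega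
    have ga := h.geR ha ia
    have gb := h.geR hb ib
    have gc := h.geR hc ic
    have dabc : F.d a + F.d b + F.d c = 11 := by
      have := h.dR
      rw [hR, F.d_add, F.d_add] at this; omega
    have : F.d a = 3 ∨ F.d b = 3 ∨ F.d c = 3 := by omega
    rcases this with h3 | h3 | h3
    · exact ⟨a, ha, h3, ia⟩
    · exact ⟨b, hb, h3, ib⟩
    · exact ⟨c, hc, h3, ic⟩
  obtain ⟨F1, F2, K, hF, hK, dK, hR⟩ := h.key nX hT0 dT0 (by rw [F.ip_add_left]; omega)
  have dF1 := hF.dP
  have dF2 := hF.dQ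
  have hF1 := hF.hP
  have hF2 := hF.hQ
  have hF12 := hF.hne
  have hsK := F.st_mem K hK
  have hRK : F.ip R K = 1 := by
    rw [hR]; simp only [F.ip_add_left]
    rw [F.ip_self hK, F.ip_d_ne hF1 hK (by omega), F.ip_d_ne hF2 hK (by omega)]
  have sK : F.st K = K := by
    have e2 : F.ip R (F.st K) = 1 := by rw [← F.ip_st', h.sR]; exact hRK
    rw [hR] at e2
    simp only [F.ip_add_left] at e2
    rw [F.ip_d_ne hF1 hsK (by rw [F.d_st]; omega), F.ip_d_ne hF2 hsK (by rw [F.d_st]; omega)] at e2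
    exact (F.eq_of_ip hK hsK (by omega)).symm
  -- general statement about the structure for T of degree three
  have gen3 : ∀ T ∈ F.S, F.d T = 3 → F.ip (R + X) T ≠ 0 → F.st T * T = 1 + F1 + F2 := by
    intro T hT dT e
    obtain ⟨G1, G2, K', hG, hK', dK', hR'⟩ := h.key nX hT dT e
    have e1 : K' = K := by
      have : F.ip R K' ≠ 0 := by rw [hR', F.ip_add_left, F.ip_self hK']; omega
      rw [hR] at this
      simp only [F.ip_add_left] at this
      rw [F.ip_d_ne hF1 hK' (by omega), F.ip_d_ne hF2 hK' (by omega)] at this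
      exact (F.eq_of_ip hK hK' (by omega)).symm
    have e2 : G1 + G2 = F1 + F2 := by
      rw [e1, hR] at hR'
      exact (F.add_cancel_right hR').symm
    have := hG.hM
    rw [F.st_st] at this
    rw [this, add_assoc, e2, add_assoc]
  rcases F.parts_eight h.dX nX (fun z hz e => h.geX hz e) with
    ⟨x, T, hx, hT, dx, dT, hXe⟩ | ⟨u, v, hu, hv, du, dv, huv, hXe⟩
  · -- X = 5 + 3
    have hXT : F.ip X T = 1 := by
      rw [hXe, F.ip_add_left, F.ip_self hT, F.ip_d_ne hx hT (by omega)]
    have hsT := F.st_mem T hT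
    have sT : F.st T = T := by
      have e2 : F.ip X (F.st T) = 1 := by rw [← F.ip_st', h.sX]; exact hXT
      rw [hXe] at e2
      simp only [F.ip_add_left] at e2
      rw [F.ip_d_ne hx hsT (by rw [F.d_st]; omega)] at e2
      exact (F.eq_of_ip hT hsT (by omega)).symm
    have hRT : F.ip R T = 0 := by
      rw [hXe, F.ip_add_right] at hRX; omega
    have hKT : K ≠ T := by
      rintro rfl; omega
    have MT := gen3 T hT dT (by rw [F.ip_add_left]; omega)
    have MK := gen3 K hK dK (by rw [F.ip_add_left]; omega)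
    have nKT : F.ip (K * T) (K * T) = 3 := by
      have h1 : F.ip 1 F1 = 0 := F.ip_d_ne F.one_mem hF1 (by rw [F.d_one]; omega)
      have h2 : F.ip 1 F2 = 0 := F.ip_d_ne F.one_mem hF2 (by rw [F.d_one]; omega)
      rw [sT] at MT
      rw [F.norm_mul_right, MK, sT, MT]
      simp only [F.ip_add_left, F.ip_add_right]
      rw [F.ip_self F.one_mem, F.ip_self hF1, F.ip_self hF2, h1, h2, F.ip_comm F1 1,
        F.ip_comm F2 1, h1, h2, F.ip_ne hF1 hF2 hF12, F.ip_ne hF2 hF1 hF12.symm]
    obtain ⟨hKV, _, _, hKsum⟩ := h.three hK dK (by rw [F.ip_add_left]; omega)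
    obtain ⟨hTV, _, _, _⟩ := h.three hT dT (by rw [F.ip_add_left]; omega)
    have h5 : F.ip (K * P) T + F.ip (K * Q) T = 1 := by
      have := congrArg (fun z => F.ip z T) hKsum
      simp only [F.ip_add_left] at this
      rw [F.ip_ne hK hT hKT, F.ip_d_ne h.hP hT (by omega), F.ip_d_ne h.hQ hT (by omega), hRT,
        hXT] at this
      omega
    obtain ⟨y, hy, dy, hKTy⟩ : ∃ y, y ∈ F.S ∧ F.d y = 4 ∧ F.ip (K * T) y ≠ 0 := by
      by_cases h6 : F.ip (K * P) T = 0
      · refine ⟨Q, h.hQ, dQ, ?_⟩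
        have : F.ip (K * T) Q = F.ip (K * Q) T := by
          rw [F.ip_mul_left K T Q, sK, F.ip_comm]
        rw [this]; omega
      · refine ⟨P, h.hP, dP, ?_⟩
        have : F.ip (K * T) P = F.ip (K * P) T := by
          rw [F.ip_mul_left K T P, sK, F.ip_comm]
        rw [this]; omega
    obtain ⟨r, hr⟩ := F.split hy hKTy
    have dr : F.d r = 5 := by
      have := congrArg F.d hr
      rw [F.d_mul, F.d_add, dK, dT, dy] at this; omega
    have nr0 : F.ip r r ≠ 0 := by
      intro h0
      rw [F.eq_zero_of_norm h0, F.d_zero] at dr; omega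
    have nr : F.ip r r = 2 := by
      rw [hr, F.norm_add, F.ip_self hy] at nKT
      omega
    obtain ⟨k, hk, dk, hrk⟩ := F.five_split dr nr (by
      intro a ha da
      by_contra hc
      have h1 : F.ip (K * T) a ≠ 0 := by rw [hr, F.ip_add_left]; omega
      exact h1 (F.ip_mul_two hK hT dT ha da (by omega)))
    have hKk := F.inv_in_mul hK hT hk dk (by rw [hr, F.ip_add_left]; omega)
    rw [sT] at hKk
    have : k * W = W := by
      rw [← hTV, ← mul_assoc, ← hKk, hKV, hTV]
    have k1 := F.stab9 h.hW dW hk dk this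
    rw [k1, one_mul] at hKk
    exact hKT hKk
  · -- X = 4 + 4
    have hXu : F.ip X u = 1 := by
      rw [hXe, F.ip_add_left, F.ip_self hu, F.ip_ne hv hu huv.symm]
    have hXv : F.ip X v = 1 := by
      rw [hXe, F.ip_add_left, F.ip_self hv, F.ip_ne hu hv huv]
    have hRu : F.ip R u = 0 := by rw [hXe, F.ip_add_right] at hRX; omega
    have hRv : F.ip R v = 0 := by rw [hXe, F.ip_add_right] at hRX; omega
    have hRF1 : F.ip R F1 = 1 := by
      rw [hR]; simp only [F.ip_add_left]
      rw [F.ip_self hF1, F.ip_ne hF2 hF1 hF12.symm, F.ip_d_ne hK hF1 (by omega)]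
    have hRF2 : F.ip R F2 = 1 := by
      rw [hR]; simp only [F.ip_add_left]
      rw [F.ip_self hF2, F.ip_ne hF1 hF2 hF12, F.ip_d_ne hK hF2 (by omega)]
    obtain ⟨hKV, _, _, _⟩ := h.three hK dK (by rw [F.ip_add_left]; omega)
    -- the rest of z V for z of degree four
    have rest4 : ∀ z ∈ F.S, F.d z = 4 → F.ip R z + F.ip X z = 1 → z ≠ P ∧ z ≠ Q ∧
        ∃ G, G ∈ F.S ∧ F.d G = 3 ∧ z * V = W + G := by
      intro z hz dz e
      have zP : z ≠ P := by
        rintro rfl
        rw [h.RP, h.XP] at e; omega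
      have zQ : z ≠ Q := by
        rintro rfl
        rw [h.RQ, h.XQ] at e; omega
      have m := h.mult hz (F.ip_ne h.hP hz zP.symm) (F.ip_ne h.hQ hz zQ.symm)
      obtain ⟨G, hG⟩ := F.split h.hW (x := z * V) (by omega)
      have dG : F.d G = 3 := by
        have := congrArg F.d hG
        rw [F.d_mul, F.d_add, h.dW, dz, h.dV] at this; omega
      refine ⟨zP, zQ, G, ?_, dG, hG⟩
      apply F.three_of_three dG
      intro a ha e
      exact F.ge_three hz h.hV h.dV (by omega) (by omega) ha (by rw [hG, F.ip_add_left]; omega)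
    obtain ⟨uP, uQ, Gu, hGu, dGu, huV⟩ := rest4 u hu du (by omega)
    obtain ⟨_, _, Gv, hGv, dGv, hvV⟩ := rest4 v hv dv (by omega)
    obtain ⟨_, _, G1, hG1, dG1, h1V⟩ := rest4 F1 hF1 dF1 (by
      rw [hRF1, hXe, F.ip_add_left, F.ip_ne hu hF1 (by rintro rfl; omega),
        F.ip_ne hv hF1 (by rintro rfl; omega)])
    obtain ⟨_, _, G2, hG2, dG2, h2V⟩ := rest4 F2 hF2 dF2 (by
      rw [hRF2, hXe, F.ip_add_left, F.ip_ne hu hF2 (by rintro rfl; omega),
        F.ip_ne hv hF2 (by rintro rfl; omega)])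
    have hGG : G1 + G2 = Gu + Gv := by
      have e := h.RV
      rw [hR, hXe, add_mul, add_mul, add_mul, h1V, h2V, hKV, huV, hvV] at e
      refine F.add_cancel (W + W + W) _ _ ?_
      calc W + W + W + (G1 + G2) = W + G1 + (W + G2) + W := by abel
        _ = _ := e
        _ = _ := by abel
    have common : ∀ f : E, f ∈ F.S → F.d f = 4 → f ≠ u → f * V = W + Gu → False := by
      intro f hf df hfu hfV
      have e1 : F.ip (Gu * F.st V) f ≠ 0 := by
        rw [F.ip_mul_right, F.st_st, hfV, F.ip_add_right, F.ip_self hGu]; omega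
      have e2 : F.ip (Gu * F.st V) u ≠ 0 := by
        rw [F.ip_mul_right, F.st_st, huV, F.ip_add_right, F.ip_self hGu]; omega
      obtain ⟨k, hk⟩ := F.split2 hf hu hfu e1 e2
      have dk : F.d k = 1 := by
        have := congrArg F.d hk
        rw [F.d_mul, F.d_st, F.d_add, F.d_add, h.dV] at this; omega
      have kS := F.simple_of_d_one dk
      have e3 := F.inv_in_mul hGu (F.st_mem V h.hV) kS dk (by
        rw [hk, F.ip_add_left, F.ip_self kS]; omega)
      rw [F.st_st] at e3
      have hkP := F.inv_mul_mem kS dk h.hP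
      have hkQ := F.inv_mul_mem kS dk h.hQ
      have hkV := F.inv_mul_mem kS dk h.hV
      have hkW := F.inv_mul_mem kS dk h.hW
      rw [e3, mul_assoc, h.hM, mul_add, mul_add, mul_one, F.ip_add_left, F.ip_add_left,
        F.ip_d_ne kS hu (by omega)] at e2
      have hkWW : k * W = W := by
        have aux : ∀ y : E, y * V = V + W → k * y = u → k * W = W := by
          intro y hyV hky
          have e4 : u * V = k * V + k * W := by rw [← hky, mul_assoc, hyV, mul_add]
          have e5 : F.ip (u * V) W ≠ 0 := by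
            rw [huV, F.ip_add_left, F.ip_self h.hW]; omega
          rw [e4, F.ip_add_left, F.ip_d_ne hkV h.hW (by rw [F.d_mul, dk, h.dV]; omega)] at e5
          exact F.eq_of_ip hkW h.hW (by omega)
        by_cases c : F.ip (k * P) u = 0
        · exact aux Q h.QV (F.eq_of_ip hkQ hu (by omega))
        · exact aux P h.PV (F.eq_of_ip hkP hu c)
      have k1 := F.stab9 h.hW dW kS dk hkWW
      rw [k1, one_mul, one_mul] at e2
      by_cases c : F.ip P u = 0
      · exact uQ (F.eq_of_ip h.hQ hu (by omega)).symm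
      · exact uP (F.eq_of_ip h.hP hu c).symm
    have e6 := congrArg (fun z => F.ip z Gu) hGG
    simp only [F.ip_add_left] at e6
    rw [F.ip_self hGu] at e6
    by_cases c : F.ip G1 Gu = 0
    · have := F.eq_of_ip hG2 hGu (by omega)
      rw [this] at h2V
      exact common F2 hF2 dF2 (by rintro rfl; omega) h2V
    · have := F.eq_of_ip hG1 hGu c
      rw [this] at h1V
      exact common F1 hF1 dF1 (by rintro rfl; omega) h1V

variable (F)

/-- **main theorem, abstract version** -/
theorem main3 {V : E} (hV : V ∈ F.S) (dV : F.d V = 3) :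
    ∃ W, W ∈ F.S ∧ F.d W = 8 ∧ V * F.st V = 1 + W := by
  rcases F.tri hV dV with h | ⟨P, Q, h⟩ | ⟨Q, h⟩
  · exact h
  · obtain ⟨W, hW⟩ := h.toTA
    obtain ⟨R, X, hA⟩ := hW.toAL
    exact absurd hA.false id
  · exact absurd h.false id

end Fus

end Run7.h2
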