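import Pool.Agent.Run7.h2.Fus

/-!
Simple objects of degree one, two and three.
-/

namespace Run7.h2

universe u

namespace Fus

variable {E : Type u} [Semiring E] (F : Fus E)

lemma ip_nsmul_left (m : ℕ) (x y : E) : F.ip (m • x) y = m * F.ip x y := by
  induction m with
  | zero => simp [F.ip_zero_left]
  | succ m ih => rw [succ_nsmul, F.ip_add_left, ih]; ring

lemma ip_nsmul_right (m : ℕ) (x y : E) : F.ip x (m • y) = m * F.ip x y := by
  rw [F.ip_comm, ip_nsmul_left, F.ip_comm]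

lemma d_nsmul (m : ℕ) (x : E) : F.d (m • x) = m * F.d x := by
  induction m with
  | zero => simp [F.d_zero]
  | succ m ih => rw [succ_nsmul, F.d_add, ih]; ring

lemma st_nsmul (m : ℕ) (x : E) : F.st (m • x) = m • F.st x := by
  induction m with
  | zero => simp [F.st_zero]
  | succ m ih => rw [succ_nsmul, F.st_add, ih, succ_nsmul]

lemma deg_sum (A : Finset E) (hA : ∀ a ∈ A, a ∈ F.S) (x : E) :
    ∑ a ∈ A, F.ip x a * F.d a ≤ F.d x := by
  classical
  induction A using Finset.induction_on generalizing x with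
  | empty => simp
  | insert a A ha ih =>
    obtain ⟨_, y, hy, hy0⟩ := F.d_ge1 (hA a (Finset.mem_insert_self a A)) x
    have h1 := ih (fun b hb => hA b (Finset.mem_insert_of_mem hb)) y
    rw [Finset.sum_insert ha]
    have h2 : ∀ b ∈ A, F.ip x b = F.ip y b := by
      intro b hb
      have hab : a ≠ b := by rintro rfl; exact ha hb
      conv_lhs => rw [hy]
      rw [F.ip_add_left, F.ip_nsmul_left, F.ip_ne (hA a (Finset.mem_insert_self a A))
        (hA b (Finset.mem_insert_of_mem hb)) hab]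
      omega
    rw [Finset.sum_congr rfl fun b hb => by rw [h2 b hb]]
    have h3 := congrArg F.d hy
    rw [F.d_add, F.d_nsmul] at h3
    omega

lemma deg1 {a : E} (ha : a ∈ F.S) (x : E) : F.ip x a * F.d a ≤ F.d x := (F.d_ge1 ha x).1

lemma deg2 {a b : E} (ha : a ∈ F.S) (hb : b ∈ F.S) (hab : a ≠ b) (x : E) :
    F.ip x a * F.d a + F.ip x b * F.d b ≤ F.d x := by
  classical
  have := F.deg_sum {a, b} (by simp [ha, hb]) x
  rwa [Finset.sum_pair hab] at this

lemma deg3 {a b c : E} (ha : a ∈ F.S) (hb : b ∈ F.S) (hc : c ∈ F.S) (hab : a ≠ b) (hac : a ≠ c)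
    (hbc : b ≠ c) (x : E) :
    F.ip x a * F.d a + F.ip x b * F.d b + F.ip x c * F.d c ≤ F.d x := by
  classical
  have := F.deg_sum {a, b, c} (by simp [ha, hb, hc]) x
  rw [Finset.sum_insert (by simp [hab, hac]), Finset.sum_pair hbc] at this
  omega

lemma deg4 {a b c e : E} (ha : a ∈ F.S) (hb : b ∈ F.S) (hc : c ∈ F.S) (he : e ∈ F.S)
    (hab : a ≠ b) (hac : a ≠ c) (hae : a ≠ e) (hbc : b ≠ c) (hbe : b ≠ e) (hce : c ≠ e) (x : E) :
    F.ip x a * F.d a + F.ip x b * F.d b + F.ip x c * F.d c + F.ip x e * F.d e ≤ F.d x := by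
  classical
  have := F.deg_sum {a, b, c, e} (by simp [ha, hb, hc, he]) x
  rw [Finset.sum_insert (by simp [hab, hac, hae]), Finset.sum_insert (by simp [hbc, hbe]),
    Finset.sum_pair hce] at this
  omega

lemma t_simple_ne_one {a : E} (ha : a ∈ F.S) (h : a ≠ 1) : F.t a = 0 := by
  rw [← F.ip_one]; exact F.ip_ne ha F.one_mem h

lemma t_one : F.t 1 = 1 := by rw [← F.ip_one]; exact F.ip_self F.one_mem

/-- the Frobenius congruence for a nontrivial simple object -/
lemma fs3_simple {a : E} (ha : a ∈ F.S) (h : a ≠ 1) : F.t (a * a * a) % 3 = 0 := by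
  have h1 := F.fs3 a
  rw [F.t_simple_ne_one ha h, pow_succ, pow_two] at h1
  exact h1

lemma ne_one_of_d {a : E} (h : F.d a ≠ 1) : a ≠ 1 := by
  rintro rfl; exact h F.d_one

/-! ### invertible objects -/

lemma mul_st_one {h : E} (hh : h ∈ F.S) (hd : F.d h = 1) : h * F.st h = 1 := by
  obtain ⟨y, hy⟩ := F.split F.one_mem (x := h * F.st h) (by
    rw [F.ip_one]; have := F.orth_self h hh; omega)
  have h1 := congrArg F.d hy
  rw [F.d_mul, F.d_st, hd, F.d_add, F.d_one] at h1
  have : y = 0 := F.eq_zero_of_d (by omega)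
  rw [hy, this, add_zero]

lemma st_mul_one {h : E} (hh : h ∈ F.S) (hd : F.d h = 1) : F.st h * h = 1 := by
  have := F.mul_st_one (F.st_mem h hh) (by rw [F.d_st, hd])
  rwa [F.st_st] at this

lemma inv_mul_mem {h x : E} (hh : h ∈ F.S) (hd : F.d h = 1) (hx : x ∈ F.S) : h * x ∈ F.S := by
  apply F.simple_of_norm
  rw [F.norm_mul_right, F.st_mul_one hh hd, F.ip_comm, F.ip_one]
  exact F.orth_self x hx

lemma mul_inv_mem {h x : E} (hh : h ∈ F.S) (hd : F.d h = 1) (hx : x ∈ F.S) : x * h ∈ F.S := by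
  have := F.inv_mul_mem (F.st_mem h hh) (by rw [F.d_st, hd]) (F.st_mem x hx)
  rw [← F.st_mul] at this
  have := F.st_mem _ this
  rwa [F.st_st] at this

lemma inv_cancel {h x y : E} (hh : h ∈ F.S) (hd : F.d h = 1) (hxy : h * x = h * y) : x = y := by
  have := congrArg (fun z => F.st h * z) hxy
  simp only [← mul_assoc, F.st_mul_one hh hd, one_mul] at this
  exact this

/-- no elements of order three -/
lemma cube_ne {h : E} (hh : h ∈ F.S) (hd : F.d h = 1) (h3 : h ^ 3 = 1) : h = 1 := by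
  by_contra hne
  have h1 := F.fs3 h
  rw [h3, F.t_one, F.t_simple_ne_one hh hne] at h1
  exact absurd h1 (by decide)

lemma st_eq_of_sq {h : E} (hh : h ∈ F.S) (hd : F.d h = 1) (h2 : h * h = 1) : F.st h = h := by
  apply F.inv_cancel hh hd
  rw [F.mul_st_one hh hd, h2]

lemma stab3 {V h : E} (hV : V ∈ F.S) (dV : F.d V = 3) (hh : h ∈ F.S) (hd : F.d h = 1)
    (e : h * V = V) : h = 1 := by
  apply F.cube_ne hh hd
  have := F.f3 h hh hd V hV e
  rwa [dV] at this

lemma stab3' {V h : E} (hV : V ∈ F.S) (dV : F.d V = 3) (hh : h ∈ F.S) (hd : F.d h = 1)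
    (e : V * h = V) : h = 1 := by
  have h1 := congrArg F.st e
  rw [F.st_mul] at h1
  have h2 := F.stab3 (F.st_mem V hV) (by rw [F.d_st, dV]) (F.st_mem h hh) (by rw [F.d_st, hd]) h1
  rw [← F.st_st h, h2, F.st_one]

/-- if `g V = h V` then `g = h` -/
lemma inv_eq {V g h : E} (hV : V ∈ F.S) (dV : F.d V = 3) (hg : g ∈ F.S) (dg : F.d g = 1)
    (hh : h ∈ F.S) (hd : F.d h = 1) (e : g * V = h * V) : g = h := by
  have h1 : (F.st h * g) * V = V := by
    rw [mul_assoc, e, ← mul_assoc, F.st_mul_one hh hd, one_mul]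
  have h2 := F.stab3 hV dV (F.inv_mul_mem (F.st_mem h hh) (by rw [F.d_st, hd]) hg)
    (by rw [F.d_mul, F.d_st, hd, dg]) h1
  have h3 := congrArg (fun z => h * z) h2
  simp only [← mul_assoc, F.mul_st_one hh hd, one_mul, mul_one] at h3
  exact h3

/-- multiplicity of an invertible object in `x x*` -/
lemma mem_stab {x h : E} (hx : x ∈ F.S) (hh : h ∈ F.S) (hd : F.d h = 1)
    (e : F.ip (x * F.st x) h ≠ 0) : h * x = x := by
  rw [F.ip_mul_right, F.st_st] at e
  exact (F.eq_of_ip hx (F.inv_mul_mem hh hd hx) e).symm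

lemma stab_mem {x h : E} (hx : x ∈ F.S) (e : h * x = x) :
    F.ip (x * F.st x) h = 1 := by
  rw [F.ip_mul_right, F.st_st, e, F.ip_self hx]

/-- `Y² ∌ Y` for a self-dual object of degree three -/
lemma no_YYY {Y : E} (hY : Y ∈ F.S) (dY : F.d Y = 3) (hs : F.st Y = Y) : F.t (Y * Y * Y) = 0 := by
  have h1 := F.fs3_simple hY (F.ne_one_of_d (by omega))
  have h2 : F.t (Y * Y * Y) = F.ip (Y * Y) Y := by unfold ip; rw [hs]
  have h3 := F.deg2 F.one_mem hY (F.ne_one_of_d (by omega)).symm (Y * Y)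
  have h4 : F.ip (Y * Y) 1 = 1 := by
    rw [F.ip_one]; have := F.orth_self Y hY; rwa [hs] at this
  rw [F.d_mul, dY, F.d_one, h4, ← h2] at h3
  omega

/-- **structure of `X X*` for `X` of degree two**: there is a nontrivial stabiliser -/
lemma two_dim {X : E} (hX : X ∈ F.S) (dX : F.d X = 2) :
    ∃ g, g ∈ F.S ∧ F.d g = 1 ∧ g ≠ 1 ∧ g * X = X ∧ g * g = 1 := by
  have hsq : ∀ g ∈ F.S, F.d g = 1 → g * X = X → g * g = 1 := by
    intro g hg dg e
    have := F.f3 g hg dg X hX e
    rwa [dX, pow_two] at this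
  obtain ⟨y, hy⟩ := F.split F.one_mem (x := X * F.st X) (by
    rw [F.ip_one]; have := F.orth_self X hX; omega)
  have hdy := congrArg F.d hy
  rw [F.d_mul, F.d_st, dX, F.d_add, F.d_one] at hdy
  have hy1 : F.ip y 1 = 0 := by
    have h1 : F.ip (X * F.st X) 1 = F.ip (1 + y) 1 := by rw [hy]
    rw [F.ip_add_left, F.ip_self F.one_mem, F.ip_one (X * F.st X)] at h1
    have := F.orth_self X hX
    omega
  have hfin : ∀ g ∈ F.S, F.d g = 1 → F.ip y g ≠ 0 → g ≠ 1 ∧ g * X = X := by
    intro g hg dg e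
    constructor
    · rintro rfl; exact e hy1
    · apply F.mem_stab hX hg dg
      rw [hy, F.ip_add_left]; omega
  have hsd : F.st y = y := by
    have h1 := congrArg F.st hy
    rw [F.st_mul, F.st_st, F.st_add, F.st_one, hy] at h1
    exact (F.add_cancel _ _ _ h1).symm
  obtain ⟨a, z, ha, hz⟩ := F.exists_split (x := y) (by rintro rfl; rw [F.d_zero] at hdy; omega)
  have hdz := congrArg F.d hz
  rw [F.d_add] at hdz
  have hda := F.d_pos a ha
  have h3 : F.d a = 1 ∨ F.d a = 2 ∨ F.d a = 3 := by omega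
  rcases h3 with h3 | h3 | h3
  · obtain ⟨h4, h5⟩ := hfin a ha h3 (by rw [hz, F.ip_add_left, F.ip_self ha]; omega)
    exact ⟨a, ha, h3, h4, h5, hsq a ha h3 h5⟩
  · obtain ⟨b, w, hb, hw⟩ := F.exists_split (x := z) (by rintro rfl; rw [F.d_zero] at hdz; omega)
    have hdw := congrArg F.d hw
    rw [F.d_add] at hdw
    have hdb := F.d_pos b hb
    have h6 : F.d b = 1 := by omega
    obtain ⟨h4, h5⟩ := hfin b hb h6 (by
      rw [hz, hw, F.ip_add_left, F.ip_add_left, F.ip_self hb]; omega)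
    exact ⟨b, hb, h6, h4, h5, hsq b hb h6 h5⟩
  · exfalso
    have hz0 : z = 0 := F.eq_zero_of_d (by omega)
    rw [hz0, add_zero] at hz
    subst hz
    have hY := F.no_YYY ha h3 hsd
    have hnorm : F.ip (y * X) (y * X) = 1 := by
      rw [F.norm_mul_right, hsd, hy, F.ip_add_right]
      have h4 : F.ip (y * y) 1 = 1 := by
        rw [F.ip_one]; have := F.orth_self y ha; rwa [hsd] at this
      have h5 : F.ip (y * y) y = 0 := by unfold ip; rw [hsd]; exact hY
      omega
    have hS := F.simple_of_norm hnorm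
    have h6 : F.ip (y * X) X ≠ 0 := by
      rw [F.ip_mul_right, hy, F.ip_add_right, F.ip_self ha]; omega
    have h7 := F.eq_of_ip hS hX h6
    have h8 := congrArg F.d h7
    rw [F.d_mul, dX] at h8
    omega

end Fus

end Run7.h2
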