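import Pool.Agent.Run7.h2.Fus2

/-!
Simple objects of degree three: structure of `V V*`.
-/

namespace Run7.h2

universe u

namespace Fus

variable {E : Type u} [Semiring E] (F : Fus E)

include F in
lemma add_cancel_right {x y z : E} (h : x + z = y + z) : x = y := by
  rw [add_comm x, add_comm y] at h
  exact F.add_cancel _ _ _ h

lemma M_one {V : E} (hV : V ∈ F.S) : F.ip (V * F.st V) 1 = 1 := by
  rw [F.ip_one]; exact F.orth_self V hV

lemma M_self (V : E) : F.st (V * F.st V) = V * F.st V := by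
  rw [F.st_mul, F.st_st]

lemma M_inv {V h : E} (hV : V ∈ F.S) (dV : F.d V = 3) (hh : h ∈ F.S) (hd : F.d h = 1)
    (hne : h ≠ 1) : F.ip (V * F.st V) h = 0 := by
  by_contra hc
  exact hne (F.stab3 hV dV hh hd (F.mem_stab hV hh hd hc))

/-- two-dimensional constituents of `V V*` -/
lemma two_in_M {V X : E} (hV : V ∈ F.S) (dV : F.d V = 3) (hX : X ∈ F.S) (dX : F.d X = 2)
    (hM : F.ip (V * F.st V) X ≠ 0) :
    ∃ g, g ∈ F.S ∧ F.d g = 1 ∧ g ≠ 1 ∧ g * X = X ∧ g * g = 1 ∧ X * V = V + g * V := by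
  obtain ⟨g, hg, dg, hg1, hgX, hgg⟩ := F.two_dim hX dX
  refine ⟨g, hg, dg, hg1, hgX, hgg, ?_⟩
  have hgV := F.inv_mul_mem hg dg hV
  have hne : g * V ≠ V := fun h => hg1 (F.stab3 hV dV hg dg h)
  have h1 : F.ip (X * V) V ≠ 0 := by rw [F.ip_mul_right, F.ip_comm]; exact hM
  obtain ⟨x1, hx1⟩ := F.split hV h1
  have h2 : F.ip (X * V) (g * V) = F.ip (X * V) V := by
    conv_lhs => rw [← hgX]
    rw [mul_assoc, F.ip_mul_left, ← mul_assoc (F.st g), F.st_mul_one hg dg, one_mul]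
  have h3 : F.ip x1 (g * V) ≠ 0 := by
    rw [hx1, F.ip_add_left, F.ip_add_left, F.ip_ne hV hgV hne.symm, F.ip_self hV] at h2
    omega
  obtain ⟨x2, hx2⟩ := F.split hgV h3
  have h4 := congrArg F.d hx1
  rw [hx2, F.d_mul, F.d_add, F.d_add, F.d_mul, dX, dV, dg] at h4
  have : x2 = 0 := F.eq_zero_of_d (by omega)
  rw [hx1, hx2, this, add_zero]

/-- more structure -/
lemma two_in_M' {V X : E} (hV : V ∈ F.S) (dV : F.d V = 3) (hX : X ∈ F.S) (dX : F.d X = 2)
    (hM : F.ip (V * F.st V) X ≠ 0) :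
    ∃ g T, g ∈ F.S ∧ F.d g = 1 ∧ g ≠ 1 ∧ g * X = X ∧ g * g = 1 ∧ X * V = V + g * V ∧
      T ∈ F.S ∧ F.d T = 2 ∧ F.st T = T ∧ g * T = T ∧ X * F.st X = 1 + g + T ∧
      T * V = V + g * V ∧ F.ip (V * F.st V) T ≠ 0 := by
  obtain ⟨g, hg, dg, hg1, hgX, hgg, hXV⟩ := F.two_in_M hV dV hX dX hM
  have hstg : F.st g = g := F.st_eq_of_sq hg dg hgg
  -- decomposition of X X*
  obtain ⟨y, hy⟩ := F.split F.one_mem (x := X * F.st X) (by rw [F.M_one hX]; omega)
  have hyg : F.ip y g ≠ 0 := by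
    have h1 := F.stab_mem hX hgX
    rw [hy, F.ip_add_left, F.ip_ne F.one_mem hg hg1.symm] at h1
    omega
  obtain ⟨T, hT⟩ := F.split hg hyg
  have hdT : F.d T = 2 := by
    have h1 := congrArg F.d hy
    rw [hT, F.d_mul, F.d_st, dX, F.d_add, F.d_add, F.d_one, dg] at h1
    omega
  have hXX : X * F.st X = 1 + g + T := by rw [hy, hT, add_assoc]
  -- T has no invertible constituents
  have hTinv : ∀ h ∈ F.S, F.d h = 1 → F.ip T h = 0 := by
    intro h hh dh
    by_contra hc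
    have h1 : F.ip (X * F.st X) h ≠ 0 := by
      rw [hXX, F.ip_add_left]; omega
    have hhX := F.mem_stab hX hh dh h1
    have hle : F.ip (X * F.st X) h = 1 := F.stab_mem hX hhX
    have hneh1 : h ≠ 1 := by
      rintro rfl
      rw [hXX, F.ip_add_left, F.ip_add_left, F.ip_self F.one_mem] at hle
      omega
    have hnehg : h ≠ g := by
      rintro rfl
      rw [hXX, F.ip_add_left, F.ip_add_left, F.ip_self hh] at hle
      omega
    -- X V contains h V as well
    have hhV := F.inv_mul_mem hh dh hV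
    have h2 : F.ip (X * V) (h * V) = F.ip (X * V) V := by
      conv_lhs => rw [← hhX]
      rw [mul_assoc, F.ip_mul_left, ← mul_assoc (F.st h), F.st_mul_one hh dh, one_mul]
    rw [hXV, F.ip_add_left, F.ip_add_left, F.ip_self hV] at h2
    have hgV := F.inv_mul_mem hg dg hV
    have h3 : V ≠ h * V := fun h' => hneh1 (F.stab3 hV dV hh dh h'.symm)
    rw [F.ip_ne hV hhV h3] at h2
    have h4 : F.ip (g * V) (h * V) ≠ 0 := by omega
    have h5 := F.eq_of_ip hgV hhV h4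
    exact hnehg (F.inv_eq hV dV hg dg hh dh h5).symm
  have hTS : T ∈ F.S := by
    obtain ⟨a, z, ha, hz⟩ := F.exists_split (x := T) (by rintro rfl; rw [F.d_zero] at hdT; omega)
    have h1 := congrArg F.d hz
    rw [hdT, F.d_add] at h1
    have h2 := F.d_pos a ha
    have h3 : F.d a ≠ 1 := by
      intro h3
      have := hTinv a ha h3
      rw [hz, F.ip_add_left, F.ip_self ha] at this
      omega
    have h4 : z = 0 := F.eq_zero_of_d (by omega)
    rw [hz, h4, add_zero]; exact ha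
  have hstT : F.st T = T := by
    have h1 := F.M_self X
    rw [hXX, F.st_add, F.st_add, F.st_one, hstg] at h1
    exact F.add_cancel _ _ _ h1
  have hgT : g * T = T := by
    have h1 : g * (X * F.st X) = X * F.st X := by rw [← mul_assoc, hgX]
    rw [hXX, mul_add, mul_add, mul_one, hgg, add_comm g 1] at h1
    exact F.add_cancel _ _ _ h1
  have hstX : F.ip (V * F.st V) (F.st X) ≠ 0 := by
    rw [F.ip_comm, F.ip_st', F.M_self, F.ip_comm]; exact hM
  obtain ⟨g', hg', dg', hg1', hgX', hgg', hXV'⟩ :=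
    F.two_in_M hV dV (F.st_mem X hX) (by rw [F.d_st, dX]) hstX
  have hXg' : X * g' = X := by
    have h1 := congrArg F.st hgX'
    rw [F.st_mul, F.st_st, F.st_eq_of_sq hg' dg' hgg'] at h1
    exact h1
  have hTV : T * V = V + g * V := by
    have h1 : X * F.st X * V = (V + g * V) + (V + g * V) := by
      rw [mul_assoc, hXV', mul_add, ← mul_assoc, hXg', hXV]
    rw [hXX, add_mul, add_mul, one_mul] at h1
    exact F.add_cancel _ _ _ h1
  have hMT : F.ip (V * F.st V) T ≠ 0 := by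
    rw [F.ip_comm]
    rw [← F.ip_mul_right, hTV, F.ip_add_left, F.ip_self hV]; omega
  exact ⟨g, T, hg, dg, hg1, hgX, hgg, hXV, hTS, hdT, hstT, hgT, hXX, hTV, hMT⟩

lemma mult_two {V X g : E} (hV : V ∈ F.S) (dV : F.d V = 3) (hg : g ∈ F.S)
    (dg : F.d g = 1) (hg1 : g ≠ 1) (hXV : X * V = V + g * V) : F.ip (V * F.st V) X = 1 := by
  rw [F.ip_comm, ← F.ip_mul_right, hXV, F.ip_add_left, F.ip_self hV,
    F.ip_ne (F.inv_mul_mem hg dg hV) hV (fun h => hg1 (F.stab3 hV dV hg dg h))]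

/-- if `V V*` has a constituent of degree two then it has two of them, with the same stabiliser -/
lemma pair_in_M {V X : E} (hV : V ∈ F.S) (dV : F.d V = 3) (hX : X ∈ F.S) (dX : F.d X = 2)
    (hM : F.ip (V * F.st V) X ≠ 0) :
    ∃ g T T', g ∈ F.S ∧ F.d g = 1 ∧ g ≠ 1 ∧ g * g = 1 ∧ X * V = V + g * V ∧
      T ∈ F.S ∧ F.d T = 2 ∧ F.st T = T ∧ g * T = T ∧ T * V = V + g * V ∧
      T' ∈ F.S ∧ F.d T' = 2 ∧ F.st T' = T' ∧ g * T' = T' ∧ T' * V = V + g * V ∧
      T ≠ T' ∧ T * T = 1 + g + T' := by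
  obtain ⟨g, T, hg, dg, hg1, hgX, hgg, hXV, hT, dT, hstT, hgT, hXX, hTV, hMT⟩ :=
    F.two_in_M' hV dV hX dX hM
  obtain ⟨g2, T', hg2, dg2, hg12, hgT2, hgg2, hTV2, hT', dT', hstT', hgT', hTT, hTV', hMT'⟩ :=
    F.two_in_M' hV dV hT dT hMT
  have hgg2e : g * V = g2 * V := by
    rw [hTV] at hTV2
    exact F.add_cancel _ _ _ hTV2
  have hge : g = g2 := F.inv_eq hV dV hg dg hg2 dg2 hgg2e
  subst hge
  rw [hstT] at hTT
  refine ⟨g, T, T', hg, dg, hg1, hgg, hXV, hT, dT, hstT, hgT, hTV, hT', dT', hstT', hgT', hTV', ?_, hTT⟩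
  intro hTT'
  have h1 := F.fs3_simple hT (F.ne_one_of_d (by omega))
  have h2 : F.t (T * T * T) = F.ip (T * T) T := by unfold ip; rw [hstT]
  rw [h2, hTT, F.ip_add_left, F.ip_add_left, ← hTT', F.ip_self hT,
    F.ip_ne F.one_mem hT (F.ne_one_of_d (by omega)).symm,
    F.ip_ne hg hT (by rintro rfl; omega)] at h1
  omega

end Fus

end Run7.h2
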