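import Pool.Agent.Run7.h2.Fus3

/-!
No constituents of degree two in `V V*`.
-/

namespace Run7.h2

universe u

namespace Fus

variable {E : Type u} [Semiring E] (F : Fus E)

lemma ip_gV {V g h : E} (hV : V ∈ F.S) (dV : F.d V = 3) (hg : g ∈ F.S) (dg : F.d g = 1)
    (hh : h ∈ F.S) (dh : F.d h = 1) (hne : g ≠ h) : F.ip (g * V) (h * V) = 0 :=
  F.ip_ne (F.inv_mul_mem hg dg hV) (F.inv_mul_mem hh dh hV)
    (fun e => hne (F.inv_eq hV dV hg dg hh dh e))

lemma no_four_twos {V g T T' A B : E} (hV : V ∈ F.S) (dV : F.d V = 3) (hg : g ∈ F.S)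
    (dg : F.d g = 1) (hg1 : g ≠ 1) (hTV : T * V = V + g * V) (hTV' : T' * V = V + g * V)
    (hT : T ∈ F.S) (hT' : T' ∈ F.S)
    (hA : A ∈ F.S) (dA : F.d A = 2) (hB : B ∈ F.S) (dB : F.d B = 2)
    (hM : V * F.st V = 1 + T + T' + A + B) : False := by
  have hMA : F.ip (V * F.st V) A ≠ 0 := by
    rw [hM, F.ip_add_left, F.ip_add_left, F.ip_self hA]; omega
  have hMB : F.ip (V * F.st V) B ≠ 0 := by
    rw [hM, F.ip_add_left, F.ip_self hB]; omega
  obtain ⟨gA, TA, TA', hgA, dgA, hgA1, _, hAV, hTA, dTA, _, _, hTAV, hTA', dTA', _, _, hTAV',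
    hneA, _⟩ := F.pair_in_M hV dV hA dA hMA
  obtain ⟨gB, hgB, dgB, hgB1, _, _, hBV⟩ := F.two_in_M hV dV hB dB hMB
  have hMV : (V * F.st V) * V = (V + V + V + V + V) + ((g * V + g * V) + (gA * V + gB * V)) := by
    rw [hM, add_mul, add_mul, add_mul, add_mul, one_mul, hTV, hTV', hAV, hBV]
    abel
  have h1 : F.t ((V * F.st V) * (V * F.st V) * (V * F.st V)) =
      F.ip ((V * F.st V) * V) ((V * F.st V) * V) := by
    rw [F.norm_mul_right, F.M_self]
    unfold ip
    rw [F.M_self]
  have h2 := F.fs3 (V * F.st V)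
  rw [pow_succ, pow_two, h1, hMV] at h2
  have h3 : F.t (V * F.st V) = 1 := F.orth_self V hV
  rw [h3] at h2
  have e1 : ∀ h ∈ F.S, F.d h = 1 → h ≠ 1 → F.ip V (h * V) = 0 := by
    intro h hh dh hne
    exact F.ip_ne hV (F.inv_mul_mem hh dh hV) (fun e => hne (F.stab3 hV dV hh dh e.symm))
  have e2 : ∀ h ∈ F.S, F.d h = 1 → F.ip (h * V) (h * V) = 1 := by
    intro h hh dh
    exact F.ip_self (F.inv_mul_mem hh dh hV)
  have e3 : ∀ h ∈ F.S, F.d h = 1 → h ≠ 1 → F.ip (h * V) V = 0 := by
    intro h hh dh hne; rw [F.ip_comm]; exact e1 h hh dh hne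
  simp only [F.ip_add_left, F.ip_add_right, e1 g hg dg hg1, e1 gA hgA dgA hgA1,
    e1 gB hgB dgB hgB1, e3 g hg dg hg1, e3 gA hgA dgA hgA1,
    e3 gB hgB dgB hgB1, e2 g hg dg, e2 gA hgA dgA, e2 gB hgB dgB, F.ip_self hV] at h2
  by_cases ha : g = gA
  · by_cases hb : g = gB
    · subst ha; subst hb
      simp only [e2 g hg dg] at h2
      exact absurd h2 (by decide)
    · subst ha
      rw [F.ip_gV hV dV hg dg hgB dgB hb, F.ip_comm (gB * V) (g * V),
        F.ip_gV hV dV hg dg hgB dgB hb] at h2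
      simp only [e2 g hg dg] at h2
      exact absurd h2 (by decide)
  · by_cases hb : g = gB
    · subst hb
      rw [F.ip_gV hV dV hg dg hgA dgA ha, F.ip_comm (gA * V) (g * V),
        F.ip_gV hV dV hg dg hgA dgA ha] at h2
      simp only [e2 g hg dg] at h2
      exact absurd h2 (by decide)
    · by_cases hc : gA = gB
      · subst hc
        rw [F.ip_gV hV dV hg dg hgA dgA ha, F.ip_comm (gA * V) (g * V),
          F.ip_gV hV dV hg dg hgA dgA ha] at h2
        simp only [e2 gA hgA dgA] at h2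
        exact absurd h2 (by decide)
      · -- the class argument
        have hkey : ∀ U ∈ F.S, F.d U = 2 → U * V = V + gA * V → U = A ∨ U = B := by
          intro U hU dU hUV
          have h5 := F.mult_two hV dV hgA dgA hgA1 hUV
          rw [hM] at h5
          simp only [F.ip_add_left] at h5
          have h6 : F.ip 1 U = 0 := F.ip_ne F.one_mem hU (F.ne_one_of_d (by omega)).symm
          have h7 : F.ip T U = 0 := by
            apply F.ip_ne hT hU
            rintro rfl
            rw [hTV] at hUV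
            exact ha (F.inv_eq hV dV hg dg hgA dgA (F.add_cancel _ _ _ hUV))
          have h8 : F.ip T' U = 0 := by
            apply F.ip_ne hT' hU
            rintro rfl
            rw [hTV'] at hUV
            exact ha (F.inv_eq hV dV hg dg hgA dgA (F.add_cancel _ _ _ hUV))
          by_cases h9 : F.ip A U = 0
          · right
            exact (F.eq_of_ip hB hU (by omega)).symm
          · left
            exact (F.eq_of_ip hA hU h9).symm
        have hBgA : B * V = V + gA * V := by
          rcases hkey TA hTA dTA hTAV with h5 | h5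
          · rcases hkey TA' hTA' dTA' hTAV' with h6 | h6
            · exact absurd (h5.trans h6.symm) hneA
            · rw [← h6]; exact hTAV'
          · rw [← h5]; exact hTAV
        rw [hBV] at hBgA
        exact hc (F.inv_eq hV dV hgA dgA hgB dgB (F.add_cancel _ _ _ hBgA).symm)

/-- the shape of `V V*` when it has a constituent of degree two -/
lemma M_with_two {V X : E} (hV : V ∈ F.S) (dV : F.d V = 3) (hX : X ∈ F.S) (dX : F.d X = 2)
    (hM : F.ip (V * F.st V) X ≠ 0) :
    ∃ g T T' Q, g ∈ F.S ∧ F.d g = 1 ∧ g ≠ 1 ∧ g * g = 1 ∧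
      T ∈ F.S ∧ F.d T = 2 ∧ F.st T = T ∧ g * T = T ∧ T * V = V + g * V ∧
      T' ∈ F.S ∧ F.d T' = 2 ∧ F.st T' = T' ∧ g * T' = T' ∧ T' * V = V + g * V ∧
      T ≠ T' ∧ T * T = 1 + g + T' ∧ T' * T' = 1 + g + T ∧
      Q ∈ F.S ∧ F.d Q = 4 ∧ F.st Q = Q ∧ V * F.st V = 1 + T + T' + Q := by
  obtain ⟨g, T, T', hg, dg, hg1, hgg, hXV, hT, dT, hstT, hgT, hTV, hT', dT', hstT', hgT', hTV',
    hne, hTT⟩ := F.pair_in_M hV dV hX dX hM
  have hT1 : T ≠ 1 := F.ne_one_of_d (by omega)
  have hT1' : T' ≠ 1 := F.ne_one_of_d (by omega)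
  have hMT := F.mult_two hV dV hg dg hg1 hTV
  have hMT' := F.mult_two hV dV hg dg hg1 hTV'
  obtain ⟨m1, hm1⟩ := F.split F.one_mem (x := V * F.st V) (by rw [F.M_one hV]; omega)
  rw [hm1, F.ip_add_left, F.ip_ne F.one_mem hT hT1.symm] at hMT
  rw [hm1, F.ip_add_left, F.ip_ne F.one_mem hT' hT1'.symm] at hMT'
  obtain ⟨m2, hm2⟩ := F.split hT (x := m1) (by omega)
  rw [hm2, F.ip_add_left, F.ip_ne hT hT' hne] at hMT'
  obtain ⟨r, hr⟩ := F.split hT' (x := m2) (by omega)
  have hMr : V * F.st V = 1 + T + T' + r := by rw [hm1, hm2, hr]; abel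
  have hdr : F.d r = 4 := by
    have h1 := congrArg F.d hMr
    simp only [F.d_mul, F.d_st, F.d_add, F.d_one, dV, dT, dT'] at h1
    omega
  have hrinv : ∀ h ∈ F.S, F.d h = 1 → F.ip r h = 0 := by
    intro h hh dh
    by_cases h1 : h = 1
    · subst h1
      have h2 := F.M_one hV
      rw [hMr] at h2
      simp only [F.ip_add_left, F.ip_self F.one_mem] at h2
      omega
    · have h2 := F.M_inv hV dV hh dh h1
      rw [hMr] at h2
      simp only [F.ip_add_left] at h2
      omega
  have hstr : F.st r = r := by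
    have h1 := F.M_self V
    rw [hMr, F.st_add, F.st_add, F.st_add, F.st_one, hstT, hstT'] at h1
    exact F.add_cancel _ _ _ h1
  obtain ⟨a, z, ha, hz⟩ := F.exists_split (x := r) (by rintro rfl; rw [F.d_zero] at hdr; omega)
  have hdz := congrArg F.d hz
  rw [hdr, F.d_add] at hdz
  have hda := F.d_pos a ha
  have hda1 : F.d a ≠ 1 := by
    intro h3
    have := hrinv a ha h3
    rw [hz, F.ip_add_left, F.ip_self ha] at this
    omega
  have hTT' : T' * T' = 1 + g + T ∧ True := by
    obtain ⟨g2, U, hg2, dg2, hg21, _, _, hTV2, hU, dU, _, _, hUU, hUV, hMU⟩ :=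
      F.two_in_M' hV dV hT' dT' (by
        rw [F.mult_two hV dV hg dg hg1 hTV']; omega)
    have hge : g = g2 := by
      rw [hTV'] at hTV2
      exact F.inv_eq hV dV hg dg hg2 dg2 (F.add_cancel _ _ _ hTV2)
    subst hge
    rw [hstT'] at hUU
    -- U ≠ T'
    have hUT' : U ≠ T' := by
      rintro rfl
      have h1 := F.fs3_simple hT' (F.ne_one_of_d (by omega))
      have h2 : F.t (U * U * U) = F.ip (U * U) U := by
        conv_rhs => unfold ip
        rw [hstT']
      rw [h2, hUU, F.ip_add_left, F.ip_add_left, F.ip_self hT',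
        F.ip_ne F.one_mem hT' (F.ne_one_of_d (by omega)).symm,
        F.ip_ne hg hT' (by rintro rfl; omega)] at h1
      omega
    refine ⟨?_, trivial⟩
    by_cases hUT : U = T
    · rw [← hUT]; exact hUU
    · -- then r contains U and what remains has degree two
      exfalso
      have h1 : F.ip r U ≠ 0 := by
        rw [hMr] at hMU
        simp only [F.ip_add_left, F.ip_ne F.one_mem hU (F.ne_one_of_d (by omega)).symm,
          F.ip_ne hT hU (fun h => hUT h.symm), F.ip_ne hT' hU (fun h => hUT' h.symm)] at hMU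
        omega
      obtain ⟨w, hw⟩ := F.split hU h1
      have hdw := congrArg F.d hw
      rw [hdr, F.d_add, dU] at hdw
      obtain ⟨b, y, hb, hy⟩ := F.exists_split (x := w) (by rintro rfl; rw [F.d_zero] at hdw; omega)
      have hdy := congrArg F.d hy
      rw [F.d_add] at hdy
      have hdb := F.d_pos b hb
      have hdb1 : F.d b ≠ 1 := by
        intro h3
        have := hrinv b hb h3
        rw [hw, hy, F.ip_add_left, F.ip_add_left, F.ip_self hb] at this
        omega
      have hy0 : y = 0 := F.eq_zero_of_d (by omega)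
      refine F.no_four_twos hV dV hg dg hg1 hTV hTV' hT hT' hU dU hb (by omega) (?_ :
        V * F.st V = 1 + T + T' + U + b)
      rw [hMr, hw, hy, hy0, add_zero]; abel
  have h4 : F.d a = 2 ∨ F.d a = 3 ∨ F.d a = 4 := by omega
  rcases h4 with h4 | h4 | h4
  · exfalso
    obtain ⟨b, y, hb, hy⟩ := F.exists_split (x := z) (by rintro rfl; rw [F.d_zero] at hdz; omega)
    have hdy := congrArg F.d hy
    rw [F.d_add] at hdy
    have hdb := F.d_pos b hb
    have hdb1 : F.d b ≠ 1 := by
      intro h3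
      have := hrinv b hb h3
      rw [hz, hy, F.ip_add_left, F.ip_add_left, F.ip_self hb] at this
      omega
    have hy0 : y = 0 := F.eq_zero_of_d (by omega)
    refine F.no_four_twos hV dV hg dg hg1 hTV hTV' hT hT' ha h4 hb (by omega) (?_ :
      V * F.st V = 1 + T + T' + a + b)
    rw [hMr, hz, hy, hy0, add_zero]; abel
  · exfalso
    obtain ⟨b, y, hb, hy⟩ := F.exists_split (x := z) (by rintro rfl; rw [F.d_zero] at hdz; omega)
    have hdy := congrArg F.d hy
    rw [F.d_add] at hdy
    have hdb := F.d_pos b hb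
    have := hrinv b hb (by omega)
    rw [hz, hy, F.ip_add_left, F.ip_add_left, F.ip_self hb] at this
    omega
  · have hz0 : z = 0 := F.eq_zero_of_d (by omega)
    rw [hz0, add_zero] at hz
    subst hz
    exact ⟨g, T, T', r, hg, dg, hg1, hgg, hT, dT, hstT, hgT, hTV, hT', dT', hstT', hgT', hTV',
      hne, hTT, hTT'.1, ha, h4, hstr, hMr⟩

end Fus

end Run7.h2
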