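import Pool.Agent.Run7.h2.Fus4

/-!
Exclusion of the shape `1 + 2 + 2 + 4`.
-/

namespace Run7.h2

universe u

namespace Fus

variable {E : Type u} [Semiring E] (F : Fus E)

/-- an element of degree one is simple -/
lemma simple_of_d_one {x : E} (h : F.d x = 1) : x ∈ F.S := by
  obtain ⟨a, z, ha, rfl⟩ := F.exists_split (x := x) (by rintro rfl; rw [F.d_zero] at h; omega)
  rw [F.d_add] at h
  have := F.d_pos a ha
  have : z = 0 := F.eq_zero_of_d (by omega)
  rw [this, add_zero]; exact ha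

/-- an element of degree two without invertible constituents is simple -/
lemma simple_of_d_two {x : E} (h : F.d x = 2) (hinv : ∀ a ∈ F.S, F.d a = 1 → F.ip x a = 0) :
    x ∈ F.S := by
  obtain ⟨a, z, ha, rfl⟩ := F.exists_split (x := x) (by rintro rfl; rw [F.d_zero] at h; omega)
  rw [F.d_add] at h
  have hpos := F.d_pos a ha
  have h1 : F.d a ≠ 1 := by
    intro h1
    have := hinv a ha h1
    rw [F.ip_add_left, F.ip_self ha] at this
    omega
  have : z = 0 := F.eq_zero_of_d (by omega)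
  rw [this, add_zero]; exact ha

lemma norm_split {a y : E} (ha : a ∈ F.S) (h : F.ip y a = 0) :
    F.ip (a + y) (a + y) = 1 + F.ip y y := by
  rw [F.norm_add, F.ip_self ha, F.ip_comm, h]

lemma ip_d_ne {a b : E} (ha : a ∈ F.S) (hb : b ∈ F.S) (h : F.d a ≠ F.d b) : F.ip a b = 0 :=
  F.ip_ne ha hb (by rintro rfl; exact h rfl)

/-- data of the case `1 + 2 + 2 + 4` -/
structure Sh (V g X X' Q : E) : Prop where
  hV : V ∈ F.S
  dV : F.d V = 3
  hg : g ∈ F.S
  dg : F.d g = 1
  hg1 : g ≠ 1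
  hgg : g * g = 1
  hX : X ∈ F.S
  dX : F.d X = 2
  sX : F.st X = X
  gX : g * X = X
  XV : X * V = V + g * V
  hX' : X' ∈ F.S
  dX' : F.d X' = 2
  sX' : F.st X' = X'
  gX' : g * X' = X'
  XV' : X' * V = V + g * V
  hne : X ≠ X'
  XX : X * X = 1 + g + X'
  XX' : X' * X' = 1 + g + X
  hQ : Q ∈ F.S
  dQ : F.d Q = 4
  sQ : F.st Q = Q
  hM : V * F.st V = 1 + X + X' + Q

variable {F}

lemma Sh.gV_eq {V g X X' Q g1 X1 X1' Q1 : E} (h : F.Sh V g X X' Q)
    (h1 : F.Sh (F.st V) g1 X1 X1' Q1) : g * V = V * g1 := by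
  have hs1 : F.st g1 = g1 := F.st_eq_of_sq h1.hg h1.dg h1.hgg
  have e1 : V * X1 = V + V * g1 := by
    have := congrArg F.st h1.XV
    rw [F.st_mul, F.st_st, F.st_add, F.st_st, F.st_mul, F.st_st, h1.sX, hs1] at this
    exact this
  have e2 : V * X1' = V + V * g1 := by
    have := congrArg F.st h1.XV'
    rw [F.st_mul, F.st_st, F.st_add, F.st_st, F.st_mul, F.st_st, h1.sX', hs1] at this
    exact this
  have e3 : (V + V + V) + ((g * V + g * V) + Q * V) =
      (V + V + V) + ((V * g1 + V * g1) + V * Q1) := by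
    have e4 : (V * F.st V) * V = V * (F.st V * F.st (F.st V)) := by rw [F.st_st, mul_assoc]
    rw [h.hM, h1.hM, add_mul, add_mul, add_mul, one_mul, h.XV, h.XV', mul_add, mul_add, mul_add,
      mul_one, e1, e2] at e4
    calc (V + V + V) + ((g * V + g * V) + Q * V) = V + (V + g * V) + (V + g * V) + Q * V := by abel
      _ = _ := e4
      _ = _ := by abel
  have e5 := F.add_cancel _ _ _ e3
  by_contra hne
  have hgV := F.inv_mul_mem h.hg h.dg h.hV
  have hU : V * g1 ∈ F.S := F.mul_inv_mem h1.hg h1.dg h.hV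
  set U := V * g1 with hUdef
  have e6 : 2 ≤ F.ip (Q * V) U := by
    have e7 : F.ip ((g * V + g * V) + Q * V) U = F.ip ((U + U) + V * Q1) U := by rw [e5]
    simp only [F.ip_add_left, F.ip_ne hgV hU hne, F.ip_self hU] at e7
    omega
  have e8 : F.ip (U * F.st V) Q = F.ip (Q * V) U := by
    rw [F.ip_mul_right, F.st_st, F.ip_comm]
  rw [← e8] at e6
  have dU : F.d U = 3 := by rw [hUdef, F.d_mul, h.dV, h1.dg]
  obtain ⟨t1, ht1⟩ := F.split h.hQ (x := U * F.st V) (by omega)
  have e9 : 1 ≤ F.ip t1 Q := by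
    rw [ht1, F.ip_add_left, F.ip_self h.hQ] at e6; omega
  obtain ⟨t2, ht2⟩ := F.split h.hQ (x := t1) (by omega)
  have dt2 : F.d t2 = 1 := by
    have := congrArg F.d ht1
    rw [ht2, F.d_mul, F.d_st, dU, h.dV, F.d_add, F.d_add, h.dQ] at this
    omega
  have ht2S := F.simple_of_d_one dt2
  have e10 : F.ip (U * F.st V) t2 ≠ 0 := by
    rw [ht1, ht2, F.ip_add_left, F.ip_add_left, F.ip_self ht2S]; omega
  rw [F.ip_mul_right, F.st_st] at e10
  have e11 := F.eq_of_ip hU (F.inv_mul_mem ht2S dt2 h.hV) e10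
  rw [e11, mul_assoc, h.hM, mul_add, mul_add, mul_add, mul_one] at e6
  simp only [F.ip_add_left] at e6
  rw [F.ip_d_ne ht2S h.hQ (by rw [dt2, h.dQ]; omega),
    F.ip_d_ne (F.inv_mul_mem ht2S dt2 h.hX) h.hQ (by rw [F.d_mul, dt2, h.dX, h.dQ]; omega),
    F.ip_d_ne (F.inv_mul_mem ht2S dt2 h.hX') h.hQ (by rw [F.d_mul, dt2, h.dX', h.dQ]; omega)] at e6
  have := F.ip_le_one (F.inv_mul_mem ht2S dt2 h.hQ) h.hQ
  omega

lemma Sh.gQ_eq {V g X X' Q g1 X1 X1' Q1 : E} (h : F.Sh V g X X' Q)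
    (h1 : F.Sh (F.st V) g1 X1 X1' Q1) : g * Q = Q * g := by
  have hs1 : F.st g1 = g1 := F.st_eq_of_sq h1.hg h1.dg h1.hgg
  have hs : F.st g = g := F.st_eq_of_sq h.hg h.dg h.hgg
  have e := h.gV_eq h1
  have e1 : g1 * F.st V = F.st V * g := by
    have := congrArg F.st e
    rw [F.st_mul, F.st_mul, hs, hs1] at this
    exact this.symm
  have e2 : g * (V * F.st V) = (V * F.st V) * g := by
    rw [← mul_assoc, e, mul_assoc, e1, mul_assoc]
  have eX : X * g = X := by
    have := congrArg F.st h.gX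
    rwa [F.st_mul, h.sX, hs] at this
  have eX' : X' * g = X' := by
    have := congrArg F.st h.gX'
    rwa [F.st_mul, h.sX', hs] at this
  rw [h.hM, mul_add, mul_add, mul_add, mul_one, add_mul, add_mul, add_mul, one_mul, h.gX, h.gX',
    eX, eX'] at e2
  exact F.add_cancel _ _ _ e2

lemma Sh.XX'_eq {V g X X' Q : E} (h : F.Sh V g X X' Q) : X * X' = X + X' := by
  have e1 : F.ip (X * X') X = 1 := by
    rw [F.ip_mul_left, h.sX, h.XX]
    simp only [F.ip_add_right]
    rw [F.ip_d_ne h.hX' F.one_mem (by rw [h.dX', F.d_one]; omega),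
      F.ip_d_ne h.hX' h.hg (by rw [h.dX', h.dg]; omega), F.ip_self h.hX']
  have e2 : F.ip (X * X') X' = 1 := by
    rw [F.ip_mul_right, h.sX', h.XX']
    simp only [F.ip_add_right]
    rw [F.ip_d_ne h.hX F.one_mem (by rw [h.dX, F.d_one]; omega),
      F.ip_d_ne h.hX h.hg (by rw [h.dX, h.dg]; omega), F.ip_self h.hX]
  obtain ⟨y, hy⟩ := F.split h.hX (x := X * X') (by omega)
  rw [hy, F.ip_add_left, F.ip_ne h.hX h.hX' h.hne] at e2
  obtain ⟨z, hz⟩ := F.split h.hX' (x := y) (by omega)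
  have hd := congrArg F.d hy
  rw [hz, F.d_mul, F.d_add, F.d_add, h.dX, h.dX'] at hd
  have : z = 0 := F.eq_zero_of_d (by omega)
  rw [hy, hz, this, add_zero]

lemma Sh.XQ_eq {V g X X' Q : E} (h : F.Sh V g X X' Q) : X * Q = Q + g * Q := by
  have e1 : X * (V * F.st V) = V * F.st V + g * (V * F.st V) := by
    rw [← mul_assoc, h.XV, add_mul, mul_assoc]
  rw [h.hM, mul_add, mul_add, mul_add, mul_one, mul_add, mul_add, mul_add, mul_one, h.XX,
    h.XX'_eq, h.gX, h.gX'] at e1
  have e2 : (1 + g + X + X + X' + X') + X * Q = (1 + g + X + X + X' + X') + (Q + g * Q) := by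
    calc _ = X + (1 + g + X') + (X + X') + X * Q := by abel
      _ = _ := e1
      _ = _ := by abel
  exact F.add_cancel _ _ _ e2

lemma Sh.swap {V g X X' Q : E} (h : F.Sh V g X X' Q) : F.Sh V g X' X Q where
  hV := h.hV
  dV := h.dV
  hg := h.hg
  dg := h.dg
  hg1 := h.hg1
  hgg := h.hgg
  hX := h.hX'
  dX := h.dX'
  sX := h.sX'
  gX := h.gX'
  XV := h.XV'
  hX' := h.hX
  dX' := h.dX
  sX' := h.sX
  gX' := h.gX
  XV' := h.XV
  hne := h.hne.symm
  XX := h.XX'
  XX' := h.XX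
  hQ := h.hQ
  dQ := h.dQ
  sQ := h.sQ
  hM := by rw [h.hM]; abel

/-- `S V*` for a constituent of degree two of `Q V` -/
lemma Sh.final {V g X X' Q S T : E} (h : F.Sh V g X X' Q) (hS : S ∈ F.S) (hT : T ∈ F.S)
    (dS : F.d S = 2) (dT : F.d T = 2) (hST : S * F.st V = Q + T)
    (hX0 : F.ip (F.st T * T) X ≠ 0) : False := by
  -- st T * T = 1 + X + k
  have hsT := F.st_mem T hT
  have hTT1 : F.ip (F.st T * T) 1 = 1 := by
    have := F.M_one hsT
    rwa [F.st_st] at this
  obtain ⟨y, hy⟩ := F.split F.one_mem (x := F.st T * T) (by omega)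
  have hX1 : F.ip y X ≠ 0 := by
    rw [hy, F.ip_add_left, F.ip_d_ne F.one_mem h.hX (by rw [F.d_one, h.dX]; omega)] at hX0
    omega
  obtain ⟨z, hz⟩ := F.split h.hX (x := y) hX1
  have dz : F.d z = 1 := by
    have := congrArg F.d hy
    rw [hz, F.d_mul, F.d_st, dT, F.d_add, F.d_add, F.d_one, h.dX] at this
    omega
  have hzS := F.simple_of_d_one dz
  have hz1 : z ≠ 1 := by
    rintro rfl
    rw [hy, hz, F.ip_add_left, F.ip_add_left, F.ip_self F.one_mem] at hTT1
    omega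
  have hTT : F.st T * T = 1 + X + z := by rw [hy, hz, add_assoc]
  have hzT : z * F.st T = F.st T := by
    apply F.mem_stab hsT hzS dz
    rw [F.st_st, hTT, F.ip_add_left, F.ip_self hzS]; omega
  -- z X = X
  have hzX : z * X = X := by
    have e1 : z * (F.st T * T) = F.st T * T := by rw [← mul_assoc, hzT]
    have e2 : F.ip (z * (F.st T * T)) X = F.ip (F.st T * T) X := by rw [e1]
    rw [hTT, mul_add, mul_add, mul_one] at e2
    simp only [F.ip_add_left] at e2
    rw [F.ip_d_ne hzS h.hX (by rw [dz, h.dX]; omega), F.ip_self h.hX,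
      F.ip_d_ne F.one_mem h.hX (by rw [F.d_one, h.dX]; omega),
      F.ip_d_ne (F.simple_of_d_one (x := z * z) (by rw [F.d_mul, dz])) h.hX
        (by rw [F.d_mul, dz, h.dX]; omega)] at e2
    exact F.eq_of_ip (F.inv_mul_mem hzS dz h.hX) h.hX (by omega)
  have hzg : z = g := by
    have e1 : z * (X * V) = X * V := by rw [← mul_assoc, hzX]
    rw [h.XV, mul_add] at e1
    have e2 : F.ip (z * V + z * (g * V)) (z * V) = F.ip (V + g * V) (z * V) := by rw [e1]
    have hzV := F.inv_mul_mem hzS dz h.hV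
    rw [F.ip_add_left, F.ip_self hzV, F.ip_add_left,
      F.ip_ne h.hV hzV (fun e => hz1 (F.stab3 h.hV h.dV hzS dz e.symm))] at e2
    have e3 := F.eq_of_ip (F.inv_mul_mem h.hg h.dg h.hV) hzV (by omega)
    exact (F.inv_eq h.hV h.dV h.hg h.dg hzS dz e3).symm
  subst hzg
  have hs : F.st z = z := F.st_eq_of_sq h.hg h.dg h.hgg
  have hTz : T * z = T := by
    have := congrArg F.st hzT
    rwa [F.st_mul, F.st_st, hs] at this
  -- T V = S + R
  have e1 : F.ip (T * V) S = 1 := by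
    rw [F.ip_mul_right, hST, F.ip_add_right, F.ip_self hT,
      F.ip_d_ne hT h.hQ (by rw [dT, h.dQ]; omega)]
  have hnormTV : F.ip (T * V) (T * V) = 2 := by
    rw [F.norm_mul_right, hTT, h.hM]
    simp only [F.ip_add_left, F.ip_add_right]
    rw [F.ip_self F.one_mem, F.ip_self h.hX, F.ip_ne h.hX h.hX' h.hne,
      F.ip_d_ne F.one_mem h.hX (by rw [F.d_one, h.dX]; omega),
      F.ip_d_ne F.one_mem h.hX' (by rw [F.d_one, h.dX']; omega),
      F.ip_d_ne F.one_mem h.hQ (by rw [F.d_one, h.dQ]; omega),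
      F.ip_d_ne h.hX F.one_mem (by rw [F.d_one, h.dX]; omega),
      F.ip_d_ne h.hX h.hQ (by rw [h.dQ, h.dX]; omega),
      F.ip_ne h.hg F.one_mem hz1,
      F.ip_d_ne h.hg h.hX (by rw [dz, h.dX]; omega),
      F.ip_d_ne h.hg h.hX' (by rw [dz, h.dX']; omega),
      F.ip_d_ne h.hg h.hQ (by rw [dz, h.dQ]; omega)]
  -- T X = T + T'
  have e2 : F.ip (T * X) T = 1 := by
    rw [F.ip_mul_left, hTT]
    simp only [F.ip_add_right]
    rw [F.ip_self h.hX, F.ip_d_ne h.hX F.one_mem (by rw [F.d_one, h.dX]; omega),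
      F.ip_d_ne h.hX h.hg (by rw [dz, h.dX]; omega)]
  obtain ⟨T', hT'⟩ := F.split hT (x := T * X) (by omega)
  have hnormTX : F.ip (T * X) (T * X) = 2 := by
    rw [F.norm_mul_right, hTT, h.sX, h.XX]
    simp only [F.ip_add_left, F.ip_add_right]
    rw [F.ip_self F.one_mem, F.ip_ne h.hX h.hX' h.hne,
      F.ip_d_ne F.one_mem h.hX' (by rw [F.d_one, h.dX']; omega),
      F.ip_ne F.one_mem h.hg h.hg1.symm, F.ip_self h.hg,
      F.ip_d_ne h.hX F.one_mem (by rw [F.d_one, h.dX]; omega),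
      F.ip_d_ne h.hX h.hg (by rw [dz, h.dX]; omega),
      F.ip_ne h.hg F.one_mem hz1,
      F.ip_d_ne h.hg h.hX' (by rw [dz, h.dX']; omega)]
  have hT'T : F.ip T' T = 0 := by
    rw [hT', F.ip_add_left, F.ip_self hT] at e2
    omega
  have hT'S : T' ∈ F.S := by
    apply F.simple_of_norm
    rw [hT', F.norm_split hT hT'T] at hnormTX
    omega
  have dT' : F.d T' = 2 := by
    have := congrArg F.d hT'
    rw [F.d_mul, F.d_add, dT, h.dX] at this
    omega
  -- T X V = 2 T V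
  have e3 : T' * V = T * V := by
    have e4 : (T * X) * V = T * V + T * V := by
      rw [mul_assoc, h.XV, mul_add, ← mul_assoc, hTz]
    rw [hT', add_mul] at e4
    exact F.add_cancel _ _ _ e4
  have e5 : F.ip T' (S * F.st V) = 1 := by
    rw [← F.ip_mul_right, e3, e1]
  rw [hST, F.ip_add_right, hT'T, F.ip_d_ne hT'S h.hQ (by rw [dT', h.dQ]; omega)] at e5
  omega

lemma Sh.false {V g X X' Q g1 X1 X1' Q1 : E} (h : F.Sh V g X X' Q)
    (h1 : F.Sh (F.st V) g1 X1 X1' Q1) : False := by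
  have hs : F.st g = g := F.st_eq_of_sq h.hg h.dg h.hgg
  have hgQc := h.gQ_eq h1
  have hXQ := h.XQ_eq
  have hXQ' := h.swap.XQ_eq
  have hgQS := F.inv_mul_mem h.hg h.dg h.hQ
  have hgV := F.inv_mul_mem h.hg h.dg h.hV
  have hgVne : g * V ≠ V := fun e => h.hg1 (F.stab3 h.hV h.dV h.hg h.dg e)
  -- products with Q
  have q1 : F.ip (Q * Q) 1 = 1 := by
    have := F.M_one h.hQ
    rwa [h.sQ] at this
  have qX : F.ip (Q * Q) X = 1 + F.ip Q (g * Q) := by
    rw [F.ip_mul_right, h.sQ, hXQ, F.ip_add_right, F.ip_self h.hQ]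
  have qX' : F.ip (Q * Q) X' = 1 + F.ip Q (g * Q) := by
    rw [F.ip_mul_right, h.sQ, hXQ', F.ip_add_right, F.ip_self h.hQ]
  have hX1 : X ≠ 1 := F.ne_one_of_d (by rw [h.dX]; omega)
  have hX1' : X' ≠ 1 := F.ne_one_of_d (by rw [h.dX']; omega)
  have hQ1 : Q ≠ 1 := F.ne_one_of_d (by rw [h.dQ]; omega)
  have hXQne : X ≠ Q := by rintro rfl; have := h.dX; have := h.dQ; omega
  have hXQne' : X' ≠ Q := by rintro rfl; have := h.dX'; have := h.dQ; omega
  have qQ : F.ip (Q * Q) Q = 0 := by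
    have e1 := F.deg4 F.one_mem h.hX h.hX' h.hQ hX1.symm hX1'.symm hQ1.symm h.hne hXQne hXQne' (Q * Q)
    rw [q1, qX, qX', F.d_one, h.dX, h.dX', h.dQ, F.d_mul, h.dQ] at e1
    have e2 := F.fs3_simple h.hQ hQ1
    have e3 : F.ip (Q * Q) Q = F.t (Q * Q * Q) := by unfold ip; rw [h.sQ]
    omega
  have hnorm : F.ip (Q * V) (Q * V) = 3 + 2 * F.ip Q (g * Q) := by
    rw [F.norm_mul_right, h.sQ, h.hM]
    simp only [F.ip_add_right]
    rw [q1, qX, qX', qQ]; ring
  have hQVV : F.ip (Q * V) V = 1 := by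
    rw [F.ip_mul_right, h.hM]
    simp only [F.ip_add_right]
    rw [F.ip_self h.hQ, F.ip_ne h.hQ F.one_mem hQ1, F.ip_ne h.hQ h.hX hXQne.symm,
      F.ip_ne h.hQ h.hX' hXQne'.symm]
  have hQVgV : F.ip (Q * V) (g * V) = F.ip Q (g * Q) := by
    rw [F.ip_mul_right, mul_assoc, h.hM, mul_add, mul_add, mul_add, mul_one, h.gX, h.gX']
    simp only [F.ip_add_right]
    rw [F.ip_d_ne h.hQ h.hg (by rw [h.dQ, h.dg]; omega), F.ip_ne h.hQ h.hX hXQne.symm,
      F.ip_ne h.hQ h.hX' hXQne'.symm]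
    omega
  have hQVinv : ∀ a ∈ F.S, F.d a = 1 → F.ip (Q * V) a = 0 := by
    intro a ha da
    rw [F.ip_mul_right]
    exact F.ip_d_ne h.hQ (F.inv_mul_mem ha da (F.st_mem V h.hV))
      (by rw [F.d_mul, F.d_st, h.dQ, h.dV, da]; omega)
  obtain ⟨y, hy⟩ := F.split h.hV (x := Q * V) (by omega)
  have hyV : F.ip y V = 0 := by
    rw [hy, F.ip_add_left, F.ip_self h.hV] at hQVV; omega
  have dy : F.d y = 9 := by
    have := congrArg F.d hy
    rw [F.d_mul, F.d_add, h.dQ, h.dV] at this; omega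
  have hny : F.ip y y = 2 + 2 * F.ip Q (g * Q) := by
    rw [hy, F.norm_split h.hV hyV] at hnorm; omega
  by_cases hd : F.ip Q (g * Q) = 0
  · -- g Q ≠ Q
    rw [hd] at hny hQVgV
    obtain ⟨a, b, ha, hb, hab, hyab⟩ := F.norm_two hny
    have e1 : Q * (V * F.st V) = V * F.st V + a * F.st V + b * F.st V := by
      rw [← mul_assoc, hy, hyab, add_mul, add_mul, add_assoc]
    have QX : Q * X = Q + g * Q := by
      have := congrArg F.st hXQ
      rw [F.st_mul, F.st_add, F.st_mul, h.sQ, h.sX, hs, ← hgQc] at this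
      exact this
    have QX' : Q * X' = Q + g * Q := by
      have := congrArg F.st hXQ'
      rw [F.st_mul, F.st_add, F.st_mul, h.sQ, h.sX', hs, ← hgQc] at this
      exact this
    have hQgQ : Q ≠ g * Q := by
      intro e
      rw [← e, F.ip_self h.hQ] at hd
      omega
    have e2 : F.ip (Q * (V * F.st V)) (g * Q) = F.ip (V * F.st V + a * F.st V + b * F.st V) (g * Q) := by
      rw [e1]
    rw [h.hM, mul_add, mul_add, mul_add, mul_one, QX, QX'] at e2
    simp only [F.ip_add_left] at e2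
    rw [F.ip_self hgQS, F.ip_ne h.hQ hgQS hQgQ,
      F.ip_d_ne F.one_mem hgQS (by rw [F.d_one, F.d_mul, h.dg, h.dQ]; omega),
      F.ip_d_ne h.hX hgQS (by rw [h.dX, F.d_mul, h.dg, h.dQ]; omega),
      F.ip_d_ne h.hX' hgQS (by rw [h.dX', F.d_mul, h.dg, h.dQ]; omega)] at e2
    have dab : F.d a + F.d b = 9 := by rw [← dy, hyab, F.d_add]
    have hgVy : F.ip a (g * V) = 0 ∧ F.ip b (g * V) = 0 := by
      rw [hy, hyab, F.ip_add_left, F.ip_add_left] at hQVgV
      omega
    have key : ∀ c, F.ip (c * F.st V) (g * Q) = F.ip c (g * V) + F.ip c (g * a) + F.ip c (g * b) := by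
      intro c
      rw [F.ip_mul_right, F.st_st, mul_assoc, hy, hyab, mul_add, mul_add, F.ip_add_right,
        F.ip_add_right]
      ring
    rw [key, key, hgVy.1, hgVy.2] at e2
    have hga := F.inv_mul_mem h.hg h.dg ha
    have hgb := F.inv_mul_mem h.hg h.dg hb
    rw [F.ip_d_ne ha hgb (by rw [F.d_mul, h.dg]; omega),
      F.ip_d_ne hb hga (by rw [F.d_mul, h.dg]; omega)] at e2
    have h6 := F.ip_le_one ha hga
    have h7 := F.ip_le_one hb hgb
    have h8 : F.ip a (g * a) ≠ 0 := by omega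
    have h9 : F.ip b (g * b) ≠ 0 := by omega
    have h10 := F.f3 g h.hg h.dg a ha (F.eq_of_ip ha hga h8).symm
    have h11 := F.f3 g h.hg h.dg b hb (F.eq_of_ip hb hgb h9).symm
    have h12 : g ^ 9 = 1 := by rw [← dab, pow_add, h10, h11, one_mul]
    have h13 : g ^ 9 = g := by
      have : g ^ 2 = 1 := by rw [pow_two, h.hgg]
      calc g ^ 9 = (g ^ 2) ^ 4 * g := by rw [← pow_mul, ← pow_succ]
        _ = g := by rw [this, one_pow, one_mul]
    exact h.hg1 (h13 ▸ h12)
  · -- g Q = Q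
    have hd1 : F.ip Q (g * Q) = 1 := by
      have := F.ip_le_one h.hQ hgQS; omega
    rw [hd1] at hny hQVgV
    obtain ⟨w, hw⟩ := F.split hgV (x := y) (by
      rw [hy, F.ip_add_left, F.ip_ne h.hV hgV hgVne.symm] at hQVgV; omega)
    have hwgV : F.ip w (g * V) = 0 := by
      rw [hy, hw, F.ip_add_left, F.ip_ne h.hV hgV hgVne.symm, F.ip_add_left, F.ip_self hgV] at hQVgV
      omega
    have hnw : F.ip w w = 3 := by
      rw [hw, F.norm_split hgV hwgV] at hny; omega
    have dw : F.d w = 6 := by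
      have := congrArg F.d hw
      rw [F.d_add, F.d_mul, h.dg, h.dV, dy] at this; omega
    obtain ⟨a, b, c, ha, hb, hc, hab, hac, hbc, hwabc⟩ := F.norm_three hnw
    have hQV : Q * V = V + (g * V + (a + b + c)) := by rw [hy, hw, hwabc]
    have hge2 : ∀ x ∈ F.S, F.ip w x ≠ 0 → 2 ≤ F.d x := by
      intro x hx hwx
      have hpos := F.d_pos x hx
      by_contra hlt
      have := hQVinv x hx (by omega)
      rw [hy, hw, F.ip_add_left, F.ip_add_left] at this
      omega
    have da2 := hge2 a ha (by rw [hwabc, F.ip_add_left, F.ip_add_left, F.ip_self ha]; omega)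
    have db2 := hge2 b hb (by rw [hwabc, F.ip_add_left, F.ip_add_left, F.ip_self hb]; omega)
    have dc2 := hge2 c hc (by rw [hwabc, F.ip_add_left, F.ip_self hc]; omega)
    have dabc : F.d a + F.d b + F.d c = 6 := by rw [← dw, hwabc, F.d_add, F.d_add]
    have da : F.d a = 2 := by omega
    -- S = a
    have e1 : F.ip (a * F.st V) Q = 1 := by
      rw [F.ip_mul_right, F.st_st, hQV]
      simp only [F.ip_add_right]
      rw [F.ip_self ha, F.ip_ne ha hb hab, F.ip_ne ha hc hac,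
        F.ip_d_ne ha h.hV (by rw [da, h.dV]; omega),
        F.ip_d_ne ha hgV (by rw [da, F.d_mul, h.dg, h.dV]; omega)]
    obtain ⟨T, hT⟩ := F.split h.hQ (x := a * F.st V) (by omega)
    have dT : F.d T = 2 := by
      have := congrArg F.d hT
      rw [F.d_mul, F.d_st, F.d_add, da, h.dV, h.dQ] at this; omega
    have hTS : T ∈ F.S := by
      apply F.simple_of_d_two dT
      intro x hx dx
      have e2 : F.ip (a * F.st V) x = 0 := by
        rw [F.ip_mul_right, F.st_st]
        exact F.ip_d_ne ha (F.inv_mul_mem hx dx h.hV) (by rw [F.d_mul, da, dx, h.dV]; omega)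
      rw [hT, F.ip_add_left] at e2
      omega
    -- norm of T V is at least 2
    have e3 : F.ip (T * V) a = 1 := by
      rw [F.ip_mul_right, hT, F.ip_add_right, F.ip_self hTS,
        F.ip_d_ne hTS h.hQ (by rw [dT, h.dQ]; omega)]
    obtain ⟨r, hr⟩ := F.split ha (x := T * V) (by omega)
    have hra : F.ip r a = 0 := by
      rw [hr, F.ip_add_left, F.ip_self ha] at e3; omega
    have hr0 : F.ip r r ≠ 0 := by
      intro h0
      have := F.eq_zero_of_norm h0
      rw [this, add_zero] at hr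
      have := congrArg F.d hr
      rw [F.d_mul, dT, h.dV, da] at this
      omega
    have e4 : F.ip (T * V) (T * V) = 1 + F.ip r r := by
      rw [hr, F.norm_split ha hra]
    rw [F.norm_mul_right, h.hM] at e4
    simp only [F.ip_add_right] at e4
    have hTT1 : F.ip (F.st T * T) 1 = 1 := by
      have := F.M_one (F.st_mem T hTS)
      rwa [F.st_st] at this
    have hTTQ : F.ip (F.st T * T) Q = 0 := by
      have := F.deg2 F.one_mem h.hQ hQ1.symm (F.st T * T)
      rw [hTT1, F.d_mul, F.d_st, dT, F.d_one, h.dQ] at this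
      omega
    rw [hTT1, hTTQ] at e4
    by_cases hX0 : F.ip (F.st T * T) X = 0
    · exact h.swap.final ha hTS da dT hT (by omega)
    · exact h.final ha hTS da dT hT hX0

end Fus

end Run7.h2
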