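import Pool.Agent.Run7.h2.Fus5

/-!
Classification of `V V*` for `V` of degree three.
-/

namespace Run7.h2

universe u

namespace Fus

variable {E : Type u} [Semiring E] (F : Fus E)

/-- a sum of degree `8` with all constituents of degree at least `3` -/
lemma split8 {m : E} (dm : F.d m = 8) (hm : ∀ a ∈ F.S, F.ip m a ≠ 0 → 3 ≤ F.d a) :
    (m ∈ F.S) ∨
    (∃ Y Z, Y ∈ F.S ∧ Z ∈ F.S ∧ F.d Y = 3 ∧ F.d Z = 5 ∧ m = Y + Z) ∨
    (∃ P Q, P ∈ F.S ∧ Q ∈ F.S ∧ F.d P = 4 ∧ F.d Q = 4 ∧ m = P + Q) := by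
  obtain ⟨a, m1, ha, hm1⟩ := F.exists_split (x := m) (by rintro rfl; rw [F.d_zero] at dm; omega)
  have da := hm a ha (by rw [hm1, F.ip_add_left, F.ip_self ha]; omega)
  have d1 := congrArg F.d hm1
  rw [F.d_add] at d1
  by_cases h0 : m1 = 0
  · left
    rw [hm1, h0, add_zero]; exact ha
  · obtain ⟨b, m2, hb, hm2⟩ := F.exists_split h0
    have db := hm b hb (by rw [hm1, hm2, F.ip_add_left, F.ip_add_left, F.ip_self hb]; omega)
    have d2 := congrArg F.d hm2
    rw [F.d_add] at d2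
    have h1 : m2 = 0 := by
      by_contra h1
      obtain ⟨c, m3, hc, hm3⟩ := F.exists_split h1
      have dc := hm c hc (by
        rw [hm1, hm2, hm3, F.ip_add_left, F.ip_add_left, F.ip_add_left, F.ip_self hc]; omega)
      have d3 := congrArg F.d hm3
      rw [F.d_add] at d3
      omega
    rw [h1, F.d_zero] at d2
    have hmab : m = a + b := by rw [hm1, hm2, h1, add_zero]
    right
    have h5 : F.d a = 3 ∨ F.d a = 4 ∨ F.d a = 5 := by omega
    rcases h5 with h5 | h5 | h5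
    · left; exact ⟨a, b, ha, hb, h5, by omega, hmab⟩
    · right; exact ⟨a, b, ha, hb, h5, by omega, hmab⟩
    · left; exact ⟨b, a, hb, ha, by omega, h5, by rw [hmab, add_comm]⟩

lemma M_split {V : E} (hV : V ∈ F.S) (dV : F.d V = 3)
    (h2 : ∀ a ∈ F.S, F.d a = 2 → F.ip (V * F.st V) a = 0) :
    ∃ m, V * F.st V = 1 + m ∧ F.d m = 8 ∧ F.ip m 1 = 0 ∧
      ∀ a ∈ F.S, F.ip m a ≠ 0 → 3 ≤ F.d a := by
  obtain ⟨m, hm⟩ := F.split F.one_mem (x := V * F.st V) (by rw [F.M_one hV]; omega)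
  have h1 : F.ip m 1 = 0 := by
    have := F.M_one hV
    rw [hm, F.ip_add_left, F.ip_self F.one_mem] at this
    omega
  have dm : F.d m = 8 := by
    have := congrArg F.d hm
    rw [F.d_mul, F.d_st, dV, F.d_add, F.d_one] at this
    omega
  refine ⟨m, hm, dm, h1, ?_⟩
  intro a ha hma
  have hpos := F.d_pos a ha
  by_contra hlt
  have h3 : F.d a = 1 ∨ F.d a = 2 := by omega
  rcases h3 with h3 | h3
  · by_cases ha1 : a = 1
    · subst ha1; exact hma h1
    · have := F.M_inv hV dV ha h3 ha1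
      rw [hm, F.ip_add_left] at this
      omega
  · have := h2 a ha h3
    rw [hm, F.ip_add_left] at this
    omega

lemma norm_M (V : E) : F.ip (F.st V * V) (F.st V * V) = F.ip (V * F.st V) (V * F.st V) := by
  rw [F.norm_mul_right, F.st_st]

/-- no constituents of degree two -/
theorem no_two {V : E} (hV : V ∈ F.S) (dV : F.d V = 3) :
    ∀ a ∈ F.S, F.d a = 2 → F.ip (V * F.st V) a = 0 := by
  intro X hX dX
  by_contra hc
  obtain ⟨g, T, T', Q, hg, dg, hg1, hgg, hT, dT, sT, gT, TV, hT', dT', sT', gT', TV', hne, TT, TT',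
    hQ, dQ, sQ, hM⟩ := F.M_with_two hV dV hX dX hc
  have hSh : F.Sh V g T T' Q := ⟨hV, dV, hg, dg, hg1, hgg, hT, dT, sT, gT, TV, hT', dT', sT', gT',
    TV', hne, TT, TT', hQ, dQ, sQ, hM⟩
  have hnorm : F.ip (V * F.st V) (V * F.st V) = 4 := by
    rw [hM]
    simp only [F.ip_add_left, F.ip_add_right]
    rw [F.ip_self F.one_mem, F.ip_self hT, F.ip_self hT', F.ip_self hQ,
      F.ip_d_ne F.one_mem hT (by rw [F.d_one, dT]; omega),
      F.ip_d_ne F.one_mem hT' (by rw [F.d_one, dT']; omega),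
      F.ip_d_ne F.one_mem hQ (by rw [F.d_one, dQ]; omega),
      F.ip_d_ne hT F.one_mem (by rw [F.d_one, dT]; omega),
      F.ip_d_ne hT' F.one_mem (by rw [F.d_one, dT']; omega),
      F.ip_d_ne hQ F.one_mem (by rw [F.d_one, dQ]; omega),
      F.ip_ne hT hT' hne, F.ip_ne hT' hT hne.symm,
      F.ip_d_ne hT hQ (by rw [dT, dQ]; omega), F.ip_d_ne hT' hQ (by rw [dT', dQ]; omega),
      F.ip_d_ne hQ hT (by rw [dT, dQ]; omega), F.ip_d_ne hQ hT' (by rw [dT', dQ]; omega)]
  rw [← F.norm_M] at hnorm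
  have hsV := F.st_mem V hV
  have dsV : F.d (F.st V) = 3 := by rw [F.d_st, dV]
  by_cases h2 : ∀ a ∈ F.S, F.d a = 2 → F.ip (F.st V * F.st (F.st V)) a = 0
  · obtain ⟨m, hm, dm, hm1, hm3⟩ := F.M_split hsV dsV h2
    have hn : F.ip m m = 3 := by
      rw [F.st_st] at hm
      rw [hm, F.norm_split F.one_mem hm1] at hnorm
      omega
    rcases F.split8 dm hm3 with h | ⟨Y, Z, hY, hZ, dY, dZ, rfl⟩ | ⟨P, R, hP, hR, dP, dR, rfl⟩
    · rw [F.ip_self h] at hn; omega
    · rw [F.norm_add, F.ip_self hY, F.ip_self hZ, F.ip_d_ne hY hZ (by omega)] at hn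
      omega
    · rw [F.norm_add, F.ip_self hP, F.ip_self hR] at hn
      omega
  · push Not at h2
    obtain ⟨X1, hX1, dX1, hX1M⟩ := h2
    obtain ⟨g1, T1, T1', Q1, hg', dg', hg1', hgg', hT1, dT1, sT1, gT1, TV1, hT1', dT1', sT1', gT1',
      TV1', hne1, TT1, TT1', hQ1, dQ1, sQ1, hM1⟩ := F.M_with_two hsV dsV hX1 dX1 hX1M
    exact hSh.false ⟨hsV, dsV, hg', dg', hg1', hgg', hT1, dT1, sT1, gT1, TV1, hT1', dT1', sT1', gT1',
      TV1', hne1, TT1, TT1', hQ1, dQ1, sQ1, hM1⟩

/-- product of a simple object of degree two and one of degree three is simple -/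
theorem two_mul_three {X T : E} (hX : X ∈ F.S) (dX : F.d X = 2) (hT : T ∈ F.S) (dT : F.d T = 3) :
    X * T ∈ F.S := by
  obtain ⟨m, hm, dm, hm1, hm3⟩ := F.M_split hT dT (F.no_two hT dT)
  apply F.simple_of_norm
  rw [F.norm_mul_right, hm, F.ip_add_right]
  have hsX := F.st_mem X hX
  have h1 : F.ip (F.st X * X) 1 = 1 := by
    have := F.M_one hsX
    rwa [F.st_st] at this
  -- st X * X = 1 + g + y
  obtain ⟨g, hg, dg, hg1, hgX, _⟩ := F.two_dim hsX (by rw [F.d_st, dX])
  have h2 : F.ip (F.st X * X) g = 1 := by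
    have := F.stab_mem hsX hgX
    rwa [F.st_st] at this
  rw [h1]
  have h3 : F.ip (F.st X * X) m = 0 := by
    by_contra hc
    have hkey : ∀ y : E, F.ip (F.st X * X) y ≠ 0 → (∀ a ∈ F.S, F.ip y a ≠ 0 → 3 ≤ F.d a) → False := by
      intro y
      obtain ⟨s, hs, rfl⟩ := F.gen y
      induction s using Multiset.induction_on with
      | empty => intro h _; rw [Multiset.sum_zero, F.ip_zero_right] at h; exact h rfl
      | cons b s ih =>
        intro h h'
        rw [Multiset.sum_cons] at h h'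
        rw [F.ip_add_right] at h
        have hb := hs b (Multiset.mem_cons_self b s)
        by_cases hb0 : F.ip (F.st X * X) b = 0
        · refine ih (fun c hc => hs c (Multiset.mem_cons_of_mem hc)) (by omega) ?_
          intro a ha hne
          exact h' a ha (by rw [F.ip_add_left]; omega)
        · have db := h' b hb (by rw [F.ip_add_left, F.ip_self hb]; omega)
          have := F.deg3 F.one_mem hg hb hg1.symm (by rintro rfl; rw [F.d_one] at db; omega)
            (by rintro rfl; omega) (F.st X * X)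
          rw [h1, h2, F.d_one, dg, F.d_mul, F.d_st, dX] at this
          have h4 : 1 ≤ F.ip (F.st X * X) b := by omega
          have h5 : 3 ≤ F.ip (F.st X * X) b * F.d b := by nlinarith
          omega
    exact hkey m hc hm3
  omega

theorem three_mul_two {X T : E} (hX : X ∈ F.S) (dX : F.d X = 2) (hT : T ∈ F.S) (dT : F.d T = 3) :
    T * X ∈ F.S := by
  have := F.two_mul_three (F.st_mem X hX) (by rw [F.d_st, dX]) (F.st_mem T hT) (by rw [F.d_st, dT])
  rw [← F.st_mul] at this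
  have := F.st_mem _ this
  rwa [F.st_st] at this

/-- an object of degree two never occurs in a product `x T` with `T` of degree three and `x` simple
of degree different from six -/
lemma ip_mul_two {x T X : E} (hx : x ∈ F.S) (hT : T ∈ F.S) (dT : F.d T = 3) (hX : X ∈ F.S)
    (dX : F.d X = 2) (dx : F.d x ≠ 6) : F.ip (x * T) X = 0 := by
  rw [F.ip_mul_right]
  apply F.ip_d_ne hx (F.two_mul_three hX dX (F.st_mem T hT) (by rw [F.d_st, dT]))
  rw [F.d_mul, F.d_st, dX, dT]; exact dx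

lemma ip_mul_one {x T h : E} (hx : x ∈ F.S) (hT : T ∈ F.S) (hh : h ∈ F.S)
    (dh : F.d h = 1) (dx : F.d x ≠ F.d T) : F.ip (x * T) h = 0 := by
  rw [F.ip_mul_right]
  apply F.ip_d_ne hx (F.inv_mul_mem hh dh (F.st_mem T hT))
  rw [F.d_mul, F.d_st, dh, one_mul]; exact dx

end Fus

end Run7.h2
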