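import Pool.Agent.Run7.h2.Fus6

/-!
General tools and the exclusion of the shape `1 + 4 + 4` with equal summands.
-/

namespace Run7.h2

universe u

namespace Fus

variable {E : Type u} [Semiring E] (F : Fus E)

/-- nonzero inner product gives a common simple summand -/
lemma common {x y : E} (h : F.ip x y ≠ 0) : ∃ a ∈ F.S, F.ip x a ≠ 0 ∧ F.ip y a ≠ 0 := by
  obtain ⟨s, hs, rfl⟩ := F.gen y
  induction s using Multiset.induction_on with
  | empty => rw [Multiset.sum_zero, F.ip_zero_right] at h; exact absurd rfl h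
  | cons b s ih =>
    rw [Multiset.sum_cons] at h ⊢
    rw [F.ip_add_right] at h
    have hb := hs b (Multiset.mem_cons_self b s)
    by_cases hb0 : F.ip x b = 0
    · obtain ⟨a, ha, h1, h2⟩ := ih (fun c hc => hs c (Multiset.mem_cons_of_mem hc)) (by omega)
      exact ⟨a, ha, h1, by rw [F.ip_add_left]; omega⟩
    · exact ⟨b, hb, hb0, by rw [F.ip_add_left, F.ip_self hb]; omega⟩

/-- common summand can be split off simultaneously -/
lemma common_split {x y : E} (h : F.ip x y ≠ 0) :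
    ∃ a x' y', a ∈ F.S ∧ x = a + x' ∧ y = a + y' := by
  obtain ⟨a, ha, h1, h2⟩ := F.common h
  obtain ⟨x', hx⟩ := F.split ha h1
  obtain ⟨y', hy⟩ := F.split ha h2
  exact ⟨a, x', y', ha, hx, hy⟩

/-- extensionality -/
lemma ext_ip : ∀ n : ℕ, ∀ x y : E, F.d x ≤ n → (∀ a ∈ F.S, F.ip x a = F.ip y a) → x = y := by
  intro n
  induction n with
  | zero =>
    intro x y hx h
    have hx0 : x = 0 := F.eq_zero_of_d (by omega)
    by_contra hne
    have hy : y ≠ 0 := by rintro rfl; exact hne hx0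
    obtain ⟨a, z, ha, rfl⟩ := F.exists_split hy
    have := h a ha
    rw [hx0, F.ip_zero_left, F.ip_add_left, F.ip_self ha] at this
    omega
  | succ n ih =>
    intro x y hx h
    by_cases hx0 : x = 0
    · by_contra hne
      have hy : y ≠ 0 := by rintro rfl; exact hne hx0
      obtain ⟨a, z, ha, rfl⟩ := F.exists_split hy
      have := h a ha
      rw [hx0, F.ip_zero_left, F.ip_add_left, F.ip_self ha] at this
      omega
    · obtain ⟨a, z, ha, rfl⟩ := F.exists_split hx0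
      have h1 := h a ha
      rw [F.ip_add_left, F.ip_self ha] at h1
      obtain ⟨w, rfl⟩ := F.split ha (x := y) (by omega)
      have hpos := F.d_pos a ha
      rw [F.d_add] at hx
      have := ih z w (by omega) (by
        intro b hb
        have h2 := h b hb
        rw [F.ip_add_left, F.ip_add_left] at h2
        omega)
      rw [this]

lemma ext_all {x y : E} (h : ∀ a ∈ F.S, F.ip x a = F.ip y a) : x = y :=
  F.ext_ip _ x y le_rfl h

include F in
lemma two_cancel {x y : E} (h : x + x = y + y) : x = y := by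
  apply F.ext_all
  intro a _
  have := congrArg (fun z => F.ip z a) h
  simp only [F.ip_add_left] at this
  omega

/-- arithmetic mean inequality -/
lemma am : ∀ n : ℕ, ∀ x y : E, F.d x ≤ n → 2 * F.ip x y ≤ F.ip x x + F.ip y y := by
  intro n
  induction n with
  | zero =>
    intro x y hx
    have hx0 : x = 0 := F.eq_zero_of_d (by omega)
    rw [hx0, F.ip_zero_left]; omega
  | succ n ih =>
    intro x y hx
    by_cases h0 : F.ip x y = 0
    · omega
    · obtain ⟨a, x', y', ha, rfl, rfl⟩ := F.common_split h0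
      have hpos := F.d_pos a ha
      rw [F.d_add] at hx
      have h1 := ih x' y' (by omega)
      rw [F.norm_add, F.norm_add, F.ip_add_left, F.ip_add_right, F.ip_add_right, F.ip_self ha,
        F.ip_comm x' a]
      omega

lemma am' (x y : E) : 2 * F.ip x y ≤ F.ip x x + F.ip y y := F.am _ x y le_rfl

/-- an invertible constituent of a product of two simple objects -/
lemma inv_in_mul {x T h : E} (hx : x ∈ F.S) (hT : T ∈ F.S) (hh : h ∈ F.S) (dh : F.d h = 1)
    (e : F.ip (x * T) h ≠ 0) : x = h * F.st T := by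
  rw [F.ip_mul_right] at e
  exact F.eq_of_ip hx (F.inv_mul_mem hh dh (F.st_mem T hT)) e

/-- `h^(3j) * h = 1` -/
lemma exists_cube_inv {h : E} (hh : h ∈ F.S) (dh : F.d h = 1) : ∃ j : ℕ, h ^ (3 * j) * h = 1 := by
  obtain ⟨m, hm, hm1⟩ := F.fin_ord h hh dh
  have hpow : ∀ n : ℕ, h ^ n ∈ F.S ∧ F.d (h ^ n) = 1 := by
    intro n
    induction n with
    | zero => rw [pow_zero]; exact ⟨F.one_mem, F.d_one⟩
    | succ n ih =>
      rw [pow_succ]
      exact ⟨F.inv_mul_mem ih.1 ih.2 hh, by rw [F.d_mul, ih.2, dh]⟩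
  have ho : 0 < orderOf h := orderOf_pos_iff.mpr (isOfFinOrder_iff_pow_eq_one.mpr ⟨m, hm, hm1⟩)
  have hnd : ¬ 3 ∣ orderOf h := by
    rintro ⟨q, hq⟩
    have h1 : (h ^ q) ^ 3 = 1 := by rw [← pow_mul, mul_comm, ← hq, pow_orderOf_eq_one]
    have h2 := F.cube_ne (hpow q).1 (hpow q).2 h1
    have h3 := orderOf_dvd_of_pow_eq_one h2
    have h4 : 0 < q := by
      rcases Nat.eq_zero_or_pos q with h0 | h0
      · subst h0; omega
      · exact h0
    have := Nat.le_of_dvd h4 h3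
    omega
  have hmod : orderOf h % 3 = 1 ∨ orderOf h % 3 = 2 := by omega
  have key : ∃ j c : ℕ, 3 * j + 1 = orderOf h * c := by
    rcases hmod with h1 | h1
    · refine ⟨orderOf h / 3, 1, ?_⟩; omega
    · refine ⟨(2 * orderOf h) / 3, 2, ?_⟩; omega
  obtain ⟨j, c, hjc⟩ := key
  refine ⟨j, ?_⟩
  rw [← pow_succ, hjc, pow_mul, pow_orderOf_eq_one, one_pow]

lemma pow_mem {h : E} (hh : h ∈ F.S) (dh : F.d h = 1) (n : ℕ) :
    h ^ n ∈ F.S ∧ F.d (h ^ n) = 1 := by
  induction n with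
  | zero => rw [pow_zero]; exact ⟨F.one_mem, F.d_one⟩
  | succ n ih =>
    rw [pow_succ]
    exact ⟨F.inv_mul_mem ih.1 ih.2 hh, by rw [F.d_mul, ih.2, dh]⟩

/-- an invertible `h` with `h^9 = 1` is trivial -/
lemma nine_ne {h : E} (hh : h ∈ F.S) (dh : F.d h = 1) (h9 : h ^ 9 = 1) : h = 1 := by
  obtain ⟨h3, d3⟩ := F.pow_mem hh dh 3
  have : (h ^ 3) ^ 3 = 1 := by rw [← pow_mul]; exact h9
  exact F.cube_ne hh dh (F.cube_ne h3 d3 this)

lemma stab9 {W k : E} (hW : W ∈ F.S) (dW : F.d W = 9) (hk : k ∈ F.S) (dk : F.d k = 1)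
    (e : k * W = W) : k = 1 := by
  apply F.nine_ne hk dk
  have := F.f3 k hk dk W hW e
  rwa [dW] at this

/-- a sum of norm two and degree five without summands of degree two contains an invertible -/
lemma five_split {r : E} (dr : F.d r = 5) (nr : F.ip r r = 2)
    (h2 : ∀ a ∈ F.S, F.d a = 2 → F.ip r a = 0) : ∃ h ∈ F.S, F.d h = 1 ∧ F.ip r h ≠ 0 := by
  obtain ⟨a, b, ha, hb, hab, rfl⟩ := F.norm_two nr
  rw [F.d_add] at dr
  have pa := F.d_pos a ha
  have pb := F.d_pos b hb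
  have ha2 : F.d a ≠ 2 := by
    intro h
    have := h2 a ha h
    rw [F.ip_add_left, F.ip_self ha] at this
    omega
  have hb2 : F.d b ≠ 2 := by
    intro h
    have := h2 b hb h
    rw [F.ip_add_left, F.ip_self hb] at this
    omega
  by_cases h1 : F.d a = 1
  · exact ⟨a, ha, h1, by rw [F.ip_add_left, F.ip_self ha]; omega⟩
  · exact ⟨b, hb, by omega, by rw [F.ip_add_left, F.ip_self hb]; omega⟩

/-- the possible shapes of `V V*` -/
lemma M_cases {V : E} (hV : V ∈ F.S) (dV : F.d V = 3) :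
    (∃ W, W ∈ F.S ∧ F.d W = 8 ∧ V * F.st V = 1 + W) ∨
    (∃ Y Z, Y ∈ F.S ∧ Z ∈ F.S ∧ F.d Y = 3 ∧ F.d Z = 5 ∧ V * F.st V = 1 + Y + Z) ∨
    (∃ P Q, P ∈ F.S ∧ Q ∈ F.S ∧ F.d P = 4 ∧ F.d Q = 4 ∧ V * F.st V = 1 + P + Q) := by
  obtain ⟨m, hm, dm, hm1, hm3⟩ := F.M_split hV dV (F.no_two hV dV)
  rcases F.split8 dm hm3 with h | ⟨Y, Z, hY, hZ, dY, dZ, rfl⟩ | ⟨P, Q, hP, hQ, dP, dQ, rfl⟩
  · left; exact ⟨m, h, dm, hm⟩
  · right; left; exact ⟨Y, Z, hY, hZ, dY, dZ, by rw [hm, add_assoc]⟩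
  · right; right; exact ⟨P, Q, hP, hQ, dP, dQ, by rw [hm, add_assoc]⟩

/-- the case `V V* = 1 + 2 Q` does not occur -/
lemma no_44eq {V Q : E} (hV : V ∈ F.S) (dV : F.d V = 3) (hQ : Q ∈ F.S) (dQ : F.d Q = 4)
    (hM : V * F.st V = 1 + Q + Q) : False := by
  have h1Q : F.ip 1 Q = 0 := F.ip_d_ne F.one_mem hQ (by rw [F.d_one, dQ]; omega)
  have hQ2 : F.ip (V * F.st V) Q = 2 := by
    rw [hM, F.ip_add_left, F.ip_add_left, h1Q, F.ip_self hQ]
  have hsQ := F.st_mem Q hQ
  have sQ : F.st Q = Q := by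
    by_contra hne
    have h1 : F.ip (V * F.st V) (F.st Q) = 2 := by
      rw [F.ip_comm, F.ip_st', F.M_self, F.ip_comm]; exact hQ2
    rw [hM, F.ip_add_left, F.ip_add_left,
      F.ip_d_ne F.one_mem hsQ (by rw [F.d_one, F.d_st, dQ]; omega),
      F.ip_ne hQ hsQ (fun h => hne h.symm)] at h1
    omega
  have hc : F.ip (Q * Q) Q % 3 = 0 := by
    have := F.fs3_simple hQ (F.ne_one_of_d (by omega))
    unfold ip; rw [sQ]; exact this
  have hnorm : F.ip (Q * V) (Q * V) = 1 + 2 * F.ip (Q * Q) Q := by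
    have h1 : F.ip (Q * Q) 1 = 1 := by
      have := F.M_one hQ
      rwa [sQ] at this
    rw [F.norm_mul_right, hM, F.ip_add_right, F.ip_add_right, sQ, h1]
    ring
  have hdeg := F.deg2 F.one_mem hQ (F.ne_one_of_d (by omega)).symm (Q * Q)
  have h11 : F.ip (Q * Q) 1 = 1 := by
    have := F.M_one hQ
    rwa [sQ] at this
  rw [h11, F.d_one, F.d_mul, dQ] at hdeg
  have hV2 : F.ip (Q * V) V = 2 := by
    rw [F.ip_mul_right, F.ip_comm]; exact hQ2
  obtain ⟨_, y, hy, hyV⟩ := F.d_ge1 hV (Q * V)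
  rw [hV2] at hy
  have hdy := congrArg F.d hy
  rw [F.d_mul, dQ, dV, F.d_add, F.d_nsmul, dV] at hdy
  have hny : F.ip (Q * V) (Q * V) = 4 + F.ip y y := by
    rw [hy, F.norm_add, F.ip_nsmul_left, F.ip_nsmul_right, F.ip_self hV, F.ip_nsmul_left,
      F.ip_comm V y, hyV]
  have hy3 : F.ip y y = 3 := by omega
  obtain ⟨a, b, c, ha, hb, hc', hab, hac, hbc, hyabc⟩ := F.norm_three hy3
  have hle : ∀ z ∈ F.S, F.ip y z ≠ 0 → 3 ≤ F.d z := by
    intro z hz hyz
    have h1 : F.ip (Q * V) z ≠ 0 := by rw [hy, F.ip_add_left]; omega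
    have hp := F.d_pos z hz
    by_contra hlt
    have h3 : F.d z = 1 ∨ F.d z = 2 := by omega
    rcases h3 with h3 | h3
    · exact h1 (F.ip_mul_one hQ hV hz h3 (by omega))
    · exact h1 (F.ip_mul_two hQ hV dV hz h3 (by omega))
  have h1 := hle a ha (by rw [hyabc, F.ip_add_left, F.ip_add_left, F.ip_self ha]; omega)
  have h2 := hle b hb (by rw [hyabc, F.ip_add_left, F.ip_add_left, F.ip_self hb]; omega)
  have h3 := hle c hc' (by rw [hyabc, F.ip_add_left, F.ip_add_left, F.ip_self hc']; omega)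
  rw [hyabc, F.d_add, F.d_add] at hdy
  omega

/-- constituents of `x T`, `d T = 3`, `d x ≠ 3, 6`, have degree at least three -/
lemma ge_three {x T z : E} (hx : x ∈ F.S) (hT : T ∈ F.S) (dT : F.d T = 3) (h3 : F.d x ≠ 3)
    (h6 : F.d x ≠ 6) (hz : z ∈ F.S) (e : F.ip (x * T) z ≠ 0) : 3 ≤ F.d z := by
  have hp := F.d_pos z hz
  by_contra hlt
  have h : F.d z = 1 ∨ F.d z = 2 := by omega
  rcases h with h | h
  · exact e (F.ip_mul_one hx hT hz h (by omega))
  · exact e (F.ip_mul_two hx hT dT hz h h6)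

/-- the constituent structure of an element of degree `6` with constituents of degree `≥ 3` -/
lemma three_of_three {y : E} (dy : F.d y = 3) (h : ∀ a ∈ F.S, F.ip y a ≠ 0 → 3 ≤ F.d a) :
    y ∈ F.S := by
  obtain ⟨a, z, ha, rfl⟩ := F.exists_split (x := y) (by rintro rfl; rw [F.d_zero] at dy; omega)
  have := h a ha (by rw [F.ip_add_left, F.ip_self ha]; omega)
  rw [F.d_add] at dy
  have hz : z = 0 := F.eq_zero_of_d (by omega)
  rw [hz, add_zero]; exact ha

lemma le5_simple {y : E} (dy : F.d y ≤ 5) (dy0 : F.d y ≠ 0)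
    (h : ∀ a ∈ F.S, F.ip y a ≠ 0 → 3 ≤ F.d a) : y ∈ F.S := by
  obtain ⟨a, z, ha, rfl⟩ := F.exists_split (x := y) (by rintro rfl; exact dy0 F.d_zero)
  have h1 := h a ha (by rw [F.ip_add_left, F.ip_self ha]; omega)
  rw [F.d_add] at dy
  have hz : z = 0 := by
    by_contra hz
    obtain ⟨b, w, hb, rfl⟩ := F.exists_split hz
    have h2 := h b hb (by rw [F.ip_add_left, F.ip_add_left, F.ip_self hb]; omega)
    rw [F.d_add] at dy
    omega
  rw [hz, add_zero]; exact ha

end Fus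

end Run7.h2
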