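import Pool.Agent.Run7.h2.Fus7

/-!
Exclusion of the shape `1 + 3 + 5`.
-/

namespace Run7.h2

universe u

namespace Fus

variable {E : Type u} [Semiring E] (F : Fus E)

/-- data of the case `1 + 3 + 5` -/
structure YZ (V Y Z : E) : Prop where
  hV : V ∈ F.S
  dV : F.d V = 3
  hY : Y ∈ F.S
  dY : F.d Y = 3
  hZ : Z ∈ F.S
  dZ : F.d Z = 5
  hM : V * F.st V = 1 + Y + Z

variable {F}

lemma YZ.sY {V Y Z : E} (h : F.YZ V Y Z) : F.st Y = Y := by
  have h1 : F.ip (V * F.st V) Y = 1 := by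
    rw [h.hM, F.ip_add_left, F.ip_add_left, F.ip_self h.hY,
      F.ip_d_ne F.one_mem h.hY (by rw [F.d_one, h.dY]; omega),
      F.ip_d_ne h.hZ h.hY (by rw [h.dZ, h.dY]; omega)]
  have h2 : F.ip (V * F.st V) (F.st Y) = 1 := by
    rw [F.ip_comm, F.ip_st', F.M_self, F.ip_comm]; exact h1
  rw [h.hM, F.ip_add_left, F.ip_add_left,
    F.ip_d_ne F.one_mem (F.st_mem Y h.hY) (by rw [F.d_one, F.d_st, h.dY]; omega),
    F.ip_d_ne h.hZ (F.st_mem Y h.hY) (by rw [h.dZ, F.d_st, h.dY]; omega)] at h2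
  exact (F.eq_of_ip h.hY (F.st_mem Y h.hY) (by omega)).symm

lemma YZ.sZ {V Y Z : E} (h : F.YZ V Y Z) : F.st Z = Z := by
  have h1 : F.ip (V * F.st V) Z = 1 := by
    rw [h.hM, F.ip_add_left, F.ip_add_left, F.ip_self h.hZ,
      F.ip_d_ne F.one_mem h.hZ (by rw [F.d_one, h.dZ]; omega),
      F.ip_d_ne h.hY h.hZ (by rw [h.dZ, h.dY]; omega)]
  have h2 : F.ip (V * F.st V) (F.st Z) = 1 := by
    rw [F.ip_comm, F.ip_st', F.M_self, F.ip_comm]; exact h1
  rw [h.hM, F.ip_add_left, F.ip_add_left,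
    F.ip_d_ne F.one_mem (F.st_mem Z h.hZ) (by rw [F.d_one, F.d_st, h.dZ]; omega),
    F.ip_d_ne h.hY (F.st_mem Z h.hZ) (by rw [h.dY, F.d_st, h.dZ]; omega)] at h2
  exact (F.eq_of_ip h.hZ (F.st_mem Z h.hZ) (by omega)).symm

lemma YZ.ipMY {V Y Z : E} (h : F.YZ V Y Z) : F.ip (V * F.st V) Y = 1 := by
  rw [h.hM, F.ip_add_left, F.ip_add_left, F.ip_self h.hY,
      F.ip_d_ne F.one_mem h.hY (by rw [F.d_one, h.dY]; omega),
      F.ip_d_ne h.hZ h.hY (by rw [h.dZ, h.dY]; omega)]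

lemma YZ.ipMZ {V Y Z : E} (h : F.YZ V Y Z) : F.ip (V * F.st V) Z = 1 := by
  rw [h.hM, F.ip_add_left, F.ip_add_left, F.ip_self h.hZ,
      F.ip_d_ne F.one_mem h.hZ (by rw [F.d_one, h.dZ]; omega),
      F.ip_d_ne h.hY h.hZ (by rw [h.dZ, h.dY]; omega)]

lemma YZ.ip3 {V Y Z : E} (h : F.YZ V Y Z) (x : E) :
    F.ip x (V * F.st V) = F.t x + F.ip x Y + F.ip x Z := by
  rw [h.hM, F.ip_add_right, F.ip_add_right, F.ip_one]

lemma YZ.ipYYY {V Y Z : E} (h : F.YZ V Y Z) : F.ip (Y * Y) Y = 0 := by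
  have := F.no_YYY h.hY h.dY h.sY
  unfold ip; rw [h.sY]; exact this

lemma YZ.tYY {V Y Z : E} (h : F.YZ V Y Z) : F.t (Y * Y) = 1 := by
  have := F.orth_self Y h.hY
  rwa [h.sY] at this

lemma YZ.tZZ {V Y Z : E} (h : F.YZ V Y Z) : F.t (Z * Z) = 1 := by
  have := F.orth_self Z h.hZ
  rwa [h.sZ] at this

/-- the next object in the chain -/
lemma YZ.next {V Y Z : E} (h : F.YZ V Y Z) : ∃ W, F.YZ Y W Z := by
  have hsY := h.sY
  have hYV : F.ip (Y * V) V = 1 := by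
    rw [F.ip_mul_right, F.ip_comm]; exact h.ipMY
  have hn : F.ip (Y * V) (Y * V) = 1 + F.ip (Y * Y) Z := by
    rw [F.norm_mul_right, hsY, h.ip3, h.tYY, h.ipYYY]
  have hne : F.ip (Y * Y) Z ≠ 0 := by
    intro h0
    rw [h0] at hn
    have hS := F.simple_of_norm hn
    have h1 := F.eq_of_ip hS h.hV (by omega)
    have h2 := congrArg F.d h1
    rw [F.d_mul, h.dY, h.dV] at h2
    omega
  rcases F.M_cases h.hY h.dY with ⟨W, hW, dW, hM⟩ | ⟨Y', Z', hY', hZ', dY', dZ', hM⟩ |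
    ⟨P, Q, hP, hQ, dP, dQ, hM⟩
  · rw [hsY] at hM
    rw [hM, F.ip_add_left, F.ip_d_ne F.one_mem h.hZ (by rw [F.d_one, h.dZ]; omega),
      F.ip_d_ne hW h.hZ (by rw [dW, h.dZ]; omega)] at hne
    exact absurd rfl hne
  · have hM' := hM
    rw [hsY] at hM
    rw [hM, F.ip_add_left, F.ip_add_left, F.ip_d_ne F.one_mem h.hZ (by rw [F.d_one, h.dZ]; omega),
      F.ip_d_ne hY' h.hZ (by rw [dY', h.dZ]; omega)] at hne
    have hZZ := F.eq_of_ip hZ' h.hZ (by omega)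
    subst hZZ
    exact ⟨Y', h.hY, h.dY, hY', dY', hZ', dZ', hM'⟩
  · rw [hsY] at hM
    rw [hM, F.ip_add_left, F.ip_add_left, F.ip_d_ne F.one_mem h.hZ (by rw [F.d_one, h.dZ]; omega),
      F.ip_d_ne hP h.hZ (by rw [dP, h.dZ]; omega),
      F.ip_d_ne hQ h.hZ (by rw [dQ, h.dZ]; omega)] at hne
    exact absurd rfl hne

lemma YZ.sq {V Y Z W : E} (h : F.YZ V Y Z) (h' : F.YZ Y W Z) : Y * Y = 1 + W + Z := by
  have := h'.hM
  rwa [h.sY] at this

/-- structural facts -/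
lemma YZ.B {V Y Z W : E} (h : F.YZ V Y Z) (h' : F.YZ Y W Z) :
    ∃ U, U ∈ F.S ∧ F.d U = 6 ∧ Y * V = V + U ∧ U * F.st V = W + Y * Z ∧
      F.ip (Z * Z) Y = 0 ∧ F.ip (Z * Z) Z = 3 ∧ F.ip (Z * V) (Z * V) = 4 ∧
      F.ip (Z * V) U = 0 ∧ F.ip (Z * V) V = 1 := by
  have hsY := h.sY
  have hsZ := h.sZ
  have hYY := h.sq h'
  have hYV : F.ip (Y * V) V = 1 := by
    rw [F.ip_mul_right, F.ip_comm]; exact h.ipMY
  have hZV : F.ip (Z * V) V = 1 := by
    rw [F.ip_mul_right, F.ip_comm]; exact h.ipMZ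
  have hn : F.ip (Y * V) (Y * V) = 2 := by
    have h1 : F.ip (Y * Y) Z = 1 := by
      rw [hYY, F.ip_add_left, F.ip_add_left, F.ip_self h.hZ,
        F.ip_d_ne F.one_mem h.hZ (by rw [F.d_one, h.dZ]; omega),
        F.ip_d_ne h'.hY h.hZ (by rw [h'.dY, h.dZ]; omega)]
    rw [F.norm_mul_right, hsY, h.ip3, h.tYY, h.ipYYY, h1]
  obtain ⟨U, hU⟩ := F.split h.hV (x := Y * V) (by omega)
  have hUV : F.ip U V = 0 := by
    rw [hU, F.ip_add_left, F.ip_self h.hV] at hYV; omega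
  have hUn : F.ip U U = 1 := by
    rw [hU, F.norm_split h.hV hUV] at hn; omega
  have hUS := F.simple_of_norm hUn
  have dU : F.d U = 6 := by
    have := congrArg F.d hU
    rw [F.d_mul, F.d_add, h.dY, h.dV] at this
    omega
  have hUst : U * F.st V = W + Y * Z := by
    have e1 : Y * (V * F.st V) = (V + U) * F.st V := by rw [← mul_assoc, hU]
    rw [h.hM, add_mul, h.hM, mul_add, mul_add, mul_one, hYY] at e1
    refine (F.add_cancel (1 + Y + Z) _ _ ?_).symm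
    rw [← e1]
    abel
  have hz : F.ip (Z * V) U = F.ip (Z * Z) Y := by
    rw [F.ip_mul_right, F.ip_comm Z, F.ip_comm (Z * Z)]
    rw [hUst, F.ip_add_left, F.ip_mul_right, hsZ,
      F.ip_d_ne h'.hY h.hZ (by rw [h'.dY, h.dZ]; omega), zero_add]
  have hc : F.ip (Z * Z) Z % 3 = 0 := by
    have := F.fs3_simple h.hZ (F.ne_one_of_d (by rw [h.dZ]; omega))
    unfold ip; rw [hsZ]; exact this
  have hnZ : F.ip (Z * V) (Z * V) = 1 + F.ip (Z * Z) Y + F.ip (Z * Z) Z := by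
    rw [F.norm_mul_right, hsZ, h.ip3, h.tZZ]
  have hdeg := F.deg3 F.one_mem h.hY h.hZ (F.ne_one_of_d (by rw [h.dY]; omega)).symm
    (F.ne_one_of_d (by rw [h.dZ]; omega)).symm (by
      intro e; have := congrArg F.d e; rw [h.dY, h.dZ] at this; omega) (Z * Z)
  rw [F.ip_one, h.tZZ, F.d_one, F.d_mul, h.dY, h.dZ] at hdeg
  obtain ⟨y, hy⟩ := F.split h.hV (x := Z * V) (by omega)
  have hyV : F.ip y V = 0 := by
    rw [hy, F.ip_add_left, F.ip_self h.hV] at hZV; omega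
  have hyU : F.ip y U = F.ip (Z * Z) Y := by
    rw [← hz, hy, F.ip_add_left, F.ip_comm V U, hUV]; omega
  obtain ⟨_, y', hy', hy'U⟩ := F.d_ge1 hUS y
  rw [hyU] at hy'
  have hdy : 15 = 3 + (F.ip (Z * Z) Y * 6 + F.d y') := by
    have := congrArg F.d hy
    rw [hy', F.d_mul, h.dZ, h.dV, F.d_add, F.d_add, F.d_nsmul, dU, h.dV] at this
    exact this
  have hny : F.ip (Z * V) (Z * V) = 1 + (F.ip (Z * Z) Y * F.ip (Z * Z) Y + F.ip y' y') := by
    rw [hy, F.norm_split h.hV hyV]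
    rw [hy', F.norm_add, F.ip_nsmul_left, F.ip_nsmul_right, F.ip_self hUS, F.ip_nsmul_left,
      F.ip_comm U y', hy'U]
    ring
  have hz0 : F.ip (Z * Z) Y = 0 ∧ F.ip (Z * Z) Z = 3 := by
    generalize F.ip (Z * Z) Y = z at *
    generalize F.ip (Z * Z) Z = c at *
    have hzle : z ≤ 2 := by omega
    have hcle : c ≤ 4 := by omega
    have hc' : c = 0 ∨ c = 3 := by omega
    have hz' : z = 0 ∨ z = 1 ∨ z = 2 := by omega
    rcases hz' with rfl | rfl | rfl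
    · refine ⟨rfl, ?_⟩
      rcases hc' with rfl | rfl
      · exfalso
        have h0 : y' = 0 := F.eq_zero_of_norm (by omega)
        rw [h0, F.d_zero] at hdy
        omega
      · rfl
    · exfalso
      rcases hc' with rfl | rfl
      · have h0 : y' = 0 := F.eq_zero_of_norm (by omega)
        rw [h0, F.d_zero] at hdy
        omega
      · have h3 : F.ip y' y' = 3 := by omega
        obtain ⟨a, b, c, ha, hb, hc2, hab, hac, hbc, hyabc⟩ := F.norm_three h3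
        have hle : ∀ z ∈ F.S, F.ip y' z ≠ 0 → 3 ≤ F.d z := by
          intro z hz hyz
          refine F.ge_three h.hZ h.hV h.dV (by rw [h.dZ]; omega) (by rw [h.dZ]; omega) hz ?_
          rw [hy, hy', F.ip_add_left, F.ip_add_left]
          omega
        have h1 := hle a ha (by rw [hyabc, F.ip_add_left, F.ip_add_left, F.ip_self ha]; omega)
        have h2 := hle b hb (by rw [hyabc, F.ip_add_left, F.ip_add_left, F.ip_self hb]; omega)
        have h4 := hle c hc2 (by rw [hyabc, F.ip_add_left, F.ip_add_left, F.ip_self hc2]; omega)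
        rw [hyabc, F.d_add, F.d_add] at hdy
        omega
    · exfalso
      have h0 : y' = 0 := F.eq_zero_of_d (by omega)
      rw [h0, F.ip_zero_left] at hny
      omega
  refine ⟨U, hUS, dU, hU, hUst, hz0.1, hz0.2, by rw [hnZ, hz0.1, hz0.2], by rw [hz, hz0.1], hZV⟩

end Fus

end Run7.h2
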