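import Pool.Agent.Run7.h2.Fus8

/-!
Exclusion of the shape `1 + 3 + 5`, conclusion.
-/

namespace Run7.h2

universe u

namespace Fus

variable {E : Type u} [Semiring E] {F : Fus E}

/-- in a self-dual chain, two consecutive objects cannot both fail to commute with `Z` -/
lemma YZ.NC {V X Y W Z : E} (hV : F.YZ V X Z) (hX : F.YZ X Y Z) (hY : F.YZ Y W Z)
    (hW : ∃ K, F.YZ W K Z)
    (n1 : X * Z ≠ Z * X) (n2 : Y * Z ≠ Z * Y) : False := by
  obtain ⟨K, hW⟩ := hW
  have sX := hV.sY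
  have sY := hX.sY
  have sZ := hX.sZ
  have XX := hV.sq hX
  have YY := hX.sq hY
  obtain ⟨U, hU, dU, YX, _, _, _, nZX, ZXU, ZXX⟩ := hX.B hY
  obtain ⟨U2, hU2, dU2, WY, _, _, _, nZY, ZYU, ZYY⟩ := hY.B hW
  have sU := F.st_mem U hU
  have XY : X * Y = X + F.st U := by
    have := congrArg F.st YX
    rw [F.st_mul, F.st_add, sX, sY] at this
    exact this
  have sW := hY.sY
  have YW : Y * W = Y + F.st U2 := by
    have := congrArg F.st WY
    rw [F.st_mul, F.st_add, sW, sY] at this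
    exact this
  -- swap relation
  have sw : F.st U + X * Z = U + Z * X := by
    have e : X * (X * X) = (X * X) * X := by rw [mul_assoc]
    rw [XX, mul_add, mul_add, mul_one, add_mul, add_mul, one_mul, XY, YX] at e
    refine F.add_cancel (X + X) _ _ ?_
    calc X + X + (F.st U + X * Z) = X + (X + F.st U) + X * Z := by abel
      _ = _ := e
      _ = _ := by abel
  have sw2 : F.st U2 + Y * Z = U2 + Z * Y := by
    have e : Y * (Y * Y) = (Y * Y) * Y := by rw [mul_assoc]
    rw [YY, mul_add, mul_add, mul_one, add_mul, add_mul, one_mul, YW, WY] at e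
    refine F.add_cancel (Y + Y) _ _ ?_
    calc Y + Y + (F.st U2 + Y * Z) = Y + (Y + F.st U2) + Y * Z := by abel
      _ = _ := e
      _ = _ := by abel
  have hUU : U ≠ F.st U := by
    intro e
    rw [← e] at sw
    exact n1 (F.add_cancel _ _ _ sw)
  have hUU2 : U2 ≠ F.st U2 := by
    intro e
    rw [← e] at sw2
    exact n2 (F.add_cancel _ _ _ sw2)
  have sU2 := F.st_mem U2 hU2
  have XZs : F.st (Z * X) = X * Z := by rw [F.st_mul, sX, sZ]
  have YZs : F.st (Z * Y) = Y * Z := by rw [F.st_mul, sY, sZ]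
  have XZU : F.ip (X * Z) (F.st U) = 0 := by
    rw [← XZs, F.ip_st]; exact ZXU
  have YZU : F.ip (Y * Z) (F.st U2) = 0 := by
    rw [← YZs, F.ip_st]; exact ZYU
  have ZXsU : F.ip (Z * X) (F.st U) = 1 := by
    have := congrArg (fun z => F.ip z (F.st U)) sw
    simp only [F.ip_add_left] at this
    rw [F.ip_self sU, XZU, F.ip_ne hU sU hUU] at this
    omega
  have ZYsU : F.ip (Z * Y) (F.st U2) = 1 := by
    have := congrArg (fun z => F.ip z (F.st U2)) sw2
    simp only [F.ip_add_left] at this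
    rw [F.ip_self sU2, YZU, F.ip_ne hU2 sU2 hUU2] at this
    omega
  -- decompose Z X
  obtain ⟨R, hR⟩ := F.split hX.hV (x := Z * X) (by omega)
  have hRX : F.ip R X = 0 := by
    rw [hR, F.ip_add_left, F.ip_self hX.hV] at ZXX; omega
  have dsU : F.d (F.st U) = 6 := by rw [F.d_st, dU]
  have hRU : F.ip R (F.st U) = 1 := by
    rw [hR, F.ip_add_left, F.ip_d_ne hX.hV sU (by rw [hX.dV, dsU]; omega)] at ZXsU; omega
  obtain ⟨P, hP⟩ := F.split sU (x := R) (by omega)
  have hPU : F.ip P (F.st U) = 0 := by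
    rw [hP, F.ip_add_left, F.ip_self sU] at hRU; omega
  have hnP : F.ip P P = 2 := by
    rw [hR, F.norm_split hX.hV hRX, hP, F.norm_split sU hPU] at nZX; omega
  have hZX : Z * X = X + F.st U + P := by rw [hR, hP, add_assoc]
  have hdP : F.d P = 6 := by
    have := congrArg F.d hZX
    rw [F.d_mul, F.d_add, F.d_add, hX.dZ, hX.dV, dsU] at this
    omega
  obtain ⟨T1, T2, hT1, hT2, hT12, hPT⟩ := F.norm_two hnP
  have hge : ∀ z ∈ F.S, F.ip P z ≠ 0 → 3 ≤ F.d z ∧ F.ip (Z * X) z ≠ 0 := by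
    intro z hz hyz
    have h1 : F.ip (Z * X) z ≠ 0 := by
      rw [hZX, F.ip_add_left, F.ip_add_left]
      omega
    exact ⟨F.ge_three hX.hZ hX.hV hX.dV (by rw [hX.dZ]; omega) (by rw [hX.dZ]; omega) hz h1, h1⟩
  obtain ⟨g1, i1⟩ := hge T1 hT1 (by rw [hPT, F.ip_add_left, F.ip_self hT1]; omega)
  obtain ⟨g2, i2⟩ := hge T2 hT2 (by rw [hPT, F.ip_add_left, F.ip_self hT2]; omega)
  have hd12 : F.d T1 = 3 ∧ F.d T2 = 3 := by
    rw [hPT, F.d_add] at hdP
    omega
  have hPst : F.st P = P := by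
    have hXZ : X * Z = X + U + F.st P := by
      rw [← XZs, hZX, F.st_add, F.st_add, F.st_st, sX]
    rw [hXZ, hZX] at sw
    refine F.add_cancel (F.st U + X + U) _ _ ?_
    calc F.st U + X + U + F.st P = F.st U + (X + U + F.st P) := by abel
      _ = _ := sw
      _ = _ := by abel
  have XsU : X * F.st U = W + Z * Y := by
    have e : X * (X * Y) = (X * X) * Y := by rw [mul_assoc]
    rw [XY, XX, mul_add, XX, add_mul, add_mul, one_mul, YY] at e
    refine F.add_cancel (1 + Y + Z) _ _ ?_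
    rw [e]
    abel
  have UX : U * X = W + Y * Z := by
    have := congrArg F.st XsU
    rw [F.st_mul, F.st_st, sX, F.st_add, sW, YZs] at this
    exact this
  have key : Z * Y + X * P = Y * Z + P * X := by
    have e : X * (Z * X) = (X * Z) * X := by rw [mul_assoc]
    have hXZ : X * Z = X + U + P := by
      rw [← XZs, hZX, F.st_add, F.st_add, F.st_st, sX, hPst]
    rw [hZX, hXZ, mul_add, mul_add, add_mul, add_mul, XX, XsU, UX] at e
    refine F.add_cancel (1 + Y + Z + W) _ _ ?_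
    calc 1 + Y + Z + W + (Z * Y + X * P) = 1 + Y + Z + (W + Z * Y) + X * P := by abel
      _ = _ := e
      _ = _ := by abel
  have hPX : F.ip (P * X) (F.st U2) ≠ 0 := by
    have := congrArg (fun z => F.ip z (F.st U2)) key
    simp only [F.ip_add_left] at this
    rw [YZU, ZYsU] at this
    omega
  have fin : ∀ T ∈ F.S, F.d T = 3 → F.ip (Z * X) T ≠ 0 → F.ip (T * X) (F.st U2) ≠ 0 → False := by
    intro T hT dT h1 h2
    have h3 : F.ip (T * X) Z ≠ 0 := by
      rw [F.ip_mul_right, sX, F.ip_comm]; exact h1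
    have dsU2 : F.d (F.st U2) = 6 := by rw [F.d_st, dU2]
    have := F.deg2 hX.hZ sU2 (by intro e; have := congrArg F.d e; rw [hX.dZ, dsU2] at this; omega)
      (T * X)
    rw [hX.dZ, dsU2, F.d_mul, dT, hX.dV] at this
    omega
  rw [hPT, add_mul, F.ip_add_left] at hPX
  by_cases h1 : F.ip (T1 * X) (F.st U2) = 0
  · exact fin T2 hT2 hd12.2 i2 (by omega)
  · exact fin T1 hT1 hd12.1 i1 h1

/-- the commuting case -/
lemma YZ.comm_false {V Y W Z : E} (h : F.YZ V Y Z) (h1 : F.YZ Y W Z) (c : Y * Z = Z * Y) : False := by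
  obtain ⟨K, h2⟩ := h1.next
  obtain ⟨L, h3⟩ := h2.next
  obtain ⟨L', h4⟩ := h3.next
  have sY := h.sY
  have sZ := h.sZ
  have sW := h1.sY
  have sK := h2.sY
  have YY := h.sq h1
  have WW := h1.sq h2
  have KK := h2.sq h3
  obtain ⟨U, hU, dU, YV, UsV, ZZY, ZZZ, nZV, ZVU, ZVV⟩ := h.B h1
  obtain ⟨U', hU', dU', WY, U'sY, ZZW, _, nZY, ZYU', ZYY⟩ := h1.B h2
  obtain ⟨U'', hU'', dU'', KW, U''sW, ZZK, _, nZW, ZWU'', ZWW⟩ := h2.B h3
  obtain ⟨U3, hU3, dU3, LK, _, _, _, _, _, _⟩ := h3.B h4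
  -- commutation
  have WZ : W * Z = Z * W := by
    have e : (Y * Y) * Z = Z * (Y * Y) := by
      rw [mul_assoc, c, ← mul_assoc, c, mul_assoc]
    rw [YY, add_mul, add_mul, mul_add, mul_add, one_mul, mul_one] at e
    refine F.add_cancel (Z + Z * Z) _ _ ?_
    calc Z + Z * Z + W * Z = Z + W * Z + Z * Z := by abel
      _ = _ := e
      _ = _ := by abel
  have YW : Y * W = W * Y := by
    have e : Y * (Y * Y) = (Y * Y) * Y := by rw [mul_assoc]
    rw [YY, mul_add, mul_add, add_mul, add_mul, one_mul, mul_one, c] at e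
    refine F.add_cancel (Y + Z * Y) _ _ ?_
    calc Y + Z * Y + Y * W = Y + Y * W + Z * Y := by abel
      _ = _ := e
      _ = _ := by abel
  have YK : Y * K = K * Y := by
    have e : Y * (W * W) = (W * W) * Y := by
      rw [← mul_assoc, YW, mul_assoc, YW, mul_assoc]
    rw [WW, mul_add, mul_add, add_mul, add_mul, one_mul, mul_one, c] at e
    refine F.add_cancel (Y + Z * Y) _ _ ?_
    calc Y + Z * Y + Y * K = Y + Y * K + Z * Y := by abel
      _ = _ := e
      _ = _ := by abel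
  have sU' : F.st U' = U' := by
    have := congrArg F.st WY
    rw [F.st_mul, F.st_add, sW, sY, YW, WY] at this
    exact (F.add_cancel _ _ _ this).symm
  -- K ≠ Y
  have hdWV : F.ip (W * V) U ≠ 0 := by
    rw [F.ip_mul_right, F.ip_comm, UsV, F.ip_add_left, F.ip_self h1.hY]; omega
  have three_split : ∀ A B x : E, A ∈ F.S → B ∈ F.S → F.d A = 3 → F.d B = 3 → x ∈ F.S → F.d x = 6 →
      F.ip (A * B) x ≠ 0 → (∀ k ∈ F.S, F.d k = 1 → A = k * F.st B → False) →
      ∃ T, T ∈ F.S ∧ F.d T = 3 ∧ A * B = x + T := by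
    intro A B x hA hB dA dB hx dx hAB hk
    obtain ⟨T, hT⟩ := F.split hx hAB
    have dT : F.d T = 3 := by
      have := congrArg F.d hT
      rw [F.d_mul, F.d_add, dA, dB, dx] at this; omega
    refine ⟨T, ?_, dT, hT⟩
    apply F.three_of_three dT
    intro a ha hTa
    have h1 : F.ip (A * B) a ≠ 0 := by rw [hT, F.ip_add_left]; omega
    have hp := F.d_pos a ha
    by_contra hlt
    have h5 : F.d a = 1 ∨ F.d a = 2 := by omega
    rcases h5 with h5 | h5
    · exact hk a ha h5 (F.inv_in_mul hA hB ha h5 h1)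
    · exact h1 (F.ip_mul_two hA hB dB ha h5 (by omega))
  have hKY : K ≠ Y := by
    obtain ⟨T, hT, dT, e⟩ := three_split W V U h1.hY h.hV h1.dY h.dV hU dU hdWV (by
      intro k hk dk e
      -- W = k V*, W V = k V* V
      have e2 : V = F.st (F.st k * W) := by
        rw [e, ← mul_assoc, F.st_mul_one hk dk, one_mul, F.st_st]
      have e3 : W * V = W * (W * k) := by
        rw [e2, F.st_mul, F.st_st, sW]
      rw [← mul_assoc, WW, add_mul, add_mul, one_mul] at e3
      rw [e3, F.ip_add_left, F.ip_add_left, F.ip_d_ne hk hU (by rw [dk, dU]; omega),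
        F.ip_d_ne (F.mul_inv_mem hk dk h2.hY) hU (by rw [F.d_mul, h2.dY, dk, dU]; omega),
        F.ip_d_ne (F.mul_inv_mem hk dk h.hZ) hU (by rw [F.d_mul, h.dZ, dk, dU]; omega)] at hdWV
      exact hdWV rfl)
    have hn : F.ip (W * V) (W * V) = 2 := by
      rw [e, F.norm_split hU (F.ip_d_ne hT hU (by omega)), F.ip_self hT]
    rw [F.norm_mul_right, sW, WW, h.ip3, ← F.ip_one] at hn
    simp only [F.ip_add_left] at hn
    rw [F.ip_self F.one_mem, F.ip_self h.hZ,
      F.ip_d_ne h2.hY F.one_mem (by rw [F.d_one, h2.dY]; omega),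
      F.ip_d_ne h.hZ F.one_mem (by rw [F.d_one, h.dZ]; omega),
      F.ip_d_ne F.one_mem h.hY (by rw [F.d_one, h.dY]; omega),
      F.ip_d_ne h.hZ h.hY (by rw [h.dZ, h.dY]; omega),
      F.ip_d_ne F.one_mem h.hZ (by rw [F.d_one, h.dZ]; omega),
      F.ip_d_ne h2.hY h.hZ (by rw [h.dZ, h2.dY]; omega)] at hn
    intro hKY
    rw [hKY, F.ip_self h.hY] at hn
    omega
  -- Y U' = K + Z W
  have YU' : Y * U' = K + Z * W := by
    have e : Y * (W * Y) = W * (Y * Y) := by rw [← mul_assoc, YW, mul_assoc]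
    rw [WY, mul_add, YY, mul_add, mul_add, mul_one, WW, WZ] at e
    refine F.add_cancel (1 + W + Z) _ _ ?_
    rw [e]
    abel
  have KWZ : F.ip K (Z * W) = 0 := by
    rw [F.ip_comm, F.ip_mul_right, sW, F.ip_comm, KW, F.ip_add_left,
      F.ip_d_ne h1.hY h.hZ (by rw [h.dZ, h1.dY]; omega), F.ip_d_ne hU'' h.hZ (by rw [h.dZ, dU'']; omega)]
  have YKU' : F.ip (Y * K) U' ≠ 0 := by
    rw [F.ip_mul_left, sY, YU', F.ip_add_right, F.ip_self h2.hY]; omega
  obtain ⟨T, hT, dT, eT⟩ := three_split Y K U' h.hY h2.hY h.dY h2.dY hU' dU' YKU' (by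
      intro k hk dk e
      rw [sK] at e
      have e3 : Y * K = k * (K * K) := by rw [e, mul_assoc]
      rw [KK, mul_add, mul_add, mul_one] at e3
      rw [e3, F.ip_add_left, F.ip_add_left, F.ip_d_ne hk hU' (by rw [dk, dU']; omega),
        F.ip_d_ne (F.inv_mul_mem hk dk h3.hY) hU' (by rw [F.d_mul, h3.dY, dk, dU']; omega),
        F.ip_d_ne (F.inv_mul_mem hk dk h.hZ) hU' (by rw [F.d_mul, h.dZ, dk, dU']; omega)] at YKU'
      exact YKU' rfl)
  have WU' : W * U' = T + Z * Y := by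
    have e : W * (W * Y) = (W * W) * Y := by rw [mul_assoc]
    rw [WY, mul_add, WY, WW, add_mul, add_mul, one_mul, ← YK, eT] at e
    refine F.add_cancel (Y + U') _ _ ?_
    rw [e]
    abel
  have ZYZ : F.ip (Z * Y) Z = 0 := by
    rw [F.ip_mul_left, sZ, F.ip_comm]; exact ZZY
  -- [U'U' : Y] = 0
  have U'Y : U' * Y = K + Z * W := by
    have := congrArg F.st YU'
    rw [F.st_mul, F.st_add, F.st_mul, sU', sY, sK, sW, sZ, WZ] at this
    exact this
  have U'W : U' * W = T + Z * Y := by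
    have hTs : F.st T = T := by
      have := congrArg F.st eT
      rw [F.st_mul, F.st_add, sU', sK, sY, ← YK, eT] at this
      exact (F.add_cancel _ _ _ this).symm
    have := congrArg F.st WU'
    rw [F.st_mul, F.st_add, F.st_mul, sU', sY, sZ, sW, c, hTs] at this
    exact this
  have ZWU' : F.ip (Z * W) U' = 0 := by
    rw [F.ip_mul_right, sW, U'W, F.ip_comm, F.ip_add_left, ZYZ,
      F.ip_d_ne hT h.hZ (by rw [h.dZ, dT]; omega)]
  have UUY : F.ip (U' * U') Y = 0 := by
    rw [F.ip_mul_left, sU', U'Y, F.ip_comm, F.ip_add_left, ZWU',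
      F.ip_d_ne h2.hY hU' (by rw [dU', h2.dY]; omega)]
  have UU1 : F.ip (U' * U') 1 = 1 := by
    have := F.M_one hU'
    rwa [sU'] at this
  have UUW : F.ip (U' * U') W = 0 := by
    rw [F.ip_mul_left, sU', U'W, F.ip_comm, F.ip_add_left, ZYU',
      F.ip_d_ne hT hU' (by rw [dU', dT]; omega)]
  have UUZ : F.ip (U' * U') Z = 4 := by
    have e : F.ip (Y * U') (Y * U') = 5 := by
      rw [YU', F.norm_add, F.ip_self h2.hY, KWZ, nZW]
    rw [F.norm_mul_right, sY, sU', F.ip_comm, YY, F.ip_add_right, F.ip_add_right, UU1, UUW] at e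
    omega
  have UUU : F.ip (U' * U') U' = 0 := by
    have h5 : F.ip (U' * U') U' % 3 = 0 := by
      have := F.fs3_simple hU' (F.ne_one_of_d (by omega))
      unfold ip; rw [sU']; exact this
    have := F.deg3 F.one_mem h.hZ hU' (F.ne_one_of_d (by rw [h.dZ]; omega)).symm
      (F.ne_one_of_d (by omega)).symm
      (by intro e; have := congrArg F.d e; rw [h.dZ, dU'] at this; omega) (U' * U')
    rw [UU1, UUZ, F.d_one, h.dZ, dU', F.d_mul, dU'] at this
    omega
  have disj : F.ip (Z * W) (Z * Y) = 0 := by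
    have e : F.ip (Y * U') (W * U') = 0 := by
      rw [F.ip_mul_right, sU', mul_assoc, F.ip_comm, F.ip_mul_left, sW, F.ip_comm, WY, F.ip_add_left,
        F.ip_comm Y, F.ip_comm U', UUY, UUU]
    rw [YU', WU'] at e
    simp only [F.ip_add_left, F.ip_add_right] at e
    omega
  -- final relation
  have fin : W + Z * Y + U * F.st U = Y + U' + Z + Z * W + Z * Z := by
    have e : (Y * V) * F.st (Y * V) = Y * (V * F.st V) * Y := by
      rw [F.st_mul, sY]; simp only [mul_assoc]
    have VsU : V * F.st U = W + Z * Y := by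
      have := congrArg F.st UsV
      rw [F.st_mul, F.st_st, F.st_add, sW, F.st_mul, sY, sZ] at this
      exact this
    have YYY : Y * Y * Y = Y + (Y + U') + Z * Y := by
      rw [YY, add_mul, add_mul, one_mul, WY]
    have YZY : Y * Z * Y = Z + Z * W + Z * Z := by
      rw [c, mul_assoc, YY, mul_add, mul_add, mul_one]
    rw [YV, F.st_add, add_mul, mul_add, mul_add, h.hM, UsV, VsU, mul_add, mul_add, mul_one, add_mul,
      add_mul, YYY, YZY, YY, c] at e
    refine F.add_cancel (1 + W + Z + Y + Z * Y) _ _ ?_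
    calc 1 + W + Z + Y + Z * Y + (W + Z * Y + U * F.st U)
        = 1 + Y + Z + (W + Z * Y) + (W + Z * Y + U * F.st U) := by abel
      _ = _ := e
      _ = _ := by abel
  -- decompose Z Y
  obtain ⟨s, hs⟩ := F.split h.hY (x := Z * Y) (by omega)
  have hsY : F.ip s Y = 0 := by
    rw [hs, F.ip_add_left, F.ip_self h.hY] at ZYY; omega
  have hns : F.ip s s = 3 := by
    rw [hs, F.norm_split h.hY hsY] at nZY; omega
  have hds : F.d s = 12 := by
    have := congrArg F.d hs
    rw [F.d_mul, F.d_add, h.dZ, h.dY] at this; omega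
  obtain ⟨a, b, e, ha, hb, he, hab, hae, hbe, habe⟩ := F.norm_three hns
  have hin : ∀ z ∈ F.S, F.ip s z ≠ 0 → F.ip (Z * Z) z ≠ 0 ∧ z ≠ 1 ∧ z ≠ Z := by
    intro z hz hsz
    have i0 : F.ip (Z * Y) z ≠ 0 := by rw [hs, F.ip_add_left]; omega
    have nY : z ≠ Y := by rintro rfl; exact hsz hsY
    have nZ : z ≠ Z := by rintro rfl; exact i0 ZYZ
    have nU : z ≠ U' := by rintro rfl; exact i0 ZYU'
    have i1 : F.ip (Z * W) z = 0 := by
      by_contra hc
      obtain ⟨y1, hy1⟩ := F.split hz hc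
      obtain ⟨y2, hy2⟩ := F.split hz i0
      rw [hy1, hy2, F.ip_add_left, F.ip_add_right, F.ip_self hz] at disj
      omega
    have n1 : z ≠ 1 := by
      rintro rfl
      exact i0 (F.ip_mul_one h.hZ h.hY F.one_mem F.d_one (by rw [h.dZ, h.dY]; omega))
    refine ⟨?_, n1, nZ⟩
    have := congrArg (fun x => F.ip x z) fin
    simp only [F.ip_add_left] at this
    rw [F.ip_ne h.hY hz nY.symm, F.ip_ne hU' hz nU.symm, F.ip_ne h.hZ hz nZ.symm, i1] at this
    omega
  obtain ⟨ja, na1, naZ⟩ := hin a ha (by rw [habe, F.ip_add_left, F.ip_add_left, F.ip_self ha]; omega)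
  obtain ⟨jb, nb1, nbZ⟩ := hin b hb (by rw [habe, F.ip_add_left, F.ip_add_left, F.ip_self hb]; omega)
  obtain ⟨je, ne1, neZ⟩ := hin e he (by rw [habe, F.ip_add_left, F.ip_add_left, F.ip_self he]; omega)
  classical
  have hsum := F.deg_sum {Z, a, b, e} (by
    intro x hx
    simp only [Finset.mem_insert, Finset.mem_singleton] at hx
    rcases hx with rfl | rfl | rfl | rfl
    exacts [h.hZ, ha, hb, he]) (Z * Z)
  rw [Finset.sum_insert (by simp [naZ.symm, nbZ.symm, neZ.symm]),
    Finset.sum_insert (by simp [hab, hae]), Finset.sum_pair hbe, ZZZ, h.dZ, F.d_mul, h.dZ] at hsum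
  have hda : F.d a + F.d b + F.d e = 12 := by
    rw [habe, F.d_add, F.d_add] at hds; omega
  have ka : F.d a ≤ F.ip (Z * Z) a * F.d a := Nat.le_mul_of_pos_left _ (by omega)
  have kb : F.d b ≤ F.ip (Z * Z) b * F.d b := Nat.le_mul_of_pos_left _ (by omega)
  have ke : F.d e ≤ F.ip (Z * Z) e * F.d e := Nat.le_mul_of_pos_left _ (by omega)
  omega

/-- the case `V V* = 1 + 3 + 5` does not occur -/
theorem YZ.false {V Y Z : E} (h : F.YZ V Y Z) : False := by
  obtain ⟨W, h1⟩ := h.next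
  obtain ⟨K, h2⟩ := h1.next
  obtain ⟨L, h3⟩ := h2.next
  by_cases c1 : Y * Z = Z * Y
  · exact h.comm_false h1 c1
  · by_cases c2 : W * Z = Z * W
    · exact h1.comm_false h2 c2
    · exact YZ.NC h h1 h2 ⟨L, h3⟩ c1 c2

end Fus

end Run7.h2
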