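import Pool.Agent.Run7.h2.Stab
import Pool.Agent.Run7.h2.Fus18

/-!
The fusion semiring of characters of a semisimple Hopf algebra of dimension prime to three.
-/

namespace Run7.h2

open Coalgebra HopfAlgebra TensorProduct WithConv Module

universe u v w x

variable {k : Type u} [Field k] [IsAlgClosed k] [CharZero k] {H : Type v} [Ring H] [HopfAlgebra k H]
  [FiniteDimensional k H] {I : Type} [Fintype I] [DecidableEq I] {d : I → ℕ} (e : H ≃ₐ[k] Bl k d)
  [∀ i, NeZero (d i)]

omit [IsAlgClosed k] [CharZero k] [FiniteDimensional k H] [Fintype I] [DecidableEq I]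
  [∀ i, NeZero (d i)] in
lemma X_one (i : I) : X e i 1 = d i := by
  change ch e i 1 = d i
  rw [ch_apply, map_one, Matrix.trace_one, Fintype.card_fin]

omit [IsAlgClosed k] [CharZero k] [FiniteDimensional k H] [Fintype I] [DecidableEq I]
  [∀ i, NeZero (d i)] in
lemma wc_add_apply (f g : WithConv (H →ₗ[k] k)) (x : H) : (f + g) x = f x + g x := rfl

omit [IsAlgClosed k] [CharZero k] [FiniteDimensional k H] [Fintype I] [DecidableEq I]
  [∀ i, NeZero (d i)] in
lemma wc_sum_apply {J : Type*} (s : Finset J) (m : J → ℕ) (f : J → WithConv (H →ₗ[k] k)) (x : H) :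
    (∑ i ∈ s, m i • f i) x = ∑ i ∈ s, (m i : k) * f i x := by
  classical
  induction s using Finset.induction_on with
  | empty => simp
  | insert a s ha ih =>
    rw [Finset.sum_insert ha, Finset.sum_insert ha, wc_add_apply, ih]
    congr 1
    change (m a • (f a).ofConv) x = _
    rw [LinearMap.smul_apply, nsmul_eq_mul]

omit [IsAlgClosed k] [FiniteDimensional k H] [∀ i, NeZero (d i)] [DecidableEq I] in
lemma IsChar.one_nat {f : WithConv (H →ₗ[k] k)} (hf : IsChar e f) : ∃ n : ℕ, f 1 = n := by
  obtain ⟨m, rfl⟩ := hf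
  refine ⟨∑ i, m i * d i, ?_⟩
  rw [wc_sum_apply]
  push_cast
  apply Finset.sum_congr rfl
  intro i _
  rw [X_one]

omit [IsAlgClosed k] [FiniteDimensional k H] in
lemma IsChar.coord {f : WithConv (H →ₗ[k] k)} (hf : IsChar e f) (i : I) :
    ∃ n : ℕ, f (En e i) = n := by
  obtain ⟨m, rfl⟩ := hf
  refine ⟨m i, ?_⟩
  rw [wc_sum_apply, Finset.sum_eq_single i]
  · change (m i : k) * ch e i (En e i) = m i
    rw [ch_En, if_pos rfl, mul_one]
  · intro j _ hj
    change (m j : k) * ch e j (En e i) = 0
    rw [ch_En, if_neg hj, mul_zero]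
  · simp

/-- an algebra homomorphism to the base field from a block of degree one -/
lemma exists_hom {i : I} (hd : d i = 1) : ∃ G : H →ₐ[k] k, toConv G.toLinearMap = X e i := by
  haveI hu : Unique (Fin (d i)) := by rw [hd]; infer_instance
  have h1 : ch e i 1 = 1 := by
    have := X_one e i
    rw [hd, Nat.cast_one] at this
    exact this
  have hmul : ∀ a b, ch e i (a * b) = ch e i a * ch e i b := by
    intro a b
    rw [ch_apply, ch_apply, ch_apply, map_mul, Matrix.trace, Matrix.trace, Matrix.trace,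
      Fintype.sum_unique, Fintype.sum_unique, Fintype.sum_unique, Matrix.diag_apply,
      Matrix.diag_apply, Matrix.diag_apply, Matrix.mul_apply, Fintype.sum_unique]
  exact ⟨AlgHom.ofLinearMap (ch e i) h1 hmul, rfl⟩

variable {L : H} (hL : IsInt k L)

include hL in
/-- a character of norm one is irreducible -/
lemma IsInt.irred {f : WithConv (H →ₗ[k] k)} (hf : IsChar e f) (h : (f * st f) L = 1) :
    ∃ i, f = X e i := by
  obtain ⟨m, rfl⟩ := hf
  have h1 : ((∑ i, m i • X e i) * st (∑ i, m i • X e i)) L = ∑ i, (m i : k) * m i := by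
    have h2 : ∀ s : Finset I, Run7.h2.st (∑ i ∈ s, m i • X e i) =
        ∑ i ∈ s, m i • Run7.h2.st (X e i) := by
      intro s
      induction s using Finset.induction_on with
      | empty => apply WithConv.ext; ext; rfl
      | insert a s ha ih => rw [Finset.sum_insert ha, Finset.sum_insert ha, st_add, ih]; rfl
    rw [h2, Finset.sum_mul_sum]
    have h3 : ∀ i : I, (∑ j, m i • X e i * m j • Run7.h2.st (X e j)) =
        ∑ j, (m i * m j) • (X e i * Run7.h2.st (X e j)) := by
      intro i
      apply Finset.sum_congr rfl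
      intro j _
      rw [smul_mul_smul_comm]
    simp only [h3]
    have h4 : ∀ (s : Finset I) (g : I → WithConv (H →ₗ[k] k)), (∑ i ∈ s, g i) L =
        ∑ i ∈ s, g i L := by
      intro s g
      induction s using Finset.induction_on with
      | empty => simp
      | insert a s ha ih => rw [Finset.sum_insert ha, Finset.sum_insert ha, wc_add_apply, ih]
    rw [h4]
    apply Finset.sum_congr rfl
    intro i _
    rw [wc_sum_apply Finset.univ (fun j => m i * m j) (fun j => X e i * Run7.h2.st (X e j)),
      Finset.sum_eq_single i]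
    · rw [hL.orth_self]; push_cast; ring
    · intro j _ hj
      rw [hL.orth_ne e (Ne.symm hj), mul_zero]
    · simp
  rw [h1] at h
  have h5 : ∑ i, m i * m i = 1 := by exact_mod_cast h
  obtain ⟨i, hi⟩ : ∃ i, m i ≠ 0 := by
    by_contra hcon
    push Not at hcon
    simp [hcon] at h5
  refine ⟨i, ?_⟩
  have h6 := Finset.add_sum_erase Finset.univ (fun i => m i * m i) (Finset.mem_univ i)
  rw [h5] at h6
  have h7 : 1 ≤ m i * m i := Nat.one_le_iff_ne_zero.2 (mul_ne_zero hi hi)
  have h8 : ∑ j ∈ Finset.univ.erase i, m j * m j = 0 := by omega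
  have h9 : m i * m i = 1 := by omega
  have h10 : m i = 1 := by
    rcases Nat.eq_one_of_mul_eq_one_right h9 with h; exact h
  rw [Finset.sum_eq_single i]
  · rw [h10, one_smul]
  · intro j _ hj
    have := (Finset.sum_eq_zero_iff_of_nonneg (fun _ _ => Nat.zero_le _)).1 h8 j
      (Finset.mem_erase.2 ⟨hj, Finset.mem_univ j⟩)
    have h11 : m j = 0 := by simpa using this
    rw [h11, zero_smul]
  · simp

/-- degree -/
noncomputable def dg (f : charSR e) : ℕ := Classical.choose (IsChar.one_nat e f.2)

lemma dg_spec (f : charSR e) : f.1 1 = (dg e f : k) := Classical.choose_spec (IsChar.one_nat e f.2)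

/-- multiplicity of the trivial character -/
noncomputable def tr {i0 : I} (f : charSR e) : ℕ :=
  Classical.choose (IsChar.coord e f.2 i0)

lemma tr_spec {i0 : I} (f : charSR e) : f.1 (En e i0) = (tr e (i0 := i0) f : k) :=
  Classical.choose_spec (IsChar.coord e f.2 i0)

omit [IsAlgClosed k] [CharZero k] [FiniteDimensional k H] in
lemma cv_one (f g : WithConv (H →ₗ[k] k)) : (f * g) 1 = f 1 * g 1 := by
  change (LinearMap.mul' k k ∘ₗ TensorProduct.map f.ofConv g.ofConv ∘ₗ comul) 1 = _
  simp only [LinearMap.comp_apply]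
  have : comul (R := k) (1 : H) = 1 ⊗ₜ 1 := Bialgebra.comul_one
  rw [this]
  rfl


/-- **the fusion semiring of characters** -/
noncomputable def fusH {i0 : I} (h0 : ∀ h, ch e i0 h = counit (R := k) h) (hL : IsInt k (En e i0))
    (hn : ¬ 3 ∣ finrank k H) : Fus (charSR e) where
  S := {f | ∃ i, f.1 = X e i}
  st f := ⟨st f.1, f.2.st e⟩
  d f := dg e f
  t f := tr e (i0 := i0) f
  add_cancel a b c h := by
    apply Subtype.ext
    have := congrArg Subtype.val h
    exact add_left_cancel this
  d_one := by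
    have h := dg_spec e 1
    have h1 : (1 : charSR e).1 1 = (1 : k) := by
      change counit (R := k) (1 : H) = 1
      rw [Bialgebra.counit_one]
    rw [h1] at h
    exact_mod_cast h.symm
  d_zero := by
    have h := dg_spec e 0
    have h1 : (0 : charSR e).1 1 = (0 : k) := rfl
    rw [h1] at h
    exact_mod_cast h.symm
  d_add a b := by
    have h := dg_spec e (a + b)
    have h1 : (a + b).1 1 = a.1 1 + b.1 1 := rfl
    rw [h1, dg_spec, dg_spec] at h
    exact_mod_cast h.symm
  d_mul a b := by
    have h := dg_spec e (a * b)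
    have h1 : (a * b).1 1 = a.1 1 * b.1 1 := cv_one _ _
    rw [h1, dg_spec, dg_spec] at h
    exact_mod_cast h.symm
  d_st a := by
    have h := dg_spec e ⟨st a.1, a.2.st e⟩
    have h1 : (st a.1) 1 = a.1 1 := by rw [st_apply, antipode_one]
    rw [h1, dg_spec] at h
    exact_mod_cast h.symm
  t_zero := by
    have h := tr_spec e (i0 := i0) 0
    have h1 : (0 : charSR e).1 (En e i0) = (0 : k) := rfl
    rw [h1] at h
    exact_mod_cast h.symm
  t_add a b := by
    have h := tr_spec e (i0 := i0) (a + b)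
    have h1 : (a + b).1 (En e i0) = a.1 (En e i0) + b.1 (En e i0) := rfl
    rw [h1, tr_spec, tr_spec] at h
    exact_mod_cast h.symm
  t_comm a b := by
    have h := tr_spec e (i0 := i0) (a * b)
    have h1 : (a * b).1 (En e i0) = (b * a).1 (En e i0) := hL.t_comm e _ _
    rw [h1, tr_spec] at h
    exact_mod_cast h.symm
  t_st a := by
    have h := tr_spec e (i0 := i0) ⟨st a.1, a.2.st e⟩
    have h1 : (st a.1) (En e i0) = a.1 (En e i0) := hL.st_L e _
    rw [h1, tr_spec] at h
    exact_mod_cast h.symm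
  st_add a b := Subtype.ext (st_add _ _)
  st_mul a b := Subtype.ext (st_mul _ _)
  st_st a := Subtype.ext (hL.st_st e _)
  one_mem := by
    refine ⟨i0, ?_⟩
    apply WithConv.ext
    ext h
    exact (h0 h).symm
  st_mem := by
    rintro a ⟨i, hi⟩
    apply hL.irred e (a.2.st e)
    rw [hL.st_st e, hL.t_comm e, hi]
    exact hL.orth_self e i
  d_pos := by
    rintro a ⟨i, hi⟩
    have h := dg_spec e a
    rw [hi, X_one] at h
    have h1 : d i = dg e a := by exact_mod_cast h
    rw [← h1]
    exact Nat.pos_of_ne_zero (NeZero.ne _)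
  orth_self := by
    rintro a ⟨i, hi⟩
    have h := tr_spec e (i0 := i0) (a * ⟨st a.1, a.2.st e⟩)
    have h1 : (a * ⟨st a.1, a.2.st e⟩ : charSR e).1 (En e i0) = 1 := by
      change (a.1 * st a.1) (En e i0) = 1
      rw [hi]; exact hL.orth_self e i
    rw [h1] at h
    exact_mod_cast h.symm
  orth_ne := by
    rintro a ⟨i, hi⟩ b ⟨j, hj⟩ hab
    have hij : i ≠ j := by
      rintro rfl
      exact hab (Subtype.ext (by rw [hi, hj]))
    have h := tr_spec e (i0 := i0) (a * ⟨st b.1, b.2.st e⟩)
    have h1 : (a * ⟨st b.1, b.2.st e⟩ : charSR e).1 (En e i0) = 0 := by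
      change (a.1 * st b.1) (En e i0) = 0
      rw [hi, hj]; exact hL.orth_ne e hij
    rw [h1] at h
    exact_mod_cast h.symm
  gen := by
    rintro ⟨f, m, hm⟩
    refine ⟨∑ i, Multiset.replicate (m i) (⟨X e i, isChar_X e i⟩ : charSR e), ?_, ?_⟩
    · intro a ha
      rw [Multiset.mem_sum] at ha
      obtain ⟨i, _, hi⟩ := ha
      exact ⟨i, by rw [Multiset.eq_of_mem_replicate hi]⟩
    · rw [Multiset.sum_sum]
      simp only [Multiset.sum_replicate]
      apply Subtype.ext
      rw [AddSubmonoidClass.coe_finsetSum]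
      exact hm.symm
  fs3 := by
    intro x
    have h1 := tr_spec e (i0 := i0) (x ^ 3)
    exact hL.frob e Nat.prime_three hn x.2 (tr_spec e x) h1
  f3 := by
    rintro h ⟨i, hi⟩ hd x ⟨j, hj⟩ hx
    have h1 := dg_spec e h
    rw [hi, X_one] at h1
    have h2 : d i = dg e h := by exact_mod_cast h1
    obtain ⟨G, hG⟩ := exists_hom e (i := i) (by rw [h2]; exact hd)
    have h3 : dg e x = d j := by
      have h4 := dg_spec e x
      rw [hj, X_one] at h4
      exact_mod_cast h4.symm
    have h5 := hL.stab e G j (by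
      rw [hG, ← hi, ← hj]
      exact congrArg Subtype.val hx)
    apply Subtype.ext
    change h.1 ^ (dg e x) = 1
    rw [h3, hi, ← hG]
    exact h5
  fin_ord := by
    rintro h ⟨i, hi⟩ hd
    have h1 := dg_spec e h
    rw [hi, X_one] at h1
    have h2 : d i = dg e h := by exact_mod_cast h1
    obtain ⟨G, hG⟩ := exists_hom e (i := i) (by rw [h2]; exact hd)
    obtain ⟨m, hm, hm1⟩ := exists_pow_eq_one G
    refine ⟨m, hm, ?_⟩
    apply Subtype.ext
    change h.1 ^ m = 1
    rw [hi, ← hG]
    exact hm1

include e in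
/-- a block of degree three yields a block of degree eight -/
theorem exists_eight (hn : ¬ 3 ∣ finrank k H) {j : I} (hj : d j = 3) :
    ∃ i i0, d i = 8 ∧ d i0 = 1 ∧ i ≠ i0 ∧ X e i0 = 1 ∧ X e j * st (X e j) = 1 + X e i := by
  obtain ⟨i0, hd0, h0, hL⟩ := exists_triv e
  set F := fusH e h0 hL hn with hF
  set V : charSR e := ⟨X e j, isChar_X e j⟩ with hV
  have hVS : V ∈ F.S := ⟨j, rfl⟩
  have hdV : F.d V = 3 := by
    have h1 := dg_spec e V
    have h2 : V.1 1 = (d j : k) := X_one e j
    rw [h2, hj] at h1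
    have h3 : 3 = dg e V := by exact_mod_cast h1
    exact h3.symm
  obtain ⟨W, ⟨i, hi⟩, hdW, hVW⟩ := F.main3 hVS hdV
  have h1 := dg_spec e W
  rw [hi, X_one] at h1
  have h2 : d i = dg e W := by exact_mod_cast h1
  have h3 : d i = 8 := by rw [h2]; exact hdW
  refine ⟨i, i0, h3, hd0, by rintro rfl; omega, ?_, ?_⟩
  · apply WithConv.ext
    ext h
    exact h0 h
  · have h4 := congrArg Subtype.val hVW
    change X e j * st (X e j) = 1 + W.1 at h4
    rw [h4, hi]

end Run7.h2
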