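import Pool.Agent.Run7.h2.FusH

/-!
From modules to blocks and back.
-/

namespace Run7.h2

open Coalgebra HopfAlgebra TensorProduct WithConv Module

universe u v w x

section alg

variable {k : Type u} [Field k] {H : Type v} [Ring H] [Algebra k H]
  {I : Type} [Fintype I] [DecidableEq I] {d : I → ℕ} (e : H ≃ₐ[k] Bl k d) [∀ i, NeZero (d i)]
  {V : Type w} [AddCommGroup V] [Module k V] [Module H V] [IsScalarTower k H V]

omit [Fintype I] in
lemma block_of_vec [IsSimpleModule H V] (j : I) (w : V) (hw : En e j • w = w) (hw0 : w ≠ 0) :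
    ∃ T : (Fin (d j) → k) ≃ₗ[k] V, ∀ h c, T ((rho e j h).mulVec c) = h • T c := by
  set r : H →ₐ[k] End k V := Algebra.lsmul k k V with hr
  have hinj : Function.Injective (intw e r j w) := intw_inj e r j hw hw0
  have hcomm : ∀ h c, intw e r j w ((rho e j h).mulVec c) = h • intw e r j w c :=
    fun h c => intw_comm e r j w h c
  let N : Submodule H V :=
    { carrier := Set.range (intw e r j w)
      add_mem' := by
        rintro _ _ ⟨a, rfl⟩ ⟨b, rfl⟩
        exact ⟨a + b, map_add _ _ _⟩
      zero_mem' := ⟨0, map_zero _⟩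
      smul_mem' := by
        rintro h _ ⟨c, rfl⟩
        exact ⟨(rho e j h).mulVec c, hcomm h c⟩ }
  have hN : N ≠ ⊥ := by
    intro h0
    have h1 : intw e r j w (fun _ => 1) ∈ N := ⟨_, rfl⟩
    rw [h0, Submodule.mem_bot] at h1
    have h2 := hinj (h1.trans (map_zero _).symm)
    have h3 := congrFun h2 (0 : Fin (d j))
    exact one_ne_zero h3
  have hT : N = ⊤ := (eq_bot_or_eq_top N).resolve_left hN
  have hsurj : Function.Surjective (intw e r j w) := by
    intro y
    have : y ∈ N := by rw [hT]; trivial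
    exact this
  exact ⟨LinearEquiv.ofBijective (intw e r j w) ⟨hinj, hsurj⟩, hcomm⟩

lemma simple_block [IsSimpleModule H V] :
    ∃ j, ∃ T : (Fin (d j) → k) ≃ₗ[k] V, ∀ h c, T ((rho e j h).mulVec c) = h • T c := by
  have : Nontrivial V := IsSimpleModule.nontrivial H V
  obtain ⟨j, hj⟩ := exists_En_ne e (Algebra.lsmul k k V : H →ₐ[k] End k V)
  obtain ⟨v0, hv0⟩ : ∃ v0 : V, En e j • v0 ≠ 0 := by
    by_contra hcon
    push Not at hcon
    exact hj (LinearMap.ext hcon)
  refine ⟨j, block_of_vec e j (En e j • v0) ?_ hv0⟩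
  rw [← mul_smul, En_idem]

omit [Fintype I] in
lemma En_ne (i : I) : En e i ≠ 0 := by
  intro h
  have h1 := ch_En e i i
  rw [h, map_zero, if_pos rfl] at h1
  exact zero_ne_one h1

omit [Fintype I] in
lemma mu_mul_right (i : I) (h : H) (q p : Fin (d i)) :
    mu e i q p * h = ∑ r, (rho e i h) p r • mu e i q r := by
  apply ext_rho e
  intro l
  rw [map_mul, map_sum]
  simp only [map_smul]
  by_cases hl : l = i
  · subst hl
    simp only [rho_mu]
    ext a b
    simp [Matrix.sum_apply, Matrix.mul_apply, Matrix.single_apply, ite_and]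
  · simp [rho_mu_ne e hl]

omit [Fintype I] in
/-- the minimal left ideal attached to a block -/
lemma simple_ideal (i : I) : IsSimpleModule H (Submodule.span H {En e i}) := by
  rw [isSimpleModule_iff_isAtom]
  constructor
  · intro h0
    have : En e i ∈ (⊥ : Submodule H H) := by rw [← h0]; exact Submodule.mem_span_singleton_self _
    exact En_ne e i ((Submodule.mem_bot H).1 this)
  · intro N hN
    by_contra hne
    obtain ⟨x, hx, hx0⟩ := (Submodule.ne_bot_iff N).1 hne
    obtain ⟨a, ha⟩ := Submodule.mem_span_singleton.1 (hN.le hx)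
    rw [smul_eq_mul, En, mul_mu] at ha
    obtain ⟨q, hq⟩ : ∃ q, (rho e i a) q 0 ≠ 0 := by
      by_contra hcon
      push Not at hcon
      apply hx0
      rw [← ha]
      simp [hcon]
    have h1 : mu e i 0 q * x = (rho e i a) q 0 • En e i := by
      rw [← ha, Finset.mul_sum, Finset.sum_eq_single q]
      · rw [mul_smul_comm, mu_mul]; rfl
      · intro p _ hp
        rw [mul_smul_comm, mu_mul_zero e i (Ne.symm hp), smul_zero]
      · simp
    have h2 : (rho e i a) q 0 • En e i ∈ N := by
      rw [← h1]; exact N.smul_mem _ hx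
    have h3 : En e i ∈ N := by
      have h4 : En e i = (algebraMap k H ((rho e i a) q 0)⁻¹) * ((rho e i a) q 0 • En e i) := by
        rw [← Algebra.smul_def, smul_smul, inv_mul_cancel₀ hq, one_smul]
      rw [h4]
      exact N.smul_mem _ h2
    have h5 : Submodule.span H {En e i} ≤ N := by
      rw [Submodule.span_singleton_le_iff_mem]; exact h3
    exact absurd hN (not_lt_of_ge h5)

omit [Fintype I] in
lemma ideal_block (i : I) : ∃ T : (Fin (d i) → k) ≃ₗ[k] (Submodule.span H {En e i}),
    ∀ h c, T ((rho e i h).mulVec c) = h • T c := by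
  have := simple_ideal e i
  refine block_of_vec e i ⟨En e i, Submodule.mem_span_singleton_self _⟩ ?_ ?_
  · apply Subtype.ext
    exact En_idem e i
  · intro h
    exact En_ne e i (congrArg Subtype.val h)

omit [Fintype I] [DecidableEq I] [∀ i, NeZero (d i)] in
lemma chi_of_equiv {j : I} (T : (Fin (d j) → k) ≃ₗ[k] V)
    (hT : ∀ h c, T ((rho e j h).mulVec c) = h • T c) (h : H) :
    LinearMap.trace k V (Algebra.lsmul k k V h) = ch e j h := by
  have h1 : (Algebra.lsmul k k V h : End k V) = T.conj (Matrix.toLin' (rho e j h)) := by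
    apply LinearMap.ext
    intro x
    rw [LinearEquiv.conj_apply_apply, Matrix.toLin'_apply, hT, LinearEquiv.apply_symm_apply]
    rfl
  rw [h1, LinearMap.trace_conj', Matrix.trace_toLin'_eq]
  rfl

end alg

variable {k : Type u} [Field k] [IsAlgClosed k] [CharZero k] {H : Type v} [Ring H] [HopfAlgebra k H]
  [FiniteDimensional k H]

/-- **main theorem** -/
theorem main_mod [IsSemisimpleRing H] {V : Type w} [AddCommGroup V] [Module k V] [Module H V]
    [IsScalarTower k H V] [IsSimpleModule H V] (hV : finrank k V = 3) (hn : ¬ 3 ∣ finrank k H) :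
    ∃ W : Submodule H H, IsSimpleModule H W ∧ finrank k W = 8 ∧
      ∃ β : W →ₗ[k] V →ₗ[k] V, β ≠ 0 ∧ ∀ (h : H) (w : W) (v : V),
        h • β w v = ∑ l ∈ (ℛ k h).index, β ((ℛ k h).left l • w) ((ℛ k h).right l • v) := by
  obtain ⟨n, d, hd, ⟨e⟩⟩ := IsSemisimpleRing.exists_algEquiv_pi_matrix_of_isAlgClosed k H
  obtain ⟨j, T, hT⟩ := simple_block (V := V) e
  have hj : d j = 3 := by
    rw [← hV, ← T.finrank_eq, finrank_fin_fun]
  have : FiniteDimensional k V := Module.Finite.equiv T
  obtain ⟨i, i0, hi, hi0, hne, h1, hXX⟩ := exists_eight e hn hj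
  obtain ⟨W, hS, TW, hTW⟩ : ∃ W : Submodule H H, IsSimpleModule H W ∧
      ∃ T : (Fin (d i) → k) ≃ₗ[k] W, ∀ h c, T ((rho e i h).mulVec c) = h • T c :=
    ⟨_, simple_ideal e i, ideal_block e i⟩
  have : FiniteDimensional k W := Module.Finite.equiv TW
  refine ⟨W, hS, ?_, ?_⟩
  · rw [← TW.finrank_eq, finrank_fin_fun, hi]
  set rW : H →ₐ[k] End k W := Algebra.lsmul k k W with hrW
  set rV : H →ₐ[k] End k V := Algebra.lsmul k k V with hrV
  have cW : toConv (chi rW) = X e i := by
    apply WithConv.ext
    ext h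
    exact chi_of_equiv e TW hTW h
  have cV : toConv (chi rV) = X e j := by
    apply WithConv.ext
    ext h
    exact chi_of_equiv e T hT h
  -- the multiplicity
  obtain ⟨i1, _, h0, hL⟩ := exists_triv e
  have hstXi : st (X e i) = X e i := by
    have h2 := congrArg (st (k := k) (H := H)) hXX
    rw [st_mul, hL.st_st e, hXX, st_add] at h2
    have h3 : st (1 : WithConv (H →ₗ[k] k)) = 1 := by
      apply WithConv.ext
      ext h
      exact counit_antipode h
    rw [h3] at h2
    exact (add_left_cancel h2).symm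
  have hmult : (X e i * X e j) (En e j) ≠ 0 := by
    obtain ⟨m, hm⟩ := isChar_X_mul e i j
    have h2 : (X e i * X e j) (En e j) = (m j : k) := by
      rw [hm, wc_sum_apply, Finset.sum_eq_single j]
      · change (m j : k) * ch e j (En e j) = m j
        rw [ch_En, if_pos rfl, mul_one]
      · intro l _ hl
        change (m l : k) * ch e l (En e j) = 0
        rw [ch_En, if_neg hl, mul_zero]
      · simp
    have h3 : ((X e i * X e j) * st (X e j)) (En e i1) = (m j : k) := by
      rw [hm, Finset.sum_mul]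
      have h4 : ∀ l, m l • X e l * st (X e j) = m l • (X e l * st (X e j)) :=
        fun l => smul_mul_assoc _ _ _
      simp only [h4]
      rw [wc_sum_apply Finset.univ m (fun l => X e l * st (X e j)), Finset.sum_eq_single j]
      · rw [hL.orth_self, mul_one]
      · intro l _ hl
        rw [hL.orth_ne e hl, mul_zero]
      · simp
    rw [mul_assoc, hXX, mul_add, mul_one, wc_add_apply] at h3
    have h5 : (X e i * X e i) (En e i1) = 1 := by
      have := hL.orth_self e i
      rwa [hstXi] at this
    have h6 : X e i (En e i1) = 0 := by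
      have h7 := hL.orth_ne e hne
      rw [h1] at h7
      have h3 : st (1 : WithConv (H →ₗ[k] k)) = 1 := by
        apply WithConv.ext
        ext h
        exact counit_antipode h
      rwa [h3, mul_one] at h7
    rw [h5, h6, zero_add] at h3
    rw [h2, ← h3]
    exact one_ne_zero
  set R := tens rW rV with hR
  have hRne : R (En e j) ≠ 0 := by
    intro h2
    apply hmult
    have h3 : toConv (chi R) = X e i * X e j := by rw [hR, chi_tens, cW, cV]
    rw [← h3]
    change LinearMap.trace k _ (R (En e j)) = 0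
    rw [h2, map_zero]
  obtain ⟨m0, hm0⟩ : ∃ m0, R (En e j) m0 ≠ 0 := by
    by_contra hcon
    push Not at hcon
    exact hRne (LinearMap.ext hcon)
  obtain ⟨f, hf⟩ : ∃ f : Module.Dual k (W ⊗[k] V), f (R (En e j) m0) ≠ 0 := by
    by_contra hcon
    push Not at hcon
    exact hm0 ((Module.forall_dual_apply_eq_zero_iff k _).1 hcon)
  let π : (W ⊗[k] V) →ₗ[k] (Fin (d j) → k) :=
    LinearMap.pi (fun p => f ∘ₗ (R (mu e j 0 p) : End k (W ⊗[k] V)))
  have hπ : ∀ (m : W ⊗[k] V) (p : Fin (d j)), π m p = f (R (mu e j 0 p) m) := fun m p => rfl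
  have hπc : ∀ h m, π (R h m) = (rho e j h).mulVec (π m) := by
    intro h m
    funext p
    rw [hπ, ← Module.End.mul_apply, ← map_mul, mu_mul_right e j h 0 p, map_sum, LinearMap.sum_apply,
      map_sum]
    simp only [Matrix.mulVec, dotProduct]
    apply Finset.sum_congr rfl
    intro q _
    rw [map_smul, LinearMap.smul_apply, map_smul, hπ, smul_eq_mul]
  refine ⟨TensorProduct.curry (T.toLinearMap ∘ₗ π), ?_, ?_⟩
  · intro h2
    have h3 : T.toLinearMap ∘ₗ π = 0 := by
      apply TensorProduct.ext'
      intro w v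
      have := congrArg (fun g => g w v) h2
      simpa using this
    apply hf
    have h4 : T (π m0) = 0 := congrArg (fun g => g m0) h3
    have h5 : π m0 = 0 := T.map_eq_zero_iff.1 h4
    have h6 := congrFun h5 0
    exact h6
  · intro h w v
    change h • T (π (w ⊗ₜ v)) = _
    rw [← hT, ← hπc]
    have h2 : R h (w ⊗ₜ v) = ∑ l ∈ (ℛ k h).index,
        ((ℛ k h).left l • w) ⊗ₜ[k] ((ℛ k h).right l • v) := by
      rw [hR, tens_apply, ← (ℛ k h).eq, map_sum, LinearMap.sum_apply]
      rfl
    rw [h2, map_sum, map_sum]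
    rfl

end Run7.h2
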