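import Mathlib

/-!
Two-sided integrals in Hopf algebras: basic identities.
-/

namespace Run7.h2

open Coalgebra HopfAlgebra TensorProduct WithConv

universe u v w

variable {k : Type u} [Field k] {H : Type v} [Ring H] [HopfAlgebra k H]

/-- Λ is a two-sided normalised integral. -/
structure IsInt (k : Type u) [Field k] {H : Type v} [Ring H] [HopfAlgebra k H] (L : H) : Prop where
  left : ∀ h : H, h * L = counit (R := k) h • L
  right : ∀ h : H, L * h = counit (R := k) h • L
  one : counit (R := k) L = 1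

/-- the two embeddings of `H` in `H ⊗ H` and the comultiplication, in the convolution ring -/
noncomputable abbrev iL : H →ₐ[k] H ⊗[k] H := Algebra.TensorProduct.includeLeft
noncomputable abbrev iR : H →ₐ[k] H ⊗[k] H := Algebra.TensorProduct.includeRight

lemma cv_apply {B : Type w} [Ring B] [Algebra k B] (f g : H →ₗ[k] B) (h : H) :
    (toConv f * toConv g) h = ∑ i ∈ (ℛ k h).index, f ((ℛ k h).left i) * g ((ℛ k h).right i) :=
  (ℛ k h).convMul_apply _ _

lemma cv_one_apply {B : Type w} [Ring B] [Algebra k B] (h : H) :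
    (1 : WithConv (H →ₗ[k] B)) h = algebraMap k B (counit h) := rfl

lemma sum_smul_counit {h : H} {ι : Type*} (R : Repr k h ι) :
    ∑ i ∈ R.index, counit (R := k) (R.right i) • R.left i = h := by
  have := sum_tmul_counit_eq (R := k) R
  have := congrArg (TensorProduct.rid k H) this
  simpa only [map_sum, TensorProduct.rid_tmul, one_smul] using this

lemma conv_comul : (toConv (comul (R := k) (A := H))) =
    toConv (iL (k := k) (H := H)).toLinearMap * toConv (iR (k := k) (H := H)).toLinearMap := by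
  ext h
  change _ = (toConv (iL (k := k) (H := H)).toLinearMap * toConv (iR (k := k) (H := H)).toLinearMap) h
  rw [cv_apply]
  simp only [AlgHom.toLinearMap_apply, Algebra.TensorProduct.includeLeft_apply,
    Algebra.TensorProduct.includeRight_apply, Algebra.TensorProduct.tmul_mul_tmul, mul_one, one_mul]
  exact (ℛ k h).eq.symm

lemma conv_S_mul {B : Type w} [Ring B] [Algebra k B] (f : H →ₐ[k] B) :
    toConv (f.toLinearMap ∘ₗ antipode k) * toConv f.toLinearMap = 1 := by
  ext h
  change (toConv (f.toLinearMap ∘ₗ antipode k) * toConv f.toLinearMap) h = _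
  rw [cv_apply]
  simp only [LinearMap.comp_apply, AlgHom.toLinearMap_apply, ← map_mul, ← map_sum,
    sum_antipode_mul_eq_algebraMap_counit (ℛ k h)]
  simp

lemma conv_mul_S {B : Type w} [Ring B] [Algebra k B] (f : H →ₐ[k] B) :
    toConv f.toLinearMap * toConv (f.toLinearMap ∘ₗ antipode k) = 1 := by
  ext h
  change (toConv f.toLinearMap * toConv (f.toLinearMap ∘ₗ antipode k)) h = _
  rw [cv_apply]
  simp only [LinearMap.comp_apply, AlgHom.toLinearMap_apply, ← map_mul, ← map_sum,
    sum_mul_antipode_eq_algebraMap_counit (ℛ k h)]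
  simp

lemma tmul_eq_sum (h : H) : (1 : H) ⊗ₜ[k] h =
    ∑ i ∈ (ℛ k h).index, (antipode k ((ℛ k h).left i) ⊗ₜ[k] (1 : H)) * comul (R := k) ((ℛ k h).right i) := by
  have e : toConv ((iL (k := k) (H := H)).toLinearMap ∘ₗ antipode k) * toConv (comul (R := k) (A := H))
      = toConv (iR (k := k) (H := H)).toLinearMap := by
    rw [conv_comul, ← mul_assoc, conv_S_mul, one_mul]
  have := congrArg (fun f => f h) e
  simp only [cv_apply] at this
  exact this.symm

lemma tmul_eq_sum' (h : H) : h ⊗ₜ[k] (1 : H) =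
    ∑ i ∈ (ℛ k h).index, comul (R := k) ((ℛ k h).left i) * ((1 : H) ⊗ₜ[k] antipode k ((ℛ k h).right i)) := by
  have e : toConv (comul (R := k) (A := H)) * toConv ((iR (k := k) (H := H)).toLinearMap ∘ₗ antipode k)
      = toConv (iL (k := k) (H := H)).toLinearMap := by
    rw [conv_comul, mul_assoc, conv_mul_S, mul_one]
  have := congrArg (fun f => f h) e
  simp only [cv_apply] at this
  exact this.symm

lemma IsInt.I3 {L : H} (hL : IsInt k L) (h : H) :
    ((1 : H) ⊗ₜ[k] h) * comul (R := k) L = (antipode k h ⊗ₜ[k] (1 : H)) * comul (R := k) L := by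
  rw [tmul_eq_sum, Finset.sum_mul]
  simp only [mul_assoc, ← Bialgebra.comul_mul, hL.left]
  simp only [map_smul, mul_smul_comm, ← smul_mul_assoc, ← Finset.sum_mul]
  congr 1
  simp only [TensorProduct.smul_tmul', ← map_smul, ← TensorProduct.sum_tmul, ← map_sum]
  congr 2
  exact sum_smul_counit _

lemma IsInt.I2 {L : H} (hL : IsInt k L) (h : H) :
    comul (R := k) L * (h ⊗ₜ[k] (1 : H)) = comul (R := k) L * ((1 : H) ⊗ₜ[k] antipode k h) := by
  rw [tmul_eq_sum', Finset.mul_sum]
  simp only [← mul_assoc, ← Bialgebra.comul_mul, hL.right]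
  simp only [map_smul, smul_mul_assoc, ← mul_smul_comm, ← Finset.mul_sum]
  congr 1
  simp only [← TensorProduct.tmul_smul, ← map_smul, ← TensorProduct.tmul_sum, ← map_sum]
  congr 2
  exact sum_counit_smul _


section rep

variable {L : H} (hL : IsInt k L)

include hL in
lemma IsInt.I3' {M : Type w} [AddCommGroup M] [Module k M] (F : H ⊗[k] H →ₗ[k] M) (h : H) :
    ∑ i ∈ (ℛ k L).index, F ((ℛ k L).left i ⊗ₜ (h * (ℛ k L).right i)) =
    ∑ i ∈ (ℛ k L).index, F ((antipode k h * (ℛ k L).left i) ⊗ₜ (ℛ k L).right i) := by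
  have := congrArg F (hL.I3 h)
  rw [← (ℛ k L).eq] at this
  simpa only [Finset.mul_sum, Algebra.TensorProduct.tmul_mul_tmul, one_mul, map_sum] using this

include hL in
lemma IsInt.I2' {M : Type w} [AddCommGroup M] [Module k M] (F : H ⊗[k] H →ₗ[k] M) (h : H) :
    ∑ i ∈ (ℛ k L).index, F (((ℛ k L).left i * h) ⊗ₜ (ℛ k L).right i) =
    ∑ i ∈ (ℛ k L).index, F ((ℛ k L).left i ⊗ₜ ((ℛ k L).right i * antipode k h)) := by
  have := congrArg F (hL.I2 h)
  rw [← (ℛ k L).eq] at this
  simpa only [Finset.sum_mul, Algebra.TensorProduct.tmul_mul_tmul, mul_one, map_sum] using this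

/-- `f ↦ a f(b)` -/
noncomputable def legL (L : H) : (H →ₗ[k] k) →ₗ[k] H where
  toFun f := ∑ i ∈ (ℛ k L).index, f ((ℛ k L).right i) • (ℛ k L).left i
  map_add' f g := by simp [add_smul, Finset.sum_add_distrib]
  map_smul' c f := by simp [mul_smul, Finset.smul_sum]

/-- `f ↦ f(a) b` -/
noncomputable def legR (L : H) : (H →ₗ[k] k) →ₗ[k] H where
  toFun f := ∑ i ∈ (ℛ k L).index, f ((ℛ k L).left i) • (ℛ k L).right i
  map_add' f g := by simp [add_smul, Finset.sum_add_distrib]
  map_smul' c f := by simp [mul_smul, Finset.smul_sum]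

/-- `a ⊗ b ↦ f(b) a` -/
noncomputable def ctrR (f : H →ₗ[k] k) : H ⊗[k] H →ₗ[k] H :=
  (TensorProduct.rid k H).toLinearMap ∘ₗ f.lTensor H

/-- `a ⊗ b ↦ f(a) b` -/
noncomputable def ctrL (f : H →ₗ[k] k) : H ⊗[k] H →ₗ[k] H :=
  (TensorProduct.lid k H).toLinearMap ∘ₗ f.rTensor H

@[simp] lemma ctrR_tmul (f : H →ₗ[k] k) (a b : H) : ctrR f (a ⊗ₜ b) = f b • a := by
  simp [ctrR]

@[simp] lemma ctrL_tmul (f : H →ₗ[k] k) (a b : H) : ctrL f (a ⊗ₜ b) = f a • b := by
  simp [ctrL]

lemma legL_eq (f : H →ₗ[k] k) : legL L f = ctrR f (comul L) := by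
  rw [← (ℛ k L).eq]; simp [legL]

lemma legR_eq (f : H →ₗ[k] k) : legR L f = ctrL f (comul L) := by
  rw [← (ℛ k L).eq]; simp [legR]

include hL in
lemma IsInt.legL_mulLeft (f : H →ₗ[k] k) (x : H) :
    legL L (f ∘ₗ LinearMap.mulLeft k x) = antipode k x * legL L f := by
  have := hL.I3' (ctrR f) x
  simp only [ctrR_tmul] at this
  simp only [legL, LinearMap.coe_mk, AddHom.coe_mk, LinearMap.comp_apply, LinearMap.mulLeft_apply,
    Finset.mul_sum, mul_smul_comm]
  exact this

include hL in
lemma IsInt.legR_mulLeft (f : H →ₗ[k] k) (x : H) :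
    legR L (f ∘ₗ LinearMap.mulLeft k (antipode k x)) = x * legR L f := by
  have := hL.I3' (ctrL f) x
  simp only [ctrL_tmul] at this
  simp only [legR, LinearMap.coe_mk, AddHom.coe_mk, LinearMap.comp_apply, LinearMap.mulLeft_apply,
    Finset.mul_sum, mul_smul_comm]
  exact this.symm

include hL in
lemma IsInt.legL_mulRight (f : H →ₗ[k] k) (x : H) :
    legL L (f ∘ₗ LinearMap.mulRight k (antipode k x)) = legL L f * x := by
  have := hL.I2' (ctrR f) x
  simp only [ctrR_tmul] at this
  simp only [legL, LinearMap.coe_mk, AddHom.coe_mk, LinearMap.comp_apply, LinearMap.mulRight_apply,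
    Finset.sum_mul, smul_mul_assoc]
  exact this.symm

include hL in
lemma IsInt.legR_mulRight (f : H →ₗ[k] k) (x : H) :
    legR L (f ∘ₗ LinearMap.mulRight k x) = legR L f * antipode k x := by
  have := hL.I2' (ctrL f) x
  simp only [ctrL_tmul] at this
  simp only [legR, LinearMap.coe_mk, AddHom.coe_mk, LinearMap.comp_apply, LinearMap.mulRight_apply,
    Finset.sum_mul, smul_mul_assoc]
  exact this

variable [FiniteDimensional k H]

include hL in
lemma IsInt.legL_inj : Function.Injective (legL (k := k) L) := by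
  rw [← LinearMap.ker_eq_bot, LinearMap.ker_eq_bot']
  intro f hf
  ext y
  simp only [LinearMap.zero_apply]
  have key : ∀ x : H, legL L (f ∘ₗ LinearMap.mulLeft k x) = 0 := by
    intro x; rw [hL.legL_mulLeft, hf, mul_zero]
  set B := Module.finBasis k H
  have h1 : ∑ i ∈ (ℛ k L).index, antipode k ((ℛ k L).left i) * (ℛ k L).right i = 1 := by
    rw [sum_antipode_mul_eq_algebraMap_counit, hL.one, map_one]
  have h2 : y = ∑ i ∈ (ℛ k L).index, y * antipode k ((ℛ k L).left i) * (ℛ k L).right i := by
    simp only [mul_assoc, ← Finset.mul_sum, h1, mul_one]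
  rw [h2, map_sum]
  have h3 : ∀ i, f (y * antipode k ((ℛ k L).left i) * (ℛ k L).right i) =
      ∑ j, B.repr ((ℛ k L).left i) j * f (y * antipode k (B j) * (ℛ k L).right i) := by
    intro i
    calc f (y * antipode k ((ℛ k L).left i) * (ℛ k L).right i)
        = f (y * antipode k (∑ j, B.repr ((ℛ k L).left i) j • B j) * (ℛ k L).right i) := by
          rw [B.sum_repr]
      _ = _ := by
          simp only [map_sum, map_smul, Finset.mul_sum, Finset.sum_mul, mul_smul_comm,
            smul_mul_assoc, smul_eq_mul]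
  simp only [h3]
  rw [Finset.sum_comm]
  apply Finset.sum_eq_zero
  intro j _
  have h4 := congrArg (fun z => B.repr z j) (key (y * antipode k (B j)))
  simp only [legL, LinearMap.coe_mk, AddHom.coe_mk, LinearMap.comp_apply,
    LinearMap.mulLeft_apply, map_sum, map_smul, Finsupp.coe_finsetSum, Finset.sum_apply,
    Finsupp.smul_apply, smul_eq_mul, map_zero, Finsupp.coe_zero, Pi.zero_apply] at h4
  rw [← h4]
  apply Finset.sum_congr rfl
  intro i _
  ring

include hL in
lemma IsInt.legL_surj : Function.Surjective (legL (k := k) L) :=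
  (LinearMap.injective_iff_surjective_of_finrank_eq_finrank
    (Subspace.dual_finrank_eq (K := k) (V := H))).1 hL.legL_inj

include hL in
lemma IsInt.legR_inj : Function.Injective (legR (k := k) L) := by
  rw [← LinearMap.ker_eq_bot, LinearMap.ker_eq_bot']
  intro f hf
  ext x
  obtain ⟨f', rfl⟩ := hL.legL_surj x
  have h : f (legL L f') = f' (legR L f) := by
    simp only [legL, legR, LinearMap.coe_mk, AddHom.coe_mk, map_sum, map_smul, smul_eq_mul]
    apply Finset.sum_congr rfl
    intro i _
    ring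
  rw [h, hf]
  simp

include hL in
lemma IsInt.legR_surj : Function.Surjective (legR (k := k) L) :=
  (LinearMap.injective_iff_surjective_of_finrank_eq_finrank
    (Subspace.dual_finrank_eq (K := k) (V := H))).1 hL.legR_inj

end rep

end Run7.h2
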