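import Pool.Agent.Run7.h2.Pos

/-!
The square of the antipode of a semisimple Hopf algebra in characteristic zero is the identity.
-/

namespace Run7.h2

open Coalgebra HopfAlgebra TensorProduct WithConv Module

universe u v w x

section tensor

variable {k : Type u} [Field k] {H : Type v} [Ring H] [HopfAlgebra k H]
  {V : Type w} [AddCommGroup V] [Module k V] {W : Type x} [AddCommGroup W] [Module k W]

/-- the character of a representation -/
noncomputable def chi (r : H →ₐ[k] End k V) : H →ₗ[k] k := LinearMap.trace k V ∘ₗ r.toLinearMap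

/-- `a ⊗ b ↦ r(a) ⊗ s(b)` -/
noncomputable def A2 (r : H →ₐ[k] End k V) (s : H →ₐ[k] End k W) :
    H ⊗[k] H →ₐ[k] End k (V ⊗[k] W) :=
  (endTensorEndAlgHom (R := k) (S := k) (A := k) (M := V) (N := W)).comp
    (Algebra.TensorProduct.map r s)

lemma A2_tmul (r : H →ₐ[k] End k V) (s : H →ₐ[k] End k W) (a b : H) :
    A2 r s (a ⊗ₜ b) = TensorProduct.map (r a) (s b) := rfl

/-- the tensor product of representations -/
noncomputable def tens (r : H →ₐ[k] End k V) (s : H →ₐ[k] End k W) :
    H →ₐ[k] End k (V ⊗[k] W) := (A2 r s).comp (Bialgebra.comulAlgHom k H)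

lemma tens_apply (r : H →ₐ[k] End k V) (s : H →ₐ[k] End k W) (h : H) :
    tens r s h = A2 r s (comul h) := rfl

variable [FiniteDimensional k V] [FiniteDimensional k W]

lemma chi_tens (r : H →ₐ[k] End k V) (s : H →ₐ[k] End k W) :
    toConv (chi (tens r s)) = toConv (chi r) * toConv (chi s) := by
  ext h
  change chi (tens r s) h = (toConv (chi r) * toConv (chi s)) h
  rw [cv_apply]
  have : chi (tens r s) h = LinearMap.trace k _ (A2 r s (comul h)) := rfl
  rw [this, ← (ℛ k h).eq]
  simp only [map_sum, A2_tmul]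
  apply Finset.sum_congr rfl
  intro i _
  exact LinearMap.trace_tensorProduct' _ _

/-- the regular representation -/
noncomputable abbrev reg (k : Type u) [Field k] (H : Type v) [Ring H] [HopfAlgebra k H] :
    H →ₐ[k] End k H := Algebra.lmul k H

/-- `x ⊗ v ↦ x₁ ⊗ x₂ v` -/
noncomputable def Phi (s : H →ₐ[k] End k W) : H ⊗[k] W →ₗ[k] H ⊗[k] W :=
  TensorProduct.lift (LinearMap.mk₂ k (fun x v => A2 (reg k H) s (comul x) (1 ⊗ₜ v))
    (by intro a b c; simp) (by intro a b c; simp) (by intro a b c; simp [TensorProduct.tmul_add])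
    (by intro a b c; simp))

omit [FiniteDimensional k W] in
lemma Phi_tmul (s : H →ₐ[k] End k W) (x : H) (v : W) :
    Phi s (x ⊗ₜ v) = A2 (reg k H) s (comul x) (1 ⊗ₜ v) := rfl

omit [FiniteDimensional k W] in
lemma Phi_mul (s : H →ₐ[k] End k W) (h : H) :
    Phi s ∘ₗ TensorProduct.map (reg k H h) LinearMap.id = tens (reg k H) s h ∘ₗ Phi s := by
  ext x v
  simp only [TensorProduct.AlgebraTensorModule.curry_apply, LinearMap.restrictScalars_self,
    TensorProduct.curry_apply, LinearMap.comp_apply, TensorProduct.map_tmul, LinearMap.id_apply]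
  rw [Phi_tmul, tens_apply, Phi_tmul]
  simp

omit [FiniteDimensional k W] in
lemma Phi_surj (s : H →ₐ[k] End k W) : Function.Surjective (Phi s) := by
  rw [← LinearMap.range_eq_top, eq_top_iff, ← TensorProduct.span_tmul_eq_top]
  apply Submodule.span_le.2
  rintro _ ⟨x, v, rfl⟩
  have h1 := congrArg (A2 (reg k H) s) (tmul_eq_sum' (k := k) x)
  have h2 := congrArg (fun F => F ((1 : H) ⊗ₜ[k] v)) h1
  simp only [map_sum, map_mul, A2_tmul, LinearMap.sum_apply, Module.End.mul_apply,
    TensorProduct.map_tmul] at h2
  have h3 : x ⊗ₜ[k] v = ∑ i ∈ (ℛ k x).index,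
      Phi s ((ℛ k x).left i ⊗ₜ (s (antipode k ((ℛ k x).right i)) v)) := by
    simp only [Phi_tmul]
    simpa using h2
  rw [SetLike.mem_coe, h3]
  apply Submodule.sum_mem
  intro i _
  exact LinearMap.mem_range_self _ _

variable [FiniteDimensional k H]

lemma reg_mul_chi (s : H →ₐ[k] End k W) :
    toConv (chi (reg k H)) * toConv (chi s) = (finrank k W : k) • toConv (chi (reg k H)) := by
  rw [← chi_tens]
  ext h
  change LinearMap.trace k _ (tens (reg k H) s h) = (finrank k W : k) • chi (reg k H) h
  have hbij : Function.Bijective (Phi s) :=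
    ⟨LinearMap.injective_iff_surjective.2 (Phi_surj s), Phi_surj s⟩
  let E := LinearEquiv.ofBijective (Phi s) hbij
  have h1 : tens (reg k H) s h = E.conj (TensorProduct.map (reg k H h) LinearMap.id) := by
    rw [LinearEquiv.conj_apply]
    have h2 : (E : H ⊗[k] W →ₗ[k] H ⊗[k] W) = Phi s := rfl
    have h3 := Phi_mul s h
    rw [h2, h3, LinearMap.comp_assoc, ← h2]
    simp
  rw [h1, LinearMap.trace_conj', LinearMap.trace_tensorProduct', LinearMap.trace_id, mul_comm]
  rfl

end tensor

section final

variable {k : Type u} [Field k] {H : Type v} [Ring H] [HopfAlgebra k H] [FiniteDimensional k H]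
  {L : H} (hL : IsInt k L)

lemma trace_pm_int [CharZero k] (E G : End k H) (hE : E * E = E) (hEG : E * G = G) (hGE : G * E = G)
    (hG : G * G = E) : ∃ c : ℤ, LinearMap.trace k H G = c := by
  have h2 : (2 : k) ≠ 0 := two_ne_zero
  obtain ⟨a, ha⟩ := trace_idem_nat ((2⁻¹ : k) • (E + G)) (by
    simp only [smul_mul_smul_comm, mul_add, add_mul, hE, hEG, hGE, hG]
    have : E + G + (G + E) = (2 : k) • (E + G) := by rw [two_smul]; abel
    rw [this, smul_smul]; congr 1; field_simp)
  obtain ⟨b, hb⟩ := trace_idem_nat ((2⁻¹ : k) • (E - G)) (by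
    simp only [smul_mul_smul_comm, mul_sub, sub_mul, hE, hEG, hGE, hG]
    have : E - G - (G - E) = (2 : k) • (E - G) := by rw [two_smul]; abel
    rw [this, smul_smul]; congr 1; field_simp)
  refine ⟨(a : ℤ) - b, ?_⟩
  push_cast
  rw [← ha, ← hb, map_smul, map_smul, map_add, map_sub, smul_eq_mul, smul_eq_mul]
  field_simp
  ring

include hL in
/-- **Larson-Radford**, from the nonvanishing of the cointegral at `1`. -/
theorem IsInt.S2_eq_id_of [CharZero k] (h0 : coint (k := k) L 1 ≠ 0) (x : H) : S2 k H x = x := by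
  classical
  have h4 := hL.S4_eq_one h0
  have hnt : Nontrivial H := by
    refine ⟨⟨L, 0, ?_⟩⟩
    rintro rfl
    have := hL.one
    rw [map_zero] at this
    exact zero_ne_one this
  have hn : (finrank k H : k) ≠ 0 := by
    have : finrank k H ≠ 0 := (Module.finrank_pos (R := k) (M := H)).ne'
    exact_mod_cast this
  set f : WithConv (H →ₗ[k] k) := toConv (chi (reg k H)) with hf
  have hff : f * f = (finrank k H : k) • f := reg_mul_chi (reg k H)
  set f0 : WithConv (H →ₗ[k] k) := (finrank k H : k)⁻¹ • f with hf0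
  have hf00 : f0 * f0 = f0 := by
    rw [hf0, smul_mul_smul_comm, hff, smul_smul]
    congr 1
    field_simp
  -- invariance under S2
  have hS22 : (S2 k H) * (S2 k H) = (1 : End k H) := by
    ext y; exact h4 y
  have hinv : (chi (reg k H)) ∘ₗ S2 k H = chi (reg k H) := by
    ext y
    have h1 : (reg k H (S2 k H y) : End k H) = (S2 k H) * (reg k H y) * (S2 k H) := by
      ext z
      simp only [Module.End.mul_apply, Algebra.coe_lmul_eq_mul, LinearMap.mul_apply', S2_mul]
      rw [h4]
    change LinearMap.trace k H (reg k H (S2 k H y)) = LinearMap.trace k H (reg k H y)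
    rw [h1, LinearMap.trace_mul_comm, ← mul_assoc, hS22, one_mul]
  have hinv0 : f0.ofConv ∘ₗ S2 k H = f0.ofConv := by
    have : f0.ofConv = (finrank k H : k)⁻¹ • chi (reg k H) := rfl
    rw [this, LinearMap.smul_comp, hinv]
  set E : End k H := la f0.ofConv with hE
  have hEE : E * E = E := by
    ext y
    rw [Module.End.mul_apply, hE, ← la_mul, hf00]
  have hES : E * S2 k H = S2 k H * E := by
    ext y
    rw [Module.End.mul_apply, Module.End.mul_apply, hE, la_S2, hinv0]
  obtain ⟨c, hc⟩ := trace_pm_int E (S2 k H * E) hEE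
    (by rw [← mul_assoc, hES, mul_assoc, hEE]) (by rw [mul_assoc, hEE])
    (by rw [mul_assoc, ← mul_assoc E, hES, mul_assoc, hEE, ← mul_assoc, hS22, one_mul])
  have htr := hL.trace_S2_la f0.ofConv
  have hfL : f0.ofConv L = (finrank k H : k)⁻¹ := by
    have : f0.ofConv L = (finrank k H : k)⁻¹ * LinearMap.trace k H (reg k H L) := rfl
    rw [this]
    have h1 : (reg k H L : End k H) = (counit (R := k) (A := H)).smulRight L := by
      ext y
      simp [hL.right]
    rw [h1, LinearMap.trace_smulRight, hL.one, mul_one]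
  rw [hfL] at htr
  have hDc : coint (k := k) L 1 = finrank k H * (c : k) := by
    have : (c : k) = coint (k := k) L 1 * (finrank k H : k)⁻¹ := by rw [← htr, ← hc]; rfl
    rw [this]; field_simp
  -- the idempotent (1 + S2)/2
  have h2 : (2 : k) ≠ 0 := two_ne_zero
  set Q : End k H := (2⁻¹ : k) • (1 + S2 k H) with hQ
  have hQQ : Q * Q = Q := by
    rw [hQ]
    simp only [smul_mul_smul_comm, mul_add, add_mul, one_mul, mul_one, hS22]
    have : (1 + S2 k H + (S2 k H + 1) : End k H) = (2 : k) • (1 + S2 k H) := by
      rw [two_smul]; abel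
    rw [this, smul_smul]; congr 1; field_simp
  have htQ := trace_idem Q hQQ
  have hle : finrank k (LinearMap.range Q) ≤ finrank k H := Submodule.finrank_le _
  have hDQ : coint (k := k) L 1 = 2 * (finrank k (LinearMap.range Q) : k) - finrank k H := by
    rw [← htQ, ← hL.trace_S2, hQ, map_smul, map_add, smul_eq_mul, LinearMap.trace_one]
    field_simp
    ring
  have hint : (2 * (finrank k (LinearMap.range Q) : ℤ) - finrank k H) = finrank k H * c := by
    have : ((2 * (finrank k (LinearMap.range Q) : ℤ) - finrank k H : ℤ) : k) =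
        ((finrank k H * c : ℤ) : k) := by
      push_cast
      rw [← hDQ, ← hDc]
    exact_mod_cast this
  have hnpos : 0 < finrank k H := Module.finrank_pos
  have hc0 : c ≠ 0 := by
    rintro rfl
    rw [Int.cast_zero, mul_zero] at hDc
    exact h0 hDc
  have hcle : c ≤ 1 := by
    by_contra hcon
    push Not at hcon
    have : (finrank k H : ℤ) * 2 ≤ finrank k H * c := by
      apply mul_le_mul_of_nonneg_left _ (by positivity); omega
    have h3 : (finrank k (LinearMap.range Q) : ℤ) ≤ finrank k H := by exact_mod_cast hle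
    have h4 : (0 : ℤ) < finrank k H := by exact_mod_cast hnpos
    omega
  have hcge : -1 ≤ c := by
    by_contra hcon
    push Not at hcon
    have : (finrank k H : ℤ) * c ≤ finrank k H * (-2) := by
      apply mul_le_mul_of_nonneg_left _ (by positivity); omega
    have h4 : (0 : ℤ) < finrank k H := by exact_mod_cast hnpos
    omega
  have hc1 : c = 1 ∨ c = -1 := by omega
  rcases hc1 with rfl | rfl
  · have hq : finrank k (LinearMap.range Q) = finrank k H := by
      have : (finrank k (LinearMap.range Q) : ℤ) = finrank k H := by linarith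
      exact_mod_cast this
    have htop : LinearMap.range Q = ⊤ := Submodule.eq_top_of_finrank_eq hq
    obtain ⟨y, hy⟩ : x ∈ LinearMap.range Q := by rw [htop]; trivial
    have h5 : Q x = x := by
      rw [← hy, ← Module.End.mul_apply, hQQ]
    rw [hQ] at h5
    simp only [LinearMap.smul_apply, LinearMap.add_apply, Module.End.one_apply] at h5
    have h6 : x + S2 k H x = (2 : k) • x := by
      calc x + S2 k H x = (2 : k) • ((2⁻¹ : k) • (x + S2 k H x)) := by
            rw [smul_smul, mul_inv_cancel₀ h2, one_smul]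
        _ = (2 : k) • x := by rw [h5]
    rw [two_smul] at h6
    exact add_left_cancel h6
  · exfalso
    have hq : finrank k (LinearMap.range Q) = 0 := by
      have : (finrank k (LinearMap.range Q) : ℤ) = 0 := by linarith
      exact_mod_cast this
    have hbot : LinearMap.range Q = ⊥ := Submodule.finrank_eq_zero.1 hq
    have h5 : Q 1 = 0 := by
      have : Q 1 ∈ LinearMap.range Q := LinearMap.mem_range_self _ _
      rw [hbot] at this
      exact this
    rw [hQ] at h5
    simp only [LinearMap.smul_apply, LinearMap.add_apply, Module.End.one_apply] at h5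
    have h6 : S2 k H 1 = (1 : H) := by simp [S2]
    rw [h6] at h5
    have h7 : (1 : H) = 0 := by
      calc (1 : H) = (2⁻¹ : k) • ((1 : H) + 1) := by
            rw [← two_smul k (1 : H), smul_smul, inv_mul_cancel₀ h2, one_smul]
        _ = 0 := h5
    exact one_ne_zero h7

end final

end Run7.h2
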