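import Mathlib

/-!
Linear algebra: traces of powers, idempotents, two-sided multiplications on products of matrix
algebras.
-/

namespace Run7.h2

open Module

universe u v w

section trpow

variable {K : Type u} [Field K] [IsAlgClosed K] {V : Type v} [AddCommGroup V] [Module K V]
  [FiniteDimensional K V]

/-- the trace of powers through the generalised eigenspaces -/
lemma trace_pow_eq (f : End K V) : ∃ (s : Finset K) (m : K → ℕ), (∀ μ ∈ s, f.HasEigenvalue μ) ∧
    ∀ a : ℕ, LinearMap.trace K V (f ^ a) = ∑ μ ∈ s, (m μ : K) * μ ^ a := by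
  classical
  have hds := DirectSum.isInternal_submodule_of_iSupIndep_of_iSup_eq_top
      f.independent_maxGenEigenspace (End.iSup_maxGenEigenspace_eq_top f)
  have h_fin : {μ | f.maxGenEigenspace μ ≠ ⊥}.Finite :=
    WellFoundedGT.finite_ne_bot_of_iSupIndep f.independent_maxGenEigenspace
  refine ⟨h_fin.toFinset, fun μ => finrank K (f.maxGenEigenspace μ), ?_, ?_⟩
  · intro μ hμ
    simp only [Set.Finite.mem_toFinset, Set.mem_ofPred_eq] at hμ
    have h1 : f.HasUnifEigenvalue μ ⊤ := hμ
    exact h1.lt (by simp)
  · intro a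
    have hmap : ∀ (a : ℕ) μ, Set.MapsTo (f ^ a : End K V) (f.maxGenEigenspace μ) (f.maxGenEigenspace μ) :=
      fun a μ => f.mapsTo_maxGenEigenspace_of_comm (Commute.pow_right (Commute.refl f) a) μ
    rw [LinearMap.trace_eq_sum_trace_restrict' hds h_fin (hmap a)]
    apply Finset.sum_congr rfl
    intro μ _
    induction a with
    | zero =>
      have : (f ^ 0 : End K V).restrict (hmap 0 μ) = LinearMap.id := by
        ext x; simp
      rw [this, LinearMap.trace_id, pow_zero, mul_one]
    | succ a ih =>
      have hf1 := f.mapsTo_maxGenEigenspace_of_comm (Commute.refl _) μ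
      have h1 : (f ^ (a + 1) : End K V).restrict (hmap (a + 1) μ) =
          ((f ^ a : End K V).restrict (hmap a μ)) ∘ₗ (f.restrict hf1) := by
        ext x
        simp only [LinearMap.coe_restrict_apply, LinearMap.comp_apply, pow_succ]
        rfl
      have hc : Commute ((f ^ a : End K V).restrict (hmap a μ)) (f.restrict hf1) :=
        LinearMap.restrict_commute (Commute.pow_left (Commute.refl f) a) _ _
      rw [h1, LinearMap.trace_comp_eq_mul_of_commute_of_isNilpotent μ hc
        (f.isNilpotent_restrict_maxGenEigenspace_sub_algebraMap μ), ih, pow_succ]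
      ring

end trpow

section idem

variable {K : Type u} [Field K] {V : Type v} [AddCommGroup V] [Module K V]
  [FiniteDimensional K V]

lemma trace_idem (e : End K V) (he : e * e = e) :
    LinearMap.trace K V e = (finrank K (LinearMap.range e) : K) := by
  exact (LinearMap.IsIdempotentElem.isProj_range e he).trace

lemma trace_idem_nat (e : End K V) (he : e * e = e) :
    ∃ n : ℕ, LinearMap.trace K V e = n := ⟨_, trace_idem e he⟩

lemma matrix_trace_idem_nat {n : Type w} [Fintype n] [DecidableEq n] (e : Matrix n n K)
    (he : e * e = e) : ∃ m : ℕ, e.trace = m := by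
  have h := trace_idem_nat (K := K) (Matrix.toLin' e) (by
    rw [Module.End.mul_eq_comp, ← Matrix.toLin'_mul, he])
  rw [Matrix.trace_toLin'_eq] at h
  exact h

end idem

section blocks

variable {K : Type u} [Field K] {I : Type} [Fintype I] [DecidableEq I] (d : I → ℕ)

/-- product of matrix algebras -/
abbrev Bl (K : Type u) [Field K] {I : Type} (d : I → ℕ) : Type u :=
  (i : I) → Matrix (Fin (d i)) (Fin (d i)) K

/-- sum of the traces -/
noncomputable def tau (K : Type u) [Field K] {I : Type} [Fintype I] (d : I → ℕ) : Bl K d →ₗ[K] K :=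
  ∑ i, (Matrix.traceLinearMap (Fin (d i)) K K) ∘ₗ LinearMap.proj i

omit [DecidableEq I] in
lemma tau_apply (x : Bl K d) : tau K d x = ∑ i, (x i).trace := by
  simp [tau]

lemma tau_comm (x y : Bl K d) : tau K d (x * y) = tau K d (y * x) := by
  rw [tau_apply, tau_apply]
  apply Finset.sum_congr rfl
  intro i _
  simp only [Pi.mul_apply]
  exact Matrix.trace_mul_comm _ _

lemma tau_single (i : I) (x : Matrix (Fin (d i)) (Fin (d i)) K) (y : Bl K d) :
    tau K d (Pi.single i x * y) = (x * y i).trace := by
  rw [tau_apply, Finset.sum_eq_single i]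
  · simp
  · intro j _ hj
    simp [Pi.single_eq_of_ne hj]
  · simp

lemma tau_nondeg (y : Bl K d) (h : ∀ x, tau K d (x * y) = 0) : y = 0 := by
  funext i
  ext a b
  have := h (Pi.single i (Matrix.single b a 1))
  rw [tau_single] at this
  simpa [Matrix.trace_single_mul] using this

/-- trace of `x ↦ a x b` -/
lemma trace_two_sided (a b : Bl K d) :
    LinearMap.trace K (Bl K d) (LinearMap.mulLeft K a ∘ₗ LinearMap.mulRight K b) =
    ∑ i, (a i).trace * (b i).trace := by
  classical
  let B := Pi.basis (fun i => Matrix.stdBasis K (Fin (d i)) (Fin (d i)))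
  rw [LinearMap.trace_eq_matrix_trace K B]
  rw [Matrix.trace, Fintype.sum_sigma]
  apply Finset.sum_congr rfl
  intro i _
  rw [Fintype.sum_prod_type, Matrix.trace, Matrix.trace, Finset.sum_mul_sum]
  apply Finset.sum_congr rfl
  intro p _
  apply Finset.sum_congr rfl
  intro q _
  rw [Matrix.diag_apply, LinearMap.toMatrix_apply]
  simp only [B, Pi.basis_apply, Pi.basis_repr, LinearMap.comp_apply, LinearMap.mulLeft_apply,
    LinearMap.mulRight_apply, Matrix.stdBasis_eq_single, Pi.mul_apply, Pi.single_eq_same]
  change ((a i : Matrix (Fin (d i)) (Fin (d i)) K) *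
    ((Matrix.single p q 1 : Matrix (Fin (d i)) (Fin (d i)) K) * b i)) p q = _
  simp [Matrix.mul_apply, Matrix.single_apply, Finset.sum_ite_eq, ite_and]

end blocks

end Run7.h2
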