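import Pool.Agent.Run7.h2.Coint
import Pool.Agent.Run7.h2.LinAlg

/-!
Positivity: for a semisimple Hopf algebra in characteristic zero, `λ(1) ≠ 0`.
-/

namespace Run7.h2

open Coalgebra HopfAlgebra TensorProduct WithConv Module Polynomial

universe u v w

section finiteorder

variable {K : Type u} [Field K] [IsAlgClosed K] [CharZero K]

lemma exists_poly_trace {n : Type} [Fintype n] [DecidableEq n] (U V : Matrix n n K) (hUV : U * V = 1)
    {m : ℕ} (hm : 0 < m) {s : K} (hs : U ^ m = s • (1 : Matrix n n K)) (hs0 : s ≠ 0)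
    {z : K} (hz : IsPrimitiveRoot z m) :
    ∃ (G : ℤ[X]) (r : K), r ≠ 0 ∧ U.trace = r * aeval z G ∧ V.trace = r⁻¹ * aeval z⁻¹ G := by
  classical
  have : NeZero m := ⟨hm.ne'⟩
  obtain ⟨r, hr⟩ := IsAlgClosed.exists_pow_nat_eq s hm
  have hr0 : r ≠ 0 := by
    rintro rfl
    rw [zero_pow hm.ne'] at hr
    exact hs0 hr.symm
  obtain ⟨S, c, hS, hc⟩ := trace_pow_eq (Matrix.toLin' U)
  have hpow : ∀ a : ℕ, (Matrix.toLin' U) ^ a = Matrix.toLin' (U ^ a) := by
    intro a
    exact (map_pow (Matrix.toLinAlgEquiv' (R := K) (n := n)) U a).symm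
  have htr : ∀ a : ℕ, (U ^ a).trace = ∑ μ ∈ S, (c μ : K) * μ ^ a := by
    intro a
    rw [← hc a, hpow a, Matrix.trace_toLin'_eq]
  have hμ : ∀ μ ∈ S, μ ^ m = s := by
    intro μ h
    obtain ⟨x, hx⟩ := (hS μ h).exists_hasEigenvector
    have h1 : (Matrix.toLin' U ^ m) x = μ ^ m • x := by
      have hx1 : Matrix.toLin' U x = μ • x := hx.apply_eq_smul
      have : ∀ a : ℕ, ((Matrix.toLin' U : End K (n → K)) ^ a) x = μ ^ a • x := by
        intro a
        induction a with
        | zero => simp
        | succ a ih =>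
          rw [pow_succ, Module.End.mul_apply, hx1, map_smul, ih, smul_smul, pow_succ]
          congr 1; ring
      exact this m
    rw [hpow, hs] at h1
    have h2 : s • x = μ ^ m • x := by
      rw [← h1]; simp
    have h3 : (s - μ ^ m) • x = 0 := by rw [sub_smul, h2, sub_self]
    rcases smul_eq_zero.1 h3 with h4 | h4
    · exact (sub_eq_zero.1 h4).symm
    · exact absurd h4 hx.2
  have hj : ∀ μ ∈ S, ∃ j : ℕ, μ = r * z ^ j := by
    intro μ h
    have h1 : (μ / r) ^ m = 1 := by
      rw [div_pow, hμ μ h, hr, div_self hs0]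
    obtain ⟨j, _, hj⟩ := hz.eq_pow_of_pow_eq_one h1
    refine ⟨j, ?_⟩
    rw [hj]; field_simp
  choose! j hj using hj
  refine ⟨∑ μ ∈ S, (c μ : ℤ[X]) * X ^ (j μ), r, hr0, ?_, ?_⟩
  · have h1 := htr 1
    rw [pow_one] at h1
    rw [h1, map_sum, Finset.mul_sum]
    apply Finset.sum_congr rfl
    intro μ h
    simp only [map_mul, map_natCast, map_pow, aeval_X, pow_one]
    calc (c μ : K) * μ = (c μ : K) * (r * z ^ j μ) := by rw [← hj μ h]
      _ = r * ((c μ : K) * z ^ j μ) := by ring
  · have hV : V = s⁻¹ • U ^ (m - 1) := by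
      have h1 : U ^ (m - 1) * U = s • 1 := by
        rw [← pow_succ, Nat.sub_add_cancel hm, hs]
      calc V = s⁻¹ • (s • (1 : Matrix n n K)) * V := by
            rw [smul_smul, inv_mul_cancel₀ hs0, one_smul, one_mul]
        _ = s⁻¹ • (U ^ (m - 1) * U) * V := by rw [h1]
        _ = s⁻¹ • U ^ (m - 1) := by rw [smul_mul_assoc, mul_assoc, hUV, mul_one]
    rw [hV, Matrix.trace_smul, htr, map_sum, Finset.mul_sum, smul_eq_mul, Finset.mul_sum]
    apply Finset.sum_congr rfl
    intro μ h
    simp only [map_mul, map_natCast, map_pow, aeval_X]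
    have hz0 : z ≠ 0 := hz.ne_zero hm.ne'
    have hμ0 : μ ≠ 0 := by
      rintro rfl
      have := hμ 0 h
      rw [zero_pow hm.ne'] at this
      exact hs0 this.symm
    have h2 : s⁻¹ * μ ^ (m - 1) = μ⁻¹ := by
      have : μ ^ (m - 1) * μ = s := by rw [← pow_succ, Nat.sub_add_cancel hm, hμ μ h]
      field_simp
      rw [← this]
    calc s⁻¹ * ((c μ : K) * μ ^ (m - 1)) = (c μ : K) * (s⁻¹ * μ ^ (m - 1)) := by ring
      _ = (c μ : K) * μ⁻¹ := by rw [h2]
      _ = (c μ : K) * (r * z ^ j μ)⁻¹ := by rw [← hj μ h]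
      _ = r⁻¹ * ((c μ : K) * z⁻¹ ^ j μ) := by rw [mul_inv, inv_pow]; ring

omit [IsAlgClosed K] in
/-- positivity of sums of `|G(z)|²` transported to any field of characteristic zero -/
lemma sum_poly_ne_zero {I : Type} [Fintype I] (G : I → ℤ[X]) {m : ℕ} (hm : 0 < m) {z : K}
    (hz : IsPrimitiveRoot z m) (h0 : ∑ i, aeval z (G i) * aeval z⁻¹ (G i) = 0) (i : I) :
    aeval z (G i) = 0 := by
  classical
  set om : ℂ := Complex.exp (2 * Real.pi * Complex.I / m)
  have hom : IsPrimitiveRoot om m := Complex.isPrimitiveRoot_exp m hm.ne'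
  have hinv : ∀ {F : Type u} [Field F] (y : F), y ^ m = 1 → y ^ (m - 1) = y⁻¹ := by
    intro F _ y hy
    apply eq_inv_of_mul_eq_one_left
    rw [← pow_succ, Nat.sub_add_cancel hm, hy]
  have hinv' : om ^ (m - 1) = om⁻¹ := by
    apply eq_inv_of_mul_eq_one_left
    rw [← pow_succ, Nat.sub_add_cancel hm, hom.pow_eq_one]
  set P : ℤ[X] := ∑ i, G i * (G i).comp (X ^ (m - 1)) with hP
  have hPz : aeval z P = 0 := by
    rw [hP, map_sum, ← h0]
    apply Finset.sum_congr rfl
    intro i _
    rw [map_mul, aeval_comp, map_pow, aeval_X, hinv z hz.pow_eq_one]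
  have hint : IsIntegral ℤ z := hz.isIntegral hm
  have hdiv : ∀ Q : ℤ[X], aeval z Q = 0 ↔ aeval om Q = 0 := by
    intro Q
    rw [minpoly.isIntegrallyClosed_dvd_iff hint, minpoly.isIntegrallyClosed_dvd_iff
      (hom.isIntegral hm), ← cyclotomic_eq_minpoly hz hm, ← cyclotomic_eq_minpoly hom hm]
  rw [hdiv]
  have hPo := (hdiv P).1 hPz
  have hnorm : ‖om‖ = 1 := Complex.norm_eq_one_of_pow_eq_one hom.pow_eq_one hm.ne'
  have hconj : om⁻¹ = (starRingEnd ℂ) om := Complex.inv_eq_conj hnorm
  have hPo2 : ∑ i, (Complex.normSq (aeval om (G i)) : ℂ) = 0 := by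
    rw [← hPo, hP, map_sum]
    apply Finset.sum_congr rfl
    intro i _
    rw [map_mul, aeval_comp, map_pow, aeval_X, hinv', hconj]
    have : aeval ((starRingEnd ℂ) om) (G i) = (starRingEnd ℂ) (aeval om (G i)) := by
      rw [aeval_def, aeval_def, hom_eval₂]
      congr 1
      exact (RingHom.ext_int _ _)
    rw [this, Complex.mul_conj]
  rw [← Complex.ofReal_sum] at hPo2
  have h3 : ∑ i, Complex.normSq (aeval om (G i)) = 0 := by exact_mod_cast hPo2
  have h4 := (Finset.sum_eq_zero_iff_of_nonneg (fun i _ => Complex.normSq_nonneg _)).1 h3 i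
    (Finset.mem_univ i)
  exact Complex.normSq_eq_zero.1 h4

end finiteorder

section grouplike

variable {k : Type u} [Field k] {H : Type v} [Ring H] [HopfAlgebra k H] [FiniteDimensional k H]

/-- `f ⊗ g` separate the points of `H ⊗ H` -/
lemma sep2 {x y : H ⊗[k] H} (h : ∀ f g : H →ₗ[k] k,
    LinearMap.mul' k k (TensorProduct.map f g x) = LinearMap.mul' k k (TensorProduct.map f g y)) :
    x = y := by
  classical
  let B := Module.finBasis k H
  apply (B.tensorProduct B).repr.injective
  ext ⟨i, j⟩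
  have key : ∀ t : H ⊗[k] H, (B.tensorProduct B).repr t (i, j) =
      LinearMap.mul' k k (TensorProduct.map (B.coord i) (B.coord j) t) := by
    intro t
    induction t using TensorProduct.induction_on with
    | zero => simp
    | tmul a b => simp [Basis.tensorProduct_repr_tmul_apply, mul_comm]
    | add a b ha hb => simp [map_add, ha, hb]
  rw [key, key, h]

lemma isGroupLike_of_mul {g : H} (h1 : counit (R := k) g = 1)
    (h2 : ∀ f f' : WithConv (H →ₗ[k] k), (f * f') g = f g * f' g) : IsGroupLikeElem k g := by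
  refine ⟨h1, ?_⟩
  apply sep2
  intro f g'
  have := h2 (toConv f) (toConv g')
  change LinearMap.mul' k k (TensorProduct.map f g' (comul g)) = f g * g' g at this
  rw [this]
  simp

/-- a group-like element of a finite-dimensional Hopf algebra has finite order -/
lemma groupLike_finite_order {g : H} (hg : IsGroupLikeElem k g) :
    ∃ m : ℕ, 0 < m ∧ g ^ m = 1 := by
  have hli := linearIndepOn_isGroupLikeElem (R := k) (A := H)
  have hfin : Set.Finite {a : H | IsGroupLikeElem k a} := by
    have := LinearIndependent.setFinite (R := k) hli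
    exact this
  have hinf : ¬ Function.Injective (fun n : ℕ => g ^ n) := by
    intro hinj
    have : Set.Infinite (Set.range (fun n : ℕ => g ^ n)) := Set.infinite_range_of_injective hinj
    apply this
    apply hfin.subset
    rintro _ ⟨n, rfl⟩
    exact hg.pow
  have hS : antipode k g * g = 1 := by
    have h := congrArg (LinearMap.mul' k H ∘ₗ (antipode k).rTensor H) hg.comul_eq_tmul_self
    simp only [LinearMap.comp_apply, LinearMap.rTensor_tmul, LinearMap.mul'_apply] at h
    rw [← h, mul_antipode_rTensor_comul_apply, hg.counit_eq_one, map_one]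
  have hS2 : g * antipode k g = 1 := by
    have h := congrArg (LinearMap.mul' k H ∘ₗ (antipode k).lTensor H) hg.comul_eq_tmul_self
    simp only [LinearMap.comp_apply, LinearMap.lTensor_tmul, LinearMap.mul'_apply] at h
    rw [← h, mul_antipode_lTensor_comul_apply, hg.counit_eq_one, map_one]
  have hu : IsUnit g := ⟨⟨g, antipode k g, hS2, hS⟩, rfl⟩
  rw [Function.not_injective_iff] at hinf
  obtain ⟨a, b, hab, hne⟩ := hinf
  wlog hlt : a < b generalizing a b
  · exact this b a hab.symm hne.symm (by omega)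
  refine ⟨b - a, by omega, ?_⟩
  have h1 : g ^ a * g ^ (b - a) = g ^ a * 1 := by
    rw [← pow_add, mul_one, Nat.add_sub_cancel' hlt.le]; exact hab.symm
  exact (hu.pow a).mul_left_cancel h1

end grouplike

section main

variable {k : Type u} [Field k] {H : Type v} [Ring H] [HopfAlgebra k H] [FiniteDimensional k H]
  {L : H} (hL : IsInt k L)

include hL in
lemma IsInt.gl_groupLike : IsGroupLikeElem k (gl k L) := by
  apply isGroupLike_of_mul
  · unfold gl
    rw [legL_eq_la, apply_la, ← one_eq_counit, one_mul]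
    exact hL.coint_L
  · exact hL.gl_mul

include hL in
lemma IsInt.S2_finite_order : ∃ m : ℕ, 0 < m ∧ ∀ x, ((S2 k H) ^ m : End k H) x = x := by
  obtain ⟨m, hm, hg⟩ := groupLike_finite_order hL.gl_groupLike
  refine ⟨2 * m, by omega, ?_⟩
  intro x
  have h1 : ∀ (a : ℕ) (x : H), ((S2 k H) ^ (2 * a) : End k H) x * gl k L ^ a = gl k L ^ a * x := by
    intro a
    induction a with
    | zero => intro x; simp
    | succ a ih =>
      intro x
      have h2 : ((S2 k H) ^ (2 * (a + 1)) : End k H) x =
          ((S2 k H) ^ (2 * a) : End k H) (S2 k H (S2 k H x)) := by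
        rw [mul_add, pow_add]; rfl
      rw [h2, pow_succ, ← mul_assoc, ih, mul_assoc, hL.S4, mul_assoc]
  have h3 := h1 m x
  rwa [hg, mul_one, one_mul] at h3

include hL in
lemma IsInt.coint_nondeg (y : H) (h : ∀ x, coint (k := k) L (y * x) = 0) : y = 0 := by
  have hsurj : Function.Surjective (antipode k (A := H)) :=
    LinearMap.surjective_of_injective hL.S_inj
  obtain ⟨z, rfl⟩ := hsurj y
  have h1 := hL.dual_basis z
  simp only [h, zero_smul, Finset.sum_const_zero] at h1
  rw [← h1, map_zero]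

variable [IsAlgClosed k] [CharZero k] {I : Type} [Fintype I] [DecidableEq I] {d : I → ℕ}
  (e : H ≃ₐ[k] Bl k d)

/-- the sum of the traces, on `H` -/
noncomputable def tH (e : H ≃ₐ[k] Bl k d) : H →ₗ[k] k := tau k d ∘ₗ e.toLinearMap

omit [FiniteDimensional k H] [IsAlgClosed k] [CharZero k] in
lemma tH_comm (x y : H) : tH e (x * y) = tH e (y * x) := by
  simp only [tH, LinearMap.comp_apply, AlgEquiv.toLinearMap_apply, map_mul]
  exact tau_comm d _ _

omit [FiniteDimensional k H] [IsAlgClosed k] [CharZero k] in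
lemma tH_nondeg (u : H) (h : ∀ x, tH e (x * u) = 0) : u = 0 := by
  have h1 : e u = 0 := by
    apply tau_nondeg
    intro x
    have := h (e.symm x)
    simp only [tH, LinearMap.comp_apply, AlgEquiv.toLinearMap_apply, map_mul,
      AlgEquiv.apply_symm_apply] at this
    exact this
  exact (map_eq_zero_iff e e.injective).1 h1

omit [IsAlgClosed k] [CharZero k] in
lemma tH_surj (f : H →ₗ[k] k) : ∃ u, ∀ x, f x = tH e (x * u) := by
  let T : H →ₗ[k] (H →ₗ[k] k) := LinearMap.mk₂ k (fun u x => tH e (x * u))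
    (by intro a b c; simp [mul_add]) (by intro a b c; simp) (by intro a b c; simp [add_mul])
    (by intro a b c; simp)
  have hTinj : Function.Injective T := by
    rw [← LinearMap.ker_eq_bot, LinearMap.ker_eq_bot']
    intro u hu
    apply tH_nondeg e
    intro x
    exact congrArg (fun F => F x) hu
  have hTsurj : Function.Surjective T :=
    (LinearMap.injective_iff_surjective_of_finrank_eq_finrank
      (Subspace.dual_finrank_eq (K := k) (V := H)).symm).1 hTinj
  obtain ⟨u, hu⟩ := hTsurj f
  exact ⟨u, fun x => by rw [← hu]; rfl⟩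

include hL e in
omit [IsAlgClosed k] [CharZero k] in
/-- the square of the antipode is inner -/
lemma IsInt.S2_inner : ∃ u v : H, u * v = 1 ∧ v * u = 1 ∧ (∀ h, S2 k H h = v * h * u) ∧
    ∀ x, coint (k := k) L x = tH e (x * u) := by
  obtain ⟨u, hu'⟩ := tH_surj e (coint (k := k) L)
  -- u intertwines
  have hcomm : ∀ h, h * u = u * S2 k H h := by
    intro h
    rw [← sub_eq_zero]
    apply tH_nondeg e
    intro x
    rw [mul_sub, map_sub, ← mul_assoc, ← hu', tH_comm e x, mul_assoc, tH_comm e u, ← hu',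
      hL.coint_comm, sub_self]
  -- u is invertible
  have hinj : Function.Injective (LinearMap.mulLeft k u) := by
    rw [← LinearMap.ker_eq_bot, LinearMap.ker_eq_bot']
    intro y hy
    rw [LinearMap.mulLeft_apply] at hy
    apply hL.coint_nondeg
    intro x
    rw [hu', mul_assoc, tH_comm, mul_assoc, hy, mul_zero, map_zero]
  have hsurj := LinearMap.surjective_of_injective hinj
  obtain ⟨v, hv⟩ := hsurj 1
  rw [LinearMap.mulLeft_apply] at hv
  have hv' : v * u = 1 := by
    have h1 : u * (v * u) = u * 1 := by rw [← mul_assoc, hv, one_mul, mul_one]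
    exact hinj h1
  refine ⟨u, v, hv, hv', ?_, hu'⟩
  intro h
  rw [mul_assoc, hcomm, ← mul_assoc, hv', one_mul]

omit [FiniteDimensional k H] [IsAlgClosed k] [CharZero k] in
lemma trace_two_sided_H (a b : H) :
    LinearMap.trace k H (LinearMap.mulLeft k a ∘ₗ LinearMap.mulRight k b) =
    ∑ i, (e a i).trace * (e b i).trace := by
  rw [← trace_two_sided, ← LinearMap.trace_conj' _ e.toLinearEquiv]
  congr 1
  apply LinearMap.ext
  intro x
  simp [LinearEquiv.conj_apply]

include hL e in
/-- the cointegral does not vanish at `1` -/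
theorem IsInt.coint_one_ne_zero [∀ i, NeZero (d i)] : coint (k := k) L 1 ≠ 0 := by
  classical
  obtain ⟨u, v, huv, hvu, hS2, hlam⟩ := hL.S2_inner e
  have htr : coint (k := k) L 1 = ∑ i, (e u i).trace * (e v i).trace := by
    rw [← hL.trace_S2]
    have : S2 k H = LinearMap.mulLeft k v ∘ₗ LinearMap.mulRight k u := by
      ext x; rw [hS2]; simp [mul_assoc]
    rw [this, trace_two_sided_H e]
    apply Finset.sum_congr rfl
    intro i _
    ring
  obtain ⟨m, hm, hord⟩ := hL.S2_finite_order
  -- u^m is central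
  have hpow : ∀ (a : ℕ) (x : H), u ^ a * ((S2 k H) ^ a : End k H) x = x * u ^ a := by
    intro a
    induction a with
    | zero => intro x; simp
    | succ a ih =>
      intro x
      have h1 : ((S2 k H) ^ (a + 1) : End k H) x = ((S2 k H) ^ a : End k H) (S2 k H x) := by
        rw [pow_succ]; rfl
      rw [h1, pow_succ', mul_assoc, ih, hS2]
      simp only [← mul_assoc, huv, one_mul]
  have hcent : ∀ x, u ^ m * x = x * u ^ m := by
    intro x
    have := hpow m x
    rwa [hord] at this
  have hscal : ∀ (w : H), (∀ x, w * x = x * w) → ∀ i, ∃ s : k, e w i = s • 1 := by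
    intro w hw i
    have h1 : e w i ∈ Set.range (Matrix.scalar (Fin (d i))) := by
      apply Matrix.mem_range_scalar_of_commute_single
      intro p q _
      have h2 := congrArg (fun y => e y i) (hw (e.symm (Pi.single i (Matrix.single p q 1))))
      simp only [map_mul, AlgEquiv.apply_symm_apply, Pi.mul_apply, Pi.single_eq_same] at h2
      exact h2.symm
    obtain ⟨s, hs⟩ := h1
    refine ⟨s, ?_⟩
    rw [← hs, Matrix.scalar_apply, Matrix.smul_one_eq_diagonal]
  obtain ⟨z, hz⟩ : ∃ z : k, IsPrimitiveRoot z m := by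
    have : NeZero m := ⟨hm.ne'⟩
    have : NeZero (m : k) := ⟨by exact_mod_cast hm.ne'⟩
    exact HasEnoughRootsOfUnity.exists_primitiveRoot k m
  have hG : ∀ i, ∃ (G : ℤ[X]) (r : k), r ≠ 0 ∧ (e u i).trace = r * aeval z G ∧
      (e v i).trace = r⁻¹ * aeval z⁻¹ G := by
    intro i
    obtain ⟨s, hs⟩ := hscal (u ^ m) (fun x => hcent x) i
    have hs' : (e u i) ^ m = s • 1 := by rw [← hs, map_pow, Pi.pow_apply]
    have hUV : e u i * e v i = 1 := by
      have := congrArg (fun y => e y i) huv
      simpa using this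
    apply exists_poly_trace (e u i) (e v i) hUV hm hs' _ hz
    rintro rfl
    rw [zero_smul] at hs'
    have hunit : IsUnit (e u i) := by
      have hVU : e v i * e u i = 1 := by
        have := congrArg (fun y => e y i) hvu
        simpa using this
      exact ⟨⟨e u i, e v i, hUV, hVU⟩, rfl⟩
    have h3 := hunit.pow m
    rw [hs'] at h3
    have : (0 : Matrix (Fin (d i)) (Fin (d i)) k) ≠ 1 := zero_ne_one
    exact h3.ne_zero rfl
  choose G r hr0 hGu hGv using hG
  intro h0
  rw [h0] at htr
  have h1 : ∑ i, aeval z (G i) * aeval z⁻¹ (G i) = 0 := by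
    rw [htr]
    apply Finset.sum_congr rfl
    intro i _
    rw [hGu, hGv]
    field_simp [hr0 i]
  have h2 := sum_poly_ne_zero G hm hz h1
  have h3 : ∀ i, (e u i).trace = 0 := fun i => by rw [hGu, h2, mul_zero]
  have hL1 := hL.coint_L
  rw [hlam] at hL1
  have hLc : ∀ x, L * x = x * L := fun x => by rw [hL.left, hL.right]
  have h4 : tH e (L * u) = 0 := by
    simp only [tH, LinearMap.comp_apply, AlgEquiv.toLinearMap_apply, tau_apply, map_mul,
      Pi.mul_apply]
    apply Finset.sum_eq_zero
    intro i _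
    obtain ⟨s, hs⟩ := hscal L hLc i
    rw [hs, smul_mul_assoc, one_mul, Matrix.trace_smul, h3, smul_zero]
  rw [h4] at hL1
  exact zero_ne_one hL1

end main

end Run7.h2
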