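import Pool.Agent.Run7.h2.Cong

/-!
Stabilisers of irreducible characters under one-dimensional characters.
-/

namespace Run7.h2

open Coalgebra HopfAlgebra TensorProduct WithConv Module

universe u v w x

section basic

variable {k : Type u} [Field k] {H : Type v} [Ring H] [HopfAlgebra k H]

/-- the algebra endomorphism `x ↦ F(x₁) x₂` -/
noncomputable def raHom (F : H →ₐ[k] k) : H →ₐ[k] H :=
  (Algebra.TensorProduct.lid k H).toAlgHom.comp
    ((Algebra.TensorProduct.map F (AlgHom.id k H)).comp (Bialgebra.comulAlgHom k H))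

lemma raHom_apply (F : H →ₐ[k] k) (y : H) : raHom F y = ra F.toLinearMap y := by
  unfold ra ctrL
  rfl

/-- product of two algebra homomorphisms to `k` -/
noncomputable def cmul (F G : H →ₐ[k] k) : H →ₐ[k] k :=
  (Algebra.TensorProduct.lmul' k).comp
    ((Algebra.TensorProduct.map F G).comp (Bialgebra.comulAlgHom k H))

lemma cmul_toConv (F G : H →ₐ[k] k) :
    toConv (cmul F G).toLinearMap = toConv F.toLinearMap * toConv G.toLinearMap := rfl

lemma exists_pow_hom (F : H →ₐ[k] k) (a : ℕ) :
    ∃ G : H →ₐ[k] k, toConv G.toLinearMap = (toConv F.toLinearMap) ^ a := by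
  induction a with
  | zero => exact ⟨Bialgebra.counitAlgHom k H, by rw [pow_zero]; rfl⟩
  | succ a ih =>
    obtain ⟨G, hG⟩ := ih
    exact ⟨cmul G F, by rw [cmul_toConv, hG, pow_succ]⟩

lemma conv_S_ra (f : H →ₗ[k] k) : toConv (antipode k ∘ₗ ra f) =
    toConv (Algebra.linearMap k H ∘ₗ f) * toConv (antipode k) := by
  ext y
  change antipode k (ra f y) =
    (toConv (Algebra.linearMap k H ∘ₗ f) * toConv (antipode k (A := H))) y
  rw [cv_apply, ra_apply, map_sum]
  apply Finset.sum_congr rfl
  intro i _
  rw [map_smul, LinearMap.comp_apply, Algebra.linearMap_apply, ← Algebra.smul_def]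

lemma sum_S_ra_mul (f : H →ₗ[k] k) (y : H) :
    ∑ i ∈ (ℛ k y).index, antipode k (ra f ((ℛ k y).left i)) * (ℛ k y).right i = f y • (1 : H) := by
  have h1 : toConv (antipode k ∘ₗ ra f) * toConv (LinearMap.id (R := k) (M := H)) =
      toConv (Algebra.linearMap k H ∘ₗ f) := by
    rw [conv_S_ra, mul_assoc, LinearMap.antipode_mul_id, mul_one]
  have h2 := congrArg (fun F => F y) h1
  simp only [cv_apply] at h2
  rw [Algebra.smul_def, mul_one]
  exact h2

end basic

variable {k : Type u} [Field k] [IsAlgClosed k] [CharZero k] {H : Type v} [Ring H] [HopfAlgebra k H]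
  [FiniteDimensional k H] {I : Type} [Fintype I] [DecidableEq I] {d : I → ℕ} (e : H ≃ₐ[k] Bl k d)
  [∀ i, NeZero (d i)] {L : H} (hL : IsInt k L)

/-- the trace of a twisted intertwiner vanishes -/
lemma trace_intertwiner_eq_zero (hSS : ∀ y : H, antipode k (antipode k y) = y) {V : Type w}
    [AddCommGroup V] [Module k V] (r : H →ₐ[k] End k V) (F : H →ₐ[k] k) (u : End k V)
    (hu : ∀ y, u * r y = r (raHom F y) * u) (hF : toConv F.toLinearMap ≠ (1 : WithConv (H →ₗ[k] k))) :
    LinearMap.trace k V u = 0 := by
  have hz : ∃ z, F z ≠ counit (R := k) z := by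
    by_contra hcon
    push Not at hcon
    apply hF
    apply WithConv.ext
    ext z
    exact hcon z
  obtain ⟨z, hz⟩ := hz
  have hpsi : ∀ x y, LinearMap.trace k V (r (y * raHom F x) * u) =
      LinearMap.trace k V (r (x * y) * u) := by
    intro x y
    rw [map_mul r, mul_assoc, ← hu, ← mul_assoc, LinearMap.trace_mul_comm, ← mul_assoc,
      ← map_mul r]
  have h1 : ∑ i ∈ (ℛ k z).index, LinearMap.trace k V
      (r ((ℛ k z).left i * antipode k ((ℛ k z).right i)) * u) =
      counit (R := k) z * LinearMap.trace k V u := by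
    rw [← map_sum, ← Finset.sum_mul, ← map_sum, sum_mul_antipode_eq_smul, map_smul, map_one,
      smul_mul_assoc, one_mul, map_smul, smul_eq_mul]
  have h2 : ∑ i ∈ (ℛ k z).index, antipode k ((ℛ k z).right i) * raHom F ((ℛ k z).left i) =
      F z • (1 : H) := by
    have h3 := congrArg (antipode k) (sum_S_ra_mul F.toLinearMap z)
    simp only [map_sum, antipode_mul_antidistrib, hSS, map_smul, antipode_one] at h3
    simp only [raHom_apply]
    exact h3
  have h3 : ∑ i ∈ (ℛ k z).index, LinearMap.trace k V
      (r (antipode k ((ℛ k z).right i) * raHom F ((ℛ k z).left i)) * u) =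
      F z * LinearMap.trace k V u := by
    rw [← map_sum, ← Finset.sum_mul, ← map_sum, h2, map_smul, map_one, smul_mul_assoc, one_mul,
      map_smul, smul_eq_mul]
  simp only [hpsi] at h3
  rw [h1] at h3
  have h4 : (F z - counit (R := k) z) * LinearMap.trace k V u = 0 := by
    rw [sub_mul, ← h3, sub_self]
  rcases mul_eq_zero.1 h4 with h5 | h5
  · exact absurd (sub_eq_zero.1 h5) hz
  · exact h5

omit [IsAlgClosed k] [CharZero k] [FiniteDimensional k H] [Fintype I] in
/-- the twisted intertwiner -/
lemma exists_intertwiner [CharZero k] (F : H →ₐ[k] k) (j : I) (h : toConv F.toLinearMap * X e j = X e j) :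
    ∃ u : End k (Fin (d j) → k), IsUnit u ∧ ∀ y, u * rep e j y = rep e j (raHom F y) * u := by
  let r : H →ₐ[k] End k (Fin (d j) → k) := (rep e j).comp (raHom F)
  have hchi : ∀ y, chi r y = ch e j y := by
    intro y
    have h1 : chi r y = chi (rep e j) (ra F.toLinearMap y) := by
      change LinearMap.trace k _ (rep e j (raHom F y)) = _
      rw [raHom_apply]; rfl
    rw [h1, chi_rep, apply_ra]
    exact congrArg (fun f => f y) h
  have h1 : r (En e j) ≠ 0 := by
    intro h0
    have h2 := hchi (En e j)
    have h3 : chi r (En e j) = 0 := by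
      change LinearMap.trace k _ (r (En e j)) = 0
      rw [h0, map_zero]
    rw [h3, ch_En, if_pos rfl] at h2
    exact zero_ne_one h2
  obtain ⟨v0, hv0⟩ : ∃ v0, r (En e j) v0 ≠ 0 := by
    by_contra hcon
    push Not at hcon
    exact h1 (LinearMap.ext hcon)
  set w := r (En e j) v0 with hw
  have hw1 : r (En e j) w = w := by
    rw [hw, ← Module.End.mul_apply, ← map_mul, En_idem]
  have hinj := intw_inj e r j hw1 hv0
  let u : End k (Fin (d j) → k) := intw e r j w
  refine ⟨u, ?_, ?_⟩
  · rw [Module.End.isUnit_iff]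
    exact ⟨hinj, LinearMap.surjective_of_injective hinj⟩
  · intro y
    apply LinearMap.ext
    intro c
    rw [Module.End.mul_apply, Module.End.mul_apply]
    exact intw_comm e r j w y c

omit [IsAlgClosed k] [CharZero k] [FiniteDimensional k H] [Fintype I] [∀ i, NeZero (d i)] in
lemma rep_scalar_of_comm (j : I) (M : End k (Fin (d j) → k))
    (hM : ∀ h, rep e j h * M = M * rep e j h) : ∃ s : k, M = s • 1 := by
  obtain ⟨s, hs⟩ := rho_scalar_of_comm e j (LinearMap.toMatrix' M) (by
    intro h
    have h1 := congrArg LinearMap.toMatrix' (hM h)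
    rw [Module.End.mul_eq_comp, Module.End.mul_eq_comp, LinearMap.toMatrix'_comp,
      LinearMap.toMatrix'_comp] at h1
    have h2 : LinearMap.toMatrix' (rep e j h) = rho e j h := LinearMap.toMatrix'_toLin' _
    rwa [h2] at h1)
  refine ⟨s, ?_⟩
  have h1 := congrArg Matrix.toLin' hs
  rw [Matrix.toLin'_toMatrix', map_smul, Matrix.toLin'_one] at h1
  exact h1

omit [IsAlgClosed k] [CharZero k] in
/-- an algebra homomorphism `H → k` has finite order for the convolution -/
lemma exists_pow_eq_one (F : H →ₐ[k] k) : ∃ m : ℕ, 0 < m ∧ (toConv F.toLinearMap) ^ m = 1 := by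
  have hfin : Set.Finite {f : H →ₗ[k] k | ∃ G : H →ₐ[k] k, G.toLinearMap = f} := by
    have h1 : LinearIndependent k (fun G : H →ₐ[k] k => (G.toLinearMap : H →ₗ[k] k)) := by
      have h2 := linearIndependent_monoidHom H k
      have h3 : LinearIndependent k (fun G : H →ₐ[k] k => (⇑(G : H →* k) : H → k)) :=
        h2.comp (fun G : H →ₐ[k] k => (G : H →* k)) (fun G G' h => by
          ext y; exact congrArg (fun z : H →* k => z y) h)
      exact LinearIndependent.of_comp (LinearMap.ltoFun k H k k) h3
    have h4 := h1.finite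
    apply Set.Finite.subset (Set.finite_range (fun G : H →ₐ[k] k => (G.toLinearMap : H →ₗ[k] k)))
    rintro f ⟨G, rfl⟩
    exact ⟨G, rfl⟩
  set f : WithConv (H →ₗ[k] k) := toConv F.toLinearMap with hf
  have hinf : ¬ Function.Injective (fun n : ℕ => (f ^ n).ofConv) := by
    intro hinj
    have : Set.Infinite (Set.range (fun n : ℕ => (f ^ n).ofConv)) :=
      Set.infinite_range_of_injective hinj
    apply this
    apply hfin.subset
    rintro _ ⟨n, rfl⟩
    obtain ⟨G, hG⟩ := exists_pow_hom F n
    exact ⟨G, congrArg ofConv hG⟩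
  have hu : IsUnit f := ⟨⟨f, toConv (F.toLinearMap ∘ₗ antipode k), conv_mul_S F, conv_S_mul F⟩, rfl⟩
  rw [Function.not_injective_iff] at hinf
  obtain ⟨a, b, hab, hne⟩ := hinf
  have hab' : f ^ a = f ^ b := WithConv.ext hab
  clear hab
  wlog hlt : a < b generalizing a b
  · exact this b a hne.symm hab'.symm (by omega)
  refine ⟨b - a, by omega, ?_⟩
  have h1 : f ^ a * f ^ (b - a) = f ^ a * 1 := by
    rw [← pow_add, mul_one, Nat.add_sub_cancel' hlt.le]; exact hab'.symm
  exact (hu.pow a).mul_left_cancel h1

include hL in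
/-- if a one-dimensional character stabilises an irreducible character of degree `d`, then its
`d`-th power is trivial -/
theorem IsInt.stab (F : H →ₐ[k] k) (j : I) (h : toConv F.toLinearMap * X e j = X e j) :
    (toConv F.toLinearMap) ^ (d j) = 1 := by
  classical
  obtain ⟨m0, hm0, hm0'⟩ := exists_pow_eq_one F
  set f : WithConv (H →ₗ[k] k) := toConv F.toLinearMap with hf
  set m := orderOf f with hm
  have hmpos : 0 < m := orderOf_pos_iff.2 (isOfFinOrder_iff_pow_eq_one.2 ⟨m0, hm0, hm0'⟩)
  obtain ⟨u, huu, hu⟩ := exists_intertwiner e F j h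
  -- powers of u
  have hpow : ∀ a : ℕ, ∀ G : H →ₐ[k] k, toConv G.toLinearMap = f ^ a →
      ∀ y, u ^ a * rep e j y = rep e j (raHom G y) * u ^ a := by
    intro a
    induction a with
    | zero =>
      intro G hG y
      have : raHom G y = y := by
        rw [raHom_apply]
        have : G.toLinearMap = counit (R := k) := by
          have h2 : toConv G.toLinearMap = toConv (counit (R := k) (A := H)) := by
            rw [hG, pow_zero, one_eq_counit]
          exact congrArg ofConv h2
        rw [this, ra_counit]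
      rw [this, pow_zero, one_mul, mul_one]
    | succ a ih =>
      intro G hG y
      obtain ⟨G', hG'⟩ := exists_pow_hom F a
      have h1 := ih G' hG'
      have h2 : raHom G y = raHom F (raHom G' y) := by
        rw [raHom_apply, raHom_apply, raHom_apply]
        have h3 : G.toLinearMap = (toConv G'.toLinearMap * toConv F.toLinearMap).ofConv := by
          rw [hG', ← hf, ← pow_succ, ← hG]
        rw [h3, ra_mul]
      rw [h2, pow_succ', mul_assoc, h1, ← mul_assoc, hu, mul_assoc]
  have htr : ∀ a : ℕ, 0 < a → a < m → LinearMap.trace k _ (u ^ a) = 0 := by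
    intro a ha ham
    obtain ⟨G, hG⟩ := exists_pow_hom F a
    apply trace_intertwiner_eq_zero (hL.SS e) (rep e j) G (u ^ a) (hpow a G hG)
    rw [hG]
    intro h1
    have h2 : m ≤ a := by rw [hm]; exact orderOf_le_of_pow_eq_one ha h1
    omega
  obtain ⟨s, hs⟩ := rep_scalar_of_comm e j (u ^ m) (by
    intro y
    have h1 := hpow m (Bialgebra.counitAlgHom k H) (by
      rw [hm, pow_orderOf_eq_one]; rfl) y
    have h2 : raHom (Bialgebra.counitAlgHom k H) y = y := by
      rw [raHom_apply]; exact ra_counit y
    rw [h2] at h1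
    exact h1.symm)
  have hs0 : s ≠ 0 := by
    rintro rfl
    rw [zero_smul] at hs
    have h1 := huu.pow m
    rw [hs] at h1
    have : (0 : End k (Fin (d j) → k)) ≠ 1 := zero_ne_one
    exact h1.ne_zero rfl
  obtain ⟨r, hr⟩ := IsAlgClosed.exists_pow_nat_eq s hmpos
  have hr0 : r ≠ 0 := by
    rintro rfl
    rw [zero_pow hmpos.ne'] at hr
    exact hs0 hr.symm
  set U : End k (Fin (d j) → k) := r⁻¹ • u with hU
  have hUm : U ^ m = 1 := by
    rw [hU, smul_pow, hs, smul_smul, inv_pow, hr, inv_mul_cancel₀ hs0, one_smul]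
  set Sg : End k (Fin (d j) → k) := ∑ a ∈ Finset.range m, U ^ a with hSg
  have hUS : U * Sg = Sg := by
    have h1 := mul_geom_sum U m
    rw [hUm, sub_self, sub_mul, one_mul] at h1
    exact sub_eq_zero.1 h1
  have hUaS : ∀ a : ℕ, U ^ a * Sg = Sg := by
    intro a
    induction a with
    | zero => simp
    | succ a ih => rw [pow_succ, mul_assoc, hUS, ih]
  have hSS : Sg * Sg = (m : k) • Sg := by
    calc Sg * Sg = ∑ a ∈ Finset.range m, U ^ a * Sg := by rw [← Finset.sum_mul]
      _ = (m : k) • Sg := by
        simp only [hUaS, Finset.sum_const, Finset.card_range]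
        rw [Nat.cast_smul_eq_nsmul]
  have hmk : (m : k) ≠ 0 := by exact_mod_cast hmpos.ne'
  obtain ⟨c, hc⟩ := trace_idem_nat ((m : k)⁻¹ • Sg) (by
    rw [smul_mul_smul_comm, hSS, smul_smul]
    congr 1
    field_simp)
  have htrS : LinearMap.trace k _ Sg = (d j : k) := by
    rw [hSg, map_sum, Finset.sum_eq_single 0]
    · rw [pow_zero, LinearMap.trace_one]
      simp
    · intro a ha ha0
      rw [hU, smul_pow, map_smul, htr a (Nat.pos_of_ne_zero ha0) (Finset.mem_range.1 ha), smul_zero]
    · intro h0
      exact absurd (Finset.mem_range.2 hmpos) h0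
  rw [map_smul, htrS, smul_eq_mul] at hc
  have h3 : (d j : k) = ((m * c : ℕ) : k) := by
    push_cast
    rw [← hc]; field_simp
  have h4 : d j = m * c := by exact_mod_cast h3
  rw [h4, pow_mul, hm, pow_orderOf_eq_one, one_pow]

end Run7.h2
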