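import Pool.Agent.Run7.h2.LR

/-!
Structure of semisimple algebras with respect to a Wedderburn decomposition.
-/

namespace Run7.h2

open Coalgebra HopfAlgebra TensorProduct WithConv Module

universe u v w x

section alg

variable {k : Type u} [Field k] {H : Type v} [Ring H] [Algebra k H]
  {I : Type} [Fintype I] [DecidableEq I] {d : I → ℕ} (e : H ≃ₐ[k] Bl k d)

/-- the `i`-th irreducible matrix representation -/
noncomputable def rho (i : I) : H →ₐ[k] Matrix (Fin (d i)) (Fin (d i)) k :=
  (Pi.evalAlgHom k _ i).comp e.toAlgHom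

omit [Fintype I] [DecidableEq I] in
lemma rho_apply (i : I) (h : H) : rho e i h = e h i := rfl

/-- the `i`-th irreducible character -/
noncomputable def ch (i : I) : H →ₗ[k] k := (Matrix.traceLinearMap (Fin (d i)) k k) ∘ₗ (rho e i).toLinearMap

omit [Fintype I] [DecidableEq I] in
lemma ch_apply (i : I) (h : H) : ch e i h = (rho e i h).trace := rfl

/-- matrix units -/
noncomputable def mu (i : I) (p q : Fin (d i)) : H := e.symm (Pi.single i (Matrix.single p q 1))

omit [Fintype I] in
lemma rho_mu (i : I) (p q : Fin (d i)) : rho e i (mu e i p q) = Matrix.single p q 1 := by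
  simp [rho_apply, mu]

omit [Fintype I] in
lemma rho_mu_ne {i j : I} (h : j ≠ i) (p q : Fin (d i)) : rho e j (mu e i p q) = 0 := by
  simp [rho_apply, mu, Pi.single_eq_of_ne h]

omit [Fintype I] [DecidableEq I] in
lemma ext_rho {a b : H} (h : ∀ i, rho e i a = rho e i b) : a = b := by
  apply e.injective
  funext i
  exact h i

omit [Fintype I] in
lemma mu_mul_ne {i j : I} (h : i ≠ j) (p q : Fin (d i)) (r s : Fin (d j)) :
    mu e i p q * mu e j r s = 0 := by
  apply ext_rho e
  intro l
  rw [map_mul, map_zero]
  by_cases hl : l = i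
  · subst hl
    rw [rho_mu_ne e h, mul_zero]
  · rw [rho_mu_ne e hl, zero_mul]

omit [Fintype I] in
lemma mu_mul (i : I) (p q r : Fin (d i)) : mu e i p q * mu e i q r = mu e i p r := by
  apply ext_rho e
  intro l
  rw [map_mul]
  by_cases hl : l = i
  · subst hl
    simp [rho_mu]
  · rw [rho_mu_ne e hl, rho_mu_ne e hl, rho_mu_ne e hl, zero_mul]

omit [Fintype I] in
lemma mu_mul_zero (i : I) {p q r s : Fin (d i)} (h : q ≠ r) : mu e i p q * mu e i r s = 0 := by
  apply ext_rho e
  intro l
  rw [map_mul, map_zero]
  by_cases hl : l = i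
  · subst hl
    simp [rho_mu, h]
  · rw [rho_mu_ne e hl, rho_mu_ne e hl, zero_mul]

omit [Fintype I] in
lemma mul_mu (i : I) (h : H) (p q : Fin (d i)) :
    h * mu e i p q = ∑ r, (rho e i h) r p • mu e i r q := by
  apply ext_rho e
  intro l
  rw [map_mul, map_sum]
  simp only [map_smul]
  by_cases hl : l = i
  · subst hl
    simp only [rho_mu]
    ext a b
    simp [Matrix.sum_apply, Matrix.mul_apply, Matrix.single_apply, ite_and]
  · simp [rho_mu_ne e hl]

lemma sum_mu (h : H) : h = ∑ i, ∑ p, ∑ q, (rho e i h) p q • mu e i p q := by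
  apply ext_rho e
  intro l
  rw [map_sum, Finset.sum_eq_single l]
  · simp only [map_sum, map_smul, rho_mu]
    conv_lhs => rw [Matrix.matrix_eq_sum_single (rho e l h)]
    simp [Matrix.smul_single]
  · intro i _ hi
    simp [rho_mu_ne e (Ne.symm hi)]
  · simp

variable [∀ i, NeZero (d i)]

/-- a primitive idempotent of the `i`-th block -/
noncomputable def En (i : I) : H := mu e i 0 0

omit [Fintype I] in
lemma En_idem (i : I) : En e i * En e i = En e i := mu_mul e i 0 0 0

omit [Fintype I] in
lemma ch_En (i j : I) : ch e i (En e j) = if i = j then 1 else 0 := by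
  rw [ch_apply]
  split_ifs with h
  · subst h; rw [En, rho_mu, Matrix.trace_single_eq_same]
  · rw [En, rho_mu_ne e h, Matrix.trace_zero]

/-- a trace functional is determined by its values on the primitive idempotents -/
lemma trace_functional (t : H →ₗ[k] k) (ht : ∀ a b, t (a * b) = t (b * a)) :
    t = ∑ i, t (En e i) • ch e i := by
  have h1 : ∀ i (p q : Fin (d i)), t (mu e i p q) = if p = q then t (En e i) else 0 := by
    intro i p q
    rw [← mu_mul e i p 0 q, ht]
    split_ifs with h
    · subst h; rw [mu_mul]; rfl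
    · rw [mu_mul_zero e i (Ne.symm h), map_zero]
  ext h
  conv_lhs => rw [sum_mu e h]
  simp only [map_sum, map_smul, h1, LinearMap.sum_apply, LinearMap.smul_apply, smul_eq_mul]
  apply Finset.sum_congr rfl
  intro i _
  rw [ch_apply, Matrix.trace, Finset.mul_sum]
  apply Finset.sum_congr rfl
  intro p _
  simp [mul_comm]

/-- linear independence in coordinates -/
lemma ch_coord (m : I → k) (j : I) : (∑ i, m i • ch e i) (En e j) = m j := by
  simp [LinearMap.sum_apply, ch_En]

end alg

section rep

variable {k : Type u} [Field k] {H : Type v} [Ring H] [Algebra k H]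
  {I : Type} [Fintype I] [DecidableEq I] {d : I → ℕ} (e : H ≃ₐ[k] Bl k d) [∀ i, NeZero (d i)]
  {V : Type w} [AddCommGroup V] [Module k V]

/-- the map `k^d → V` attached to a vector of `E V` -/
noncomputable def intw (r : H →ₐ[k] End k V) (i : I) (w : V) : (Fin (d i) → k) →ₗ[k] V where
  toFun c := ∑ p, c p • r (mu e i p 0) w
  map_add' a b := by simp [add_smul, Finset.sum_add_distrib]
  map_smul' c a := by simp [mul_smul, Finset.smul_sum]

omit [Fintype I] in
lemma intw_comm (r : H →ₐ[k] End k V) (i : I) (w : V) (h : H) (c : Fin (d i) → k) :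
    intw e r i w ((rho e i h).mulVec c) = r h (intw e r i w c) := by
  simp only [intw, LinearMap.coe_mk, AddHom.coe_mk, map_sum, map_smul]
  have h1 : ∀ p : Fin (d i), r h (r (mu e i p 0) w) = ∑ q, (rho e i h) q p • r (mu e i q 0) w := by
    intro p
    rw [← Module.End.mul_apply, ← map_mul, mul_mu]
    simp
  simp only [h1, Finset.smul_sum, smul_smul]
  rw [Finset.sum_comm]
  apply Finset.sum_congr rfl
  intro q _
  rw [← Finset.sum_smul]
  congr 1
  simp only [Matrix.mulVec, dotProduct]
  apply Finset.sum_congr rfl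
  intro p _
  ring

omit [Fintype I] in
lemma intw_inj (r : H →ₐ[k] End k V) (i : I) {w : V} (hw : r (En e i) w = w) (hw0 : w ≠ 0) :
    Function.Injective (intw e r i w) := by
  rw [← LinearMap.ker_eq_bot, LinearMap.ker_eq_bot']
  intro c hc
  funext q
  have h1 := congrArg (r (mu e i 0 q)) hc
  simp only [intw, LinearMap.coe_mk, AddHom.coe_mk, map_sum, map_smul, map_zero] at h1
  rw [Finset.sum_eq_single q] at h1
  · rw [← Module.End.mul_apply, ← map_mul, mu_mul] at h1
    change c q • r (En e i) w = 0 at h1
    rw [hw] at h1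
    rcases smul_eq_zero.1 h1 with h2 | h2
    · exact h2
    · exact absurd h2 hw0
  · intro p _ hp
    rw [← Module.End.mul_apply, ← map_mul, mu_mul_zero e i (Ne.symm hp), map_zero]
    simp
  · simp

/-- some primitive idempotent acts nontrivially -/
lemma exists_En_ne (r : H →ₐ[k] End k V) [Nontrivial V] : ∃ i, r (En e i) ≠ 0 := by
  by_contra hcon
  push Not at hcon
  have h1 : ∀ i (p q : Fin (d i)), r (mu e i p q) = 0 := by
    intro i p q
    rw [← mu_mul e i p 0 q, ← mu_mul e i p 0 0, map_mul, map_mul]
    have : r (mu e i 0 0) = 0 := hcon i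
    rw [this, mul_zero, zero_mul]
  have h2 : r 1 = 0 := by
    rw [sum_mu e 1]
    simp [h1]
  rw [map_one] at h2
  exact one_ne_zero h2

end rep

end Run7.h2
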